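import Pool.Agent.Strip051.FourB.Defs
import Pool.Agent.Strip051.Four.LowD

/-! # Real inequalities for the new point between `h0` and `h0 + s / 2` -/

namespace Pool.Agent.Strip051.FourB

open Pool.Agent.StripNear Pool.Agent.StripSquare Pool.Agent.Strip051
open Pool.Agent.Strip051.Four.Low (ph ph_mono ph_nonneg ph_neg ph_zero ph_hi2 h0_hi h0_lo
  beta_mono g_half_eq)

/-- A difference of values of the unit arc. -/
theorem high_ph_sub {x y : ℝ} (hx : x ^ 2 ≤ 1) (hy : y ^ 2 ≤ 1) :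
    (ph y - ph x) * (g y + g x) = (y - x) * (y + x) := by
  have gx := g_sq hx
  have gy := g_sq hy
  unfold Four.Low.ph
  linear_combination gx - gy

theorem high_g_drop {d1 d2 : ℝ} (h1 : 0 ≤ d1) (h2 : d1 ≤ d2) (h3 : d2 ≤ 1) :
    (d2 ^ 2 - d1 ^ 2) / 2 ≤ ph d2 - ph d1 := by
  have e := high_ph_sub (x := d1) (y := d2) (by linear_combination h2 + h3 + (mul_nonneg (sub_nonneg.mpr h1) (sub_nonneg.mpr h2)) +
    (mul_nonneg (sub_nonneg.mpr h1) (sub_nonneg.mpr h3))) (by linear_combination h3 + (mul_nonneg (sub_nonneg.mpr h1) (sub_nonneg.mpr h3)) + (mul_nonneg (sub_nonneg.mpr h2) (sub_nonneg.mpr h3)))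
  have m := ph_mono h1 h2
  have g1 := g_le_one d1
  have g2 := g_le_one d2
  have k : (ph d2 - ph d1) * (g d2 + g d1) ≤ (ph d2 - ph d1) * 2 :=
    mul_le_mul_of_nonneg_left (by linear_combination g1 + g2) (by linear_combination m)
  linear_combination -(1 / 2) * e + (1 / 2) * k

/-- An upper bound for a difference. -/
theorem high_ph_up {x y G : ℝ} (h1 : 0 ≤ x) (h2 : x ≤ y) (h3 : y ≤ 1)
    (h4 : G ≤ g y) : (ph y - ph x) * (2 * G) ≤ (y - x) * (y + x) := by
  have e := high_ph_sub (x := x) (y := y) (by linear_combination h2 + h3 + (mul_nonneg (sub_nonneg.mpr h1) (sub_nonneg.mpr h2)) +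
    (mul_nonneg (sub_nonneg.mpr h1) (sub_nonneg.mpr h3))) (by linear_combination h3 + (mul_nonneg (sub_nonneg.mpr h1) (sub_nonneg.mpr h3)) + (mul_nonneg (sub_nonneg.mpr h2) (sub_nonneg.mpr h3)))
  have m := ph_mono h1 h2
  have g1 := g_anti h1 h2
  have k : (ph y - ph x) * (2 * G) ≤ (ph y - ph x) * (g y + g x) :=
    mul_le_mul_of_nonneg_left (by linear_combination 2 * h4 + g1) (by linear_combination m)
  linear_combination e + k

/-- The second difference of the unit arc near the top. -/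
theorem high_four_up {z x e : ℝ} (hz : 0 ≤ z) (hzx : z ≤ x) (he : 0 ≤ e)
    (hw : x + e ≤ 97 / 200) :
    (ph (x + e) - ph x) - (ph (z + e) - ph z) ≤ 3 / 2 * (e * (x - z)) := by
  have hG : (8745 / 10000 : ℝ) ≤ g (x + e) := by
    have h1 := g_sq (r := x + e) (by linear_combination (97 / 200) * hw + (mul_nonneg (sub_nonneg.mpr hz) (sub_nonneg.mpr hw)) +
      (mul_nonneg (sub_nonneg.mpr hzx) (sub_nonneg.mpr hw)) + (mul_nonneg (sub_nonneg.mpr he) (sub_nonneg.mpr hw)))
    have h2 : ((8745 / 10000 : ℝ)) ^ 2 ≤ g (x + e) ^ 2 := by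
      rw [h1]
      linear_combination (97 / 200) * hw + (mul_nonneg (sub_nonneg.mpr hz) (sub_nonneg.mpr hw)) +
        (mul_nonneg (sub_nonneg.mpr hzx) (sub_nonneg.mpr hw)) + (mul_nonneg (sub_nonneg.mpr he) (sub_nonneg.mpr hw))
    exact abs_le_of_sq_le_sq' h2 (g_nonneg _) |>.2
  have g1 : (8745 / 10000 : ℝ) ≤ g x := hG.trans (g_anti (by linear_combination hz + hzx) (by linear_combination he))
  have g2 : (8745 / 10000 : ℝ) ≤ g (z + e) := hG.trans (g_anti (by linear_combination hz + he) (by linear_combination hzx))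
  have g3 : (8745 / 10000 : ℝ) ≤ g z := hG.trans (g_anti (by linear_combination hz) (by linear_combination hzx + he))
  have eA := high_ph_sub (x := x) (y := x + e) (by linear_combination (97 / 200) * he + (97 / 200) * hw + (mul_nonneg (sub_nonneg.mpr hz) (sub_nonneg.mpr he)) +
    (mul_nonneg (sub_nonneg.mpr hz) (sub_nonneg.mpr hw)) + (mul_nonneg (sub_nonneg.mpr hzx) (sub_nonneg.mpr he)) +
    (mul_nonneg (sub_nonneg.mpr hzx) (sub_nonneg.mpr hw))) (by linear_combination (97 / 200) * hw + (mul_nonneg (sub_nonneg.mpr hz) (sub_nonneg.mpr hw)) +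
    (mul_nonneg (sub_nonneg.mpr hzx) (sub_nonneg.mpr hw)) + (mul_nonneg (sub_nonneg.mpr he) (sub_nonneg.mpr hw)))
  have eB := high_ph_sub (x := z) (y := z + e) (by linear_combination (97 / 200) * hzx + (97 / 200) * he + (97 / 200) * hw + (mul_nonneg (sub_nonneg.mpr hz) (sub_nonneg.mpr hzx)) +
    (mul_nonneg (sub_nonneg.mpr hz) (sub_nonneg.mpr he)) + (mul_nonneg (sub_nonneg.mpr hz) (sub_nonneg.mpr hw))) (by linear_combination (97 / 200) * hzx + (97 / 200) * hw + (mul_nonneg (sub_nonneg.mpr hz) (sub_nonneg.mpr hzx)) +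
    (mul_nonneg (sub_nonneg.mpr hz) (sub_nonneg.mpr hw)) + (mul_nonneg (sub_nonneg.mpr hzx) (sub_nonneg.mpr he)) +
    (mul_nonneg (sub_nonneg.mpr he) (sub_nonneg.mpr hw)))
  have eC := high_ph_up (x := z) (y := x) (G := 8745 / 10000) hz hzx (by linear_combination he + hw) g1
  have eD := high_ph_up (x := z + e) (y := x + e) (G := 8745 / 10000) (by linear_combination hz + he) (by linear_combination hzx)
    (by linear_combination hw) hG
  have eE := high_ph_up (x := z) (y := z + e) (G := 8745 / 10000) hz (by linear_combination he)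
    (by linear_combination hzx + hw) g2
  obtain ⟨A, hA⟩ : ∃ A, A = ph (x + e) - ph x := ⟨_, rfl⟩
  obtain ⟨B, hB⟩ : ∃ B, B = ph (z + e) - ph z := ⟨_, rfl⟩
  rw [← hA] at eA ⊢
  rw [← hB] at eB eE ⊢
  have hB0 : 0 ≤ B := by
    rw [hB]
    linarith [ph_mono hz (by linear_combination he : z ≤ z + e)]
  obtain ⟨d, hd⟩ : ∃ d, d = x - z := ⟨_, rfl⟩
  have hd0 : 0 ≤ d := by linear_combination hzx - hd
  -- the difference of the two denominators
  obtain ⟨D, hD⟩ : ∃ D, D = (g (z + e) + g z) - (g (x + e) + g x) := ⟨_, rfl⟩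
  have hD1 : D = (ph x - ph z) + (ph (x + e) - ph (z + e)) := by
    rw [hD]
    unfold Four.Low.ph
    ring
  have hD2 : D * (1749 / 1000) ≤ d * (194 / 100) := by
    have k1 : (x - z) * (x + z) ≤ d * (x + z) := by rw [hd]
    have k2 : (x + e - (z + e)) * (x + e + (z + e)) = d * (x + z + 2 * e) := by
      rw [hd]
      ring
    rw [k2] at eD
    have k3 : d * (x + z + e) ≤ d * (97 / 100) :=
      mul_le_mul_of_nonneg_left (by linear_combination hzx + he + 2 * hw) hd0
    rw [hD1]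
    linear_combination eC + eD + k1 + 2 * k3
  have hD0 : 0 ≤ D := by
    rw [hD1]
    have := ph_mono hz hzx
    have := ph_mono (by linear_combination hz + he : 0 ≤ z + e) (by linear_combination hzx : z + e ≤ x + e)
    linear_combination this + (‹ph z ≤ ph x›)
  have hB2 : B * (1749 / 1000) ≤ e * (97 / 100) := by
    have k2 : (z + e - z) * (z + e + z) = e * (2 * z + e) := by ring
    rw [k2] at eE
    have k3 : e * (2 * z + e) ≤ e * (97 / 100) := mul_le_mul_of_nonneg_left (by linear_combination 2 * hzx + he + 2 * hw) he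
    linear_combination eE + k3
  have k4 : (A - B) * (g (x + e) + g x) = 2 * (e * d) + B * D := by
    have : (A - B) * (g (x + e) + g x) = A * (g (x + e) + g x) - B * (g (z + e) + g z)
        + B * ((g (z + e) + g z) - (g (x + e) + g x)) := by ring
    rw [this, eA, eB, ← hD, hd]
    ring
  have k5 : (B * (1749 / 1000)) * (D * (1749 / 1000)) ≤ (e * (97 / 100)) * (d * (194 / 100)) :=
    mul_le_mul hB2 hD2 (by positivity) (by positivity)
  by_contra hcon
  push Not at hcon
  rw [← hd] at hcon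
  have hed : 0 ≤ e * d := mul_nonneg he hd0
  have k6 : (A - B) * (1749 / 1000) ≤ (A - B) * (g (x + e) + g x) :=
    mul_le_mul_of_nonneg_left (by linear_combination hG + g1) (by linear_combination hcon + (3 / 2) * hed)
  exact absurd k5 (not_le.mpr (by linear_combination (3059001 / 1000000) * k4 + (5350192749 / 1000000000) * hcon + (50974247 / 2000000000) * hed + (3059001 / 1000000) * k6))

/-- The gain of the wall probe is smallest when the lower disc touches the wall. -/
theorem high_V {t d1 d2 m : ℝ} (h1 : 0 ≤ d1) (h2 : d1 ≤ d2) (h3 : d2 ≤ t) (h4 : t ≤ 97 / 200)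
    (hm : t - d2 / 2 ≤ m) :
    ph t + ph (t - d2) - ph d2 ≤ ph (m + d1 / 2) + ph (m - d1 / 2) - ph d1 := by
  have e1 := high_four_up (z := t - d2) (x := t - d2 / 2 + d1 / 2) (e := (d2 - d1) / 2)
    (by linear_combination h3) (by linear_combination h1 + (1 / 2) * h2) (by linear_combination (1 / 2) * h2) (by linear_combination h4)
  rw [show t - d2 / 2 + d1 / 2 + (d2 - d1) / 2 = t by ring,
    show t - d2 + (d2 - d1) / 2 = t - d2 / 2 - d1 / 2 by ring] at e1
  have e2 := high_g_drop h1 h2 (by linear_combination h3 + h4)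
  have e3 := ph_mono (a := t - d2 / 2 + d1 / 2) (b := m + d1 / 2) (by linear_combination h1 + (1 / 2) * h2 + h3) (by linear_combination hm)
  have e4 := ph_mono (a := t - d2 / 2 - d1 / 2) (b := m - d1 / 2) (by linear_combination (1 / 2) * h2 + h3) (by linear_combination hm)
  linear_combination e1 + e2 + e3 + e4 + (1 / 4) * (mul_nonneg (sub_nonneg.mpr h1) (sub_nonneg.mpr h2)) +
    (1 / 8) * (mul_nonneg (sub_nonneg.mpr h2) (sub_nonneg.mpr h2))

/-- `β / 2 - h0 ph β` is strictly increasing. -/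
theorem high_tau_lt {d1 d2 : ℝ} (h1 : 0 ≤ d1) (h2 : d1 < d2) (h3 : d2 ≤ 1 / 2) :
    d1 / 2 - h0 * ph d1 < d2 / 2 - h0 * ph d2 := by
  have hp := h0_pos
  have hq := h0_sq
  have e1 := g_anti (a := d2) (b := 1 / 2) (by linear_combination h1 + h2) h3
  rw [g_half_eq] at e1
  have e2 := high_ph_up (G := h0) h1 h2.le (by linear_combination h3) e1
  have e3 : (d2 - d1) * (d2 + d1) < (d2 - d1) * 1 :=
    mul_lt_mul_of_pos_left (by linear_combination h2 + 2 * h3) (by linear_combination h2)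
  linear_combination (1 / 2) * e2 + (1 / 2) * e3

section

variable {s t a : ℝ}

theorem high_facts (P : Par s t a) : 1 / 2 ≤ g s ∧ g s ≤ 677 / 1000 ∧ s ^ 2 = 1 - g s ^ 2 ∧
    t ^ 2 = 1 - ((3 + g s) / 4) ^ 2 ∧ t ≤ 4842 / 10000 ∧ 3936 / 10000 ≤ t ∧ ph s = 1 - g s ∧
    ph t = (1 - g s) / 4 := by
  have s1 := P.s_gt
  have s2 := P.s_lt
  have c1 := g_sq (r := s) (by nlinarith)
  have c0 := g_nonneg s
  have e1 : g h0 ≤ g s := g_anti (by linarith) P.s1.le
  rw [g_h0] at e1
  have e2 : g s ≤ 677 / 1000 := by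
    by_contra hcon
    push Not at hcon
    nlinarith
  have t0 := P.t0
  have t1 : t ^ 2 ≤ 1 := by
    have := P.ts
    linear_combination (sq_nonneg (g s)) + c1 + 2 * (mul_nonneg (sub_nonneg.mpr t0) (sub_nonneg.mpr this)) +
      (mul_nonneg (sub_nonneg.mpr this) (sub_nonneg.mpr this))
  have gt := g_sq t1
  rw [P.gt] at gt
  have t2 : t ^ 2 = 1 - ((3 + g s) / 4) ^ 2 := by linear_combination gt
  refine ⟨e1, e2, by linear_combination c1, t2, ?_, ?_, rfl, ?_⟩
  · by_contra hcon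
    push Not at hcon
    exact absurd e1 (not_le.mpr (by linear_combination (2 / 87) * c1 + (280 / 87) * gt + (29052 / 18125) * hcon + (1 / 174) * (mul_nonneg (sub_nonneg.mpr (sq_nonneg (g s))) (sub_nonneg.mpr (ge_of_eq c1))) + (8 / 87) * (mul_nonneg (sub_nonneg.mpr (sq_nonneg (g s))) (sub_nonneg.mpr (le_of_eq gt))) + (1 / 29) * (mul_nonneg (sub_nonneg.mpr (sq_nonneg (s))) (sub_nonneg.mpr e1)) + (8 / 87) * (mul_nonneg (sub_nonneg.mpr (sq_nonneg (s))) (sub_nonneg.mpr (le_of_eq gt))) + (8 / 87) * (mul_nonneg (sub_nonneg.mpr (sq_nonneg (t))) (sub_nonneg.mpr (ge_of_eq c1))) + (16 / 29) * (mul_nonneg (sub_nonneg.mpr (sq_nonneg ((3 + g s) / 4))) (sub_nonneg.mpr e1)) + (96 / 29) * (mul_nonneg (sub_nonneg.mpr t0) (sub_nonneg.mpr (le_of_lt hcon)))))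
  · by_contra hcon
    push Not at hcon
    exact absurd e2 (not_le.mpr (by linear_combination -(16000 / 6677) * gt + (31488 / 33385) * hcon + (1000 / 6677) * (mul_nonneg (sub_nonneg.mpr c0) (sub_nonneg.mpr e2)) + (16000 / 6677) * (mul_nonneg (sub_nonneg.mpr t0) (sub_nonneg.mpr (le_of_lt hcon)))))
  · unfold Four.Low.ph
    rw [P.gt]
    ring

theorem high_w1 {c s t H : ℝ} (c1 : 1 / 2 ≤ c)
    (u1 : 152 / 100 * s ≤ 15776 / 10000 - c ^ 2)
    (u2 : (7 - 6 * c - c ^ 2) / 16 + 19058112 / 100000000 ≤ 8778 / 10000 * t)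
    (v1 : H ≤ 86603 / 400000 * (1 - c)) : 3 / 10 * (s - 1 / 2) ≤ t / 2 - H := by
  linear_combination (710 / 4389) * (mul_self_nonneg (c - 1 / 2)) + (41300081 / 250800000) * c1 +
    (15 / 76) * u1 + (2500 / 4389) * u2 + v1

theorem high_w2 {c s t H : ℝ} (c1 : 1 / 2 ≤ c) (c2 : c ≤ 677 / 1000)
    (u4 : 1 - c ^ 2 + 7361 / 10000 * (8661 / 10000) ≤ 16022 / 10000 * s)
    (u3 : 88 / 100 * t ≤ (7 - 6 * c - c ^ 2) / 16 + 1936 / 10000)
    (v2 : 86602 / 400000 * (1 - c) ≤ H) : t / 2 - H - 3 / 10 * (s - 1 / 2) ≤ 594 / 10000 := by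
  linear_combination (855725 / 5639744) * (mul_nonneg (sub_nonneg.2 c1) (sub_nonneg.2 c2)) +
    (25664277493 / 140993600000) * c2 + (1500 / 8011) * u4 + (25 / 44) * u3 + v2

theorem high_w3 {c s t H : ℝ} (c2 : c ≤ 677 / 1000)
    (u1 : 152 / 100 * s ≤ 15776 / 10000 - c ^ 2)
    (u2 : (7 - 6 * c - c ^ 2) / 16 + 19058112 / 100000000 ≤ 8778 / 10000 * t)
    (v1 : H ≤ 86603 / 400000 * (1 - c)) :
    s - 3 / 10 * (s - 1 / 2) - (t / 2 - H) ≤ 92489 / 100000 - 57 / 100 * c := by
  linear_combination (1865 / 4389) * (sq_nonneg (c - 667 / 1000)) + (427433 / 1755600000) * c2 +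
    (35 / 76) * u1 + (2500 / 4389) * u2 + v1

theorem high_w4 {c : ℝ} (c1 : 1 / 2 ≤ c) (c2 : c ≤ 677 / 1000) :
    ((1 + c) / 2 + 18 / 10000) ^ 2 ≤ 1 - (92489 / 100000 - 57 / 100 * c) ^ 2 := by
  linear_combination (5749 / 10000) * (mul_nonneg (sub_nonneg.2 c1) (sub_nonneg.2 c2)) +
    (1240827 / 10000000) * c2

/-- The end of the curve. -/
theorem high_end (P : Par s t a) {τ : ℝ} (hτ : τ = t / 2 - h0 * ph t) :
    a ≤ τ ∧ ph (τ - a) + ph (s - a - τ) ≤ (1 - g s) / 2 := by
  have s1 := P.s_gt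
  have s2 := P.s_lt
  obtain ⟨c1, c2, hs, ht, t1, t2, -, hpt⟩ := high_facts P
  have ha := P.ha
  obtain ⟨c, hc⟩ : ∃ c, c = g s := ⟨_, rfl⟩
  rw [← hc] at c1 c2 hs ht hpt ⊢
  rw [hpt] at hτ
  have l1 := h0_lo
  have l2 := h0_hi
  have u1 : 152 / 100 * s ≤ 15776 / 10000 - c ^ 2 := by
    linear_combination (sq_nonneg (s - 76 / 100)) + hs
  have u2 : (7 - 6 * c - c ^ 2) / 16 + 19058112 / 100000000 ≤ 8778 / 10000 * t := by
    linear_combination (mul_nonneg (sub_nonneg.2 t2) (sub_nonneg.2 t1)) - ht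
  have u3 : 88 / 100 * t ≤ (7 - 6 * c - c ^ 2) / 16 + 1936 / 10000 := by
    linear_combination (sq_nonneg (t - 44 / 100)) + ht
  have u4 : 1 - c ^ 2 + 7361 / 10000 * (8661 / 10000) ≤ 16022 / 10000 * s := by
    nlinarith [mul_nonneg (sub_nonneg.2 (by linarith : (7361 / 10000 : ℝ) ≤ s))
      (sub_nonneg.2 (by linarith : s ≤ 8661 / 10000))]
  have v1 : h0 * ((1 - c) / 4) ≤ 86603 / 100000 * ((1 - c) / 4) :=
    mul_le_mul_of_nonneg_right l2 (by linear_combination (1 / 4) * c2)
  have v2 : 86602 / 100000 * ((1 - c) / 4) ≤ h0 * ((1 - c) / 4) :=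
    mul_le_mul_of_nonneg_right l1 (by linear_combination (1 / 4) * c2)
  obtain ⟨H, hH⟩ : ∃ H, H = h0 * ((1 - c) / 4) := ⟨_, rfl⟩
  rw [← hH] at v1 v2 hτ
  have v1' : H ≤ 86603 / 400000 * (1 - c) := by linear_combination v1
  have v2' : 86602 / 400000 * (1 - c) ≤ H := by linear_combination v2
  have w1 : a ≤ τ := by
    rw [hτ, ha]
    exact high_w1 c1 u1 u2 v1'
  have w2 : τ - a ≤ 594 / 10000 := by
    rw [hτ, ha]
    exact high_w2 c1 c2 u4 u3 v2'
  have w3 : s - a - τ ≤ 92489 / 100000 - 57 / 100 * c := by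
    rw [hτ, ha]
    exact high_w3 c2 u1 u2 v1'
  refine ⟨w1, ?_⟩
  have w4 : 0 ≤ s - a - τ := by
    have := P.a_lt
    linear_combination (1 / 2) * t1 + ha + (43301 / 200000) * c2 + (3500 / 411) * u1 + (3500 / 411) * u4 +
      hτ + v2
  have x1 : ph (τ - a) ≤ 18 / 10000 := by
    have x2 : (τ - a) ^ 2 ≤ (594 / 10000) ^ 2 := pow_le_pow_left₀ (by linear_combination w1) w2 2
    have x3 : (τ - a) ^ 2 ≤ 3 / 64 := x2.trans (by norm_num)
    have := Four.Low.ph_hi2' x3
    linear_combination (5061 / 10000) * x2 + this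
  have x2 : (1 + c) / 2 + 18 / 10000 ≤ g (s - a - τ) := by
    have x3 : (s - a - τ) ^ 2 ≤ (92489 / 100000 - 57 / 100 * c) ^ 2 := pow_le_pow_left₀ w4 w3 2
    have x4' : (92489 / 100000 - 57 / 100 * c) ^ 2 ≤ 1 := by
      have := high_w4 c1 c2
      have := sq_nonneg ((1 + c) / 2 + 18 / 10000)
      linear_combination (71478 / 15625) * t2 + (15018873 / 5000000) * c1 + (3249 / 625) * u3
    have x4 := g_sq (r := s - a - τ) (x3.trans x4')
    have x5 : ((1 + c) / 2 + 18 / 10000) ^ 2 ≤ g (s - a - τ) ^ 2 := by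
      rw [x4]
      linear_combination (high_w4 c1 c2) + x3
    exact abs_le_of_sq_le_sq' x5 (g_nonneg _) |>.2
  have x3 : ph (s - a - τ) = 1 - g (s - a - τ) := rfl
  linear_combination x1 + x2 + x3

theorem high_g_le {x v V : ℝ} (h1 : 0 ≤ v) (h2 : v ≤ x) (h3 : v ≤ 1) (h4 : 0 ≤ V)
    (h5 : 1 - v ^ 2 ≤ V ^ 2) : g x ≤ V := by
  have e1 := g_anti h1 h2
  have e2 := g_sq (r := v) (by linear_combination h3 + (mul_nonneg (sub_nonneg.mpr h1) (sub_nonneg.mpr h3)))
  have e3 : g v ≤ V := by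
    have : g v ^ 2 ≤ V ^ 2 := by linear_combination h5 + e2
    exact abs_le_of_sq_le_sq' this h4 |>.2
  linear_combination e1 + e3

theorem high_g_ge {x v V : ℝ} (h1 : 0 ≤ x) (h2 : x ≤ v) (h3 : v ≤ 1)
    (h5 : V ^ 2 ≤ 1 - v ^ 2) : V ≤ g x := by
  have e1 := g_anti h1 h2
  have e2 := g_sq (r := v) (by linear_combination (sq_nonneg (V)) + h5)
  have e3 : V ≤ g v := by
    have : V ^ 2 ≤ g v ^ 2 := by linear_combination h5 - e2
    exact abs_le_of_sq_le_sq' this (g_nonneg _) |>.2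
  linear_combination e1 + e3

/-- The curve, first part. -/
theorem high_curve_a (P : Par s t a) {δ τ : ℝ} (h1 : 0 ≤ δ) (h2 : δ ≤ t)
    (hτ : τ = δ / 2 - h0 * ph δ) (h0τ : 0 ≤ τ) (h3 : τ ≤ a) :
    ph (s - a - τ) + ph (s - τ) - ph (s - a) + ph δ - ph (t - δ) ≤ 3 / 4 * ph s := by
  have s1 := P.s_gt
  have s2 := P.s_lt
  obtain ⟨c1, c2, -, -, t1, t2, hps, hpt⟩ := high_facts P
  have ha := P.ha
  have a1 := P.a_lt
  have l1 := h0_lo
  have l2 := h0_hi
  -- the disc is small
  have d1 : δ ≤ 33 / 100 := by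
    by_contra hcon
    push Not at hcon
    have e1 := beta_mono (s := 33 / 100) (β := δ) (by norm_num) hcon.le (by linear_combination h2 + t1)
    have e2 := ph_hi2 (x := 33 / 100) (by norm_num)
    have e3 : h0 * ph (33 / 100) ≤ 86603 / 100000 * (52595 / 100000 * (33 / 100) ^ 2) :=
      mul_le_mul l2 e2 (ph_nonneg _) (by norm_num)
    norm_num at e3
    linarith
  have k5 : ph δ ≤ 5147 / 10000 * δ ^ 2 := by
    have e1 : (943 / 1000 : ℝ) ≤ g δ := high_g_ge h1 d1 (by norm_num) (by norm_num)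
    have e2 := high_ph_sub (x := 0) (y := δ) (by norm_num) (by linear_combination (2421 / 5000) * h2 + (2421 / 5000) * t1 + (mul_nonneg (sub_nonneg.mpr h1) (sub_nonneg.mpr h2)) +
      (mul_nonneg (sub_nonneg.mpr h1) (sub_nonneg.mpr t1)))
    rw [ph_zero, g_zero] at e2
    have e3 := ph_nonneg δ
    have e4 : ph δ * (1943 / 1000) ≤ ph δ * (g δ + 1) :=
      mul_le_mul_of_nonneg_left (by linear_combination e1) e3
    have e5 : ph δ * (1943 / 1000) ≤ δ ^ 2 := by linear_combination e2 + e4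
    have := sq_nonneg δ
    linear_combination (5147 / 10000) * e2 + (621 / 10000000) * e3 + (5147 / 10000) * e4
  have k1 : 98 / 100 * τ ≤ ph s - ph (s - τ) := by
    have e1 := high_ph_sub (x := s - τ) (y := s) (by nlinarith) (by nlinarith)
    have e2 : g (s - τ) ≤ 7467 / 10000 :=
      high_g_le (v := 6652 / 10000) (by norm_num) (by linarith) (by norm_num) (by norm_num)
        (by norm_num)
    have e3 := ph_mono (a := s - τ) (b := s) (by linear_combination (7 / 3) * h0τ + (10 / 3) * h3 + (10 / 3) * ha) (by linear_combination h0τ)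
    have e4 : (ph s - ph (s - τ)) * (g s + g (s - τ)) ≤
        (ph s - ph (s - τ)) * (14237 / 10000) :=
      mul_le_mul_of_nonneg_left (by linear_combination c2 + e2) (by linear_combination e3)
    have e5 : τ * (1401 / 1000) ≤ (s - (s - τ)) * (s + (s - τ)) := by
      rw [show (s - (s - τ)) * (s + (s - τ)) = τ * (2 * s - τ) by ring]
      exact mul_le_mul_of_nonneg_left (by linarith) h0τ
    linear_combination -(980 / 1401) * e1 + (2887 / 700500) * e3 + (980 / 1401) * e4 + (980 / 1401) * e5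
  have k2 : 81 / 100 * τ ≤ ph (s - a) - ph (s - a - τ) := by
    have e1 := high_ph_sub (x := s - a - τ) (y := s - a) (by nlinarith) (by nlinarith)
    have e2 : g (s - a) ≤ 7467 / 10000 :=
      high_g_le (v := 6652 / 10000) (by norm_num) (by linarith) (by norm_num) (by norm_num)
        (by norm_num)
    have e2' : g (s - a - τ) ≤ 8042 / 10000 :=
      high_g_le (v := 5944 / 10000) (by norm_num) (by linarith) (by norm_num) (by norm_num)
        (by norm_num)
    have e3 := ph_mono (a := s - a - τ) (b := s - a) (by linear_combination (4 / 3) * h0τ + (7 / 3) * h3 + (10 / 3) * ha) (by linear_combination h0τ)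
    have e4 : (ph (s - a) - ph (s - a - τ)) * (g (s - a) + g (s - a - τ)) ≤
        (ph (s - a) - ph (s - a - τ)) * (15509 / 10000) :=
      mul_le_mul_of_nonneg_left (by linear_combination e2 + e2') (by linear_combination e3)
    have e5 : τ * (12596 / 10000) ≤ (s - a - (s - a - τ)) * (s - a + (s - a - τ)) := by
      rw [show (s - a - (s - a - τ)) * (s - a + (s - a - τ)) = τ * (2 * s - 2 * a - τ) by ring]
      exact mul_le_mul_of_nonneg_left (by linarith) h0τ
    linear_combination -(2025 / 3149) * e1 + (3371 / 1259600) * e3 + (2025 / 3149) * e4 +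
      (2025 / 3149) * e5
  have k3 : ph t - ph (t - δ) ≤ δ * (2 * t - δ) * (5715 / 10000) := by
    have e1 : (8749 / 10000 : ℝ) ≤ g t := by
      rw [P.gt]
      linear_combination (1 / 4) * c1
    have e2 := high_ph_up (x := t - δ) (y := t) (by linear_combination h2) (by linear_combination h1) (by linear_combination t1) e1
    rw [show (t - (t - δ)) * (t + (t - δ)) = δ * (2 * t - δ) by ring] at e2
    have e3 : 0 ≤ δ * (2 * t - δ) := mul_nonneg h1 (by linear_combination h1 + 2 * h2)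
    linear_combination (5000 / 8749) * e2 + (107 / 17498000) * e3
  have k4 : δ * (2 * t - δ) ≤ δ * (9684 / 10000 - δ) :=
    mul_le_mul_of_nonneg_left (by linear_combination 2 * t1) h1
  have k6 : δ / 2 - 4458 / 10000 * δ ^ 2 ≤ τ := by
    have e3 : h0 * ph δ ≤ 86603 / 100000 * (5147 / 10000 * δ ^ 2) :=
      mul_le_mul l2 k5 (ph_nonneg _) (by norm_num)
    have := sq_nonneg δ
    rw [hτ]
    linear_combination e3 + (54359 / 1000000000) * this
  have k7 : δ * δ ≤ δ * (33 / 100) := mul_le_mul_of_nonneg_left d1 h1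
  have k8 : δ ^ 2 = δ * δ := by ring
  rw [k8] at k5 k6
  rw [show δ * (9684 / 10000 - δ) = 9684 / 10000 * δ - δ * δ by ring] at k4
  linear_combination (4848467 / 17644300) * h0τ + (1 / 4) * hps - hpt + k5 + k1 + k2 +
    k3 + (1143 / 2000) * k4 + (2673483 / 1764430) * k6 + (5458095487 / 8822150000) * k7

/-- The curve, second part. -/
theorem high_curve_b (P : Par s t a) {δ τ : ℝ} (h1 : 0 ≤ δ) (h2 : δ ≤ t)
    (hτ : τ = δ / 2 - h0 * ph δ) (h3 : a ≤ τ) :
    ph (τ - a) + ph (s - a - τ) + ph δ - ph (t - δ) ≤ 3 / 4 * ph s := by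
  have s1 := P.s_gt
  have s2 := P.s_lt
  obtain ⟨c1, c2, -, -, t1, t2, hps, hpt⟩ := high_facts P
  obtain ⟨b1, b2⟩ := high_end P rfl
  have ha := P.ha
  have a0 := P.a_gt
  have a1 := P.a_lt
  have l1 := h0_lo
  have l2 := h0_hi
  have n1 := ph_nonneg δ
  have d1 : 2 * τ ≤ δ := by
    have := mul_nonneg h0_pos.le n1
    linear_combination 2 * hτ + 2 * this
  obtain ⟨T, hT⟩ : ∃ T, T = t / 2 - h0 * ph t := ⟨_, rfl⟩
  rw [← hT] at b1 b2
  have m1 := beta_mono (s := δ) (β := t) h1 h2 (by linear_combination t1)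
  rw [← hτ, ← hT] at m1
  have T1 : T ≤ t / 2 := by
    have := mul_nonneg h0_pos.le (ph_nonneg t)
    linear_combination hT + this
  have k1 := ph_mono (a := τ - a) (b := T - a) (by linear_combination h3) (by linear_combination m1)
  have k2 : ph (s - a - τ) - ph (s - a - T) ≤ 8475 / 10000 * (T - τ) := by
    have e1 : (7629 / 10000 : ℝ) ≤ g (s - a - τ) :=
      high_g_ge (v := 64645 / 100000) (by linarith) (by linarith) (by norm_num) (by norm_num)
    have e2 := high_ph_up (x := s - a - T) (y := s - a - τ) (by linarith) (by linear_combination m1)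
      (by linear_combination (2 / 3) * h2 + (7 / 3) * h3 + (2 / 3) * t1 - (10 / 3) * ha + (2 / 3) * d1) e1
    have e3 : (s - a - τ - (s - a - T)) * (s - a - τ + (s - a - T)) ≤
        (T - τ) * (12929 / 10000) := by
      rw [show s - a - τ - (s - a - T) = T - τ by ring]
      exact mul_le_mul_of_nonneg_left (by linarith) (by linear_combination m1)
    linear_combination (431 / 3051600) * m1 + (5000 / 7629) * e2 + (5000 / 7629) * e3
  have k3 := high_g_drop h1 h2 (by linear_combination t1)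
  have k4 : (t - δ) ^ 2 / 2 ≤ ph (t - δ) := by
    have := high_g_drop (d1 := 0) (d2 := t - δ) le_rfl (by linear_combination h2) (by linear_combination h1 + t1)
    rw [ph_zero] at this
    linear_combination this
  have k5 : 86602 / 100000 * (ph t - ph δ) ≤ h0 * (ph t - ph δ) :=
    mul_le_mul_of_nonneg_right l1 (by linear_combination (1 / 2) * (sq_nonneg (t - δ)) + k3 + (mul_nonneg (sub_nonneg.mpr h1) (sub_nonneg.mpr h2)))
  have k6 : T - τ = (t - δ) / 2 - h0 * (ph t - ph δ) := by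
    rw [hT, hτ]
    ring
  have k7 : 0 ≤ (t - δ) * (866 / 1000 * (t + δ) - 424 / 1000) :=
    mul_nonneg (by linear_combination h2) (by linarith)
  have k8 := sq_nonneg (t - δ)
  rw [show (t - δ) * (866 / 1000 * (t + δ) - 424 / 1000) =
    866 / 1000 * (t ^ 2 - δ ^ 2) - 424 / 1000 * (t - δ) by ring] at k7
  linear_combination (3151567 / 4330000000) * h2 - (339 / 400) * hτ - (3 / 4) * hps +
    hpt + b2 + (339 / 400) * hT + k1 + k2 + (34679039 / 20000000) * k3 + k4 + (339 / 400) * k5 +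
    (34679039 / 34640000) * k7 + (1 / 2) * k8

end

end Pool.Agent.Strip051.FourB
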