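import Pool.Agent.Strip051.FourB.HighGain
import Pool.Agent.Strip051.FourB.HighReal
import Pool.Agent.Strip051.Four.MidGainLow

/-! # The new point between `h0` and `h0 + s / 2` -/

namespace Pool.Agent.Strip051.FourB

open Pool.Agent.StripNear Pool.Agent.StripSquare Pool.Agent.Strip051
open Pool.Agent.Strip051.Four (gn mirP mirP_ok mirP_gn mirP_val j1 j4 j1_gn j4_gn arc_sub le_gn
  gn_nonneg gain_ge ext_facts g_le_of_abs gam_neg adm_low corner)
open Pool.Agent.Strip051.Four.Low (ph ph_mono ph_nonneg ph_neg ph_zero h0_hi h0_lo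
  beta_mono g_half_eq)

section

variable {s t a y r q : ℝ}

/-- A point above `h0` is the far corner of a pair of discs. -/
theorem high_delta (h1 : h0 ≤ y) (h2 : y ≤ 1) : ∃ δ : ℝ, 0 ≤ δ ∧ δ ≤ 1 / 2 ∧
    y - h0 = δ / 2 - h0 * ph δ := by
  have hg := h0_gt
  have hp := h0_pos
  obtain ⟨p, b, e1, e2, e3, e4, e5, -, -⟩ := corner (r := y) (by linear_combination h1 + hg) h2
  have e6 : ext y ≤ y := by
    have k1 : g y ≤ g h0 := g_anti hp.le h1
    rw [g_h0] at k1
    have k2 : h0 * g y ≤ h0 * (1 / 2) := mul_le_mul_of_nonneg_left k1 hp.le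
    have k3 : ext y = y / 2 + h0 * g y := rfl
    linear_combination (1 / 2) * h1 + k2 + k3
  rw [max_eq_left e6] at e2
  refine ⟨b, e3, e4, ?_⟩
  have e7 : ph b = 1 - g b := rfl
  rw [e7, ← e2, e5]
  ring

/-- The gain of the lower wall probe. -/
theorem high_wall (P : Par s t a) {δ τ : ℝ} (d0 : 0 ≤ δ) (d1 : δ ≤ t)
    (hτ : τ = δ / 2 - h0 * ph δ) (q1 : 1 / 2 ≤ q) (q2 : q ≤ 1) (q3 : q ≤ h0 + τ)
    (q4 : ext q ≤ h0 + τ) : ph t + ph (t - δ) - ph δ ≤ gn (j1 t) r q (h0 + τ) := by
  have hg := h0_gt
  have hp := h0_pos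
  obtain ⟨c1, c2, -, -, t1, t2, hps, hpt⟩ := high_facts P
  obtain ⟨p, b, e1, e2, e3, e4, e5, -, -⟩ := corner q1 q2
  have e0 := (ext_facts q1 q2).2.2.1
  have e6 : p + b ≤ h0 + τ := by
    rw [e2]
    exact max_le q3 q4
  have e7 : ph b = 1 - g b := rfl
  have e8 : p = h0 - h0 * ph b - b / 2 := by
    rw [e5, e7]
    ring
  have b1 : b ≤ δ := by
    by_contra hcon
    push Not at hcon
    have := high_tau_lt d0 hcon e4
    exact absurd e6 (not_le.mpr (by linear_combination hτ - e8 + this))
  have b2 := ph_mono e3 b1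
  have b3 := mul_le_mul_of_nonneg_left b2 hp.le
  have b4 := ph_nonneg δ
  have b5 := mul_nonneg hp.le b4
  have hq : h0 + τ - q ≤ t := by
    have : p ≤ q := by
      rw [e1]
      exact min_le_left _ _
    linear_combination d1 + hτ - e8 + (1 / 2) * b1 + b3 + this
  have k1 := high1 P (r := r) (q := q) (y := h0 + τ) (by linear_combination q1 + q3 + t1) q1 q2 hq
  have k2 := high_V (m := t - τ - h0 * ph b) e3 b1 d1 (by linear_combination t1) (by linear_combination hτ + b3)
  have k3 : g q + g (ext q) = 1 - ph b := by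
    rw [e7]
    rcases le_total q (ext q) with h | h
    · rw [min_eq_left h] at e1
      rw [max_eq_right h] at e2
      rw [show ext q - q = b by linear_combination e1 - e2] at e0
      linear_combination -e0
    · rw [min_eq_right h] at e1
      rw [max_eq_left h] at e2
      rw [show ext q - q = -b by linear_combination -e1 + e2, g_neg] at e0
      linear_combination -e0
  have k4 : g (q - (h0 + τ - t)) + g (ext q - (h0 + τ - t)) =
      (1 - ph (t - τ - h0 * ph b + b / 2)) + (1 - ph (t - τ - h0 * ph b - b / 2)) := by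
    have w : ∀ x, 1 - ph x = g x := by
      intro x
      unfold Four.Low.ph
      ring
    rw [w, w]
    rcases le_total q (ext q) with h | h
    · rw [min_eq_left h] at e1
      rw [max_eq_right h] at e2
      rw [show q - (h0 + τ - t) = t - τ - h0 * ph b - b / 2 by linear_combination -e1 + e8,
        show ext q - (h0 + τ - t) = t - τ - h0 * ph b + b / 2 by linear_combination -e2 + e8]
      ring
    · rw [min_eq_right h] at e1
      rw [max_eq_left h] at e2
      rw [show ext q - (h0 + τ - t) = t - τ - h0 * ph b - b / 2 by linear_combination -e1 + e8,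
        show q - (h0 + τ - t) = t - τ - h0 * ph b + b / 2 by linear_combination -e2 + e8]
  linear_combination k1 + k2 - k3 + k4

/-- The new point is above `h0` and not above the middle of the strip. -/
theorem highC (P : Par s t a) : HighC s t a := by
  intro y r q h1 h2 r1 r2 r3 r4 q1 q2 q3 q4
  have hp := h0_pos
  have hq := h0_sq
  have hg := h0_gt
  have s1 := P.s_gt
  have s2 := P.s_lt
  obtain ⟨c1, c2, -, -, t1, t2, hps, hpt⟩ := high_facts P
  obtain ⟨b1, b2⟩ := high_end P rfl
  obtain ⟨T, hT⟩ : ∃ T, T = t / 2 - h0 * ph t := ⟨_, rfl⟩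
  rw [← hT] at b1 b2
  obtain ⟨τ, hτ⟩ : ∃ τ, τ = y - h0 := ⟨_, rfl⟩
  have hy : y = h0 + τ := by linear_combination -hτ
  rw [hy] at h1 h2 q3 q4 ⊢
  have w : ∀ x, ph x = 1 - g x := fun x => rfl
  have T1 : T ≤ t / 2 := by
    have := mul_nonneg hp.le (ph_nonneg t)
    linear_combination hT + this
  rcases le_total T τ with h | h
  · have k1 := gn_nonneg (r := r) (q := q) (y := h0 + τ) (j1_ok P)
    have k2 := high23_b P (r := r) (q := q) (τ := τ) (by linear_combination b1 + h) (by linear_combination h2)
    have a0 := P.a_gt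
    have a1 := P.a_lt
    have k3 := arc_sub (a := 0) (b := τ - T) (x := τ - a) (y := s - a - T) (by linear_combination h)
      (by linear_combination (1 / 2) * s1 + (1 / 2) * t1 + h2 + T1) (by linear_combination b1) (by linear_combination s2 + b1 + 2 * a0)
    rw [show τ - a - (τ - T) = T - a by ring, sub_zero, sub_zero,
      show s - a - T - (τ - T) = s - a - τ by ring] at k3
    rw [w, w] at b2
    linear_combination b2 + k1 + k2 + k3
  · have m1 := beta_mono (s := t) (β := 1 / 2) P.t0 (by linear_combination t1) le_rfl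
    rw [← hT, w (1 / 2), g_half_eq] at m1
    have y1 : h0 + τ ≤ 1 := by linear_combination hq + h + m1
    obtain ⟨δ, d0, d1, d2⟩ := high_delta h1 y1
    rw [add_sub_cancel_left] at d2
    have d3 : δ ≤ t := by
      by_contra hcon
      push Not at hcon
      have := high_tau_lt P.t0 hcon d1
      exact absurd h (not_le.mpr (by linear_combination hT - d2 + this))
    have k1 := high_wall P (r := r) d0 d3 d2 q1 q2 q3 q4
    rcases le_total τ a with h3 | h3
    · have k2 := high23_a P (r := r) (q := q) (τ := τ) (by linear_combination h1) h3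
      have k3 := high_curve_a P d0 d3 d2 (by linear_combination h1) h3
      have k4 := w (s - a - τ)
      have k5 := w (s - τ)
      have k6 := w (s - a)
      linear_combination (3 / 4) * hps - hpt + k1 + k2 + k3 - k4 - k5 + k6
    · have k2 := high23_b P (r := r) (q := q) (τ := τ) h3 (by linear_combination h2)
      have k3 := high_curve_b P d0 d3 d2 h3
      have k4 := w (s - a - τ)
      have k5 := w (τ - a)
      linear_combination (3 / 4) * hps - hpt + k1 + k2 + k3 - k4 - k5

end

end Pool.Agent.Strip051.FourB
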