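import Pool.Agent.Strip051.FourB.MidC1

/-! # The real inequality when both corners are above `h0 + s`: assembly -/

namespace Pool.Agent.Strip051.FourB

open Pool.Agent.StripNear Pool.Agent.StripSquare Pool.Agent.Strip051 Pool.Agent.Strip051.N2
open Pool.Agent.Strip051.Four (ang_of_b mid_high1)

/-- `U ≥ k W`. -/
theorem ratio_le {p S x : ℝ} (hS : 0 ≤ S) (hx : 0 ≤ x) (hxp : x ≤ p) (hq : p + S ≤ 1) :
    g (p + S) * g (p - x) ≤ g (p + S - x) * g p := by
  have hp0 : 0 ≤ p := hx.trans hxp
  apply le_of_sq_le_sq' _ (mul_nonneg (g_nonneg _) (g_nonneg _))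
  have a1 : (p + S) ^ 2 ≤ 1 := pow_le_one₀ (by linear_combination hS + hx + hxp) hq
  have a2 : (p - x) ^ 2 ≤ 1 := pow_le_one₀ (by linear_combination hxp) (by linear_combination hS + hx + hq)
  have a3 : (p + S - x) ^ 2 ≤ 1 := pow_le_one₀ (by linear_combination hS + hxp) (by linear_combination hx + hq)
  have a4 : p ^ 2 ≤ 1 := pow_le_one₀ (by linear_combination hx + hxp) (by linear_combination hS + hq)
  rw [mul_pow, mul_pow, g_sq a1, g_sq a2, g_sq a3, g_sq a4]
  have i : (1 - (p + S - x) ^ 2) * (1 - p ^ 2) - (1 - (p + S) ^ 2) * (1 - (p - x) ^ 2) =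
      S * x * (2 + (p + S - x) * p + (p + S) * (p - x)) := by ring
  have j : 0 ≤ S * x * (2 + (p + S - x) * p + (p + S) * (p - x)) := by
    apply mul_nonneg (mul_nonneg hS hx)
    have j1 := mul_nonneg (show 0 ≤ p + S - x by linear_combination hS + hxp) hp0
    have j2 := mul_nonneg (show 0 ≤ p + S by linear_combination hS + hx + hxp) (show 0 ≤ p - x by linear_combination hxp)
    linear_combination j1 + j2
  linear_combination j

/-- The algebra. -/
theorem c1_alg {W Y U P Q e1 e2 : ℝ} (hY : 1 / 2 ≤ Y) (hYW : Y ≤ W) (hW : W ≤ 0.677)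
    (hU : 0 < U) (hP : 0 < P) (hQ : 0 ≤ Q) (hQP : Q ≤ P) (hUk : Q * W ≤ U * P)
    (he1 : 0 ≤ e1) (he1' : e1 ≤ 0.1318) (he2 : 0 ≤ e2)
    (poly : 1.7733 * e2 * P ^ 2 ≤ 3 * e1 * Q * (0.7385 * P + Q)) :
    e2 * ((W + Y) ^ 2 + e1 ^ 2) * W ≤ 3 * e1 * (Y + U) * U * (W + Y) := by
  have hW0 : 0 < W := by linear_combination hY + hYW
  have b2 : e1 ^ 2 ≤ 0.02 * (W + Y) ^ 2 := by
    have c1 : e1 ^ 2 ≤ 0.1318 ^ 2 := pow_le_pow_left₀ he1 he1' 2
    have c2 : (1 : ℝ) ^ 2 ≤ (W + Y) ^ 2 := pow_le_pow_left₀ zero_le_one (by linear_combination 2 * hY + hYW) 2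
    linear_combination c1 + (1 / 50) * c2
  -- `(0.7385 P + Q) ≤ 1.7385 P`
  have b3 : 1.02 * e2 * P ^ 2 ≤ 3 * e1 * Q * P := by
    have d1 : 3 * e1 * Q * (0.7385 * P + Q) ≤ 3 * e1 * Q * (1.7385 * P) :=
      mul_le_mul_of_nonneg_left (by linear_combination hQP) (by positivity)
    have d2 : 0 ≤ e2 * P ^ 2 := by positivity
    linear_combination (2000 / 3477) * poly + (2000 / 3477) * d1 + (1 / 57950) * d2
  have b4 : 1.02 * e2 * (W + Y) * P ^ 2 ≤ 3 * e1 * Q * (Y * P + Q * W) := by
    have d1 := mul_le_mul_of_nonneg_left b3 (show 0 ≤ Y - 0.7385 * W by linear_combination hY + (1477 / 2000) * hW)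
    have d2 := mul_le_mul_of_nonneg_left poly hW0.le
    have d3 : 0 ≤ e2 * P ^ 2 * W := by positivity
    linear_combination d1 + d2 + (3 / 100000) * d3
  have b5 : (Y * P + Q * W) * (Q * W) ≤ (Y * P + U * P) * (U * P) :=
    mul_le_mul (by linear_combination hUk) hUk (by positivity) (by positivity)
  have b6 : (1.02 * e2 * (W + Y) * W) * P ^ 2 ≤ (3 * e1 * ((Y + U) * U)) * P ^ 2 := by
    have d1 := mul_le_mul_of_nonneg_right b4 hW0.le
    have d2 := mul_le_mul_of_nonneg_left b5 (show 0 ≤ 3 * e1 by linear_combination 3 * he1)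
    linear_combination d1 + d2
  have b7 : 1.02 * e2 * (W + Y) * W ≤ 3 * e1 * ((Y + U) * U) :=
    le_of_mul_le_mul_right b6 (by positivity)
  calc e2 * ((W + Y) ^ 2 + e1 ^ 2) * W ≤ e2 * (1.02 * (W + Y) ^ 2) * W := by
        apply mul_le_mul_of_nonneg_right _ hW0.le
        exact mul_le_mul_of_nonneg_left (by linear_combination b2) he2
    _ = (1.02 * e2 * (W + Y) * W) * (W + Y) := by ring
    _ ≤ (3 * e1 * ((Y + U) * U)) * (W + Y) := mul_le_mul_of_nonneg_right b7 (by linear_combination 2 * hY + hYW)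
    _ = _ := by ring

variable {C S p q : ℝ}

/-- `S ≤ 0.22` if `0.736 ≤ p`. -/
theorem S_small (hA : Ang C S p q) (h : 0.736 ≤ p) : S ≤ 0.22 := by
  have hh := h0_lt
  have hg := h0_gt
  have hp := hA.hp
  have hsq := hA.sq
  have hC0 := hA.C0
  by_contra hc
  push Not at hc
  have hS2 : 0.0484 ≤ S ^ 2 := by linear_combination (11 / 25) * hc + (mul_pos (sub_pos.mpr hc) (sub_pos.mpr hc))
  have hC : C ≤ 0.9756 := by
    by_contra hC
    push Not at hC
    exact absurd hC (not_lt.mpr (by linear_combination (1250 / 2439) * hS2 + (1250 / 2439) * hsq + (1250 / 2439) * (mul_pos (sub_pos.mpr hC) (sub_pos.mpr hC))))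
  have h5 : h0 * C ≤ 0.8661 * 0.9756 := mul_le_mul hh.le hC hC0 (by norm_num)
  exact absurd h (not_le.mpr (by linear_combination hp + (1 / 2) * hc + h5))

theorem K_small (hA : Ang C S p q) (h : 0.736 ≤ p) : 1 - C ≤ 0.025 := by
  have hS := S_small hA h
  have hS0 := hA.S0
  have hC0 := hA.C0
  have hsq := hA.sq
  by_contra hc
  push Not at hc
  exact absurd hS (not_le.mpr (by linear_combination -(50 / 11) * hsq + (195 / 44) * hc + (50 / 11) * (mul_nonneg (sub_nonneg.mpr hS) (sub_nonneg.mpr hS0)) + (50 / 11) * (mul_nonneg (sub_nonneg.mpr hC0) (sub_nonneg.mpr (le_of_lt hc)))))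

/-- The sign of the derivative. -/
theorem c1_slope (hA : Ang C S p q) {x : ℝ} (hx0 : 0 ≤ x) (hx : 0.736 ≤ p - x) :
    3 * ((p - x) / g (p - x)) + (q - x) / g (q - x) ≤ 4 * ((h0 - x) / g (h0 - x)) := by
  have hh1 := h0_gt
  have hh2 := h0_lt
  have hS0 := hA.S0
  have hp736 : 0.736 ≤ p := by linear_combination hx0 + hx
  have hS := S_small hA hp736
  have hK := K_small hA hp736
  have hK2 := hA.K_ge
  have hpq := hA.q_sub
  have hpp := hA.hp
  have hqq := hA.hq
  have hph := hA.p_le_h
  have hhq := hA.h_le_q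
  have gp := hA.gp
  have gq := hA.gq
  have hC1 := hA.C_le
  have hCh := hA.h_le_C
  have hhC : h0 * C ≤ 0.8661 * 1 := mul_le_mul hh2.le hC1 hA.C0 (by norm_num)
  have hq97 : q ≤ 0.9762 := by linear_combination (1 / 2) * hS + hpq + hpp + hhC
  obtain ⟨K, hKd⟩ : ∃ K, K = 1 - C := ⟨_, rfl⟩
  have e1' : h0 - p = S / 2 + h0 * K := by rw [hpp, hKd]; ring
  have e2' : q - h0 = S / 2 - h0 * K := by rw [hqq, hKd]; ring
  rw [← hKd] at hK hK2
  have hK0 : 0 ≤ K := by rw [hKd]; linear_combination hC1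
  have poly := c1_poly (h := h0) hh1 hh2 hS0 hS hKd hK2 hK
  rw [← e1', ← e2', ← gp, ← gq] at poly
  have hw2 : (p - x) ^ 2 < 1 := pow_lt_one₀ (by linear_combination hx) (by linear_combination hx0 + hh2 + hph) (by norm_num)
  have hy2 : (h0 - x) ^ 2 < 1 := pow_lt_one₀ (by linear_combination hx + hph) (by linear_combination hx0 + hh2) (by norm_num)
  have hu2 : (q - x) ^ 2 < 1 := pow_lt_one₀ (by linear_combination hx + hS0 - hpq) (by linear_combination 2 * hx0 + hx + hpq + 2 * hpp + 2 * hhC) (by norm_num)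
  have hp2 : p ^ 2 < 1 := pow_lt_one₀ (by linear_combination hx0 + hx) (by linear_combination hh2 + hph) (by norm_num)
  have hY5 : 1 / 2 ≤ g (h0 - x) := by
    have := g_anti (show 0 ≤ h0 - x by linear_combination hx + hph) (show h0 - x ≤ h0 by linear_combination hx0)
    rwa [g_h0] at this
  have hWY : g (h0 - x) ≤ g (p - x) := g_anti (by linear_combination hx) (by linear_combination hph)
  have hW677 : g (p - x) ≤ 0.677 := by
    apply g_le (by norm_num)
    have : (0.736 : ℝ) ^ 2 ≤ (p - x) ^ 2 := pow_le_pow_left₀ (by norm_num) hx 2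
    linear_combination this
  have hqp : g q ≤ g p := g_anti (by linear_combination hx0 + hx) (by linear_combination hS0 - hpq)
  have hUk := ratio_le hS0 hx0 (show x ≤ p by linear_combination hx) (show p + S ≤ 1 by linear_combination (1 / 2) * hS + hpp + hhC)
  rw [show p + S = q by linear_combination -hpq] at hUk
  have b1 : h0 - p ≤ 0.1318 := by
    have : h0 * K ≤ 0.8661 * 0.025 := mul_le_mul hh2.le hK hK0 (by norm_num)
    linear_combination hx0 + hx + hh2
  have key := c1_alg hY5 hWY hW677 (g_pos hu2) (g_pos hp2) (g_nonneg q) hqp hUk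
    (show 0 ≤ h0 - p by linear_combination hph) b1 (show 0 ≤ q - h0 by linear_combination hhq) poly
  exact slope_aux2 (by linear_combination hx) (by linear_combination hph) (by linear_combination hhq) hu2 (by ring) (by ring) key

theorem psi_zero (hA : Ang C S p q) : psi C p q 0 = 0 := by
  unfold psi
  rw [sub_zero, sub_zero, sub_zero, hA.gp, hA.gq, g_h0]
  ring

theorem psi_mono0 (hA : Ang C S p q) {d : ℝ} (hd0 : 0 ≤ d) (hd : 0.736 ≤ p - d) :
    0 ≤ psi C p q d := by
  have hh2 := h0_lt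
  have hS0 := hA.S0
  have hS := S_small hA (by linear_combination hd0 + hd)
  have hpq := hA.q_sub
  have hqq := hA.hq
  have hph := hA.p_le_h
  have hhq := hA.h_le_q
  have hC1 := hA.C_le
  have hhC : h0 * C ≤ 0.8661 * 1 := mul_le_mul hh2.le hC1 hA.C0 (by norm_num)
  have hD : ∀ x ∈ Set.Icc 0 d, HasDerivAt (psi C p q)
      (-3 * ((p - x) / g (p - x)) - (q - x) / g (q - x) + 4 * ((h0 - x) / g (h0 - x))) x := by
    intro x hx
    obtain ⟨hx1, hx2⟩ := hx
    have r1 : (p - x) ^ 2 < 1 := pow_lt_one₀ (by linear_combination hd + hx2) (by linear_combination hh2 + hph + hx1) (by norm_num)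
    have r2 : (q - x) ^ 2 < 1 := pow_lt_one₀ (by linear_combination hd + hS0 - hpq + hx2) (by linear_combination (1 / 2) * hS + hqq + hhC + hx1) (by norm_num)
    have r3 : (h0 - x) ^ 2 < 1 := pow_lt_one₀ (by linear_combination hd + hph + hx2) (by linear_combination hh2 + hx1) (by norm_num)
    have d1 : HasDerivAt (fun x => g (p - x)) ((p - x) / g (p - x)) x := by
      have := (hasDerivAt_g r1).comp x ((hasDerivAt_id x).const_sub p)
      simpa [Function.comp_def] using this
    have d2 : HasDerivAt (fun x => g (q - x)) ((q - x) / g (q - x)) x := by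
      have := (hasDerivAt_g r2).comp x ((hasDerivAt_id x).const_sub q)
      simpa [Function.comp_def] using this
    have d3 : HasDerivAt (fun x => g (h0 - x)) ((h0 - x) / g (h0 - x)) x := by
      have := (hasDerivAt_g r3).comp x ((hasDerivAt_id x).const_sub h0)
      simpa [Function.comp_def] using this
    have d4 := (((d1.const_mul (-3)).sub d2).add (d3.const_mul 4)).add_const (2 * g p + C - 2)
    refine d4.congr_of_eventuallyEq (Filter.Eventually.of_forall fun y => ?_)
    simp only [psi, Pi.add_apply, Pi.sub_apply]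
    ring
  have hm : MonotoneOn (psi C p q) (Set.Icc 0 d) := by
    apply monotoneOn_of_deriv_nonneg (convex_Icc 0 d)
    · intro x hx
      exact (hD x hx).continuousAt.continuousWithinAt
    · intro x hx
      exact (hD x (interior_subset hx)).differentiableAt.differentiableWithinAt
    · intro x hx
      have hx' := interior_subset hx
      rw [(hD x hx').deriv]
      obtain ⟨hx1, hx2⟩ := hx'
      have := c1_slope hA hx1 (show 0.736 ≤ p - x by linear_combination hd + hx2)
      linear_combination this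
  have := hm ⟨le_rfl, hd0⟩ ⟨hd0, le_rfl⟩ hd0
  rwa [psi_zero hA] at this

/-- Both corners of the new triangle above `h0 + s`. -/
theorem mid_C1 {s y p b : ℝ} (hs : 17 / 20 * h0 ≤ s) (hy : y ≤ h0) (hb0 : 0 ≤ b)
    (hb1 : b ≤ 1 / 2) (hp : p = h0 * g b - b / 2) (h3 : h0 + s ≤ y + p) :
    2 * (1 + g s) - 4 * g y ≤ 2 * g (h0 + s - y) + g b - g (y + p + b - h0)
      - g (y + p - h0) := by
  have hh1 := h0_gt
  have hh2 := h0_lt
  rcases le_total (y + p + b) (2 * h0) with h5 | h5
  · exact mid_high1 (by linear_combination hs + (17 / 20) * hh1) hy hb0 hb1 hp h3 h5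
  have hA := ang_of_b hb0 hb1 hp
  have h1 := psi_mono0 hA (d := h0 - y) (by linear_combination hy) (by linear_combination hs + h3 + (17 / 20) * hh1)
  have h2 := shift_mono (a := h0 - y) (x := h0 + s - y) (x' := p) (by linear_combination hy) (by linear_combination h3)
    (by linear_combination hs + (17 / 20) * hh1) (hA.p_le_h.trans (by linear_combination hh2))
  unfold psi at h1
  rw [show p - (h0 - y) = y + p - h0 by ring, show p + b - (h0 - y) = y + p + b - h0 by ring,
    show h0 - (h0 - y) = y by ring] at h1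
  rw [show h0 + s - y - (h0 - y) = s by ring, show p - (h0 - y) = y + p - h0 by ring] at h2
  linear_combination h1 + 2 * h2

end Pool.Agent.Strip051.FourB
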