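import Pool.Agent.Strip051.FourB.MidGain
import Pool.Agent.Strip051.FourB.MidC1b

/-! # The case `s ≤ y ≤ h0`, from the two remaining real inequalities -/

namespace Pool.Agent.Strip051.FourB

open Pool.Agent.StripNear Pool.Agent.StripSquare Pool.Agent.Strip051
open Pool.Agent.Strip051.Four (gn ext_facts corner)

/-- The real inequality of the zone `h0 + s - a ≤ y + p ≤ h0 + s`. -/
def RealB5 : Prop := ∀ s a y p b : ℝ, 17 / 20 * h0 ≤ s → s ≤ h0 → a = 3 / 10 * (s - 1 / 2) →
  s ≤ y → y ≤ h0 → 0 ≤ b → b ≤ 1 / 2 → p = h0 * g b - b / 2 → h0 + s - a ≤ y + p →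
  y + p ≤ h0 + s →
  2 * (1 + g s) - 4 * g y ≤ g b + g p - g (y + p + b - h0) - g (y + p - h0)
    - g (y + p - h0 - a) + g (h0 + s - y) + g (s - a)

/-- The real inequality of the zone `y + p ≤ h0 + s - a`. -/
def RealB4 : Prop := ∀ s a y p b : ℝ, 17 / 20 * h0 ≤ s → s ≤ h0 → a = 3 / 10 * (s - 1 / 2) →
  s ≤ y → y ≤ h0 → 0 ≤ b → b ≤ 1 / 2 → p = h0 * g b - b / 2 → y + p ≤ h0 + s - a →
  2 * (1 + g s) - 4 * g y ≤ g b + g p - g (y + p + b - h0) + g (h0 + s - y) + 1
    - g (y + p - h0 - a) - g (h0 + s - a - (y + p))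

theorem midB_of {s t a : ℝ} (P : Par s t a) (R5 : RealB5) (R4 : RealB4) : MidB s a := by
  intro y r h1 h2 r1 r2 _ _
  obtain ⟨p, b, hp, hpb, hb0, hb1, hpe, hgb, hp1⟩ := corner r1 r2
  have hs1 := P.s0
  have hs2 := P.s1.le
  have ha := P.ha
  rcases le_total (h0 + s) (y + p) with h | h
  · have k1 := gain_C1 (q := y) P h1 h2 r1 r2
    have k2 := mid_C1 hs1 h2 hb0 hb1 hpe h
    have k3 : g (y + ext r - h0) + g (y + r - h0) = g (y + p + b - h0) + g (y + p - h0) := by
      rcases le_total r (ext r) with h5 | h5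
      · rw [min_eq_left h5] at hp
        rw [max_eq_right h5] at hpb
        rw [← hpb, ← hp]
        ring_nf
      · rw [min_eq_right h5] at hp
        rw [max_eq_left h5] at hpb
        rw [← hp, ← hpb]
        ring_nf
    linarith
  · rcases le_total (h0 + s - a) (y + p) with h' | h'
    · have k1 := gain_B5 (q := y) P h1 h2 r1 r2
      rw [← hp, ← hpb, hgb, show y + (p + b) - h0 = y + p + b - h0 by ring] at k1
      have k2 := R5 s a y p b hs1 hs2 ha h1 h2 hb0 hb1 hpe h' h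
      linarith
    · have k1 := gain_B4 (q := y) P h1 h2 r1 r2
      rw [← hp, ← hpb, hgb, show y + (p + b) - h0 = y + p + b - h0 by ring] at k1
      have k2 := R4 s a y p b hs1 hs2 ha h1 h2 hb0 hb1 hpe h'
      linarith

end Pool.Agent.Strip051.FourB
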