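import Pool.Agent.Strip051.FourB.Conc
import Pool.Agent.Strip051.FourB.MidAsm

/-! # The zone `h0 + s - a ≤ y + p ≤ h0 + s` follows from its two boundaries -/

namespace Pool.Agent.Strip051.FourB

open Pool.Agent.StripNear Pool.Agent.StripSquare Pool.Agent.Strip051
open Set

/-- The point of angle `α` and the angle `π / 3 - α`. -/
theorem alpha_facts {α : ℝ} (h1 : Real.pi / 6 ≤ α) (h2 : α ≤ Real.pi / 3) :
    ∃ b, 0 ≤ b ∧ b ≤ 1 / 2 ∧ Real.sin α = h0 * g b - b / 2 ∧
      g (Real.sin α) = Real.cos α ∧ g b - g (Real.sin α) = Real.cos (2 * Real.pi / 3 - α) ∧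
      Real.sin α + b = Real.sin (2 * Real.pi / 3 - α) := by
  have hpi := Real.pi_pos
  have c1 : g (Real.sin α) = Real.cos α := by
    unfold g
    rw [show 1 - Real.sin α ^ 2 = Real.cos α ^ 2 by rw [← Real.sin_sq_add_cos_sq α]; ring]
    exact Real.sqrt_sq (Real.cos_nonneg_of_mem_Icc ⟨by linear_combination 5 * h1 + 4 * h2, by linear_combination h1 + 2 * h2⟩)
  have c2 : g (Real.sin (Real.pi / 3 - α)) = Real.cos (Real.pi / 3 - α) := by
    unfold g
    rw [show 1 - Real.sin (Real.pi / 3 - α) ^ 2 = Real.cos (Real.pi / 3 - α) ^ 2 by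
      rw [← Real.sin_sq_add_cos_sq (Real.pi / 3 - α)]; ring]
    exact Real.sqrt_sq (Real.cos_nonneg_of_mem_Icc ⟨by linear_combination 3 * h1 + 4 * h2, by linear_combination 3 * h1 + 2 * h2⟩)
  have hs : h0 = Real.sqrt 3 / 2 := rfl
  have e3 : Real.sqrt 3 ^ 2 = 3 := Real.sq_sqrt (by norm_num)
  have t1 : 2 * Real.pi / 3 - α = Real.pi - (Real.pi / 3 + α) := by ring
  refine ⟨Real.sin (Real.pi / 3 - α), ?_, ?_, ?_, c1, ?_, ?_⟩
  · exact Real.sin_nonneg_of_nonneg_of_le_pi (by linear_combination h2) (by linear_combination 6 * h1 + 5 * h2)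
  · rw [← Real.sin_pi_div_six]
    exact Real.sin_le_sin_of_le_of_le_pi_div_two (by linear_combination 3 * h1 + 4 * h2) (by linear_combination 2 * h1 + 2 * h2) (by linear_combination h1)
  · rw [c2, hs, Real.sin_sub, Real.cos_sub, Real.sin_pi_div_three, Real.cos_pi_div_three]
    linear_combination (-(Real.sin α) / 4) * e3
  · rw [c1, c2, t1, Real.cos_pi_sub, Real.cos_sub, Real.cos_add, Real.sin_pi_div_three,
      Real.cos_pi_div_three]
    ring
  · rw [t1, Real.sin_pi_sub, Real.sin_sub, Real.sin_add, Real.sin_pi_div_three,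
      Real.cos_pi_div_three]
    ring

/-- The angle of `p`. -/
theorem alpha_of {p : ℝ} (h1 : 1 / 2 ≤ p) (h2 : p ≤ h0) :
    ∃ α, Real.pi / 6 ≤ α ∧ α ≤ Real.pi / 3 ∧ Real.sin α = p := by
  have hpi := Real.pi_pos
  have hh := h0_lt
  refine ⟨Real.arcsin p, ?_, ?_, Real.sin_arcsin (by linear_combination h1) (by linear_combination h2 + hh)⟩
  · rw [← Real.arcsin_sin (by linear_combination (2 / 3) * hpi : -(Real.pi / 2) ≤ Real.pi / 6) (by linear_combination (1 / 3) * hpi),
      Real.sin_pi_div_six]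
    exact Real.monotone_arcsin h1
  · rw [← Real.arcsin_sin (by linear_combination (5 / 6) * hpi : -(Real.pi / 2) ≤ Real.pi / 3) (by linear_combination (1 / 6) * hpi),
      Real.sin_pi_div_three]
    exact Real.monotone_arcsin h2

theorem sum_concave {d t : ℝ} (hd : 0 ≤ d) (ht : 0 ≤ t) (hd1 : d ≤ 1 / 2) (ht1 : t ≤ 1 / 2)
    {α1 α2 : ℝ} (h1 : Real.pi / 6 ≤ α1) (h2 : α2 ≤ Real.pi / 3) (h : α1 ≤ α2) :
    ConcaveOn ℝ (Icc α1 α2)
      (fun α => Phi d (2 * Real.pi / 3 - α) + Phi d α + Phi t α) := by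
  have hpi := Real.pi_pos
  have s6 : ∀ x, Real.pi / 6 ≤ x → x ≤ Real.pi / 2 → 1 / 2 ≤ Real.sin x := by
    intro x a b
    rw [← Real.sin_pi_div_six]
    exact Real.sin_le_sin_of_le_of_le_pi_div_two (by linear_combination 4 * h1 + 4 * h2 + 4 * h) b a
  have c1 := phi_concave hd (by linear_combination 2 * h1 + h2 + h : 0 ≤ α1) (by linear_combination h1 + 2 * h2 + h : α2 ≤ Real.pi / 2)
    (hd1.trans (s6 α1 h1 (by linear_combination h1 + 2 * h2 + 2 * h)))
  have c2 := phi_concave ht (by linear_combination 2 * h1 + h2 + h : 0 ≤ α1) (by linear_combination h1 + 2 * h2 + h : α2 ≤ Real.pi / 2)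
    (ht1.trans (s6 α1 h1 (by linear_combination h1 + 2 * h2 + 2 * h)))
  have c3 := phi_concave hd (by linear_combination 2 * h1 + 3 * h2 + 2 * h : 0 ≤ 2 * Real.pi / 3 - α2)
    (by linear_combination h1 : 2 * Real.pi / 3 - α1 ≤ Real.pi / 2)
    (hd1.trans (s6 (2 * Real.pi / 3 - α2) (by linear_combination h1 + 2 * h2 + h) (by linear_combination h1 + h)))
  have c4 : ConcaveOn ℝ (Icc α1 α2) (fun α => Phi d (2 * Real.pi / 3 - α)) := by
    refine ⟨convex_Icc _ _, ?_⟩
    intro x hx y hy a b ha hb hab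
    have := c3.2 (x := 2 * Real.pi / 3 - x) ⟨by linear_combination hx.2, by linear_combination hx.1⟩
      (y := 2 * Real.pi / 3 - y) ⟨by linear_combination hy.2, by linear_combination hy.1⟩ ha hb hab
    refine this.trans (le_of_eq ?_)
    congr 1
    simp only [smul_eq_mul]
    linear_combination (2 * Real.pi / 3) * hab
  exact (c4.add c1).add c2

/-- The expression of the zone at the angle `α`. -/
theorem eval_alpha {s a y α b : ℝ} (hp : g (Real.sin α) = Real.cos α)
    (hq : g b - g (Real.sin α) = Real.cos (2 * Real.pi / 3 - α))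
    (hq2 : Real.sin α + b = Real.sin (2 * Real.pi / 3 - α)) :
    g b + g (Real.sin α) - g (y + Real.sin α + b - h0) - g (y + Real.sin α - h0)
      - g (y + Real.sin α - h0 - a) + g (h0 + s - y) + g (s - a) =
    (Phi (h0 - y) (2 * Real.pi / 3 - α) + Phi (h0 - y) α + Phi (h0 - y + a) α)
      + (g (h0 + s - y) + g (s - a)) := by
  unfold Phi
  rw [← hq, ← hq2, ← hp, show Real.sin α + b - (h0 - y) = y + Real.sin α + b - h0 by ring,
    show Real.sin α - (h0 - y) = y + Real.sin α - h0 by ring,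
    show Real.sin α - (h0 - y + a) = y + Real.sin α - h0 - a by ring]
  ring

theorem realB5_of (R4 : RealB4) : RealB5 := by
  intro s a y p b hs0 hs1 ha hy0 hy1 hb0 hb1 hp h1 h2
  have hh1 := h0_gt
  have hh2 := h0_lt
  have hpi := Real.pi_pos
  -- the three angles
  have hsl : 0.736 < s := by linear_combination hs0 + (17 / 20) * hh1
  obtain ⟨α1, a1, a2, a3⟩ := alpha_of (p := h0 + s - y) (by linear_combination (10 / 3) * ha + hy1 + (10 / 3) * h1 + (10 / 3) * h2) (by linear_combination hy0)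
  obtain ⟨α2, b1, b2, b3⟩ := alpha_of (p := h0 + s - a - y) (by linear_combination (10 / 3) * ha + hy1 + (7 / 3) * h1 + (7 / 3) * h2) (by linear_combination hy0 + h1 + h2)
  obtain ⟨α, c1, c2, c3⟩ := alpha_of (p := p) (by linear_combination (10 / 3) * ha + hy1 + (10 / 3) * h1 + (7 / 3) * h2) (by linear_combination hy0 + h2)
  have l1 : α2 ≤ α := by
    by_contra hc
    have := Real.sin_lt_sin_of_lt_of_le_pi_div_two (x := α) (y := α2) (by linear_combination (2 / 3) * hpi + c1) (by linear_combination (1 / 6) * hpi + b2)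
      (not_le.1 hc)
    exact absurd h1 (not_le.mpr (by linear_combination b3 - c3 + this))
  have l2 : α ≤ α1 := by
    by_contra hc
    have := Real.sin_lt_sin_of_lt_of_le_pi_div_two (x := α1) (y := α) (by linear_combination (2 / 3) * hpi + a1) (by linear_combination (1 / 6) * hpi + c2)
      (not_le.1 hc)
    exact absurd h2 (not_le.mpr (by linear_combination -a3 + c3 + this))
  obtain ⟨u1, d1, d2, d3, d4, d5, d6⟩ := alpha_facts a1 a2
  obtain ⟨u2, f1, f2, f3, f4, f5, f6⟩ := alpha_facts b1 b2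
  obtain ⟨u3, k1, k2, k3, k4, k5, k6⟩ := alpha_facts c1 c2
  have hcon := (sum_concave (d := h0 - y) (t := h0 - y + a) (by linear_combination hy1) (by linear_combination hy1 + h1 + h2)
    (by linear_combination hs0 + hy0 + (3 / 20) * hh2) (by linear_combination (7 / 10) * hs0 + ha + hy0 + (81 / 200) * hh2) b1 a2 (l1.trans l2)).min_le_of_mem_Icc
      (left_mem_Icc.2 (l1.trans l2)) (right_mem_Icc.2 (l1.trans l2)) ⟨l1, l2⟩
  -- `u3 = b`
  have hub : u3 = b := by
    have e : h0 * g u3 - u3 / 2 = h0 * g b - b / 2 := by rw [← k3, c3, hp]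
    have hp0 := h0_pos
    rcases lt_trichotomy u3 b with h | h | h
    · have := mul_le_mul_of_nonneg_left (g_anti k1 h.le) hp0.le
      exact le_antisymm (by linear_combination h) (by linear_combination 2 * hp + 2 * c3 - 2 * k3 + 2 * this)
    · exact h
    · have := mul_le_mul_of_nonneg_left (g_anti hb0 h.le) hp0.le
      exact le_antisymm (by linear_combination -2 * hp - 2 * c3 + 2 * k3 + 2 * this) (by linear_combination h)
  subst hub
  have E1 := eval_alpha (s := s) (a := a) (y := y) d4 d5 d6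
  have E2 := eval_alpha (s := s) (a := a) (y := y) f4 f5 f6
  have E3 := eval_alpha (s := s) (a := a) (y := y) k4 k5 k6
  have C1 := mid_C1 (s := s) (y := y) (p := Real.sin α1) (b := u1) hs0 hy1 d1 d2 d3
    (by linear_combination -a3)
  have C2 := R4 s a y (Real.sin α2) u2 hs0 hs1 ha hy0 hy1 f1 f2 f3 (by linear_combination b3)
  rw [c3] at E3
  rw [E3]
  rcases min_le_iff.1 hcon with hm | hm
  · have G1 : g (y + Real.sin α2 - h0) = g (s - a) := by
      rw [b3]; congr 1; ring
    have G2 : g (h0 + s - a - (y + Real.sin α2)) = 1 := by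
      rw [b3, show h0 + s - a - (y + (h0 + s - a - y)) = 0 by ring, g_zero]
    rw [G2] at C2
    rw [G1] at E2
    linear_combination E2 + C2 + hm
  · have G1 : g (y + Real.sin α1 - h0) = g s := by
      rw [a3]; congr 1; ring
    have G2 : g (y + Real.sin α1 - h0 - a) = g (s - a) := by
      rw [a3]; congr 1; ring
    have G3 : g (Real.sin α1) = g (h0 + s - y) := by rw [a3]
    rw [G1] at C1
    rw [G1, G2, G3] at E1
    linear_combination E1 + C1 + hm

end Pool.Agent.Strip051.FourB
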