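import Pool.Agent.Strip051.FourB.MidB4p
import Pool.Agent.Strip051.FourB.MidB5
import Pool.Agent.Strip051.Four.MidReal3

set_option maxHeartbeats 4000000

/-! # The two remaining real inequalities for `s ≤ y ≤ h0` -/

namespace Pool.Agent.Strip051.FourB

open Pool.Agent.StripNear Pool.Agent.StripSquare Pool.Agent.Strip051
open Pool.Agent.Strip051.Four (ang ang_q le_g_of gb_tan h0_gt' h0_lt' arc_sub)

theorem gsq_of {x : ℝ} (h1 : -1 ≤ x) (h2 : x ≤ 1) : g x ^ 2 = 1 - x ^ 2 :=
  g_sq (by linear_combination (mul_nonneg (sub_nonneg.mpr h1) (sub_nonneg.mpr h2)))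

theorem g_le_of {x K : ℝ} (c : ℝ) (h1 : c ≤ x) (hc : 0 ≤ c) (hK : 0 ≤ K)
    (h3 : 1 ≤ c ^ 2 + K ^ 2) : g x ≤ K := by
  unfold g
  apply Real.sqrt_le_iff.2
  exact ⟨hK, by linear_combination h3 + (mul_nonneg (sub_nonneg.mpr h1) (sub_nonneg.mpr h1)) + 2 * (mul_nonneg (sub_nonneg.mpr h1) (sub_nonneg.mpr hc))⟩

/-- Chord bound for `1 - g b`. -/
theorem gb_chord_of {b : ℝ} (b0 b1 u v : ℝ) (h0 : b0 < b1) (h1 : b0 ≤ b) (h2 : b ≤ b1)
    (h5 : (1 - u - v * b0) ^ 2 + b0 ^ 2 ≤ 1) (h6 : (1 - u - v * b1) ^ 2 + b1 ^ 2 ≤ 1) :
    1 - g b ≤ u + v * b := by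
  have : 1 - u - v * b ≤ g b := by
    unfold g
    apply Real.le_sqrt_of_sq_le
    have e1 := mul_nonneg (sub_nonneg.2 h2) (sub_nonneg.2 h5)
    have e2 := mul_nonneg (sub_nonneg.2 h1) (sub_nonneg.2 h6)
    have e3 := mul_nonneg (mul_nonneg (mul_nonneg (sub_nonneg.2 h1) (sub_nonneg.2 h2))
      (sub_nonneg.2 h0.le)) (by positivity : 0 ≤ 1 + v ^ 2)
    have e4 : 0 ≤ (b1 - b0) * (1 - b ^ 2 - (1 - u - v * b) ^ 2) := by linear_combination e1 + e2 + e3
    have e5 := nonneg_of_mul_nonneg_right e4 (sub_pos.2 h0)
    linear_combination e5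
  linear_combination this

theorem gb_tan_of {b : ℝ} (u v : ℝ) (h0 : 0 ≤ 1 - u - v * b)
    (h1 : 1 ≤ (1 - u - v * b) ^ 2 + b ^ 2) : u + v * b ≤ 1 - g b := by
  have : g b ≤ 1 - u - v * b := by
    unfold g
    apply Real.sqrt_le_iff.2
    exact ⟨h0, by linear_combination h1⟩
  linear_combination this

theorem realB4 : RealB4 := by
  intro s a y p b hs0 hs1 ha hy0 hy1 hb0 hb1 hp hw
  have hh := h0_lt'
  have hg := h0_gt'
  have hq := h0_sq
  obtain ⟨k1, k2, k3, k4, k5, k6⟩ := ang hb0 hb1 hp
  obtain ⟨k7, k8⟩ := ang_q hb0 hb1 hp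
  obtain ⟨f, hf⟩ : ∃ f, f = 1 - g b := ⟨_, rfl⟩
  obtain ⟨F, hF⟩ : ∃ F, F = h0 * f := ⟨_, rfl⟩
  have k9 : 1339 / 10000 + (b - 1 / 2) * (5775 / 10000) ≤ 1 - g b := gb_tan hb1
  rw [← hf] at k1 k3 k4 k5 k9
  rw [← hF] at k1
  have hgb : g b = 1 - f := by rw [hf]; ring
  have hpe : p = h0 - b / 2 - F := by linear_combination -k1
  have hs : 7361 / 10000 ≤ s := by linear_combination hs0 + (17 / 20) * hg
  have F1 : 0 ≤ F - 86602 / 100000 * f := by
    have := mul_nonneg (sub_nonneg.2 hg.le) k4
    linear_combination -hF + this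
  have F2 : 0 ≤ 86603 / 100000 * f - F := by
    have := mul_nonneg (sub_nonneg.2 hh.le) k4
    linear_combination hF + this
  -- the arcs
  have ey := gsq_of (x := y) (by linear_combination (20 / 3) * hs0 + (17 / 3) * hs1 + hy0) (by linear_combination hy1 + hh)
  have ec := gsq_of (x := s) (by linear_combination (20 / 3) * hs0 + (17 / 3) * hs1) (by linear_combination hs1 + hh)
  have eA := gsq_of (x := h0 + s - y) (by linear_combination (20 / 3) * hs0 + (17 / 3) * hs1 + hy1) (by linear_combination hy0 + hh)
  have eu := gsq_of (x := y + p + b - h0) (by linear_combination hs0 + hy0 + hb0 + (3 / 20) * hh + k6) (by linear_combination hy1 + k8)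
  have ea := gsq_of (x := y + p - h0 - a) (by linear_combination (7 / 10) * hs0 + ha + hy0 + (81 / 200) * hh + k6) (by linear_combination (2 / 5) * hs1 - 2 * ha + hw + (2 / 5) * hh)
  have em := gsq_of (x := h0 + s - a - (y + p)) (by linear_combination hw) (by linear_combination (3 / 10) * hs0 - ha + hy0 + (149 / 200) * hh + k6)
  have E3 := arc_sub (a := 0) (b := y - s) (x := y) (y := h0) (by linear_combination hy0) hy1 (by linear_combination (20 / 3) * hs0 + (17 / 3) * hs1)
    (by linear_combination hh)
  rw [sub_zero, sub_zero, show h0 - (y - s) = h0 + s - y by ring, sub_sub_cancel, g_h0] at E3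
  have c1 : g y ≤ g s := g_anti (by linear_combination (20 / 3) * hs0 + (17 / 3) * hs1) hy0
  have c2 : g (h0 + s - y) ≤ g s := g_anti (by linear_combination (20 / 3) * hs0 + (17 / 3) * hs1) (by linear_combination hy1)
  have c3 : g s ≤ 677 / 1000 := g_le_of (7361 / 10000) hs (by norm_num) (by norm_num) (by norm_num)
  have c4 : 1 / 2 ≤ g y := by rw [← g_h0]; exact g_anti (by linear_combination (20 / 3) * hs0 + (17 / 3) * hs1 + hy0) hy1
  have c5 : 1 / 2 ≤ g (h0 + s - y) := by rw [← g_h0]; exact g_anti (by linear_combination (20 / 3) * hs0 + (17 / 3) * hs1 + hy1) (by linear_combination hy0)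
  rw [k2, hgb]
  rw [show y + p + b - h0 = y + b / 2 - F by rw [hpe]; ring] at eu ⊢
  rw [show y + p - h0 - a = y - b / 2 - F - 3 / 10 * (s - 1 / 2) by rw [hpe, ha]; ring] at ea ⊢
  rw [show h0 + s - a - (y + p) = s - 3 / 10 * (s - 1 / 2) - (y - b / 2 - F) by
    rw [hpe, ha]; ring] at em ⊢
  rw [show h0 + s - y = s + h0 - y by ring] at eA c2 c5 E3 ⊢
  rcases le_total y (82 / 100) with hy | hy
  · have d1 : 5723 / 10000 ≤ g y := le_g_of (by linear_combination (20 / 3) * hs0 + (17 / 3) * hs1 + hy0) (82 / 100) hy (by norm_num)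
    have d2 : g (s + h0 - y) ≤ 6233 / 10000 :=
      g_le_of (78212 / 100000) (by linear_combination hs0 + (37 / 20) * hg + hy) (by norm_num) (by norm_num) (by norm_num)
    have d3 := gb_chord_of (b := b) 0 (1 / 2) 0 (268 / 1000) (by norm_num) hb0 hb1 (by norm_num)
      (by norm_num)
    rw [← hf] at d3
    have := b4_polyA (s := s) (b := b) (f := f) (F := F) (y := y) (H := h0) (c := g s)
      (gy := g y) (gu := g (y + b / 2 - F)) (ga := g (y - b / 2 - F - 3 / 10 * (s - 1 / 2)))
      (gm := g (s - 3 / 10 * (s - 1 / 2) - (y - b / 2 - F))) (gA := g (s + h0 - y))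
      (by linear_combination hg) (by linear_combination hh) (by linear_combination -ha + hw + k1) (by linear_combination d3) (by linear_combination F1) (by linear_combination hs0 + (17 / 20) * hg)
      (by linear_combination hy) (by linear_combination hy0) (by linear_combination k9) (by linear_combination hb1) (by linear_combination F2) (by linear_combination c1)
      (by linear_combination d1) (by linear_combination E3) (by linear_combination c3) (by linear_combination d2) (by linear_combination E3 + c1) (by linear_combination c1 + c3)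
      hq hF k3 ec ey eu ea em eA
    linear_combination this
  have d1 : g y ≤ 1431 / 2500 := g_le_of (82 / 100) hy (by norm_num) (by norm_num) (by norm_num)
  rcases le_total b (1 / 4) with hb | hb
  · have d3 := gb_chord_of (b := b) 0 (1 / 4) 0 (1271 / 10000) (by norm_num) hb0 hb (by norm_num)
      (by norm_num)
    have d4 := gb_tan_of (b := b) (-(657 / 20000)) (1291 / 5000) (by linear_combination (1291 / 5000) * hb1)
      (by have := sq_nonneg (b - 1 / 4); linear_combination (753 / 25000000) * hb + (26666681 / 25000000) * this)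
    rw [← hf] at d3 d4
    have := b4_polyB (s := s) (b := b) (f := f) (F := F) (y := y) (H := h0) (c := g s)
      (gy := g y) (gu := g (y + b / 2 - F)) (ga := g (y - b / 2 - F - 3 / 10 * (s - 1 / 2)))
      (gm := g (s - 3 / 10 * (s - 1 / 2) - (y - b / 2 - F))) (gA := g (s + h0 - y))
      (by linear_combination -ha + hw + k1) (by linear_combination hh) (by linear_combination hy1) (by linear_combination F2) (by linear_combination hb) (by linear_combination d4)
      (by linear_combination hy0) (by linear_combination F1) (by linear_combination k9) (by linear_combination hs0 + (17 / 20) * hg) (by linear_combination hy) (by linear_combination c1)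
      (by linear_combination c2) (by linear_combination E3) (by linear_combination d1) (by linear_combination c2 + c3) (by linear_combination c3) (by linear_combination d3)
      hq hF k3 ec ey eu ea em eA
    linear_combination this
  · have d3 := gb_chord_of (b := b) (1 / 4) (1 / 2) (-(1409 / 20000)) (409 / 1000) (by norm_num) hb
      hb1 (by norm_num) (by norm_num)
    have d4 := gb_tan_of (b := b) (-(1313 / 40000)) (2581 / 10000) (by linear_combination (2581 / 10000) * hb1)
      (by have := sq_nonneg (b - 1 / 4); linear_combination (8177 / 50000000) * hb0 + (106661561 / 100000000) * this)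
    rw [← hf] at d3 d4
    have := b4_polyC (s := s) (b := b) (f := f) (F := F) (y := y) (H := h0) (c := g s)
      (gy := g y) (gu := g (y + b / 2 - F)) (ga := g (y - b / 2 - F - 3 / 10 * (s - 1 / 2)))
      (gm := g (s - 3 / 10 * (s - 1 / 2) - (y - b / 2 - F))) (gA := g (s + h0 - y))
      (by linear_combination -ha + hw + k1) (by linear_combination hg) (by linear_combination hh) (by linear_combination hy1) (by linear_combination hs0 + (17 / 20) * hg) (by linear_combination F2)
      (by linear_combination d4) (by linear_combination hy) (by linear_combination hb) (by linear_combination F1) (by linear_combination k9) (by linear_combination hb1)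
      (by linear_combination c2) (by linear_combination d1) (by linear_combination E3) (by linear_combination c3) (by linear_combination c2 + c3) (by linear_combination d3)
      (by linear_combination E3 + c2) hq hF k3 ec ey eu ea em eA
    linear_combination this

theorem realB5 : RealB5 := realB5_of realB4

end Pool.Agent.Strip051.FourB
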