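import Pool.Agent.Strip051.FourB.MidAsm
import Pool.Agent.Strip051.FourB.MidReal

/-! # The case `s ≤ y ≤ h0` -/

namespace Pool.Agent.Strip051.FourB

open Pool.Agent.StripNear Pool.Agent.StripSquare Pool.Agent.Strip051

theorem midB {s t a : ℝ} (P : Par s t a) : MidB s a := midB_of P realB5 realB4

end Pool.Agent.Strip051.FourB
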