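import Pool.Agent.Strip051.FourB.LowA
import Pool.Agent.Strip051.FourB.Mid
import Pool.Agent.Strip051.FourB.High

/-! # The count bound with two rows, `17 / 20 h0 ≤ s < h0` -/

namespace Pool.Agent.Strip051.FourB

open Pool.Agent.StripNear Pool.Agent.StripSquare Pool.Agent.Strip051

theorem countBound {s : ℝ} (h1 : 17 / 20 * h0 ≤ s) (h2 : s < h0) : CountBound 2 s := by
  obtain ⟨t, a, P⟩ := par_exists h1 h2
  exact count P (lowA P) (midB P) (highC P)

end Pool.Agent.Strip051.FourB
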