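import Pool.Agent.Strip051.FourB.Defs
import Pool.Agent.Strip051.Four.LowReal

/-! # Linear bounds for the unit arc

Tangents and chords of the unit circle in rational points. -/

namespace Pool.Agent.Strip051.FourB

open Pool.Agent.StripNear Pool.Agent.StripSquare Pool.Agent.Strip051
open Pool.Agent.Strip051.Four.Low (ph)

/-- Lower bound by a tangent. -/
theorem lo {t x : ℝ} (ht : t ^ 2 < 1) (h1 : -1 ≤ x) (h2 : x ≤ 1) :
    2 * t * x - 2 * t ^ 2 ≤ (1 - t ^ 2) * ph x := by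
  have hx : x ^ 2 ≤ 1 := by linear_combination (mul_nonneg (sub_nonneg.mpr h1) (sub_nonneg.mpr h2))
  have gs := g_sq hx
  have gn := g_nonneg x
  have hp : 0 < 1 - t ^ 2 := by linear_combination ht
  have hr : 0 ≤ 1 + t ^ 2 - 2 * t * x := by
    have h3 : t * x ≤ (t ^ 2 + x ^ 2) / 2 := by linear_combination (1 / 2) * (sq_nonneg (t - x))
    linear_combination hx + 2 * h3
  have key : (1 - t ^ 2) * g x ≤ 1 + t ^ 2 - 2 * t * x := by
    apply abs_le_of_sq_le_sq' _ hr |>.2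
    have e : (1 + t ^ 2 - 2 * t * x) ^ 2 - ((1 - t ^ 2) * g x) ^ 2 =
        ((1 + t ^ 2) * x - 2 * t) ^ 2 := by
      rw [mul_pow, gs]
      ring
    linear_combination (sq_nonneg ((1 + t ^ 2) * x - 2 * t)) - e
  unfold Four.Low.ph
  linear_combination key

/-- Upper bound by a chord. -/
theorem up {t1 t2 x : ℝ} (h1 : t1 * t2 < 1) (h2 : 2 * t1 ≤ (1 + t1 ^ 2) * x)
    (h3 : (1 + t2 ^ 2) * x ≤ 2 * t2) :
    (1 - t1 * t2) * ph x ≤ (t1 + t2) * x - 2 * (t1 * t2) := by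
  have hx1 : -1 ≤ x := by exact not_lt.mp (fun hg__ => absurd h2 (not_le.mpr (by linear_combination hg__ + (sq_nonneg (t1 + 1)) + (mul_nonneg (sub_nonneg.mpr (le_of_lt hg__)) (sub_nonneg.mpr (sq_nonneg (t1)))))))
  have hx2 : x ≤ 1 := by exact not_lt.mp (fun hg__ => absurd h3 (not_le.mpr (by linear_combination hg__ + (sq_nonneg (t2 - 1)) + (mul_nonneg (sub_nonneg.mpr (le_of_lt hg__)) (sub_nonneg.mpr (sq_nonneg (t2)))))))
  have hx : x ^ 2 ≤ 1 := by linear_combination (mul_nonneg (sub_nonneg.mpr hx1) (sub_nonneg.mpr hx2))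
  have gs := g_sq hx
  have gn := g_nonneg x
  have hp : 0 < 1 - t1 * t2 := by linear_combination h1
  have key : 1 + t1 * t2 - (t1 + t2) * x ≤ (1 - t1 * t2) * g x := by
    apply abs_le_of_sq_le_sq' _ (mul_nonneg hp.le gn) |>.2
    have e : ((1 - t1 * t2) * g x) ^ 2 - (1 + t1 * t2 - (t1 + t2) * x) ^ 2 =
        ((1 + t1 ^ 2) * x - 2 * t1) * (2 * t2 - (1 + t2 ^ 2) * x) := by
      rw [mul_pow, gs]
      ring
    have := mul_nonneg (sub_nonneg.2 h2) (sub_nonneg.2 h3)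
    linear_combination -e + this
  unfold Four.Low.ph
  linear_combination key

/-- The sum of the gains minus the claim, the exit is above the top of the body. -/
noncomputable def Uaa (s a b t k : ℝ) : ℝ :=
  1 / 2 + h0 * b - 3 / 2 * ph b - ph (h0 + t) + ph (s - a - t - b / 2 - k) +
    ph (s - t + b / 2 - k) + ph (t + b / 2 + k - a) + 2 * ph s - 4 * ph (s - t)

/-- The sum of the gains minus the claim, the exit is above the top of the body. -/
noncomputable def Ubb (s a b t k : ℝ) : ℝ :=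
  1 / 2 + h0 * b - 3 / 2 * ph b - ph (h0 + t) + ph (s - t - b / 2 - k) - ph (s - a) +
    ph (s - t + b / 2 - k) + ph (s - a - t - b / 2 - k) + 2 * ph s - 4 * ph (s - t)

/-- The sum of the gains minus the claim, the exit is below the top of the body. -/
noncomputable def Daa (s a b t k : ℝ) : ℝ :=
  -2 * ph b + ph (s - a - t - b / 2 - k) + ph (s - t + b / 2 - k) +
    ph (s - a - t + b / 2 - k) - ph (s - a) + ph (t + b / 2 + k - a) + 2 * ph s - 4 * ph (s - t)

/-- The sum of the gains minus the claim, the exit is below the top of the body. -/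
noncomputable def Dbb (s a b t k : ℝ) : ℝ :=
  -2 * ph b + ph (s - t + b / 2 - k) + ph (s - t - b / 2 - k) - 2 * ph (s - a) +
    ph (s - a - t + b / 2 - k) + ph (s - a - t - b / 2 - k) + 2 * ph s - 4 * ph (s - t)

/-- The gain of the second probe minus the claim, the exit is below the top of the body. -/
noncomputable def Da0 (s a b t k : ℝ) : ℝ :=
  -ph b + ph (s - a - t - b / 2 - k) + ph (s - t + b / 2 - k) - ph (s - a) + ph (s - 2 * a) +
    2 * ph s - 4 * ph (s - t)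

/-- The constraints: `s - t` is the height of the new point, `b` is the height between the exit and
the virtual disc. -/
structure Reg (s a b t k : ℝ) : Prop where
  ha : a = 3 / 10 * (s - 1 / 2)
  k1 : 86602 / 100000 * ph b ≤ k
  k2 : k ≤ 86603 / 100000 * ph b
  hz : s - t + b / 2 - k ≤ 1
  h1 : 86602 / 100000 ≤ h0
  h2 : h0 ≤ 86603 / 100000
  h3 : 86602 / 100000 * b ≤ h0 * b
  h4 : 0 ≤ k
  h5 : k ≤ 1161 / 10000
  s1 : 7361 / 10000 ≤ s
  s2 : s ≤ 8661 / 10000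
  b1 : 0 ≤ b
  b2 : b ≤ 1 / 2
  t1 : 0 ≤ t
  t2 : t ≤ 21 / 100

section

variable {s a b t k : ℝ}

theorem Reg.lo1 (R : Reg s a b t k) (u : ℝ) (hu : u ^ 2 < 1) :
    2 * u * (s - t + b / 2 - k) - 2 * u ^ 2 ≤ (1 - u ^ 2) * ph (s - t + b / 2 - k) :=
  lo hu (by linear_combination R.s1 + R.t2 + (1 / 2) * R.b1 + R.h5) R.hz

theorem Reg.lo2 (R : Reg s a b t k) (u : ℝ) (hu : u ^ 2 < 1) :
    2 * u * s - 2 * u ^ 2 ≤ (1 - u ^ 2) * ph s :=
  lo hu (by linear_combination R.s1) (by linear_combination R.s2)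

theorem Reg.lo3 (R : Reg s a b t k) (u : ℝ) (hu : u ^ 2 < 1) :
    2 * u * (s - a - t - b / 2 - k) - 2 * u ^ 2 ≤ (1 - u ^ 2) * ph (s - a - t - b / 2 - k) :=
  lo hu (by linear_combination (7 / 10) * R.s1 + R.t2 + (1 / 2) * R.b2 + R.h5 + R.ha)
    (by linear_combination (7 / 10) * R.s2 + R.t1 + (1 / 2) * R.b1 + R.h4 - R.ha)

theorem Reg.lo4 (R : Reg s a b t k) (u : ℝ) (hu : u ^ 2 < 1) :
    2 * u * (t + b / 2 + k - a) - 2 * u ^ 2 ≤ (1 - u ^ 2) * ph (t + b / 2 + k - a) :=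
  lo hu (by linear_combination (3 / 10) * R.s2 + R.t1 + (1 / 2) * R.b1 + R.h4 + R.ha) (by linear_combination (3 / 10) * R.s1 + R.t2 + (1 / 2) * R.b2 + R.h5 - R.ha)

theorem Reg.lo5 (R : Reg s a b t k) (u : ℝ) (hu : u ^ 2 < 1) :
    2 * u * (s - t - b / 2 - k) - 2 * u ^ 2 ≤ (1 - u ^ 2) * ph (s - t - b / 2 - k) :=
  lo hu (by linear_combination R.s1 + R.t2 + (1 / 2) * R.b2 + R.h5) (by linear_combination R.s2 + R.t1 + (1 / 2) * R.b1 + R.h4)

theorem Reg.lo6 (R : Reg s a b t k) (u : ℝ) (hu : u ^ 2 < 1) :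
    2 * u * (s - a - t + b / 2 - k) - 2 * u ^ 2 ≤ (1 - u ^ 2) * ph (s - a - t + b / 2 - k) :=
  lo hu (by linear_combination (7 / 10) * R.s1 + R.t2 + (1 / 2) * R.b1 + R.h5 + R.ha) (by linear_combination (3 / 10) * R.s1 + R.hz - R.ha)

theorem Reg.lo7 (R : Reg s a b t k) (u : ℝ) (hu : u ^ 2 < 1) :
    2 * u * (s - 2 * a) - 2 * u ^ 2 ≤ (1 - u ^ 2) * ph (s - 2 * a) :=
  lo hu (by linear_combination (2 / 5) * R.s1 + 2 * R.ha) (by linear_combination (2 / 5) * R.s2 - 2 * R.ha)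

theorem Reg.lo8 (R : Reg s a b t k) (u : ℝ) (hu : u ^ 2 < 1) :
    2 * u * b - 2 * u ^ 2 ≤ (1 - u ^ 2) * ph b :=
  lo hu (by linear_combination R.b1) (by linear_combination R.b2)

end

end Pool.Agent.Strip051.FourB
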