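import Pool.Agent.Strip051.FourB.Box

/-! # The exit is below the top of the body, boxes 1 -/

namespace Pool.Agent.Strip051.FourB

open Pool.Agent.StripNear Pool.Agent.StripSquare Pool.Agent.Strip051
open Pool.Agent.Strip051.Four.Low (ph)

theorem d8 {s a b t k : ℝ} (R : Reg s a b t k) (hE : b / 2 ≤ t + k)
    (s1 : 7361 / 10000 ≤ s) (s2 : s ≤ 8011 / 10000)
    (b1 : 1 / 20 ≤ b) (b2 : b ≤ 1063 / 10000) (t1 : 0 ≤ t) (t2 : t ≤ 33 / 2500) :
    (t - b / 2 + k ≤ a ∧ 0 ≤ Daa s a b t k) ∨ 0 ≤ Dbb s a b t k ∨ 0 ≤ Da0 s a b t k := by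
  have e1 := up (t1 := 25 / 1000) (t2 := (54 / 1000)) (x := b) (by norm_num)
    (by linear_combination (1601 / 1600) * b1) (by linear_combination (250729 / 250000) * b2)
  exfalso
  exact absurd b1 (not_le.mpr (by linear_combination (86603000 / 43090863) * e1 + (99865000 / 43090863) * R.k2 + (99865000 / 43090863) * t2 + (99865000 / 43090863) * hE))

theorem d11 {s a b t k : ℝ} (R : Reg s a b t k) (hE : b / 2 ≤ t + k)
    (s1 : 7361 / 10000 ≤ s) (s2 : s ≤ 8011 / 10000)
    (b1 : 1 / 20 ≤ b) (b2 : b ≤ 391 / 5000) (t1 : 33 / 2500 ≤ t) (t2 : t ≤ 99 / 5000) :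
    (t - b / 2 + k ≤ a ∧ 0 ≤ Daa s a b t k) ∨ 0 ≤ Dbb s a b t k ∨ 0 ≤ Da0 s a b t k := by
  have e1 := up (t1 := 25 / 1000) (t2 := (40 / 1000)) (x := b) (by norm_num)
    (by linear_combination (1601 / 1600) * b1) (by linear_combination (626 / 625) * b2)
  exfalso
  exact absurd b1 (not_le.mpr (by linear_combination (17320600 / 8864161) * e1 + (19980000 / 8864161) * R.k2 + (19980000 / 8864161) * t2 + (19980000 / 8864161) * hE))

theorem d14 {s a b t k : ℝ} (R : Reg s a b t k) (hE : b / 2 ≤ t + k)
    (s1 : 7361 / 10000 ≤ s) (s2 : s ≤ 8011 / 10000)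
    (b1 : 1 / 20 ≤ b) (b2 : b ≤ 641 / 10000) (t1 : 99 / 5000 ≤ t) (t2 : t ≤ 231 / 10000) :
    (t - b / 2 + k ≤ a ∧ 0 ≤ Daa s a b t k) ∨ 0 ≤ Dbb s a b t k ∨ 0 ≤ Da0 s a b t k := by
  have e1 := up (t1 := 25 / 1000) (t2 := (33 / 1000)) (x := b) (by norm_num)
    (by linear_combination (1601 / 1600) * b1) (by linear_combination (1001089 / 1000000) * b2)
  exfalso
  exact absurd b1 (not_le.mpr (by linear_combination (10825375 / 5616972) * e1 + (24979375 / 11233944) * R.k2 + (24979375 / 11233944) * t2 + (24979375 / 11233944) * hE))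

theorem d17 {s a b t k : ℝ} (R : Reg s a b t k) (hE : b / 2 ≤ t + k)
    (s1 : 7361 / 10000 ≤ s) (s2 : s ≤ 3843 / 5000)
    (b1 : 1 / 20 ≤ b) (b2 : b ≤ 571 / 10000) (t1 : 231 / 10000 ≤ t) (t2 : t ≤ 263 / 10000) :
    (t - b / 2 + k ≤ a ∧ 0 ≤ Daa s a b t k) ∨ 0 ≤ Dbb s a b t k ∨ 0 ≤ Da0 s a b t k := by
  have e1 := up (t1 := 416 / 1000) (t2 := (448 / 1000)) (x := s - t) (by norm_num)
    (by linear_combination (18329 / 15625) * s1 + (18329 / 15625) * t2) (by linear_combination (18761 / 15625) * s2 + (18761 / 15625) * t1)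
  have e2 := R.lo2 (454 / 1000) (by norm_num)
  have e3 := R.lo3 (350 / 1000) (by norm_num)
  have e4 := R.lo6 (390 / 1000) (by norm_num)
  have e5 := up (t1 := 380 / 1000) (t2 := (399 / 1000)) (x := s - a) (by norm_num)
    (by linear_combination (20027 / 25000) * s1 + (2861 / 2500) * R.ha) (by linear_combination (8114407 / 10000000) * s2 - (1159201 / 1000000) * R.ha)
  have e6 := R.lo5 (408 / 1000) (by norm_num)
  have e7 := R.lo1 (454 / 1000) (by norm_num)
  have e8 := up (t1 := 25 / 1000) (t2 := (29 / 1000)) (x := b) (by norm_num)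
    (by linear_combination (1601 / 1600) * b1) (by linear_combination (1000841 / 1000000) * b2)
  right; left
  unfold Dbb
  linear_combination (955048136943980251 / 179192953347231096) * e8 + (250000 / 198471) * e7 + (15625 / 13024) * e6 + (100000 / 42419) * e5 + (10000 / 8479) * e4 + (400 / 351) * e3 + (500000 / 198471) * e2 + (62500 / 12713) * e1 - (1153685740 / 9711108927) * R.ha + (378764265180935 / 98627629372272) * R.k2 + (324902987353704478913 / 4091322509360231313168) * s1 + (35557654040882661293 / 246390310852442757000) * b2 + (510661882857461345 / 1253853052209693936) * t1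

theorem d18 {s a b t k : ℝ} (R : Reg s a b t k) (hE : b / 2 ≤ t + k)
    (s1 : 3843 / 5000 ≤ s) (s2 : s ≤ 8011 / 10000)
    (b1 : 1 / 20 ≤ b) (b2 : b ≤ 571 / 10000) (t1 : 231 / 10000 ≤ t) (t2 : t ≤ 263 / 10000) :
    (t - b / 2 + k ≤ a ∧ 0 ≤ Daa s a b t k) ∨ 0 ≤ Dbb s a b t k ∨ 0 ≤ Da0 s a b t k := by
  have e1 := up (t1 := 444 / 1000) (t2 := (478 / 1000)) (x := s - t) (by norm_num)
    (by linear_combination (74821 / 62500) * s1 + (74821 / 62500) * t2) (by linear_combination (307121 / 250000) * s2 + (307121 / 250000) * t1)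
  have e2 := R.lo2 (485 / 1000) (by norm_num)
  have e3 := R.lo3 (367 / 1000) (by norm_num)
  have e4 := R.lo6 (409 / 1000) (by norm_num)
  have e5 := up (t1 := 398 / 1000) (t2 := (418 / 1000)) (x := s - a) (by norm_num)
    (by linear_combination (2027207 / 2500000) * s1 + (289601 / 250000) * R.ha) (by linear_combination (2055767 / 2500000) * s2 - (293681 / 250000) * R.ha)
  have e6 := R.lo5 (435 / 1000) (by norm_num)
  have e7 := R.lo1 (485 / 1000) (by norm_num)
  have e8 := up (t1 := 25 / 1000) (t2 := (29 / 1000)) (x := b) (by norm_num)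
    (by linear_combination (1601 / 1600) * b1) (by linear_combination (1000841 / 1000000) * b2)
  right; left
  unfold Dbb
  linear_combination (1621244083631996635867520 / 288625389398528662587681) * e8 + (40000 / 30591) * e7 + (40000 / 32431) * e6 + (500000 / 208409) * e5 + (1000000 / 832719) * e4 + (1000000 / 865311) * e3 + (80000 / 30591) * e2 + (500000 / 98471) * e1 - (2121001573064000 / 16685708757679009) * R.ha + (331377649683327065600 / 79429568521773668121) * R.k2 + (58425239547507630943333169000 / 543357625971638590606740403773) * s1 + (11003951335070978372332672 / 79371982084595382211612275) * b2 + (3985942546570761527083400 / 7821509041907574873542991) * t1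

theorem d19 {s a b t k : ℝ} (R : Reg s a b t k) (hE : b / 2 ≤ t + k)
    (s1 : 7361 / 10000 ≤ s) (s2 : s ≤ 8011 / 10000)
    (b1 : 571 / 10000 ≤ b) (b2 : b ≤ 641 / 10000) (t1 : 231 / 10000 ≤ t) (t2 : t ≤ 263 / 10000) :
    (t - b / 2 + k ≤ a ∧ 0 ≤ Daa s a b t k) ∨ 0 ≤ Dbb s a b t k ∨ 0 ≤ Da0 s a b t k := by
  have e1 := up (t1 := 28 / 1000) (t2 := (33 / 1000)) (x := b) (by norm_num)
    (by linear_combination (62549 / 62500) * b1) (by linear_combination (1001089 / 1000000) * b2)
  exfalso
  exact absurd b1 (not_le.mpr (by linear_combination (86603000 / 44671017) * e1 + (99907600 / 44671017) * R.k2 + (99907600 / 44671017) * t2 + (99907600 / 44671017) * hE))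

theorem d20 {s a b t k : ℝ} (R : Reg s a b t k) (hE : b / 2 ≤ t + k)
    (s1 : 7361 / 10000 ≤ s) (s2 : s ≤ 8011 / 10000)
    (b1 : 641 / 10000 ≤ b) (b2 : b ≤ 391 / 5000) (t1 : 99 / 5000 ≤ t) (t2 : t ≤ 263 / 10000) :
    (t - b / 2 + k ≤ a ∧ 0 ≤ Daa s a b t k) ∨ 0 ≤ Dbb s a b t k ∨ 0 ≤ Da0 s a b t k := by
  have e1 := up (t1 := 32 / 1000) (t2 := (40 / 1000)) (x := b) (by norm_num)
    (by linear_combination (15641 / 15625) * b1) (by linear_combination (626 / 625) * b2)
  exfalso
  exact absurd b1 (not_le.mpr (by linear_combination (10825375 / 5462573) * e1 + (12484000 / 5462573) * R.k2 + (12484000 / 5462573) * t2 + (12484000 / 5462573) * hE))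

theorem d21 {s a b t k : ℝ} (R : Reg s a b t k) (hE : b / 2 ≤ t + k)
    (s1 : 7361 / 10000 ≤ s) (s2 : s ≤ 8011 / 10000)
    (b1 : 391 / 5000 ≤ b) (b2 : b ≤ 1063 / 10000) (t1 : 33 / 2500 ≤ t) (t2 : t ≤ 263 / 10000) :
    (t - b / 2 + k ≤ a ∧ 0 ≤ Daa s a b t k) ∨ 0 ≤ Dbb s a b t k ∨ 0 ≤ Da0 s a b t k := by
  have e1 := up (t1 := 39 / 1000) (t2 := (54 / 1000)) (x := b) (by norm_num)
    (by linear_combination (1001521 / 1000000) * b1) (by linear_combination (250729 / 250000) * b2)
  exfalso
  exact absurd b1 (not_le.mpr (by linear_combination (86603000 / 41840621) * e1 + (99789400 / 41840621) * R.k2 + (99789400 / 41840621) * t2 + (99789400 / 41840621) * hE))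

theorem d22 {s a b t k : ℝ} (R : Reg s a b t k) (hE : b / 2 ≤ t + k)
    (s1 : 7361 / 10000 ≤ s) (s2 : s ≤ 8011 / 10000)
    (b1 : 1063 / 10000 ≤ b) (b2 : b ≤ 13 / 80) (t1 : 0 ≤ t) (t2 : t ≤ 263 / 10000) :
    (t - b / 2 + k ≤ a ∧ 0 ≤ Daa s a b t k) ∨ 0 ≤ Dbb s a b t k ∨ 0 ≤ Da0 s a b t k := by
  have e1 := up (t1 := 53 / 1000) (t2 := (82 / 1000)) (x := b) (by norm_num)
    (by linear_combination (1002809 / 1000000) * b1) (by linear_combination (251681 / 250000) * b2)
  exfalso
  exact absurd b1 (not_le.mpr (by linear_combination (1574600 / 692569) * e1 + (1810280 / 692569) * R.k2 + (1810280 / 692569) * t2 + (1810280 / 692569) * hE))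

theorem d29 {s a b t k : ℝ} (R : Reg s a b t k) (hE : b / 2 ≤ t + k)
    (s1 : 7361 / 10000 ≤ s) (s2 : s ≤ 1881 / 2500)
    (b1 : 1 / 20 ≤ b) (b2 : b ≤ 391 / 5000) (t1 : 263 / 10000 ≤ t) (t2 : t ≤ 329 / 10000) :
    (t - b / 2 + k ≤ a ∧ 0 ≤ Daa s a b t k) ∨ 0 ≤ Dbb s a b t k ∨ 0 ≤ Da0 s a b t k := by
  have e1 := up (t1 := 410 / 1000) (t2 := (431 / 1000)) (x := s - t) (by norm_num)
    (by linear_combination (11681 / 10000) * s1 + (11681 / 10000) * t2) (by linear_combination (1185761 / 1000000) * s2 + (1185761 / 1000000) * t1)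
  have e2 := R.lo2 (446 / 1000) (by norm_num)
  have e3 := R.lo3 (339 / 1000) (by norm_num)
  have e4 := R.lo6 (386 / 1000) (by norm_num)
  have e5 := up (t1 := 380 / 1000) (t2 := (390 / 1000)) (x := s - a) (by norm_num)
    (by linear_combination (20027 / 25000) * s1 + (2861 / 2500) * R.ha) (by linear_combination (80647 / 100000) * s2 - (11521 / 10000) * R.ha)
  have e6 := R.lo5 (393 / 1000) (by norm_num)
  have e7 := R.lo1 (447 / 1000) (by norm_num)
  have e8 := up (t1 := 25 / 1000) (t2 := (40 / 1000)) (x := b) (by norm_num)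
    (by linear_combination (1601 / 1600) * b1) (by linear_combination (626 / 625) * b2)
  right; left
  unfold Dbb
  linear_combination (1234254453483519998121850 / 236136890221671437656749) * e8 + (1000000 / 800191) * e7 + (1000000 / 845551) * e6 + (10000 / 4259) * e5 + (250000 / 212751) * e4 + (1000000 / 885079) * e3 + (500000 / 200271) * e2 + (400000 / 82329) * e1 - (108057460858300 / 801975842879211) * R.ha + (9672398406112114945000 / 2600105898336722536761) * R.k2 + (145795972477076288767475881380370 / 1560571680279650624790324681233673) * s1 + (260269666077720657475213 / 1484289024250506179556708) * b2 + (2009147072401773078448600 / 5488823551388821275102471) * t1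

theorem d30 {s a b t k : ℝ} (R : Reg s a b t k) (hE : b / 2 ≤ t + k)
    (s1 : 7361 / 10000 ≤ s) (s2 : s ≤ 1881 / 2500)
    (b1 : 1 / 20 ≤ b) (b2 : b ≤ 391 / 5000) (t1 : 329 / 10000 ≤ t) (t2 : t ≤ 197 / 5000) :
    (t - b / 2 + k ≤ a ∧ 0 ≤ Daa s a b t k) ∨ 0 ≤ Dbb s a b t k ∨ 0 ≤ Da0 s a b t k := by
  have e1 := up (t1 := 405 / 1000) (t2 := (425 / 1000)) (x := s - t) (by norm_num)
    (by linear_combination (46561 / 40000) * s1 + (46561 / 40000) * t2) (by linear_combination (1889 / 1600) * s2 + (1889 / 1600) * t1)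
  have e2 := R.lo2 (446 / 1000) (by norm_num)
  have e3 := R.lo3 (334 / 1000) (by norm_num)
  have e4 := R.lo6 (381 / 1000) (by norm_num)
  have e5 := up (t1 := 380 / 1000) (t2 := (390 / 1000)) (x := s - a) (by norm_num)
    (by linear_combination (20027 / 25000) * s1 + (2861 / 2500) * R.ha) (by linear_combination (80647 / 100000) * s2 - (11521 / 10000) * R.ha)
  have e6 := R.lo5 (388 / 1000) (by norm_num)
  have e7 := R.lo1 (441 / 1000) (by norm_num)
  have e8 := up (t1 := 25 / 1000) (t2 := (40 / 1000)) (x := b) (by norm_num)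
    (by linear_combination (1601 / 1600) * b1) (by linear_combination (626 / 625) * b2)
  right; left
  unfold Dbb
  linear_combination (423426127282092745497205 / 81937249812334024918641) * e8 + (1000000 / 805519) * e7 + (62500 / 53091) * e6 + (10000 / 4259) * e5 + (1000000 / 854839) * e4 + (250000 / 222111) * e3 + (500000 / 200271) * e2 + (32000 / 6623) * e1 - (133155903488300 / 808652689104411) * R.ha + (3294647391328107008500 / 902211959895569843949) * R.k2 + (5047226433753892490890037501110 / 45916213076676635955989759190873) * s1 + (6324659938062436173610063 / 36052389917426970964202040) * b2 + (57899999515142765891620 / 161495940821307002066871) * t1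

theorem d31 {s a b t k : ℝ} (R : Reg s a b t k) (hE : b / 2 ≤ t + k)
    (s1 : 1881 / 2500 ≤ s) (s2 : s ≤ 3843 / 5000)
    (b1 : 1 / 20 ≤ b) (b2 : b ≤ 391 / 5000) (t1 : 263 / 10000 ≤ t) (t2 : t ≤ 197 / 5000) :
    (t - b / 2 + k ≤ a ∧ 0 ≤ Daa s a b t k) ∨ 0 ≤ Dbb s a b t k ∨ 0 ≤ Da0 s a b t k := by
  have e1 := up (t1 := 419 / 1000) (t2 := (445 / 1000)) (x := s - t) (by norm_num)
    (by linear_combination (1175561 / 1000000) * s1 + (1175561 / 1000000) * t2) (by linear_combination (47921 / 40000) * s2 + (47921 / 40000) * t1)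
  have e2 := R.lo2 (461 / 1000) (by norm_num)
  have e3 := R.lo3 (344 / 1000) (by norm_num)
  have e4 := R.lo6 (392 / 1000) (by norm_num)
  have e5 := up (t1 := 389 / 1000) (t2 := (399 / 1000)) (x := s - a) (by norm_num)
    (by linear_combination (8059247 / 10000000) * s1 + (1151321 / 1000000) * R.ha) (by linear_combination (8114407 / 10000000) * s2 - (1159201 / 1000000) * R.ha)
  have e6 := R.lo5 (403 / 1000) (by norm_num)
  have e7 := R.lo1 (459 / 1000) (by norm_num)
  have e8 := up (t1 := 25 / 1000) (t2 := (40 / 1000)) (x := b) (by norm_num)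
    (by linear_combination (1601 / 1600) * b1) (by linear_combination (626 / 625) * b2)
  right; left
  unfold Dbb
  linear_combination (17793753360819697723295 / 3342208360734454032864) * e8 + (1000000 / 789319) * e7 + (1000000 / 837591) * e6 + (2000000 / 844789) * e5 + (15625 / 13224) * e4 + (15625 / 13776) * e3 + (2000000 / 787479) * e2 + (800000 / 162709) * e1 - (169786246375 / 1068739184744) * R.ha + (3205040683210019125 / 836388478662275784) * R.k2 + (125787690720617566032840299825 / 1168160036519732915833725541872) * s1 + (3297955950402624370081 / 19098333489911165902080) * b2 + (56622751926946020091175 / 136087932974660230538856) * t1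

theorem d33 {s a b t k : ℝ} (R : Reg s a b t k) (hE : b / 2 ≤ t + k)
    (s1 : 7361 / 10000 ≤ s) (s2 : s ≤ 3843 / 5000)
    (b1 : 391 / 5000 ≤ b) (b2 : b ≤ 1063 / 10000) (t1 : 263 / 10000 ≤ t) (t2 : t ≤ 329 / 10000) :
    (t - b / 2 + k ≤ a ∧ 0 ≤ Daa s a b t k) ∨ 0 ≤ Dbb s a b t k ∨ 0 ≤ Da0 s a b t k := by
  have e1 := up (t1 := 39 / 1000) (t2 := (54 / 1000)) (x := b) (by norm_num)
    (by linear_combination (1001521 / 1000000) * b1) (by linear_combination (250729 / 250000) * b2)
  exfalso
  exact absurd b1 (not_le.mpr (by linear_combination (86603000 / 41840621) * e1 + (99789400 / 41840621) * R.k2 + (99789400 / 41840621) * t2 + (99789400 / 41840621) * hE))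

theorem d35 {s a b t k : ℝ} (R : Reg s a b t k) (hE : b / 2 ≤ t + k)
    (s1 : 7361 / 10000 ≤ s) (s2 : s ≤ 3843 / 5000)
    (b1 : 391 / 5000 ≤ b) (b2 : b ≤ 1063 / 10000) (t1 : 329 / 10000 ≤ t) (t2 : t ≤ 181 / 5000) :
    (t - b / 2 + k ≤ a ∧ 0 ≤ Daa s a b t k) ∨ 0 ≤ Dbb s a b t k ∨ 0 ≤ Da0 s a b t k := by
  have e1 := up (t1 := 39 / 1000) (t2 := (54 / 1000)) (x := b) (by norm_num)
    (by linear_combination (1001521 / 1000000) * b1) (by linear_combination (250729 / 250000) * b2)
  exfalso
  exact absurd b1 (not_le.mpr (by linear_combination (86603000 / 41840621) * e1 + (99789400 / 41840621) * R.k2 + (99789400 / 41840621) * t2 + (99789400 / 41840621) * hE))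

theorem d36 {s a b t k : ℝ} (R : Reg s a b t k) (hE : b / 2 ≤ t + k)
    (s1 : 7361 / 10000 ≤ s) (s2 : s ≤ 3843 / 5000)
    (b1 : 391 / 5000 ≤ b) (b2 : b ≤ 1063 / 10000) (t1 : 181 / 5000 ≤ t) (t2 : t ≤ 197 / 5000) :
    (t - b / 2 + k ≤ a ∧ 0 ≤ Daa s a b t k) ∨ 0 ≤ Dbb s a b t k ∨ 0 ≤ Da0 s a b t k := by
  have e1 := up (t1 := 405 / 1000) (t2 := (436 / 1000)) (x := s - t) (by norm_num)
    (by linear_combination (46561 / 40000) * s1 + (46561 / 40000) * t2) (by linear_combination (74381 / 62500) * s2 + (74381 / 62500) * t1)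
  have e2 := R.lo2 (454 / 1000) (by norm_num)
  have e3 := R.lo4 (6 / 1000) (by norm_num)
  have e4 := up (t1 := 380 / 1000) (t2 := (399 / 1000)) (x := s - a) (by norm_num)
    (by linear_combination (20027 / 25000) * s1 + (2861 / 2500) * R.ha) (by linear_combination (8114407 / 10000000) * s2 - (1159201 / 1000000) * R.ha)
  have e5 := R.lo6 (393 / 1000) (by norm_num)
  have e6 := R.lo1 (458 / 1000) (by norm_num)
  have e7 := R.lo3 (326 / 1000) (by norm_num)
  have e8 := up (t1 := 39 / 1000) (t2 := (54 / 1000)) (x := b) (by norm_num)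
    (by linear_combination (1001521 / 1000000) * b1) (by linear_combination (250729 / 250000) * b2)
  left
  unfold Daa
  constructor
  · linear_combination (500 / 93) * e8 - R.ha + (41840621 / 93) * R.k1 + (41840714 / 93) * R.k2 + (3 / 10) * s1 + t2
  · linear_combination (984210409260685808645195000 / 221686655154041622875243823) * e8 + (250000 / 223431) * e7 + (250000 / 197559) * e6 + (1000000 / 845551) * e5 + (50000 / 42419) * e4 + (250000 / 249991) * e3 + (500000 / 198471) * e2 + (200000 / 41171) * e1 + (16575020713370748050 / 22015403230682955639) * R.ha + (1246842220582913813000 / 444309025114975383909) * R.k2 + (413066178462690969549270433705 / 3337987323445999705407221516403) * s2 + (60455415171507677146332365 / 221686655154041622875243823) * b1 + (1799925920055362690651600 / 1407126682539127040839803) * t1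

theorem d38 {s a b t k : ℝ} (R : Reg s a b t k) (hE : b / 2 ≤ t + k)
    (s1 : 7361 / 10000 ≤ s) (s2 : s ≤ 3843 / 5000)
    (b1 : 1 / 20 ≤ b) (b2 : b ≤ 391 / 5000) (t1 : 197 / 5000 ≤ t) (t2 : t ≤ 21 / 400) :
    (t - b / 2 + k ≤ a ∧ 0 ≤ Daa s a b t k) ∨ 0 ≤ Dbb s a b t k ∨ 0 ≤ Da0 s a b t k := by
  have e1 := up (t1 := 395 / 1000) (t2 := (433 / 1000)) (x := s - t) (by norm_num)
    (by linear_combination (46241 / 40000) * s1 + (46241 / 40000) * t2) (by linear_combination (1187489 / 1000000) * s2 + (1187489 / 1000000) * t1)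
  have e2 := R.lo2 (454 / 1000) (by norm_num)
  have e3 := R.lo3 (331 / 1000) (by norm_num)
  have e4 := R.lo6 (378 / 1000) (by norm_num)
  have e5 := up (t1 := 380 / 1000) (t2 := (399 / 1000)) (x := s - a) (by norm_num)
    (by linear_combination (20027 / 25000) * s1 + (2861 / 2500) * R.ha) (by linear_combination (8114407 / 10000000) * s2 - (1159201 / 1000000) * R.ha)
  have e6 := R.lo5 (386 / 1000) (by norm_num)
  have e7 := R.lo1 (439 / 1000) (by norm_num)
  have e8 := up (t1 := 25 / 1000) (t2 := (40 / 1000)) (x := b) (by norm_num)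
    (by linear_combination (1601 / 1600) * b1) (by linear_combination (626 / 625) * b2)
  right; left
  unfold Dbb
  linear_combination (14048164847923518015820 / 2732901460727737368069) * e8 + (1000000 / 807279) * e7 + (250000 / 212751) * e6 + (100000 / 42419) * e5 + (250000 / 214279) * e4 + (1000000 / 890439) * e3 + (500000 / 198471) * e2 + (800000 / 165793) * e1 - (131341242335300 / 622588160983503) * R.ha + (108940564616694934000 / 30092008076081192241) * R.k2 + (1647909258479425242520811464190 / 11835015865543019941113279670713) * s1 + (7499062972735598296159 / 42945594382864444355370) * b2 + (1871363120100478547776400 / 4989044294957729105212113) * t1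

theorem d39 {s a b t k : ℝ} (R : Reg s a b t k) (hE : b / 2 ≤ t + k)
    (s1 : 7361 / 10000 ≤ s) (s2 : s ≤ 3843 / 5000)
    (b1 : 391 / 5000 ≤ b) (b2 : b ≤ 1063 / 10000) (t1 : 197 / 5000 ≤ t) (t2 : t ≤ 21 / 400) :
    (t - b / 2 + k ≤ a ∧ 0 ≤ Daa s a b t k) ∨ 0 ≤ Dbb s a b t k ∨ 0 ≤ Da0 s a b t k := by
  have e1 := up (t1 := 395 / 1000) (t2 := (433 / 1000)) (x := s - t) (by norm_num)
    (by linear_combination (46241 / 40000) * s1 + (46241 / 40000) * t2) (by linear_combination (1187489 / 1000000) * s2 + (1187489 / 1000000) * t1)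
  have e2 := R.lo2 (454 / 1000) (by norm_num)
  have e3 := R.lo4 (10 / 1000) (by norm_num)
  have e4 := up (t1 := 380 / 1000) (t2 := (399 / 1000)) (x := s - a) (by norm_num)
    (by linear_combination (20027 / 25000) * s1 + (2861 / 2500) * R.ha) (by linear_combination (8114407 / 10000000) * s2 - (1159201 / 1000000) * R.ha)
  have e5 := R.lo6 (387 / 1000) (by norm_num)
  have e6 := R.lo1 (450 / 1000) (by norm_num)
  have e7 := R.lo3 (320 / 1000) (by norm_num)
  have e8 := up (t1 := 39 / 1000) (t2 := (54 / 1000)) (x := b) (by norm_num)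
    (by linear_combination (1001521 / 1000000) * b1) (by linear_combination (250729 / 250000) * b2)
  left
  unfold Daa
  constructor
  · linear_combination (500 / 93) * e8 - R.ha + (41840621 / 93) * R.k1 + (41840714 / 93) * R.k2 + (3 / 10) * s1 + t2
  · linear_combination (831745308013083200 / 190108770795461709) * e8 + (625 / 561) * e7 + (400 / 319) * e6 + (1000000 / 850231) * e5 + (50000 / 42419) * e4 + (10000 / 9999) * e3 + (500000 / 198471) * e2 + (800000 / 165793) * e1 + (4445509503864050 / 6130598173000587) * R.ha + (11449900631680 / 4191219666117) * R.k2 + (52723301999439145480005 / 574723536431022342775411) * s2 + (2781751324083864832 / 10455982393750393995) * b1 + (30274156255440640 / 23961202831190889) * t1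

theorem d43 {s a b t k : ℝ} (R : Reg s a b t k) (hE : b / 2 ≤ t + k)
    (s1 : 3843 / 5000 ≤ s) (s2 : s ≤ 7849 / 10000)
    (b1 : 1 / 20 ≤ b) (b2 : b ≤ 391 / 5000) (t1 : 263 / 10000 ≤ t) (t2 : t ≤ 197 / 5000) :
    (t - b / 2 + k ≤ a ∧ 0 ≤ Daa s a b t k) ∨ 0 ≤ Dbb s a b t k ∨ 0 ≤ Da0 s a b t k := by
  have e1 := up (t1 := 432 / 1000) (t2 := (460 / 1000)) (x := s - t) (by norm_num)
    (by linear_combination (18541 / 15625) * s1 + (18541 / 15625) * t2) (by linear_combination (3029 / 2500) * s2 + (3029 / 2500) * t1)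
  have e2 := R.lo2 (477 / 1000) (by norm_num)
  have e3 := R.lo3 (352 / 1000) (by norm_num)
  have e4 := R.lo6 (401 / 1000) (by norm_num)
  have e5 := up (t1 := 398 / 1000) (t2 := (408 / 1000)) (x := s - a) (by norm_num)
    (by linear_combination (2027207 / 2500000) * s1 + (289601 / 250000) * R.ha) (by linear_combination (63791 / 78125) * s2 - (18226 / 15625) * R.ha)
  have e6 := R.lo5 (417 / 1000) (by norm_num)
  have e7 := R.lo1 (474 / 1000) (by norm_num)
  have e8 := up (t1 := 25 / 1000) (t2 := (40 / 1000)) (x := b) (by norm_num)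
    (by linear_combination (1601 / 1600) * b1) (by linear_combination (626 / 625) * b2)
  right; left
  unfold Dbb
  linear_combination (2127077225034363397660 / 389416037593039652871) * e8 + (250000 / 193831) * e7 + (1000000 / 826111) * e6 + (125000 / 52351) * e5 + (1000000 / 839199) * e4 + (15625 / 13689) * e3 + (2000000 / 772471) * e2 + (3125 / 626) * e1 - (2548560133750 / 15420450303999) * R.ha + (17115020172252142000 / 4287864277801237419) * R.k2 + (2232659331316330365110439116275 / 16699719365403487807278646357596) * s1 + (671383654381057848479 / 3894160375930396528710) * b2 + (2476838093082216826925 / 5368406075807149248588) * t1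

theorem d44 {s a b t k : ℝ} (R : Reg s a b t k) (hE : b / 2 ≤ t + k)
    (s1 : 7849 / 10000 ≤ s) (s2 : s ≤ 8011 / 10000)
    (b1 : 1 / 20 ≤ b) (b2 : b ≤ 391 / 5000) (t1 : 263 / 10000 ≤ t) (t2 : t ≤ 197 / 5000) :
    (t - b / 2 + k ≤ a ∧ 0 ≤ Daa s a b t k) ∨ 0 ≤ Dbb s a b t k ∨ 0 ≤ Da0 s a b t k := by
  have e1 := up (t1 := 447 / 1000) (t2 := (475 / 1000)) (x := s - t) (by norm_num)
    (by linear_combination (1199809 / 1000000) * s1 + (1199809 / 1000000) * t2) (by linear_combination (1961 / 1600) * s2 + (1961 / 1600) * t1)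
  have e2 := R.lo2 (493 / 1000) (by norm_num)
  have e3 := R.lo3 (361 / 1000) (by norm_num)
  have e4 := R.lo6 (410 / 1000) (by norm_num)
  have e5 := up (t1 := 407 / 1000) (t2 := (418 / 1000)) (x := s - a) (by norm_num)
    (by linear_combination (8159543 / 10000000) * s1 + (1165649 / 1000000) * R.ha) (by linear_combination (2055767 / 2500000) * s2 - (293681 / 250000) * R.ha)
  have e6 := R.lo5 (430 / 1000) (by norm_num)
  have e7 := R.lo1 (490 / 1000) (by norm_num)
  have e8 := up (t1 := 25 / 1000) (t2 := (40 / 1000)) (x := b) (by norm_num)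
    (by linear_combination (1601 / 1600) * b1) (by linear_combination (626 / 625) * b2)
  right; left
  unfold Dbb
  linear_combination (8454316395518121046 / 1507323549027008583) * e8 + (10000 / 7599) * e7 + (10000 / 8151) * e6 + (1000000 / 414937) * e5 + (10000 / 8319) * e4 + (1000000 / 869679) * e3 + (2000000 / 756951) * e2 + (160000 / 31507) * e1 - (172482412676800 / 1000670312753379) * R.ha + (69054383750810200 / 16597156195492587) * R.k2 + (619606431543179914639320404000 / 4211395772085629478279535503897) * s1 + (281111209246597744789 / 1658055903929709441300) * b2 + (272716013122289462840 / 522926600251384938609) * t1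

theorem d46 {s a b t k : ℝ} (R : Reg s a b t k) (hE : b / 2 ≤ t + k)
    (s1 : 3843 / 5000 ≤ s) (s2 : s ≤ 8011 / 10000)
    (b1 : 391 / 5000 ≤ b) (b2 : b ≤ 1063 / 10000) (t1 : 263 / 10000 ≤ t) (t2 : t ≤ 329 / 10000) :
    (t - b / 2 + k ≤ a ∧ 0 ≤ Daa s a b t k) ∨ 0 ≤ Dbb s a b t k ∨ 0 ≤ Da0 s a b t k := by
  have e1 := up (t1 := 39 / 1000) (t2 := (54 / 1000)) (x := b) (by norm_num)
    (by linear_combination (1001521 / 1000000) * b1) (by linear_combination (250729 / 250000) * b2)
  exfalso
  exact absurd b1 (not_le.mpr (by linear_combination (86603000 / 41840621) * e1 + (99789400 / 41840621) * R.k2 + (99789400 / 41840621) * t2 + (99789400 / 41840621) * hE))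

theorem d48 {s a b t k : ℝ} (R : Reg s a b t k) (hE : b / 2 ≤ t + k)
    (s1 : 3843 / 5000 ≤ s) (s2 : s ≤ 8011 / 10000)
    (b1 : 391 / 5000 ≤ b) (b2 : b ≤ 923 / 10000) (t1 : 329 / 10000 ≤ t) (t2 : t ≤ 197 / 5000) :
    (t - b / 2 + k ≤ a ∧ 0 ≤ Daa s a b t k) ∨ 0 ≤ Dbb s a b t k ∨ 0 ≤ Da0 s a b t k := by
  have e1 := up (t1 := 432 / 1000) (t2 := (469 / 1000)) (x := s - t) (by norm_num)
    (by linear_combination (18541 / 15625) * s1 + (18541 / 15625) * t2) (by linear_combination (1219961 / 1000000) * s2 + (1219961 / 1000000) * t1)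
  have e2 := R.lo2 (485 / 1000) (by norm_num)
  have e3 := R.lo3 (346 / 1000) (by norm_num)
  have e4 := R.lo6 (411 / 1000) (by norm_num)
  have e5 := up (t1 := 398 / 1000) (t2 := (418 / 1000)) (x := s - a) (by norm_num)
    (by linear_combination (2027207 / 2500000) * s1 + (289601 / 250000) * R.ha) (by linear_combination (2055767 / 2500000) * s2 - (293681 / 250000) * R.ha)
  have e6 := R.lo5 (411 / 1000) (by norm_num)
  have e7 := R.lo1 (488 / 1000) (by norm_num)
  have e8 := up (t1 := 39 / 1000) (t2 := (47 / 1000)) (x := b) (by norm_num)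
    (by linear_combination (1001521 / 1000000) * b1) (by linear_combination (1002209 / 1000000) * b2)
  right; left
  unfold Dbb
  linear_combination (32209596390975596875 / 5841956401035062496) * e8 + (15625 / 11904) * e7 + (1000000 / 831079) * e6 + (500000 / 208409) * e5 + (1000000 / 831079) * e4 + (250000 / 220071) * e3 + (80000 / 30591) * e2 + (250000 / 49837) * e1 - (6956527617611000 / 38117253036795081) * R.ha + (47352234098125 / 11705368742976) * R.k2 + (611667744391283726011175 / 3838162497634225444254912) * s1 + (2648445431734186225 / 11683912802070124992) * b2 + (14565316768794125 / 30703182212826048) * t1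

theorem d49 {s a b t k : ℝ} (R : Reg s a b t k) (hE : b / 2 ≤ t + k)
    (s1 : 3843 / 5000 ≤ s) (s2 : s ≤ 8011 / 10000)
    (b1 : 923 / 10000 ≤ b) (b2 : b ≤ 1063 / 10000) (t1 : 329 / 10000 ≤ t) (t2 : t ≤ 197 / 5000) :
    (t - b / 2 + k ≤ a ∧ 0 ≤ Daa s a b t k) ∨ 0 ≤ Dbb s a b t k ∨ 0 ≤ Da0 s a b t k := by
  have e1 := up (t1 := 46 / 1000) (t2 := (54 / 1000)) (x := b) (by norm_num)
    (by linear_combination (250529 / 250000) * b1) (by linear_combination (250729 / 250000) * b2)
  exfalso
  exact absurd b1 (not_le.mpr (by linear_combination (173206 / 82431) * e1 + (997516 / 412155) * R.k2 + (997516 / 412155) * t2 + (997516 / 412155) * hE))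

theorem d51 {s a b t k : ℝ} (R : Reg s a b t k) (hE : b / 2 ≤ t + k)
    (s1 : 3843 / 5000 ≤ s) (s2 : s ≤ 8011 / 10000)
    (b1 : 1 / 20 ≤ b) (b2 : b ≤ 391 / 5000) (t1 : 197 / 5000 ≤ t) (t2 : t ≤ 21 / 400) :
    (t - b / 2 + k ≤ a ∧ 0 ≤ Daa s a b t k) ∨ 0 ≤ Dbb s a b t k ∨ 0 ≤ Da0 s a b t k := by
  have e1 := up (t1 := 421 / 1000) (t2 := (463 / 1000)) (x := s - t) (by norm_num)
    (by linear_combination (1177241 / 1000000) * s1 + (1177241 / 1000000) * t2) (by linear_combination (1214369 / 1000000) * s2 + (1214369 / 1000000) * t1)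
  have e2 := R.lo2 (485 / 1000) (by norm_num)
  have e3 := R.lo3 (347 / 1000) (by norm_num)
  have e4 := R.lo6 (395 / 1000) (by norm_num)
  have e5 := up (t1 := 398 / 1000) (t2 := (418 / 1000)) (x := s - a) (by norm_num)
    (by linear_combination (2027207 / 2500000) * s1 + (289601 / 250000) * R.ha) (by linear_combination (2055767 / 2500000) * s2 - (293681 / 250000) * R.ha)
  have e6 := R.lo5 (412 / 1000) (by norm_num)
  have e7 := R.lo1 (469 / 1000) (by norm_num)
  have e8 := up (t1 := 25 / 1000) (t2 := (40 / 1000)) (x := b) (by norm_num)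
    (by linear_combination (1601 / 1600) * b1) (by linear_combination (626 / 625) * b2)
  right; left
  unfold Dbb
  linear_combination (2425824783497580020459 / 449205677917269876603) * e8 + (1000000 / 780039) * e7 + (62500 / 51891) * e6 + (500000 / 208409) * e5 + (40000 / 33759) * e4 + (1000000 / 879591) * e3 + (80000 / 30591) * e2 + (4000000 / 805077) * e1 - (479897497439200 / 2062840102130907) * R.ha + (19389230496590108300 / 4946208665755724367) * R.k2 + (165970637342188498597788510140 / 939338571150211593824579939823) * s1 + (24349864526092883865091 / 141178927345427675503800) * b2 + (6886338174391819567300 / 14586369355313631158283) * t1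

theorem d52 {s a b t k : ℝ} (R : Reg s a b t k) (hE : b / 2 ≤ t + k)
    (s1 : 3843 / 5000 ≤ s) (s2 : s ≤ 8011 / 10000)
    (b1 : 391 / 5000 ≤ b) (b2 : b ≤ 1063 / 10000) (t1 : 197 / 5000 ≤ t) (t2 : t ≤ 21 / 400) :
    (t - b / 2 + k ≤ a ∧ 0 ≤ Daa s a b t k) ∨ 0 ≤ Dbb s a b t k ∨ 0 ≤ Da0 s a b t k := by
  have e1 := up (t1 := 421 / 1000) (t2 := (463 / 1000)) (x := s - t) (by norm_num)
    (by linear_combination (1177241 / 1000000) * s1 + (1177241 / 1000000) * t2) (by linear_combination (1214369 / 1000000) * s2 + (1214369 / 1000000) * t1)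
  have e2 := R.lo2 (485 / 1000) (by norm_num)
  have e3 := R.lo4 (5 / 1000) (by norm_num)
  have e4 := up (t1 := 398 / 1000) (t2 := (418 / 1000)) (x := s - a) (by norm_num)
    (by linear_combination (2027207 / 2500000) * s1 + (289601 / 250000) * R.ha) (by linear_combination (2055767 / 2500000) * s2 - (293681 / 250000) * R.ha)
  have e5 := R.lo6 (405 / 1000) (by norm_num)
  have e6 := R.lo1 (481 / 1000) (by norm_num)
  have e7 := R.lo3 (336 / 1000) (by norm_num)
  have e8 := up (t1 := 39 / 1000) (t2 := (54 / 1000)) (x := b) (by norm_num)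
    (by linear_combination (1001521 / 1000000) * b1) (by linear_combination (250729 / 250000) * b2)
  left
  unfold Daa
  constructor
  · linear_combination (500 / 93) * e8 - R.ha + (41840621 / 93) * R.k1 + (41840714 / 93) * R.k2 + (3 / 10) * s1 + t2
  · linear_combination (10854783753932213133497500 / 2370022974586822580543931) * e8 + (15625 / 13861) * e7 + (1000000 / 768639) * e6 + (40000 / 33439) * e5 + (250000 / 208409) * e4 + (40000 / 39999) * e3 + (80000 / 30591) * e2 + (4000000 / 805077) * e1 + (2927227591482467300 / 3863789415066134589) * R.ha + (14098204912991066500 / 4750049553533386473) * R.k2 + (829025621919957481148605188070 / 9922944154257038147009438409507) * s2 + (28862432947141873288415 / 92942077434777356099762) * b1 + (2849835010234403832500 / 2001128019052850958411) * t1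

theorem d54 {s a b t k : ℝ} (R : Reg s a b t k) (hE : b / 2 ≤ t + k)
    (s1 : 7361 / 10000 ≤ s) (s2 : s ≤ 8011 / 10000)
    (b1 : 1063 / 10000 ≤ b) (b2 : b ≤ 13 / 80) (t1 : 263 / 10000 ≤ t) (t2 : t ≤ 197 / 5000) :
    (t - b / 2 + k ≤ a ∧ 0 ≤ Daa s a b t k) ∨ 0 ≤ Dbb s a b t k ∨ 0 ≤ Da0 s a b t k := by
  have e1 := up (t1 := 53 / 1000) (t2 := (82 / 1000)) (x := b) (by norm_num)
    (by linear_combination (1002809 / 1000000) * b1) (by linear_combination (251681 / 250000) * b2)
  exfalso
  exact absurd b1 (not_le.mpr (by linear_combination (1574600 / 692569) * e1 + (1810280 / 692569) * R.k2 + (1810280 / 692569) * t2 + (1810280 / 692569) * hE))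

theorem d55 {s a b t k : ℝ} (R : Reg s a b t k) (hE : b / 2 ≤ t + k)
    (s1 : 7361 / 10000 ≤ s) (s2 : s ≤ 8011 / 10000)
    (b1 : 1063 / 10000 ≤ b) (b2 : b ≤ 13 / 80) (t1 : 197 / 5000 ≤ t) (t2 : t ≤ 21 / 400) :
    (t - b / 2 + k ≤ a ∧ 0 ≤ Daa s a b t k) ∨ 0 ≤ Dbb s a b t k ∨ 0 ≤ Da0 s a b t k := by
  have e1 := up (t1 := 395 / 1000) (t2 := (463 / 1000)) (x := s - t) (by norm_num)
    (by linear_combination (46241 / 40000) * s1 + (46241 / 40000) * t2) (by linear_combination (1214369 / 1000000) * s2 + (1214369 / 1000000) * t1)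
  have e2 := R.lo2 (469 / 1000) (by norm_num)
  have e3 := R.lo4 (20 / 1000) (by norm_num)
  have e4 := up (t1 := 380 / 1000) (t2 := (418 / 1000)) (x := s - a) (by norm_num)
    (by linear_combination (20027 / 25000) * s1 + (2861 / 2500) * R.ha) (by linear_combination (2055767 / 2500000) * s2 - (293681 / 250000) * R.ha)
  have e5 := R.lo6 (409 / 1000) (by norm_num)
  have e6 := R.lo1 (481 / 1000) (by norm_num)
  have e7 := R.lo3 (311 / 1000) (by norm_num)
  have e8 := up (t1 := 53 / 1000) (t2 := (82 / 1000)) (x := b) (by norm_num)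
    (by linear_combination (1002809 / 1000000) * b1) (by linear_combination (251681 / 250000) * b2)
  left
  unfold Daa
  constructor
  · linear_combination (100 / 27) * e8 - R.ha + (7618259 / 27) * R.k1 + (7618286 / 27) * R.k2 + (3 / 10) * s1 + t2
  · linear_combination (40100531792006668538591500 / 8879785771802612465085287) * e8 + (1000000 / 903279) * e7 + (1000000 / 768639) * e6 + (1000000 / 832719) * e5 + (25000 / 21029) * e4 + (2500 / 2499) * e3 + (2000000 / 780039) * e2 + (800000 / 163423) * e1 + (196930386795643450 / 258353193310856007) * R.ha + (51414940010285086100 / 17837091543453071981) * R.k2 + (4925163499648698536572445995 / 98480405275718861523554109369) * s2 + (1392851577078432040855255 / 7611244947259382112930246) * b1 + (22727786355771414094900 / 17248467522519120605627) * t1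

theorem d57 {s a b t k : ℝ} (R : Reg s a b t k) (hE : b / 2 ≤ t + k)
    (s1 : 7361 / 10000 ≤ s) (s2 : s ≤ 8011 / 10000)
    (b1 : 1 / 20 ≤ b) (b2 : b ≤ 13 / 80) (t1 : 21 / 400 ≤ t) (t2 : t ≤ 197 / 2500) :
    (t - b / 2 + k ≤ a ∧ 0 ≤ Daa s a b t k) ∨ 0 ≤ Dbb s a b t k ∨ 0 ≤ Da0 s a b t k := by
  have e1 := up (t1 := 374 / 1000) (t2 := (451 / 1000)) (x := s - t) (by norm_num)
    (by linear_combination (284969 / 250000) * s1 + (284969 / 250000) * t2) (by linear_combination (1203401 / 1000000) * s2 + (1203401 / 1000000) * t1)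
  have e2 := R.lo2 (469 / 1000) (by norm_num)
  have e3 := R.lo4 (22 / 1000) (by norm_num)
  have e4 := up (t1 := 380 / 1000) (t2 := (418 / 1000)) (x := s - a) (by norm_num)
    (by linear_combination (20027 / 25000) * s1 + (2861 / 2500) * R.ha) (by linear_combination (2055767 / 2500000) * s2 - (293681 / 250000) * R.ha)
  have e5 := R.lo6 (384 / 1000) (by norm_num)
  have e6 := R.lo1 (451 / 1000) (by norm_num)
  have e7 := R.lo3 (308 / 1000) (by norm_num)
  have e8 := up (t1 := 25 / 1000) (t2 := (82 / 1000)) (x := b) (by norm_num)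
    (by linear_combination (1601 / 1600) * b1) (by linear_combination (251681 / 250000) * b2)
  left
  unfold Daa
  constructor
  · linear_combination (500 / 107) * e8 - R.ha + (40630979 / 107) * R.k1 + (40631086 / 107) * R.k2 + (3 / 10) * s1 + t2
  · linear_combination (9610764987679750000 / 1472642484454387323) * e8 + (62500 / 56571) * e7 + (1000000 / 796599) * e6 + (15625 / 13321) * e5 + (25000 / 21029) * e4 + (250000 / 249879) * e3 + (2000000 / 780039) * e2 + (2000000 / 415663) * e1 + (737608875203150 / 1089967795881657) * R.ha + (324098650566244513889500 / 1472642484454387323) * R.k1 + (324102582059893560443000 / 1472642484454387323) * R.k2 + (26626844819155213523746854655 / 10426711182494928222010485389013) * s2 + (7436295838374780518500 / 5720775635661345774207) * t1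

theorem d58 {s a b t k : ℝ} (R : Reg s a b t k) (hE : b / 2 ≤ t + k)
    (s1 : 7361 / 10000 ≤ s) (s2 : s ≤ 8011 / 10000)
    (b1 : 1 / 20 ≤ b) (b2 : b ≤ 13 / 80) (t1 : 197 / 2500 ≤ t) (t2 : t ≤ 21 / 200) :
    (t - b / 2 + k ≤ a ∧ 0 ≤ Daa s a b t k) ∨ 0 ≤ Dbb s a b t k ∨ 0 ≤ Da0 s a b t k := by
  have e1 := up (t1 := 355 / 1000) (t2 := (427 / 1000)) (x := s - t) (by norm_num)
    (by linear_combination (45041 / 40000) * s1 + (45041 / 40000) * t2) (by linear_combination (1182329 / 1000000) * s2 + (1182329 / 1000000) * t1)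
  have e2 := R.lo2 (469 / 1000) (by norm_num)
  have e3 := R.lo7 (339 / 1000) (by norm_num)
  have e4 := up (t1 := 380 / 1000) (t2 := (418 / 1000)) (x := s - a) (by norm_num)
    (by linear_combination (20027 / 25000) * s1 + (2861 / 2500) * R.ha) (by linear_combination (2055767 / 2500000) * s2 - (293681 / 250000) * R.ha)
  have e5 := R.lo1 (428 / 1000) (by norm_num)
  have e6 := R.lo3 (291 / 1000) (by norm_num)
  have e7 := up (t1 := 25 / 1000) (t2 := (82 / 1000)) (x := b) (by norm_num)
    (by linear_combination (1601 / 1600) * b1) (by linear_combination (251681 / 250000) * b2)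
  right; right
  unfold Da0
  linear_combination (208851403468100 / 84785741765361) * e7 + (1000000 / 915319) * e6 + (62500 / 51051) * e5 + (25000 / 21029) * e4 + (1000000 / 885079) * e3 + (2000000 / 780039) * e2 + (800000 / 169683) * e1 + (20770905726958050 / 17036215888351829) * R.ha + (78681248500 / 46727950269) * R.k2 + (652101373649634689410165015 / 4451987167927118142980595939) * s2 + (536340435142037 / 9326431594189710) * b2 + (5294045133020300 / 2642979595164909) * t1

end Pool.Agent.Strip051.FourB
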