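import Pool.Agent.Strip051.FourB.Box

/-! # The exit is below the top of the body, boxes 2 -/

namespace Pool.Agent.Strip051.FourB

open Pool.Agent.StripNear Pool.Agent.StripSquare Pool.Agent.Strip051
open Pool.Agent.Strip051.Four.Low (ph)

theorem d63 {s a b t k : ℝ} (R : Reg s a b t k) (hE : b / 2 ≤ t + k)
    (s1 : 8011 / 10000 ≤ s) (s2 : s ≤ 8661 / 10000)
    (b1 : 1 / 20 ≤ b) (b2 : b ≤ 1063 / 10000) (t1 : 0 ≤ t) (t2 : t ≤ 33 / 2500) :
    (t - b / 2 + k ≤ a ∧ 0 ≤ Daa s a b t k) ∨ 0 ≤ Dbb s a b t k ∨ 0 ≤ Da0 s a b t k := by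
  have e1 := up (t1 := 25 / 1000) (t2 := (54 / 1000)) (x := b) (by norm_num)
    (by linear_combination (1601 / 1600) * b1) (by linear_combination (250729 / 250000) * b2)
  exfalso
  exact absurd b1 (not_le.mpr (by linear_combination (86603000 / 43090863) * e1 + (99865000 / 43090863) * R.k2 + (99865000 / 43090863) * t2 + (99865000 / 43090863) * hE))

theorem d66 {s a b t k : ℝ} (R : Reg s a b t k) (hE : b / 2 ≤ t + k)
    (s1 : 8011 / 10000 ≤ s) (s2 : s ≤ 8661 / 10000)
    (b1 : 1 / 20 ≤ b) (b2 : b ≤ 391 / 5000) (t1 : 33 / 2500 ≤ t) (t2 : t ≤ 99 / 5000) :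
    (t - b / 2 + k ≤ a ∧ 0 ≤ Daa s a b t k) ∨ 0 ≤ Dbb s a b t k ∨ 0 ≤ Da0 s a b t k := by
  have e1 := up (t1 := 25 / 1000) (t2 := (40 / 1000)) (x := b) (by norm_num)
    (by linear_combination (1601 / 1600) * b1) (by linear_combination (626 / 625) * b2)
  exfalso
  exact absurd b1 (not_le.mpr (by linear_combination (17320600 / 8864161) * e1 + (19980000 / 8864161) * R.k2 + (19980000 / 8864161) * t2 + (19980000 / 8864161) * hE))

theorem d68 {s a b t k : ℝ} (R : Reg s a b t k) (hE : b / 2 ≤ t + k)
    (s1 : 8011 / 10000 ≤ s) (s2 : s ≤ 8661 / 10000)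
    (b1 : 1 / 20 ≤ b) (b2 : b ≤ 391 / 5000) (t1 : 99 / 5000 ≤ t) (t2 : t ≤ 231 / 10000) :
    (t - b / 2 + k ≤ a ∧ 0 ≤ Daa s a b t k) ∨ 0 ≤ Dbb s a b t k ∨ 0 ≤ Da0 s a b t k := by
  have e1 := up (t1 := 25 / 1000) (t2 := (40 / 1000)) (x := b) (by norm_num)
    (by linear_combination (1601 / 1600) * b1) (by linear_combination (626 / 625) * b2)
  exfalso
  exact absurd b1 (not_le.mpr (by linear_combination (17320600 / 8864161) * e1 + (19980000 / 8864161) * R.k2 + (19980000 / 8864161) * t2 + (19980000 / 8864161) * hE))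

theorem d72 {s a b t k : ℝ} (R : Reg s a b t k) (hE : b / 2 ≤ t + k)
    (s1 : 8011 / 10000 ≤ s) (s2 : s ≤ 521 / 625)
    (b1 : 1 / 20 ≤ b) (b2 : b ≤ 571 / 10000) (t1 : 231 / 10000 ≤ t) (t2 : t ≤ 263 / 10000) :
    (t - b / 2 + k ≤ a ∧ 0 ≤ Daa s a b t k) ∨ 0 ≤ Dbb s a b t k ∨ 0 ≤ Da0 s a b t k := by
  have e1 := up (t1 := 474 / 1000) (t2 := (512 / 1000)) (x := s - t) (by norm_num)
    (by linear_combination (306169 / 250000) * s1 + (306169 / 250000) * t2) (by linear_combination (19721 / 15625) * s2 + (19721 / 15625) * t1)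
  have e2 := R.lo2 (519 / 1000) (by norm_num)
  have e3 := R.lo3 (384 / 1000) (by norm_num)
  have e4 := R.lo6 (428 / 1000) (by norm_num)
  have e5 := up (t1 := 417 / 1000) (t2 := (437 / 1000)) (x := s - a) (by norm_num)
    (by linear_combination (8217223 / 10000000) * s1 + (1173889 / 1000000) * R.ha) (by linear_combination (8336783 / 10000000) * s2 - (1190969 / 1000000) * R.ha)
  have e6 := R.lo5 (465 / 1000) (by norm_num)
  have e7 := R.lo1 (519 / 1000) (by norm_num)
  have e8 := up (t1 := 25 / 1000) (t2 := (29 / 1000)) (x := b) (by norm_num)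
    (by linear_combination (1601 / 1600) * b1) (by linear_combination (1000841 / 1000000) * b2)
  right; left
  unfold Dbb
  linear_combination (48065270130799815080 / 8078217483084913437) * e8 + (1000000 / 730639) * e7 + (40000 / 31351) * e6 + (2000000 / 817771) * e5 + (62500 / 51051) * e4 + (15625 / 13321) * e3 + (2000000 / 730639) * e2 + (62500 / 11833) * e1 - (5836347500 / 41748027321) * R.ha + (10128640051724900 / 2223121570987317) * R.k2 + (17761444083043785651775 / 124349395816453042582347) * s1 + (290296647550684640188 / 2221509807848351195175) * b2 + (17147669080032668425 / 26306197549492922061) * t1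

theorem d73 {s a b t k : ℝ} (R : Reg s a b t k) (hE : b / 2 ≤ t + k)
    (s1 : 521 / 625 ≤ s) (s2 : s ≤ 8661 / 10000)
    (b1 : 1 / 20 ≤ b) (b2 : b ≤ 571 / 10000) (t1 : 231 / 10000 ≤ t) (t2 : t ≤ 263 / 10000) :
    (t - b / 2 + k ≤ a ∧ 0 ≤ Daa s a b t k) ∨ 0 ≤ Dbb s a b t k ∨ 0 ≤ Da0 s a b t k := by
  have e1 := up (t1 := 507 / 1000) (t2 := (549 / 1000)) (x := s - t) (by norm_num)
    (by linear_combination (1257049 / 1000000) * s1 + (1257049 / 1000000) * t2) (by linear_combination (1301401 / 1000000) * s2 + (1301401 / 1000000) * t1)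
  have e2 := R.lo2 (557 / 1000) (by norm_num)
  have e3 := R.lo3 (402 / 1000) (by norm_num)
  have e4 := R.lo6 (448 / 1000) (by norm_num)
  have e5 := up (t1 := 436 / 1000) (t2 := (458 / 1000)) (x := s - a) (by norm_num)
    (by linear_combination (520667 / 625000) * s1 + (74381 / 62500) * R.ha) (by linear_combination (2117087 / 2500000) * s2 - (302441 / 250000) * R.ha)
  have e6 := R.lo5 (497 / 1000) (by norm_num)
  have e7 := R.lo1 (558 / 1000) (by norm_num)
  have e8 := up (t1 := 25 / 1000) (t2 := (29 / 1000)) (x := b) (by norm_num)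
    (by linear_combination (1601 / 1600) * b1) (by linear_combination (1000841 / 1000000) * b2)
  right; left
  unfold Dbb
  linear_combination (32019929558345553592000 / 5040431355102529881079) * e8 + (250000 / 172159) * e7 + (1000000 / 752991) * e6 + (250000 / 100039) * e5 + (15625 / 12489) * e4 + (250000 / 209599) * e3 + (2000000 / 689751) * e2 + (4000000 / 721657) * e1 - (1755307164500 / 11385664378023) * R.ha + (633111812526060000 / 126102207978347549) * R.k2 + (1316787969286212742562779124347150 / 6279357367491035084129927607752277) * s1 + (1690138675960492612904 / 15121294065307589643237) * b2 + (75766155208421165556000 / 91002541103030357168693) * t1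

theorem d74 {s a b t k : ℝ} (R : Reg s a b t k) (hE : b / 2 ≤ t + k)
    (s1 : 8011 / 10000 ≤ s) (s2 : s ≤ 8661 / 10000)
    (b1 : 571 / 10000 ≤ b) (b2 : b ≤ 641 / 10000) (t1 : 231 / 10000 ≤ t) (t2 : t ≤ 263 / 10000) :
    (t - b / 2 + k ≤ a ∧ 0 ≤ Daa s a b t k) ∨ 0 ≤ Dbb s a b t k ∨ 0 ≤ Da0 s a b t k := by
  have e1 := up (t1 := 28 / 1000) (t2 := (33 / 1000)) (x := b) (by norm_num)
    (by linear_combination (62549 / 62500) * b1) (by linear_combination (1001089 / 1000000) * b2)
  exfalso
  exact absurd b1 (not_le.mpr (by linear_combination (86603000 / 44671017) * e1 + (99907600 / 44671017) * R.k2 + (99907600 / 44671017) * t2 + (99907600 / 44671017) * hE))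

theorem d75 {s a b t k : ℝ} (R : Reg s a b t k) (hE : b / 2 ≤ t + k)
    (s1 : 8011 / 10000 ≤ s) (s2 : s ≤ 8661 / 10000)
    (b1 : 641 / 10000 ≤ b) (b2 : b ≤ 391 / 5000) (t1 : 231 / 10000 ≤ t) (t2 : t ≤ 263 / 10000) :
    (t - b / 2 + k ≤ a ∧ 0 ≤ Daa s a b t k) ∨ 0 ≤ Dbb s a b t k ∨ 0 ≤ Da0 s a b t k := by
  have e1 := up (t1 := 32 / 1000) (t2 := (40 / 1000)) (x := b) (by norm_num)
    (by linear_combination (15641 / 15625) * b1) (by linear_combination (626 / 625) * b2)
  exfalso
  exact absurd b1 (not_le.mpr (by linear_combination (10825375 / 5462573) * e1 + (12484000 / 5462573) * R.k2 + (12484000 / 5462573) * t2 + (12484000 / 5462573) * hE))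

theorem d76 {s a b t k : ℝ} (R : Reg s a b t k) (hE : b / 2 ≤ t + k)
    (s1 : 8011 / 10000 ≤ s) (s2 : s ≤ 8661 / 10000)
    (b1 : 391 / 5000 ≤ b) (b2 : b ≤ 1063 / 10000) (t1 : 33 / 2500 ≤ t) (t2 : t ≤ 263 / 10000) :
    (t - b / 2 + k ≤ a ∧ 0 ≤ Daa s a b t k) ∨ 0 ≤ Dbb s a b t k ∨ 0 ≤ Da0 s a b t k := by
  have e1 := up (t1 := 39 / 1000) (t2 := (54 / 1000)) (x := b) (by norm_num)
    (by linear_combination (1001521 / 1000000) * b1) (by linear_combination (250729 / 250000) * b2)
  exfalso
  exact absurd b1 (not_le.mpr (by linear_combination (86603000 / 41840621) * e1 + (99789400 / 41840621) * R.k2 + (99789400 / 41840621) * t2 + (99789400 / 41840621) * hE))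

theorem d77 {s a b t k : ℝ} (R : Reg s a b t k) (hE : b / 2 ≤ t + k)
    (s1 : 8011 / 10000 ≤ s) (s2 : s ≤ 8661 / 10000)
    (b1 : 1063 / 10000 ≤ b) (b2 : b ≤ 13 / 80) (t1 : 0 ≤ t) (t2 : t ≤ 263 / 10000) :
    (t - b / 2 + k ≤ a ∧ 0 ≤ Daa s a b t k) ∨ 0 ≤ Dbb s a b t k ∨ 0 ≤ Da0 s a b t k := by
  have e1 := up (t1 := 53 / 1000) (t2 := (82 / 1000)) (x := b) (by norm_num)
    (by linear_combination (1002809 / 1000000) * b1) (by linear_combination (251681 / 250000) * b2)
  exfalso
  exact absurd b1 (not_le.mpr (by linear_combination (1574600 / 692569) * e1 + (1810280 / 692569) * R.k2 + (1810280 / 692569) * t2 + (1810280 / 692569) * hE))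

theorem d83 {s a b t k : ℝ} (R : Reg s a b t k) (hE : b / 2 ≤ t + k)
    (s1 : 8011 / 10000 ≤ s) (s2 : s ≤ 4087 / 5000)
    (b1 : 1 / 20 ≤ b) (b2 : b ≤ 391 / 5000) (t1 : 263 / 10000 ≤ t) (t2 : t ≤ 197 / 5000) :
    (t - b / 2 + k ≤ a ∧ 0 ≤ Daa s a b t k) ∨ 0 ≤ Dbb s a b t k ∨ 0 ≤ Da0 s a b t k := by
  have e1 := up (t1 := 462 / 1000) (t2 := (491 / 1000)) (x := s - t) (by norm_num)
    (by linear_combination (303361 / 250000) * s1 + (303361 / 250000) * t2) (by linear_combination (1241081 / 1000000) * s2 + (1241081 / 1000000) * t1)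
  have e2 := R.lo2 (510 / 1000) (by norm_num)
  have e3 := R.lo3 (369 / 1000) (by norm_num)
  have e4 := R.lo6 (420 / 1000) (by norm_num)
  have e5 := up (t1 := 417 / 1000) (t2 := (427 / 1000)) (x := s - a) (by norm_num)
    (by linear_combination (8217223 / 10000000) * s1 + (1173889 / 1000000) * R.ha) (by linear_combination (8276303 / 10000000) * s2 - (1182329 / 1000000) * R.ha)
  have e6 := R.lo5 (445 / 1000) (by norm_num)
  have e7 := R.lo1 (507 / 1000) (by norm_num)
  have e8 := up (t1 := 25 / 1000) (t2 := (40 / 1000)) (x := b) (by norm_num)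
    (by linear_combination (1601 / 1600) * b1) (by linear_combination (626 / 625) * b2)
  right; left
  unfold Dbb
  linear_combination (1218202753181266991 / 211054349569094721) * e8 + (1000000 / 742951) * e7 + (40000 / 32079) * e6 + (2000000 / 821941) * e5 + (2500 / 2059) * e4 + (1000000 / 863839) * e3 + (20000 / 7399) * e2 + (2000000 / 386579) * e1 - (262326194518100 / 1461940839796441) * R.ha + (10106332056556700 / 2323921767027069) * R.k2 + (33098285135509559946742891730 / 188397630338418568415617082121) * s1 + (76544052880692929713 / 464319569052008386200) * b2 + (522499147861960984700 / 898379352775557306951) * t1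

theorem d85 {s a b t k : ℝ} (R : Reg s a b t k) (hE : b / 2 ≤ t + k)
    (s1 : 8011 / 10000 ≤ s) (s2 : s ≤ 4087 / 5000)
    (b1 : 391 / 5000 ≤ b) (b2 : b ≤ 1063 / 10000) (t1 : 263 / 10000 ≤ t) (t2 : t ≤ 329 / 10000) :
    (t - b / 2 + k ≤ a ∧ 0 ≤ Daa s a b t k) ∨ 0 ≤ Dbb s a b t k ∨ 0 ≤ Da0 s a b t k := by
  have e1 := up (t1 := 39 / 1000) (t2 := (54 / 1000)) (x := b) (by norm_num)
    (by linear_combination (1001521 / 1000000) * b1) (by linear_combination (250729 / 250000) * b2)
  exfalso
  exact absurd b1 (not_le.mpr (by linear_combination (86603000 / 41840621) * e1 + (99789400 / 41840621) * R.k2 + (99789400 / 41840621) * t2 + (99789400 / 41840621) * hE))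

theorem d86 {s a b t k : ℝ} (R : Reg s a b t k) (hE : b / 2 ≤ t + k)
    (s1 : 8011 / 10000 ≤ s) (s2 : s ≤ 4087 / 5000)
    (b1 : 391 / 5000 ≤ b) (b2 : b ≤ 1063 / 10000) (t1 : 329 / 10000 ≤ t) (t2 : t ≤ 197 / 5000) :
    (t - b / 2 + k ≤ a ∧ 0 ≤ Daa s a b t k) ∨ 0 ≤ Dbb s a b t k ∨ 0 ≤ Da0 s a b t k := by
  have e1 := up (t1 := 462 / 1000) (t2 := (485 / 1000)) (x := s - t) (by norm_num)
    (by linear_combination (303361 / 250000) * s1 + (303361 / 250000) * t2) (by linear_combination (49409 / 40000) * s2 + (49409 / 40000) * t1)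
  have e2 := R.lo2 (510 / 1000) (by norm_num)
  have e3 := R.lo3 (355 / 1000) (by norm_num)
  have e4 := R.lo6 (427 / 1000) (by norm_num)
  have e5 := up (t1 := 417 / 1000) (t2 := (427 / 1000)) (x := s - a) (by norm_num)
    (by linear_combination (8217223 / 10000000) * s1 + (1173889 / 1000000) * R.ha) (by linear_combination (8276303 / 10000000) * s2 - (1182329 / 1000000) * R.ha)
  have e6 := R.lo5 (428 / 1000) (by norm_num)
  have e7 := R.lo1 (516 / 1000) (by norm_num)
  have e8 := up (t1 := 39 / 1000) (t2 := (54 / 1000)) (x := b) (by norm_num)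
    (by linear_combination (1001521 / 1000000) * b1) (by linear_combination (250729 / 250000) * b2)
  right; left
  unfold Dbb
  linear_combination (176174273579595963806000 / 30661469555770403272923) * e8 + (62500 / 45859) * e7 + (62500 / 51051) * e6 + (2000000 / 821941) * e5 + (1000000 / 817671) * e4 + (40000 / 34959) * e3 + (20000 / 7399) * e2 + (400000 / 77593) * e1 - (1541793462111200 / 7831717003096383) * R.ha + (2914312607711844400 / 675975935547211299) * R.k2 + (8744537849200667055375067787680 / 45568990818576135273498359783559) * s1 + (11519264897774906407634 / 48182309301924919428879) * b2 + (29929426215098497532000 / 52451000766914766323307) * t1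

theorem d87 {s a b t k : ℝ} (R : Reg s a b t k) (hE : b / 2 ≤ t + k)
    (s1 : 4087 / 5000 ≤ s) (s2 : s ≤ 521 / 625)
    (b1 : 1 / 20 ≤ b) (b2 : b ≤ 1063 / 10000) (t1 : 263 / 10000 ≤ t) (t2 : t ≤ 197 / 5000) :
    (t - b / 2 + k ≤ a ∧ 0 ≤ Daa s a b t k) ∨ 0 ≤ Dbb s a b t k ∨ 0 ≤ Da0 s a b t k := by
  have e1 := up (t1 := 477 / 1000) (t2 := (508 / 1000)) (x := s - t) (by norm_num)
    (by linear_combination (1227529 / 1000000) * s1 + (1227529 / 1000000) * t2) (by linear_combination (78629 / 62500) * s2 + (78629 / 62500) * t1)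
  have e2 := R.lo2 (528 / 1000) (by norm_num)
  have e3 := R.lo3 (372 / 1000) (by norm_num)
  have e4 := R.lo6 (435 / 1000) (by norm_num)
  have e5 := up (t1 := 426 / 1000) (t2 := (437 / 1000)) (x := s - a) (by norm_num)
    (by linear_combination (2067583 / 2500000) * s1 + (295369 / 250000) * R.ha) (by linear_combination (8336783 / 10000000) * s2 - (1190969 / 1000000) * R.ha)
  have e6 := R.lo5 (452 / 1000) (by norm_num)
  have e7 := R.lo1 (531 / 1000) (by norm_num)
  have e8 := up (t1 := 25 / 1000) (t2 := (54 / 1000)) (x := b) (by norm_num)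
    (by linear_combination (1601 / 1600) * b1) (by linear_combination (250729 / 250000) * b2)
  right; left
  unfold Dbb
  linear_combination (13749768552567651787880 / 2310914486660322522903) * e8 + (1000000 / 718039) * e7 + (62500 / 49731) * e6 + (1000000 / 406919) * e5 + (40000 / 32431) * e4 + (62500 / 53851) * e3 + (31250 / 11269) * e2 + (1000000 / 189421) * e1 - (18708041351900 / 101522906154677) * R.ha + (5793021513694217800 / 1272721141203802521) * R.k2 + (33872098383682749210578490411530 / 157927110969522762234629642295993) * s1 + (17595152441818979760599 / 90785926261655527685475) * b2 + (156310395940273053291200 / 241080111287965477330341) * t1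

theorem d88 {s a b t k : ℝ} (R : Reg s a b t k) (hE : b / 2 ≤ t + k)
    (s1 : 8011 / 10000 ≤ s) (s2 : s ≤ 521 / 625)
    (b1 : 1 / 20 ≤ b) (b2 : b ≤ 1063 / 10000) (t1 : 197 / 5000 ≤ t) (t2 : t ≤ 21 / 400) :
    (t - b / 2 + k ≤ a ∧ 0 ≤ Daa s a b t k) ∨ 0 ≤ Dbb s a b t k ∨ 0 ≤ Da0 s a b t k := by
  have e1 := up (t1 := 450 / 1000) (t2 := (495 / 1000)) (x := s - t) (by norm_num)
    (by linear_combination (481 / 400) * s1 + (481 / 400) * t2) (by linear_combination (49801 / 40000) * s2 + (49801 / 40000) * t1)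
  have e2 := R.lo2 (519 / 1000) (by norm_num)
  have e3 := R.lo3 (358 / 1000) (by norm_num)
  have e4 := R.lo6 (419 / 1000) (by norm_num)
  have e5 := up (t1 := 417 / 1000) (t2 := (437 / 1000)) (x := s - a) (by norm_num)
    (by linear_combination (8217223 / 10000000) * s1 + (1173889 / 1000000) * R.ha) (by linear_combination (8336783 / 10000000) * s2 - (1190969 / 1000000) * R.ha)
  have e6 := R.lo5 (433 / 1000) (by norm_num)
  have e7 := R.lo1 (508 / 1000) (by norm_num)
  have e8 := up (t1 := 25 / 1000) (t2 := (54 / 1000)) (x := b) (by norm_num)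
    (by linear_combination (1601 / 1600) * b1) (by linear_combination (250729 / 250000) * b2)
  right; left
  unfold Dbb
  linear_combination (53039340122801857914500 / 9291799247075287044921) * e8 + (62500 / 46371) * e7 + (1000000 / 812511) * e6 + (2000000 / 817771) * e5 + (1000000 / 824439) * e4 + (250000 / 217959) * e3 + (2000000 / 730639) * e2 + (16000 / 3109) * e1 - (1755685149275000 / 6997545728462751) * R.ha + (21866264356847132500 / 5117398073290349847) * R.k2 + (65847898638697776016584584120 / 277090563891575730197900231541) * s1 + (41205033581667673026901 / 204419583435656314988262) * b2 + (9392842982712354744140 / 15909990609859697674323) * t1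

theorem d91 {s a b t k : ℝ} (R : Reg s a b t k) (hE : b / 2 ≤ t + k)
    (s1 : 521 / 625 ≤ s) (s2 : s ≤ 8499 / 10000)
    (b1 : 1 / 20 ≤ b) (b2 : b ≤ 1063 / 10000) (t1 : 263 / 10000 ≤ t) (t2 : t ≤ 197 / 5000) :
    (t - b / 2 + k ≤ a ∧ 0 ≤ Daa s a b t k) ∨ 0 ≤ Dbb s a b t k ∨ 0 ≤ Da0 s a b t k := by
  have e1 := up (t1 := 494 / 1000) (t2 := (526 / 1000)) (x := s - t) (by norm_num)
    (by linear_combination (311009 / 250000) * s1 + (311009 / 250000) * t2) (by linear_combination (319169 / 250000) * s2 + (319169 / 250000) * t1)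
  have e2 := R.lo2 (547 / 1000) (by norm_num)
  have e3 := R.lo3 (380 / 1000) (by norm_num)
  have e4 := R.lo6 (445 / 1000) (by norm_num)
  have e5 := up (t1 := 436 / 1000) (t2 := (447 / 1000)) (x := s - a) (by norm_num)
    (by linear_combination (520667 / 625000) * s1 + (74381 / 62500) * R.ha) (by linear_combination (8398663 / 10000000) * s2 - (1199809 / 1000000) * R.ha)
  have e6 := R.lo5 (467 / 1000) (by norm_num)
  have e7 := R.lo1 (551 / 1000) (by norm_num)
  have e8 := up (t1 := 25 / 1000) (t2 := (54 / 1000)) (x := b) (by norm_num)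
    (by linear_combination (1601 / 1600) * b1) (by linear_combination (250729 / 250000) * b2)
  right; left
  unfold Dbb
  linear_combination (15436668213878097211100 / 2512661124598163123481) * e8 + (1000000 / 696399) * e7 + (1000000 / 781911) * e6 + (500000 / 201277) * e5 + (40000 / 32079) * e4 + (2500 / 2139) * e3 + (2000000 / 700791) * e2 + (1000000 / 185039) * e1 - (899874109000 / 4603673361579) * R.ha + (6607743305356703500 / 1383831791447443767) * R.k2 + (9345353186135579666092840300 / 37390060048525829584364125701) * s1 + (49926187456673872287959 / 276392723705797943582910) * b2 + (129593832392926275500 / 175746637513825358409) * t1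

theorem d92 {s a b t k : ℝ} (R : Reg s a b t k) (hE : b / 2 ≤ t + k)
    (s1 : 8499 / 10000 ≤ s) (s2 : s ≤ 8661 / 10000)
    (b1 : 1 / 20 ≤ b) (b2 : b ≤ 1063 / 10000) (t1 : 263 / 10000 ≤ t) (t2 : t ≤ 197 / 5000) :
    (t - b / 2 + k ≤ a ∧ 0 ≤ Daa s a b t k) ∨ 0 ≤ Dbb s a b t k ∨ 0 ≤ Da0 s a b t k := by
  have e1 := up (t1 := 511 / 1000) (t2 := (545 / 1000)) (x := s - t) (by norm_num)
    (by linear_combination (1261121 / 1000000) * s1 + (1261121 / 1000000) * t2) (by linear_combination (51881 / 40000) * s2 + (51881 / 40000) * t1)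
  have e2 := R.lo2 (567 / 1000) (by norm_num)
  have e3 := R.lo3 (389 / 1000) (by norm_num)
  have e4 := R.lo6 (455 / 1000) (by norm_num)
  have e5 := up (t1 := 446 / 1000) (t2 := (458 / 1000)) (x := s - a) (by norm_num)
    (by linear_combination (2098103 / 2500000) * s1 + (299729 / 250000) * R.ha) (by linear_combination (2117087 / 2500000) * s2 - (302441 / 250000) * R.ha)
  have e6 := R.lo5 (483 / 1000) (by norm_num)
  have e7 := R.lo1 (571 / 1000) (by norm_num)
  have e8 := up (t1 := 25 / 1000) (t2 := (54 / 1000)) (x := b) (by norm_num)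
    (by linear_combination (1601 / 1600) * b1) (by linear_combination (250729 / 250000) * b2)
  right; left
  unfold Dbb
  linear_combination (2653456559635266649760 / 417544075853118911463) * e8 + (1000000 / 673959) * e7 + (1000000 / 766711) * e6 + (500000 / 198933) * e5 + (40000 / 31719) * e4 + (1000000 / 848679) * e3 + (2000000 / 678511) * e2 + (800000 / 144301) * e1 - (123659284376800 / 595014111255837) * R.ha + (1154095970353525600 / 229959687297066441) * R.k2 + (63367375672641292068925785164560 / 213287537571569155794591976120923) * s1 + (1495723422965506342772 / 8832663143046746204025) * b2 + (27732741210577631751200 / 33183412836653984502741) * t1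

theorem d93 {s a b t k : ℝ} (R : Reg s a b t k) (hE : b / 2 ≤ t + k)
    (s1 : 521 / 625 ≤ s) (s2 : s ≤ 8661 / 10000)
    (b1 : 1 / 20 ≤ b) (b2 : b ≤ 1063 / 10000) (t1 : 197 / 5000 ≤ t) (t2 : t ≤ 21 / 400) :
    (t - b / 2 + k ≤ a ∧ 0 ≤ Daa s a b t k) ∨ 0 ≤ Dbb s a b t k ∨ 0 ≤ Da0 s a b t k := by
  have e1 := up (t1 := 480 / 1000) (t2 := (530 / 1000)) (x := s - t) (by norm_num)
    (by linear_combination (769 / 625) * s1 + (769 / 625) * t2) (by linear_combination (12809 / 10000) * s2 + (12809 / 10000) * t1)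
  have e2 := R.lo2 (557 / 1000) (by norm_num)
  have e3 := R.lo3 (375 / 1000) (by norm_num)
  have e4 := R.lo6 (438 / 1000) (by norm_num)
  have e5 := up (t1 := 436 / 1000) (t2 := (458 / 1000)) (x := s - a) (by norm_num)
    (by linear_combination (520667 / 625000) * s1 + (74381 / 62500) * R.ha) (by linear_combination (2117087 / 2500000) * s2 - (302441 / 250000) * R.ha)
  have e6 := R.lo5 (462 / 1000) (by norm_num)
  have e7 := R.lo1 (545 / 1000) (by norm_num)
  have e8 := up (t1 := 25 / 1000) (t2 := (54 / 1000)) (x := b) (by norm_num)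
    (by linear_combination (1601 / 1600) * b1) (by linear_combination (250729 / 250000) * b2)
  right; left
  unfold Dbb
  linear_combination (3381966731241731832496 / 557812252807396170675) * e8 + (40000 / 28119) * e7 + (250000 / 196639) * e6 + (250000 / 100039) * e5 + (250000 / 202039) * e4 + (64 / 55) * e3 + (2000000 / 689751) * e2 + (1250 / 233) * e1 - (308429235492 / 1111647873655) * R.ha + (287671039828544752 / 61442294906937945) * R.k2 + (1128682713742018430050081889281 / 3292788038218692623319501341550) * s1 + (47413747560161674861626 / 255663949203389911559375) * b2 + (21087090079916456693 / 28632109426633082370) * t1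

theorem d95 {s a b t k : ℝ} (R : Reg s a b t k) (hE : b / 2 ≤ t + k)
    (s1 : 8011 / 10000 ≤ s) (s2 : s ≤ 8661 / 10000)
    (b1 : 1063 / 10000 ≤ b) (b2 : b ≤ 13 / 80) (t1 : 263 / 10000 ≤ t) (t2 : t ≤ 197 / 5000) :
    (t - b / 2 + k ≤ a ∧ 0 ≤ Daa s a b t k) ∨ 0 ≤ Dbb s a b t k ∨ 0 ≤ Da0 s a b t k := by
  have e1 := up (t1 := 53 / 1000) (t2 := (82 / 1000)) (x := b) (by norm_num)
    (by linear_combination (1002809 / 1000000) * b1) (by linear_combination (251681 / 250000) * b2)
  exfalso
  exact absurd b1 (not_le.mpr (by linear_combination (1574600 / 692569) * e1 + (1810280 / 692569) * R.k2 + (1810280 / 692569) * t2 + (1810280 / 692569) * hE))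

theorem d97 {s a b t k : ℝ} (R : Reg s a b t k) (hE : b / 2 ≤ t + k)
    (s1 : 8011 / 10000 ≤ s) (s2 : s ≤ 8661 / 10000)
    (b1 : 1063 / 10000 ≤ b) (b2 : b ≤ 13 / 80) (t1 : 197 / 5000 ≤ t) (t2 : t ≤ 23 / 500) :
    (t - b / 2 + k ≤ a ∧ 0 ≤ Daa s a b t k) ∨ 0 ≤ Dbb s a b t k ∨ 0 ≤ Da0 s a b t k := by
  have e1 := up (t1 := 53 / 1000) (t2 := (82 / 1000)) (x := b) (by norm_num)
    (by linear_combination (1002809 / 1000000) * b1) (by linear_combination (251681 / 250000) * b2)
  exfalso
  exact absurd b1 (not_le.mpr (by linear_combination (1574600 / 692569) * e1 + (1810280 / 692569) * R.k2 + (1810280 / 692569) * t2 + (1810280 / 692569) * hE))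

theorem d98 {s a b t k : ℝ} (R : Reg s a b t k) (hE : b / 2 ≤ t + k)
    (s1 : 8011 / 10000 ≤ s) (s2 : s ≤ 8661 / 10000)
    (b1 : 1063 / 10000 ≤ b) (b2 : b ≤ 13 / 80) (t1 : 23 / 500 ≤ t) (t2 : t ≤ 21 / 400) :
    (t - b / 2 + k ≤ a ∧ 0 ≤ Daa s a b t k) ∨ 0 ≤ Dbb s a b t k ∨ 0 ≤ Da0 s a b t k := by
  have e1 := up (t1 := 450 / 1000) (t2 := (522 / 1000)) (x := s - t) (by norm_num)
    (by linear_combination (481 / 400) * s1 + (481 / 400) * t2) (by linear_combination (318121 / 250000) * s2 + (318121 / 250000) * t1)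
  have e2 := R.lo2 (537 / 1000) (by norm_num)
  have e3 := R.lo4 (12 / 1000) (by norm_num)
  have e4 := up (t1 := 417 / 1000) (t2 := (458 / 1000)) (x := s - a) (by norm_num)
    (by linear_combination (8217223 / 10000000) * s1 + (1173889 / 1000000) * R.ha) (by linear_combination (2117087 / 2500000) * s2 - (302441 / 250000) * R.ha)
  have e5 := R.lo6 (445 / 1000) (by norm_num)
  have e6 := R.lo1 (549 / 1000) (by norm_num)
  have e7 := R.lo3 (340 / 1000) (by norm_num)
  have e8 := up (t1 := 53 / 1000) (t2 := (82 / 1000)) (x := b) (by norm_num)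
    (by linear_combination (1002809 / 1000000) * b1) (by linear_combination (251681 / 250000) * b2)
  left
  unfold Daa
  constructor
  · linear_combination (100 / 27) * e8 - R.ha + (7618259 / 27) * R.k1 + (7618286 / 27) * R.k2 + (3 / 10) * s1 + t2
  · linear_combination (58362591849613041000 / 11698231063619673443) * e8 + (2500 / 2211) * e7 + (1000000 / 698599) * e6 + (40000 / 32079) * e5 + (500000 / 404507) * e4 + (62500 / 62491) * e3 + (2000000 / 711631) * e2 + (40000 / 7651) * e1 + (14869795795949700 / 18109976445121847) * R.ha + (9742259710317400 / 2843329025340089) * R.k2 + (370730487526378469219177930970 / 6262189712678177453862905281063) * s1 + (113798370047720874245 / 386041625099449223619) * b1 + (36010603461584232920 / 21754310372877020939) * t1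

theorem d103 {s a b t k : ℝ} (R : Reg s a b t k) (hE : b / 2 ≤ t + k)
    (s1 : 8011 / 10000 ≤ s) (s2 : s ≤ 521 / 625)
    (b1 : 1 / 20 ≤ b) (b2 : b ≤ 1063 / 10000) (t1 : 21 / 400 ≤ t) (t2 : t ≤ 657 / 10000) :
    (t - b / 2 + k ≤ a ∧ 0 ≤ Daa s a b t k) ∨ 0 ≤ Dbb s a b t k ∨ 0 ≤ Da0 s a b t k := by
  have e1 := up (t1 := 438 / 1000) (t2 := (481 / 1000)) (x := s - t) (by norm_num)
    (by linear_combination (297961 / 250000) * s1 + (297961 / 250000) * t2) (by linear_combination (1231361 / 1000000) * s2 + (1231361 / 1000000) * t1)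
  have e2 := R.lo2 (519 / 1000) (by norm_num)
  have e3 := R.lo3 (348 / 1000) (by norm_num)
  have e4 := R.lo6 (408 / 1000) (by norm_num)
  have e5 := up (t1 := 417 / 1000) (t2 := (437 / 1000)) (x := s - a) (by norm_num)
    (by linear_combination (8217223 / 10000000) * s1 + (1173889 / 1000000) * R.ha) (by linear_combination (8336783 / 10000000) * s2 - (1190969 / 1000000) * R.ha)
  have e6 := R.lo5 (422 / 1000) (by norm_num)
  have e7 := R.lo1 (494 / 1000) (by norm_num)
  have e8 := up (t1 := 25 / 1000) (t2 := (54 / 1000)) (x := b) (by norm_num)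
    (by linear_combination (1601 / 1600) * b1) (by linear_combination (250729 / 250000) * b2)
  right; left
  unfold Dbb
  linear_combination (157458537265042605275 / 28308273080302941584) * e8 + (250000 / 188991) * e7 + (250000 / 205479) * e6 + (2000000 / 817771) * e5 + (15625 / 13024) * e4 + (62500 / 54931) * e3 + (2000000 / 730639) * e2 + (2000000 / 394661) * e1 - (570226755875 / 1794634441424) * R.ha + (63994319474138375 / 15590597500792688) * R.k2 + (400844124391619653942404425 / 1356133682378980126430544736) * s1 + (23076460421166873536731 / 112100761397999648672640) * b2 + (3399456088474035328125 / 6153000800260343038768) * t1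

theorem d104 {s a b t k : ℝ} (R : Reg s a b t k) (hE : b / 2 ≤ t + k)
    (s1 : 521 / 625 ≤ s) (s2 : s ≤ 8661 / 10000)
    (b1 : 1 / 20 ≤ b) (b2 : b ≤ 1063 / 10000) (t1 : 21 / 400 ≤ t) (t2 : t ≤ 657 / 10000) :
    (t - b / 2 + k ≤ a ∧ 0 ≤ Daa s a b t k) ∨ 0 ≤ Dbb s a b t k ∨ 0 ≤ Da0 s a b t k := by
  have e1 := up (t1 := 468 / 1000) (t2 := (515 / 1000)) (x := s - t) (by norm_num)
    (by linear_combination (76189 / 62500) * s1 + (76189 / 62500) * t2) (by linear_combination (50609 / 40000) * s2 + (50609 / 40000) * t1)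
  have e2 := R.lo2 (557 / 1000) (by norm_num)
  have e3 := R.lo3 (365 / 1000) (by norm_num)
  have e4 := R.lo6 (427 / 1000) (by norm_num)
  have e5 := up (t1 := 436 / 1000) (t2 := (458 / 1000)) (x := s - a) (by norm_num)
    (by linear_combination (520667 / 625000) * s1 + (74381 / 62500) * R.ha) (by linear_combination (2117087 / 2500000) * s2 - (302441 / 250000) * R.ha)
  have e6 := R.lo5 (450 / 1000) (by norm_num)
  have e7 := R.lo1 (529 / 1000) (by norm_num)
  have e8 := up (t1 := 25 / 1000) (t2 := (54 / 1000)) (x := b) (by norm_num)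
    (by linear_combination (1601 / 1600) * b1) (by linear_combination (250729 / 250000) * b2)
  right; left
  unfold Dbb
  linear_combination (703725672123005429816 / 119448159102510078477) * e8 + (1000000 / 720159) * e7 + (400 / 319) * e6 + (250000 / 100039) * e5 + (1000000 / 817671) * e4 + (40000 / 34671) * e3 + (2000000 / 689751) * e2 + (200000 / 37949) * e1 - (109502020700300 / 315116972608711) * R.ha + (294999623975167960 / 65785297658219139) * R.k2 + (3313290939881006814266078454070 / 8202978366257023914497567362299) * s1 + (4552203736896481411609 / 23463031252278765415125) * b2 + (1738448789372233813360 / 2496486260831758105911) * t1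

theorem d105 {s a b t k : ℝ} (R : Reg s a b t k) (hE : b / 2 ≤ t + k)
    (s1 : 8011 / 10000 ≤ s) (s2 : s ≤ 8661 / 10000)
    (b1 : 1063 / 10000 ≤ b) (b2 : b ≤ 13 / 80) (t1 : 21 / 400 ≤ t) (t2 : t ≤ 657 / 10000) :
    (t - b / 2 + k ≤ a ∧ 0 ≤ Daa s a b t k) ∨ 0 ≤ Dbb s a b t k ∨ 0 ≤ Da0 s a b t k := by
  have e1 := up (t1 := 438 / 1000) (t2 := (515 / 1000)) (x := s - t) (by norm_num)
    (by linear_combination (297961 / 250000) * s1 + (297961 / 250000) * t2) (by linear_combination (50609 / 40000) * s2 + (50609 / 40000) * t1)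
  have e2 := R.lo2 (537 / 1000) (by norm_num)
  have e3 := R.lo4 (17 / 1000) (by norm_num)
  have e4 := up (t1 := 417 / 1000) (t2 := (458 / 1000)) (x := s - a) (by norm_num)
    (by linear_combination (8217223 / 10000000) * s1 + (1173889 / 1000000) * R.ha) (by linear_combination (2117087 / 2500000) * s2 - (302441 / 250000) * R.ha)
  have e5 := R.lo6 (437 / 1000) (by norm_num)
  have e6 := R.lo1 (537 / 1000) (by norm_num)
  have e7 := R.lo3 (333 / 1000) (by norm_num)
  have e8 := up (t1 := 53 / 1000) (t2 := (82 / 1000)) (x := b) (by norm_num)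
    (by linear_combination (1002809 / 1000000) * b1) (by linear_combination (251681 / 250000) * b2)
  left
  unfold Daa
  constructor
  · linear_combination (100 / 27) * e8 - R.ha + (7618259 / 27) * R.k1 + (7618286 / 27) * R.k2 + (3 / 10) * s1 + t2
  · linear_combination (1102573612133493414800000 / 158816268272747377781901) * e8 + (1000000 / 889111) * e7 + (1000000 / 711631) * e6 + (1000000 / 809031) * e5 + (500000 / 404507) * e4 + (1000000 / 999711) * e3 + (2000000 / 711631) * e2 + (400000 / 77443) * e1 + (75806035101570498738500 / 96961740766707302728119) * R.ha + (32564031536124772169848660000 / 158816268272747377781901) * R.k1 + (32564556355097912152037680000 / 158816268272747377781901) * R.k2 + (1946519515171317229886420650 / 16418386307165858748901176881) * s1 + (17137989430397639746929200 / 10593633302193260273526063) * t1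

theorem d106 {s a b t k : ℝ} (R : Reg s a b t k) (hE : b / 2 ≤ t + k)
    (s1 : 8011 / 10000 ≤ s) (s2 : s ≤ 8661 / 10000)
    (b1 : 1 / 20 ≤ b) (b2 : b ≤ 13 / 80) (t1 : 657 / 10000 ≤ t) (t2 : t ≤ 197 / 2500) :
    (t - b / 2 + k ≤ a ∧ 0 ≤ Daa s a b t k) ∨ 0 ≤ Dbb s a b t k ∨ 0 ≤ Da0 s a b t k := by
  have e1 := up (t1 := 426 / 1000) (t2 := (501 / 1000)) (x := s - t) (by norm_num)
    (by linear_combination (295369 / 250000) * s1 + (295369 / 250000) * t2) (by linear_combination (1251001 / 1000000) * s2 + (1251001 / 1000000) * t1)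
  have e2 := R.lo2 (537 / 1000) (by norm_num)
  have e3 := R.lo4 (16 / 1000) (by norm_num)
  have e4 := up (t1 := 417 / 1000) (t2 := (458 / 1000)) (x := s - a) (by norm_num)
    (by linear_combination (8217223 / 10000000) * s1 + (1173889 / 1000000) * R.ha) (by linear_combination (2117087 / 2500000) * s2 - (302441 / 250000) * R.ha)
  have e5 := R.lo6 (415 / 1000) (by norm_num)
  have e6 := R.lo1 (509 / 1000) (by norm_num)
  have e7 := R.lo3 (335 / 1000) (by norm_num)
  have e8 := up (t1 := 25 / 1000) (t2 := (82 / 1000)) (x := b) (by norm_num)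
    (by linear_combination (1601 / 1600) * b1) (by linear_combination (251681 / 250000) * b2)
  left
  unfold Daa
  constructor
  · linear_combination (500 / 107) * e8 - R.ha + (40630979 / 107) * R.k1 + (40631086 / 107) * R.k2 + (3 / 10) * s1 + t2
  · linear_combination (416820016149098650000 / 53930541064714817139) * e8 + (40000 / 35511) * e7 + (1000000 / 740919) * e6 + (40000 / 33111) * e5 + (500000 / 404507) * e4 + (15625 / 15621) * e3 + (2000000 / 711631) * e2 + (2000000 / 393287) * e1 + (584326426072174000 / 825519932708395743) * R.ha + (2333544393478436387633500 / 7704363009244973877) * R.k1 + (16334977903691967860573000 / 53930541064714817139) * R.k2 + (1155447192044682510936636997256900 / 8151611078733704947445363383657869) * s1 + (320089341193442731929500 / 198225987885219591477999) * t1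

theorem d107 {s a b t k : ℝ} (R : Reg s a b t k) (hE : b / 2 ≤ t + k)
    (s1 : 8011 / 10000 ≤ s) (s2 : s ≤ 8661 / 10000)
    (b1 : 1 / 20 ≤ b) (b2 : b ≤ 13 / 80) (t1 : 197 / 2500 ≤ t) (t2 : t ≤ 21 / 200) :
    (t - b / 2 + k ≤ a ∧ 0 ≤ Daa s a b t k) ∨ 0 ≤ Dbb s a b t k ∨ 0 ≤ Da0 s a b t k := by
  have e1 := up (t1 := 405 / 1000) (t2 := (488 / 1000)) (x := s - t) (by norm_num)
    (by linear_combination (46561 / 40000) * s1 + (46561 / 40000) * t2) (by linear_combination (19346 / 15625) * s2 + (19346 / 15625) * t1)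
  have e2 := R.lo2 (537 / 1000) (by norm_num)
  have e3 := R.lo4 (26 / 1000) (by norm_num)
  have e4 := up (t1 := 417 / 1000) (t2 := (458 / 1000)) (x := s - a) (by norm_num)
    (by linear_combination (8217223 / 10000000) * s1 + (1173889 / 1000000) * R.ha) (by linear_combination (2117087 / 2500000) * s2 - (302441 / 250000) * R.ha)
  have e5 := R.lo6 (399 / 1000) (by norm_num)
  have e6 := R.lo1 (488 / 1000) (by norm_num)
  have e7 := R.lo3 (321 / 1000) (by norm_num)
  have e8 := up (t1 := 25 / 1000) (t2 := (82 / 1000)) (x := b) (by norm_num)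
    (by linear_combination (1601 / 1600) * b1) (by linear_combination (251681 / 250000) * b2)
  left
  unfold Daa
  constructor
  · linear_combination (500 / 107) * e8 - R.ha + (40630979 / 107) * R.k1 + (40631086 / 107) * R.k2 + (3 / 10) * s1 + t2
  · linear_combination (73195236726497576890625 / 9999460263095301790512) * e8 + (1000000 / 896959) * e7 + (15625 / 11904) * e6 + (1000000 / 840799) * e5 + (500000 / 404507) * e4 + (250000 / 249831) * e3 + (2000000 / 711631) * e2 + (100000 / 20059) * e1 + (48420598293409937448500 / 76214419517709738494397) * R.ha + (1599177867514394712223119625 / 5713977293197315308864) * R.k1 + (5597180411092902573449747875 / 19998920526190603581024) * R.k2 + (24701208675971616147369363806829175 / 102783560092040158100444938458716352) * s1 + (11682114762775023621322825 / 7498286856726304994986176) * t1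

theorem d109 {s a b t k : ℝ} (R : Reg s a b t k) (hE : b / 2 ≤ t + k)
    (s1 : 7361 / 10000 ≤ s) (s2 : s ≤ 8661 / 10000)
    (b1 : 13 / 80 ≤ b) (b2 : b ≤ 11 / 40) (t1 : 0 ≤ t) (t2 : t ≤ 21 / 400) :
    (t - b / 2 + k ≤ a ∧ 0 ≤ Daa s a b t k) ∨ 0 ≤ Dbb s a b t k ∨ 0 ≤ Da0 s a b t k := by
  have e1 := up (t1 := 81 / 1000) (t2 := (141 / 1000)) (x := b) (by norm_num)
    (by linear_combination (1006561 / 1000000) * b1) (by linear_combination (1019881 / 1000000) * b2)
  exfalso
  exact absurd b1 (not_le.mpr (by linear_combination (21650750 / 7550771) * e1 + (24714475 / 7550771) * R.k2 + (24714475 / 7550771) * t2 + (24714475 / 7550771) * hE))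

theorem d111 {s a b t k : ℝ} (R : Reg s a b t k) (hE : b / 2 ≤ t + k)
    (s1 : 7361 / 10000 ≤ s) (s2 : s ≤ 8011 / 10000)
    (b1 : 13 / 80 ≤ b) (b2 : b ≤ 11 / 40) (t1 : 21 / 400 ≤ t) (t2 : t ≤ 21 / 200) :
    (t - b / 2 + k ≤ a ∧ 0 ≤ Daa s a b t k) ∨ 0 ≤ Dbb s a b t k ∨ 0 ≤ Da0 s a b t k := by
  have e1 := up (t1 := 355 / 1000) (t2 := (451 / 1000)) (x := s - t) (by norm_num)
    (by linear_combination (45041 / 40000) * s1 + (45041 / 40000) * t2) (by linear_combination (1203401 / 1000000) * s2 + (1203401 / 1000000) * t1)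
  have e2 := R.lo2 (469 / 1000) (by norm_num)
  have e3 := R.lo4 (65 / 1000) (by norm_num)
  have e4 := up (t1 := 380 / 1000) (t2 := (418 / 1000)) (x := s - a) (by norm_num)
    (by linear_combination (20027 / 25000) * s1 + (2861 / 2500) * R.ha) (by linear_combination (2055767 / 2500000) * s2 - (293681 / 250000) * R.ha)
  have e5 := R.lo6 (405 / 1000) (by norm_num)
  have e6 := R.lo1 (477 / 1000) (by norm_num)
  have e7 := R.lo3 (254 / 1000) (by norm_num)
  have e8 := up (t1 := 81 / 1000) (t2 := (141 / 1000)) (x := b) (by norm_num)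
    (by linear_combination (1006561 / 1000000) * b1) (by linear_combination (1019881 / 1000000) * b2)
  left
  unfold Daa
  constructor
  · linear_combination (250 / 111) * e8 - R.ha + (15101542 / 111) * R.k1 + (15101653 / 111) * R.k2 + (3 / 10) * s1 + t2
  · linear_combination (1131539446184627074000 / 262223462451046898723) * e8 + (250000 / 233871) * e7 + (1000000 / 772471) * e6 + (40000 / 33439) * e5 + (25000 / 21029) * e4 + (40000 / 39831) * e3 + (2000000 / 780039) * e2 + (800000 / 167979) * e1 + (476548804153750 / 686843357132163) * R.ha + (7634111700433800 / 2917782076052107) * R.k2 + (1298941709844383319192460825 / 8296960154628595285537648947) * s1 + (179547499544552443008 / 2884458086961515885953) * b2 + (31527128069012068600 / 25796111334376677987) * t1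

theorem d112 {s a b t k : ℝ} (R : Reg s a b t k) (hE : b / 2 ≤ t + k)
    (s1 : 8011 / 10000 ≤ s) (s2 : s ≤ 8661 / 10000)
    (b1 : 13 / 80 ≤ b) (b2 : b ≤ 11 / 40) (t1 : 21 / 400 ≤ t) (t2 : t ≤ 21 / 200) :
    (t - b / 2 + k ≤ a ∧ 0 ≤ Daa s a b t k) ∨ 0 ≤ Dbb s a b t k ∨ 0 ≤ Da0 s a b t k := by
  have e1 := up (t1 := 405 / 1000) (t2 := (515 / 1000)) (x := s - t) (by norm_num)
    (by linear_combination (46561 / 40000) * s1 + (46561 / 40000) * t2) (by linear_combination (50609 / 40000) * s2 + (50609 / 40000) * t1)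
  have e2 := R.lo2 (537 / 1000) (by norm_num)
  have e3 := R.lo4 (55 / 1000) (by norm_num)
  have e4 := up (t1 := 417 / 1000) (t2 := (458 / 1000)) (x := s - a) (by norm_num)
    (by linear_combination (8217223 / 10000000) * s1 + (1173889 / 1000000) * R.ha) (by linear_combination (2117087 / 2500000) * s2 - (302441 / 250000) * R.ha)
  have e5 := R.lo6 (444 / 1000) (by norm_num)
  have e6 := R.lo1 (547 / 1000) (by norm_num)
  have e7 := R.lo3 (282 / 1000) (by norm_num)
  have e8 := up (t1 := 81 / 1000) (t2 := (141 / 1000)) (x := b) (by norm_num)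
    (by linear_combination (1006561 / 1000000) * b1) (by linear_combination (1019881 / 1000000) * b2)
  left
  unfold Daa
  constructor
  · linear_combination (250 / 111) * e8 - R.ha + (15101542 / 111) * R.k1 + (15101653 / 111) * R.k2 + (3 / 10) * s1 + t2
  · linear_combination (8316371256768774475000 / 1705732559588390222799) * e8 + (250000 / 230119) * e7 + (1000000 / 700791) * e6 + (62500 / 50179) * e5 + (500000 / 404507) * e4 + (40000 / 39879) * e3 + (2000000 / 711631) * e2 + (160000 / 31657) * e1 + (139244336068811363800 / 186270800611908803553) * R.ha + (39582489104558206615400 / 5280905757239598213) * R.k1 + (12790550344780084202530300 / 1705732559588390222799) * R.k2 + (15992682965699766913603642561046140 / 46678550574721056371175358327935807) * s1 + (720131237630719507704100 / 486471852602609633181513) * t1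

end Pool.Agent.Strip051.FourB
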