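import Pool.Agent.Strip051.FourB.Box

/-! # The exit is below the top of the body, boxes 3 -/

namespace Pool.Agent.Strip051.FourB

open Pool.Agent.StripNear Pool.Agent.StripSquare Pool.Agent.Strip051
open Pool.Agent.Strip051.Four.Low (ph)

theorem d114 {s a b t k : ℝ} (R : Reg s a b t k) (hE : b / 2 ≤ t + k)
    (s1 : 7361 / 10000 ≤ s) (s2 : s ≤ 8661 / 10000)
    (b1 : 11 / 40 ≤ b) (b2 : b ≤ 1 / 2) (t1 : 0 ≤ t) (t2 : t ≤ 21 / 400) :
    (t - b / 2 + k ≤ a ∧ 0 ≤ Daa s a b t k) ∨ 0 ≤ Dbb s a b t k ∨ 0 ≤ Da0 s a b t k := by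
  have e1 := up (t1 := 140 / 1000) (t2 := (268 / 1000)) (x := b) (by norm_num)
    (by linarith only [b1]) (by linarith only [b2])
  exfalso
  linarith only [e1, R.ha, R.k1, R.k2, R.h2, R.h3, s1, s2, b1, b2, t1, t2, hE]

theorem d117 {s a b t k : ℝ} (R : Reg s a b t k) (hE : b / 2 ≤ t + k)
    (s1 : 7361 / 10000 ≤ s) (s2 : s ≤ 8661 / 10000)
    (b1 : 11 / 40 ≤ b) (b2 : b ≤ 31 / 80) (t1 : 21 / 400 ≤ t) (t2 : t ≤ 197 / 2500) :
    (t - b / 2 + k ≤ a ∧ 0 ≤ Daa s a b t k) ∨ 0 ≤ Dbb s a b t k ∨ 0 ≤ Da0 s a b t k := by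
  have e1 := up (t1 := 140 / 1000) (t2 := (202 / 1000)) (x := b) (by norm_num)
    (by linarith only [b1]) (by linarith only [b2])
  exfalso
  linarith only [e1, R.ha, R.k1, R.k2, R.h2, R.h3, s1, s2, b1, b2, t1, t2, hE]

theorem d119 {s a b t k : ℝ} (R : Reg s a b t k) (hE : b / 2 ≤ t + k)
    (s1 : 7361 / 10000 ≤ s) (s2 : s ≤ 8661 / 10000)
    (b1 : 11 / 40 ≤ b) (b2 : b ≤ 3313 / 10000) (t1 : 197 / 2500 ≤ t) (t2 : t ≤ 21 / 200) :
    (t - b / 2 + k ≤ a ∧ 0 ≤ Daa s a b t k) ∨ 0 ≤ Dbb s a b t k ∨ 0 ≤ Da0 s a b t k := by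
  have e1 := up (t1 := 355 / 1000) (t2 := (488 / 1000)) (x := s - t) (by norm_num)
    (by linarith only [s1, t2]) (by linarith only [s2, t1])
  have e2 := R.lo2 (501 / 1000) (by norm_num)
  have e3 := R.lo4 (98 / 1000) (by norm_num)
  have e4 := up (t1 := 380 / 1000) (t2 := (458 / 1000)) (x := s - a) (by norm_num)
    (by linarith only [s1, R.ha]) (by linarith only [s2, R.ha])
  have e5 := R.lo6 (433 / 1000) (by norm_num)
  have e6 := R.lo1 (521 / 1000) (by norm_num)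
  have e7 := R.lo3 (224 / 1000) (by norm_num)
  have e8 := up (t1 := 140 / 1000) (t2 := (171 / 1000)) (x := b) (by norm_num)
    (by linarith only [b1]) (by linarith only [b2])
  left
  unfold Daa
  constructor
  · linarith only [e8, e7, e6, e5, e4, e3, e2, e1, R.ha, R.k1, R.k2, R.h2, R.h3, s1, s2, b1, b2, t1, t2]
  · linarith only [e8, e7, e6, e5, e4, e3, e2, e1, R.ha, R.k1, R.k2, R.h2, R.h3, s1, s2, b1, b2, t1, t2]

theorem d120 {s a b t k : ℝ} (R : Reg s a b t k) (hE : b / 2 ≤ t + k)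
    (s1 : 7361 / 10000 ≤ s) (s2 : s ≤ 8661 / 10000)
    (b1 : 3313 / 10000 ≤ b) (b2 : b ≤ 31 / 80) (t1 : 197 / 2500 ≤ t) (t2 : t ≤ 21 / 200) :
    (t - b / 2 + k ≤ a ∧ 0 ≤ Daa s a b t k) ∨ 0 ≤ Dbb s a b t k ∨ 0 ≤ Da0 s a b t k := by
  have e1 := up (t1 := 170 / 1000) (t2 := (202 / 1000)) (x := b) (by norm_num)
    (by linarith only [b1]) (by linarith only [b2])
  exfalso
  linarith only [e1, R.ha, R.k1, R.k2, R.h2, R.h3, s1, s2, b1, b2, t1, t2, hE]

theorem d121 {s a b t k : ℝ} (R : Reg s a b t k) (hE : b / 2 ≤ t + k)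
    (s1 : 7361 / 10000 ≤ s) (s2 : s ≤ 8661 / 10000)
    (b1 : 31 / 80 ≤ b) (b2 : b ≤ 1 / 2) (t1 : 21 / 400 ≤ t) (t2 : t ≤ 21 / 200) :
    (t - b / 2 + k ≤ a ∧ 0 ≤ Daa s a b t k) ∨ 0 ≤ Dbb s a b t k ∨ 0 ≤ Da0 s a b t k := by
  have e1 := up (t1 := 201 / 1000) (t2 := (268 / 1000)) (x := b) (by norm_num)
    (by linarith only [b1]) (by linarith only [b2])
  exfalso
  linarith only [e1, R.ha, R.k1, R.k2, R.h2, R.h3, s1, s2, b1, b2, t1, t2, hE]

theorem d125 {s a b t k : ℝ} (R : Reg s a b t k) (hE : b / 2 ≤ t + k)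
    (s1 : 7361 / 10000 ≤ s) (s2 : s ≤ 8661 / 10000)
    (b1 : 1 / 20 ≤ b) (b2 : b ≤ 11 / 40) (t1 : 21 / 200 ≤ t) (t2 : t ≤ 1313 / 10000) :
    (t - b / 2 + k ≤ a ∧ 0 ≤ Daa s a b t k) ∨ 0 ≤ Dbb s a b t k ∨ 0 ≤ Da0 s a b t k := by
  have e1 := up (t1 := 336 / 1000) (t2 := (462 / 1000)) (x := s - t) (by norm_num)
    (by linarith only [s1, t2]) (by linarith only [s2, t1])
  have e2 := R.lo2 (501 / 1000) (by norm_num)
  have e3 := R.lo7 (348 / 1000) (by norm_num)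
  have e4 := up (t1 := 380 / 1000) (t2 := (458 / 1000)) (x := s - a) (by norm_num)
    (by linarith only [s1, R.ha]) (by linarith only [s2, R.ha])
  have e5 := R.lo1 (449 / 1000) (by norm_num)
  have e6 := R.lo3 (264 / 1000) (by norm_num)
  have e7 := up (t1 := 25 / 1000) (t2 := (141 / 1000)) (x := b) (by norm_num)
    (by linarith only [b1]) (by linarith only [b2])
  right; right
  unfold Da0
  linarith only [e7, e6, e5, e4, e3, e2, e1, R.ha, R.k1, R.k2, R.h2, R.h3, s1, s2, b1, b2, t1, t2]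

theorem d126 {s a b t k : ℝ} (R : Reg s a b t k) (hE : b / 2 ≤ t + k)
    (s1 : 7361 / 10000 ≤ s) (s2 : s ≤ 8661 / 10000)
    (b1 : 1 / 20 ≤ b) (b2 : b ≤ 11 / 40) (t1 : 1313 / 10000 ≤ t) (t2 : t ≤ 63 / 400) :
    (t - b / 2 + k ≤ a ∧ 0 ≤ Daa s a b t k) ∨ 0 ≤ Dbb s a b t k ∨ 0 ≤ Da0 s a b t k := by
  have e1 := up (t1 := 318 / 1000) (t2 := (438 / 1000)) (x := s - t) (by norm_num)
    (by linarith only [s1, t2]) (by linarith only [s2, t1])
  have e2 := R.lo2 (501 / 1000) (by norm_num)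
  have e3 := R.lo7 (348 / 1000) (by norm_num)
  have e4 := up (t1 := 380 / 1000) (t2 := (458 / 1000)) (x := s - a) (by norm_num)
    (by linarith only [s1, R.ha]) (by linarith only [s2, R.ha])
  have e5 := R.lo1 (426 / 1000) (by norm_num)
  have e6 := R.lo3 (248 / 1000) (by norm_num)
  have e7 := up (t1 := 25 / 1000) (t2 := (141 / 1000)) (x := b) (by norm_num)
    (by linarith only [b1]) (by linarith only [b2])
  right; right
  unfold Da0
  linarith only [e7, e6, e5, e4, e3, e2, e1, R.ha, R.k1, R.k2, R.h2, R.h3, s1, s2, b1, b2, t1, t2]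

theorem d129 {s a b t k : ℝ} (R : Reg s a b t k) (hE : b / 2 ≤ t + k)
    (s1 : 7361 / 10000 ≤ s) (s2 : s ≤ 8011 / 10000)
    (b1 : 11 / 40 ≤ b) (b2 : b ≤ 31 / 80) (t1 : 21 / 200 ≤ t) (t2 : t ≤ 63 / 400) :
    (t - b / 2 + k ≤ a ∧ 0 ≤ Daa s a b t k) ∨ 0 ≤ Dbb s a b t k ∨ 0 ≤ Da0 s a b t k := by
  have e1 := up (t1 := 318 / 1000) (t2 := (406 / 1000)) (x := s - t) (by norm_num)
    (by linarith only [s1, t2]) (by linarith only [s2, t1])
  have e2 := R.lo2 (469 / 1000) (by norm_num)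
  have e3 := R.lo4 (136 / 1000) (by norm_num)
  have e4 := up (t1 := 380 / 1000) (t2 := (418 / 1000)) (x := s - a) (by norm_num)
    (by linarith only [s1, R.ha]) (by linarith only [s2, R.ha])
  have e5 := R.lo6 (386 / 1000) (by norm_num)
  have e6 := R.lo1 (454 / 1000) (by norm_num)
  have e7 := R.lo3 (176 / 1000) (by norm_num)
  have e8 := up (t1 := 140 / 1000) (t2 := (202 / 1000)) (x := b) (by norm_num)
    (by linarith only [b1]) (by linarith only [b2])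
  left
  unfold Daa
  constructor
  · linarith only [e8, e7, e6, e5, e4, e3, e2, e1, R.ha, R.k1, R.k2, R.h2, R.h3, s1, s2, b1, b2, t1, t2]
  · linarith only [e8, e7, e6, e5, e4, e3, e2, e1, R.ha, R.k1, R.k2, R.h2, R.h3, s1, s2, b1, b2, t1, t2]

theorem d130 {s a b t k : ℝ} (R : Reg s a b t k) (hE : b / 2 ≤ t + k)
    (s1 : 8011 / 10000 ≤ s) (s2 : s ≤ 8661 / 10000)
    (b1 : 11 / 40 ≤ b) (b2 : b ≤ 31 / 80) (t1 : 21 / 200 ≤ t) (t2 : t ≤ 63 / 400) :
    (t - b / 2 + k ≤ a ∧ 0 ≤ Daa s a b t k) ∨ 0 ≤ Dbb s a b t k ∨ 0 ≤ Da0 s a b t k := by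
  have e1 := up (t1 := 364 / 1000) (t2 := (462 / 1000)) (x := s - t) (by norm_num)
    (by linarith only [s1, t2]) (by linarith only [s2, t1])
  have e2 := R.lo2 (537 / 1000) (by norm_num)
  have e3 := R.lo4 (126 / 1000) (by norm_num)
  have e4 := up (t1 := 417 / 1000) (t2 := (458 / 1000)) (x := s - a) (by norm_num)
    (by linarith only [s1, R.ha]) (by linarith only [s2, R.ha])
  have e5 := R.lo6 (423 / 1000) (by norm_num)
  have e6 := R.lo1 (519 / 1000) (by norm_num)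
  have e7 := R.lo3 (201 / 1000) (by norm_num)
  have e8 := up (t1 := 140 / 1000) (t2 := (202 / 1000)) (x := b) (by norm_num)
    (by linarith only [b1]) (by linarith only [b2])
  left
  unfold Daa
  constructor
  · linarith only [e8, e7, e6, e5, e4, e3, e2, e1, R.ha, R.k1, R.k2, R.h2, R.h3, s1, s2, b1, b2, t1, t2]
  · linarith only [e8, e7, e6, e5, e4, e3, e2, e1, R.ha, R.k1, R.k2, R.h2, R.h3, s1, s2, b1, b2, t1, t2]

theorem d135 {s a b t k : ℝ} (R : Reg s a b t k) (hE : b / 2 ≤ t + k)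
    (s1 : 7361 / 10000 ≤ s) (s2 : s ≤ 8011 / 10000)
    (b1 : 31 / 80 ≤ b) (b2 : b ≤ 2219 / 5000) (t1 : 21 / 200 ≤ t) (t2 : t ≤ 591 / 5000) :
    (t - b / 2 + k ≤ a ∧ 0 ≤ Daa s a b t k) ∨ 0 ≤ Dbb s a b t k ∨ 0 ≤ Da0 s a b t k := by
  have e1 := up (t1 := 201 / 1000) (t2 := (235 / 1000)) (x := b) (by norm_num)
    (by linarith only [b1]) (by linarith only [b2])
  exfalso
  linarith only [e1, R.ha, R.k1, R.k2, R.h2, R.h3, s1, s2, b1, b2, t1, t2, hE]

theorem d136 {s a b t k : ℝ} (R : Reg s a b t k) (hE : b / 2 ≤ t + k)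
    (s1 : 7361 / 10000 ≤ s) (s2 : s ≤ 8011 / 10000)
    (b1 : 31 / 80 ≤ b) (b2 : b ≤ 2219 / 5000) (t1 : 591 / 5000 ≤ t) (t2 : t ≤ 1313 / 10000) :
    (t - b / 2 + k ≤ a ∧ 0 ≤ Daa s a b t k) ∨ 0 ≤ Dbb s a b t k ∨ 0 ≤ Da0 s a b t k := by
  have e1 := up (t1 := 336 / 1000) (t2 := (395 / 1000)) (x := s - t) (by norm_num)
    (by linarith only [s1, t2]) (by linarith only [s2, t1])
  have e2 := R.lo2 (469 / 1000) (by norm_num)
  have e3 := R.lo4 (170 / 1000) (by norm_num)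
  have e4 := up (t1 := 380 / 1000) (t2 := (418 / 1000)) (x := s - a) (by norm_num)
    (by linarith only [s1, R.ha]) (by linarith only [s2, R.ha])
  have e5 := R.lo6 (402 / 1000) (by norm_num)
  have e6 := R.lo1 (473 / 1000) (by norm_num)
  have e7 := R.lo3 (141 / 1000) (by norm_num)
  have e8 := up (t1 := 201 / 1000) (t2 := (235 / 1000)) (x := b) (by norm_num)
    (by linarith only [b1]) (by linarith only [b2])
  left
  unfold Daa
  constructor
  · linarith only [e8, e7, e6, e5, e4, e3, e2, e1, R.ha, R.k1, R.k2, R.h2, R.h3, s1, s2, b1, b2, t1, t2]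
  · linarith only [e8, e7, e6, e5, e4, e3, e2, e1, R.ha, R.k1, R.k2, R.h2, R.h3, s1, s2, b1, b2, t1, t2]

theorem d137 {s a b t k : ℝ} (R : Reg s a b t k) (hE : b / 2 ≤ t + k)
    (s1 : 7361 / 10000 ≤ s) (s2 : s ≤ 8011 / 10000)
    (b1 : 31 / 80 ≤ b) (b2 : b ≤ 2219 / 5000) (t1 : 1313 / 10000 ≤ t) (t2 : t ≤ 63 / 400) :
    (t - b / 2 + k ≤ a ∧ 0 ≤ Daa s a b t k) ∨ 0 ≤ Dbb s a b t k ∨ 0 ≤ Da0 s a b t k := by
  have e1 := up (t1 := 318 / 1000) (t2 := (385 / 1000)) (x := s - t) (by norm_num)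
    (by linarith only [s1, t2]) (by linarith only [s2, t1])
  have e2 := R.lo2 (469 / 1000) (by norm_num)
  have e3 := R.lo4 (181 / 1000) (by norm_num)
  have e4 := up (t1 := 380 / 1000) (t2 := (418 / 1000)) (x := s - a) (by norm_num)
    (by linarith only [s1, R.ha]) (by linarith only [s2, R.ha])
  have e5 := R.lo6 (387 / 1000) (by norm_num)
  have e6 := R.lo1 (454 / 1000) (by norm_num)
  have e7 := R.lo3 (131 / 1000) (by norm_num)
  have e8 := up (t1 := 201 / 1000) (t2 := (235 / 1000)) (x := b) (by norm_num)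
    (by linarith only [b1]) (by linarith only [b2])
  left
  unfold Daa
  constructor
  · linarith only [e8, e7, e6, e5, e4, e3, e2, e1, R.ha, R.k1, R.k2, R.h2, R.h3, s1, s2, b1, b2, t1, t2]
  · linarith only [e8, e7, e6, e5, e4, e3, e2, e1, R.ha, R.k1, R.k2, R.h2, R.h3, s1, s2, b1, b2, t1, t2]

theorem d139 {s a b t k : ℝ} (R : Reg s a b t k) (hE : b / 2 ≤ t + k)
    (s1 : 7361 / 10000 ≤ s) (s2 : s ≤ 8011 / 10000)
    (b1 : 2219 / 5000 ≤ b) (b2 : b ≤ 1 / 2) (t1 : 21 / 200 ≤ t) (t2 : t ≤ 1313 / 10000) :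
    (t - b / 2 + k ≤ a ∧ 0 ≤ Daa s a b t k) ∨ 0 ≤ Dbb s a b t k ∨ 0 ≤ Da0 s a b t k := by
  have e1 := up (t1 := 234 / 1000) (t2 := (268 / 1000)) (x := b) (by norm_num)
    (by linarith only [b1]) (by linarith only [b2])
  exfalso
  linarith only [e1, R.ha, R.k1, R.k2, R.h2, R.h3, s1, s2, b1, b2, t1, t2, hE]

theorem d141 {s a b t k : ℝ} (R : Reg s a b t k) (hE : b / 2 ≤ t + k)
    (s1 : 7361 / 10000 ≤ s) (s2 : s ≤ 8011 / 10000)
    (b1 : 2219 / 5000 ≤ b) (b2 : b ≤ 4719 / 10000) (t1 : 1313 / 10000 ≤ t) (t2 : t ≤ 63 / 400) :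
    (t - b / 2 + k ≤ a ∧ 0 ≤ Daa s a b t k) ∨ 0 ≤ Dbb s a b t k ∨ 0 ≤ Da0 s a b t k := by
  have e1 := up (t1 := 318 / 1000) (t2 := (385 / 1000)) (x := s - t) (by norm_num)
    (by linarith only [s1, t2]) (by linarith only [s2, t1])
  have e2 := R.lo2 (469 / 1000) (by norm_num)
  have e3 := R.lo4 (202 / 1000) (by norm_num)
  have e4 := up (t1 := 380 / 1000) (t2 := (418 / 1000)) (x := s - a) (by norm_num)
    (by linarith only [s1, R.ha]) (by linarith only [s2, R.ha])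
  have e5 := R.lo6 (389 / 1000) (by norm_num)
  have e6 := R.lo1 (458 / 1000) (by norm_num)
  have e7 := R.lo3 (111 / 1000) (by norm_num)
  have e8 := up (t1 := 234 / 1000) (t2 := (251 / 1000)) (x := b) (by norm_num)
    (by linarith only [b1]) (by linarith only [b2])
  left
  unfold Daa
  constructor
  · linarith only [e8, e7, e6, e5, e4, e3, e2, e1, R.ha, R.k1, R.k2, R.h2, R.h3, s1, s2, b1, b2, t1, t2]
  · linarith only [e8, e7, e6, e5, e4, e3, e2, e1, R.ha, R.k1, R.k2, R.h2, R.h3, s1, s2, b1, b2, t1, t2]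

theorem d145 {s a b t k : ℝ} (R : Reg s a b t k) (hE : b / 2 ≤ t + k)
    (s1 : 7361 / 10000 ≤ s) (s2 : s ≤ 3843 / 5000)
    (b1 : 4719 / 10000 ≤ b) (b2 : b ≤ 243 / 500) (t1 : 1313 / 10000 ≤ t) (t2 : t ≤ 361 / 2500) :
    (t - b / 2 + k ≤ a ∧ 0 ≤ Daa s a b t k) ∨ 0 ≤ Dbb s a b t k ∨ 0 ≤ Da0 s a b t k := by
  have e1 := up (t1 := 327 / 1000) (t2 := (360 / 1000)) (x := s - t) (by norm_num)
    (by linarith only [s1, t2]) (by linarith only [s2, t1])
  have e2 := R.lo2 (454 / 1000) (by norm_num)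
  have e3 := R.lo4 (213 / 1000) (by norm_num)
  have e4 := up (t1 := 380 / 1000) (t2 := (399 / 1000)) (x := s - a) (by norm_num)
    (by linarith only [s1, R.ha]) (by linarith only [s2, R.ha])
  have e5 := R.lo6 (386 / 1000) (by norm_num)
  have e6 := R.lo1 (450 / 1000) (by norm_num)
  have e7 := R.lo3 (98 / 1000) (by norm_num)
  have e8 := up (t1 := 250 / 1000) (t2 := (260 / 1000)) (x := b) (by norm_num)
    (by linarith only [b1]) (by linarith only [b2])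
  left
  unfold Daa
  constructor
  · linarith only [e8, e7, e6, e5, e4, e3, e2, e1, R.ha, R.k1, R.k2, R.h2, R.h3, s1, s2, b1, b2, t1, t2]
  · linarith only [e8, e7, e6, e5, e4, e3, e2, e1, R.ha, R.k1, R.k2, R.h2, R.h3, s1, s2, b1, b2, t1, t2]

theorem d148 {s a b t k : ℝ} (R : Reg s a b t k) (hE : b / 2 ≤ t + k)
    (s1 : 7361 / 10000 ≤ s) (s2 : s ≤ 1881 / 2500)
    (b1 : 243 / 500 ≤ b) (b2 : b ≤ 1 / 2) (t1 : 1313 / 10000 ≤ t) (t2 : t ≤ 1379 / 10000) :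
    (t - b / 2 + k ≤ a ∧ 0 ≤ Daa s a b t k) ∨ 0 ≤ Dbb s a b t k ∨ 0 ≤ Da0 s a b t k := by
  have e1 := up (t1 := 332 / 1000) (t2 := (349 / 1000)) (x := s - t) (by norm_num)
    (by linarith only [s1, t2]) (by linarith only [s2, t1])
  have e2 := R.lo2 (446 / 1000) (by norm_num)
  have e3 := R.lo4 (220 / 1000) (by norm_num)
  have e4 := up (t1 := 380 / 1000) (t2 := (390 / 1000)) (x := s - a) (by norm_num)
    (by linarith only [s1, R.ha]) (by linarith only [s2, R.ha])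
  have e5 := R.lo6 (385 / 1000) (by norm_num)
  have e6 := R.lo1 (446 / 1000) (by norm_num)
  have e7 := R.lo3 (89 / 1000) (by norm_num)
  have e8 := up (t1 := 259 / 1000) (t2 := (268 / 1000)) (x := b) (by norm_num)
    (by linarith only [b1]) (by linarith only [b2])
  left
  unfold Daa
  constructor
  · linarith only [e8, e7, e6, e5, e4, e3, e2, e1, R.ha, R.k1, R.k2, R.h2, R.h3, s1, s2, b1, b2, t1, t2]
  · linarith only [e8, e7, e6, e5, e4, e3, e2, e1, R.ha, R.k1, R.k2, R.h2, R.h3, s1, s2, b1, b2, t1, t2]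

theorem d149 {s a b t k : ℝ} (R : Reg s a b t k) (hE : b / 2 ≤ t + k)
    (s1 : 1881 / 2500 ≤ s) (s2 : s ≤ 3843 / 5000)
    (b1 : 243 / 500 ≤ b) (b2 : b ≤ 1 / 2) (t1 : 1313 / 10000 ≤ t) (t2 : t ≤ 1379 / 10000) :
    (t - b / 2 + k ≤ a ∧ 0 ≤ Daa s a b t k) ∨ 0 ≤ Dbb s a b t k ∨ 0 ≤ Da0 s a b t k := by
  have e1 := up (t1 := 343 / 1000) (t2 := (360 / 1000)) (x := s - t) (by norm_num)
    (by linarith only [s1, t2]) (by linarith only [s2, t1])
  have e2 := R.lo2 (461 / 1000) (by norm_num)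
  have e3 := R.lo4 (218 / 1000) (by norm_num)
  have e4 := up (t1 := 389 / 1000) (t2 := (399 / 1000)) (x := s - a) (by norm_num)
    (by linarith only [s1, R.ha]) (by linarith only [s2, R.ha])
  have e5 := R.lo6 (394 / 1000) (by norm_num)
  have e6 := R.lo1 (460 / 1000) (by norm_num)
  have e7 := R.lo3 (95 / 1000) (by norm_num)
  have e8 := up (t1 := 259 / 1000) (t2 := (268 / 1000)) (x := b) (by norm_num)
    (by linarith only [b1]) (by linarith only [b2])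
  left
  unfold Daa
  constructor
  · linarith only [e8, e7, e6, e5, e4, e3, e2, e1, R.ha, R.k1, R.k2, R.h2, R.h3, s1, s2, b1, b2, t1, t2]
  · linarith only [e8, e7, e6, e5, e4, e3, e2, e1, R.ha, R.k1, R.k2, R.h2, R.h3, s1, s2, b1, b2, t1, t2]

theorem d150 {s a b t k : ℝ} (R : Reg s a b t k) (hE : b / 2 ≤ t + k)
    (s1 : 7361 / 10000 ≤ s) (s2 : s ≤ 3843 / 5000)
    (b1 : 243 / 500 ≤ b) (b2 : b ≤ 1 / 2) (t1 : 1379 / 10000 ≤ t) (t2 : t ≤ 361 / 2500) :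
    (t - b / 2 + k ≤ a ∧ 0 ≤ Daa s a b t k) ∨ 0 ≤ Dbb s a b t k ∨ 0 ≤ Da0 s a b t k := by
  have e1 := up (t1 := 327 / 1000) (t2 := (356 / 1000)) (x := s - t) (by norm_num)
    (by linarith only [s1, t2]) (by linarith only [s2, t1])
  have e2 := R.lo2 (454 / 1000) (by norm_num)
  have e3 := R.lo4 (223 / 1000) (by norm_num)
  have e4 := up (t1 := 380 / 1000) (t2 := (399 / 1000)) (x := s - a) (by norm_num)
    (by linarith only [s1, R.ha]) (by linarith only [s2, R.ha])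
  have e5 := R.lo6 (384 / 1000) (by norm_num)
  have e6 := R.lo1 (447 / 1000) (by norm_num)
  have e7 := R.lo3 (89 / 1000) (by norm_num)
  have e8 := up (t1 := 259 / 1000) (t2 := (268 / 1000)) (x := b) (by norm_num)
    (by linarith only [b1]) (by linarith only [b2])
  left
  unfold Daa
  constructor
  · linarith only [e8, e7, e6, e5, e4, e3, e2, e1, R.ha, R.k1, R.k2, R.h2, R.h3, s1, s2, b1, b2, t1, t2]
  · linarith only [e8, e7, e6, e5, e4, e3, e2, e1, R.ha, R.k1, R.k2, R.h2, R.h3, s1, s2, b1, b2, t1, t2]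

theorem d151 {s a b t k : ℝ} (R : Reg s a b t k) (hE : b / 2 ≤ t + k)
    (s1 : 7361 / 10000 ≤ s) (s2 : s ≤ 3843 / 5000)
    (b1 : 4719 / 10000 ≤ b) (b2 : b ≤ 1 / 2) (t1 : 361 / 2500 ≤ t) (t2 : t ≤ 63 / 400) :
    (t - b / 2 + k ≤ a ∧ 0 ≤ Daa s a b t k) ∨ 0 ≤ Dbb s a b t k ∨ 0 ≤ Da0 s a b t k := by
  have e1 := up (t1 := 318 / 1000) (t2 := (351 / 1000)) (x := s - t) (by norm_num)
    (by linarith only [s1, t2]) (by linarith only [s2, t1])
  have e2 := R.lo2 (454 / 1000) (by norm_num)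
  have e3 := R.lo4 (225 / 1000) (by norm_num)
  have e4 := up (t1 := 380 / 1000) (t2 := (399 / 1000)) (x := s - a) (by norm_num)
    (by linarith only [s1, R.ha]) (by linarith only [s2, R.ha])
  have e5 := R.lo6 (376 / 1000) (by norm_num)
  have e6 := R.lo1 (438 / 1000) (by norm_num)
  have e7 := R.lo3 (87 / 1000) (by norm_num)
  have e8 := up (t1 := 250 / 1000) (t2 := (268 / 1000)) (x := b) (by norm_num)
    (by linarith only [b1]) (by linarith only [b2])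
  left
  unfold Daa
  constructor
  · linarith only [e8, e7, e6, e5, e4, e3, e2, e1, R.ha, R.k1, R.k2, R.h2, R.h3, s1, s2, b1, b2, t1, t2]
  · linarith only [e8, e7, e6, e5, e4, e3, e2, e1, R.ha, R.k1, R.k2, R.h2, R.h3, s1, s2, b1, b2, t1, t2]

theorem d152 {s a b t k : ℝ} (R : Reg s a b t k) (hE : b / 2 ≤ t + k)
    (s1 : 3843 / 5000 ≤ s) (s2 : s ≤ 8011 / 10000)
    (b1 : 4719 / 10000 ≤ b) (b2 : b ≤ 1 / 2) (t1 : 1313 / 10000 ≤ t) (t2 : t ≤ 63 / 400) :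
    (t - b / 2 + k ≤ a ∧ 0 ≤ Daa s a b t k) ∨ 0 ≤ Dbb s a b t k ∨ 0 ≤ Da0 s a b t k := by
  have e1 := up (t1 := 341 / 1000) (t2 := (385 / 1000)) (x := s - t) (by norm_num)
    (by linarith only [s1, t2]) (by linarith only [s2, t1])
  have e2 := R.lo2 (485 / 1000) (by norm_num)
  have e3 := R.lo4 (215 / 1000) (by norm_num)
  have e4 := up (t1 := 398 / 1000) (t2 := (418 / 1000)) (x := s - a) (by norm_num)
    (by linarith only [s1, R.ha]) (by linarith only [s2, R.ha])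
  have e5 := R.lo6 (399 / 1000) (by norm_num)
  have e6 := R.lo1 (474 / 1000) (by norm_num)
  have e7 := R.lo3 (102 / 1000) (by norm_num)
  have e8 := up (t1 := 250 / 1000) (t2 := (268 / 1000)) (x := b) (by norm_num)
    (by linarith only [b1]) (by linarith only [b2])
  left
  unfold Daa
  constructor
  · linarith only [e8, e7, e6, e5, e4, e3, e2, e1, R.ha, R.k1, R.k2, R.h2, R.h3, s1, s2, b1, b2, t1, t2]
  · linarith only [e8, e7, e6, e5, e4, e3, e2, e1, R.ha, R.k1, R.k2, R.h2, R.h3, s1, s2, b1, b2, t1, t2]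

theorem d155 {s a b t k : ℝ} (R : Reg s a b t k) (hE : b / 2 ≤ t + k)
    (s1 : 8011 / 10000 ≤ s) (s2 : s ≤ 8661 / 10000)
    (b1 : 31 / 80 ≤ b) (b2 : b ≤ 2219 / 5000) (t1 : 21 / 200 ≤ t) (t2 : t ≤ 1313 / 10000) :
    (t - b / 2 + k ≤ a ∧ 0 ≤ Daa s a b t k) ∨ 0 ≤ Dbb s a b t k ∨ 0 ≤ Da0 s a b t k := by
  have e1 := up (t1 := 384 / 1000) (t2 := (462 / 1000)) (x := s - t) (by norm_num)
    (by linarith only [s1, t2]) (by linarith only [s2, t1])
  have e2 := R.lo2 (537 / 1000) (by norm_num)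
  have e3 := R.lo4 (156 / 1000) (by norm_num)
  have e4 := up (t1 := 417 / 1000) (t2 := (458 / 1000)) (x := s - a) (by norm_num)
    (by linarith only [s1, R.ha]) (by linarith only [s2, R.ha])
  have e5 := R.lo6 (446 / 1000) (by norm_num)
  have e6 := R.lo1 (550 / 1000) (by norm_num)
  have e7 := R.lo3 (169 / 1000) (by norm_num)
  have e8 := up (t1 := 201 / 1000) (t2 := (235 / 1000)) (x := b) (by norm_num)
    (by linarith only [b1]) (by linarith only [b2])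
  left
  unfold Daa
  constructor
  · linarith only [e8, e7, e6, e5, e4, e3, e2, e1, R.ha, R.k1, R.k2, R.h2, R.h3, s1, s2, b1, b2, t1, t2]
  · linarith only [e8, e7, e6, e5, e4, e3, e2, e1, R.ha, R.k1, R.k2, R.h2, R.h3, s1, s2, b1, b2, t1, t2]

theorem d156 {s a b t k : ℝ} (R : Reg s a b t k) (hE : b / 2 ≤ t + k)
    (s1 : 8011 / 10000 ≤ s) (s2 : s ≤ 8661 / 10000)
    (b1 : 2219 / 5000 ≤ b) (b2 : b ≤ 1 / 2) (t1 : 21 / 200 ≤ t) (t2 : t ≤ 1313 / 10000) :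
    (t - b / 2 + k ≤ a ∧ 0 ≤ Daa s a b t k) ∨ 0 ≤ Dbb s a b t k ∨ 0 ≤ Da0 s a b t k := by
  have e1 := up (t1 := 234 / 1000) (t2 := (268 / 1000)) (x := b) (by norm_num)
    (by linarith only [b1]) (by linarith only [b2])
  exfalso
  linarith only [e1, R.ha, R.k1, R.k2, R.h2, R.h3, s1, s2, b1, b2, t1, t2, hE]

theorem d157 {s a b t k : ℝ} (R : Reg s a b t k) (hE : b / 2 ≤ t + k)
    (s1 : 8011 / 10000 ≤ s) (s2 : s ≤ 8661 / 10000)
    (b1 : 31 / 80 ≤ b) (b2 : b ≤ 1 / 2) (t1 : 1313 / 10000 ≤ t) (t2 : t ≤ 63 / 400) :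
    (t - b / 2 + k ≤ a ∧ 0 ≤ Daa s a b t k) ∨ 0 ≤ Dbb s a b t k ∨ 0 ≤ Da0 s a b t k := by
  have e1 := up (t1 := 364 / 1000) (t2 := (438 / 1000)) (x := s - t) (by norm_num)
    (by linarith only [s1, t2]) (by linarith only [s2, t1])
  have e2 := R.lo2 (537 / 1000) (by norm_num)
  have e3 := R.lo4 (185 / 1000) (by norm_num)
  have e4 := up (t1 := 417 / 1000) (t2 := (458 / 1000)) (x := s - a) (by norm_num)
    (by linarith only [s1, R.ha]) (by linarith only [s2, R.ha])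
  have e5 := R.lo6 (424 / 1000) (by norm_num)
  have e6 := R.lo1 (521 / 1000) (by norm_num)
  have e7 := R.lo3 (140 / 1000) (by norm_num)
  have e8 := up (t1 := 201 / 1000) (t2 := (268 / 1000)) (x := b) (by norm_num)
    (by linarith only [b1]) (by linarith only [b2])
  left
  unfold Daa
  constructor
  · linarith only [e8, e7, e6, e5, e4, e3, e2, e1, R.ha, R.k1, R.k2, R.h2, R.h3, s1, s2, b1, b2, t1, t2]
  · linarith only [e8, e7, e6, e5, e4, e3, e2, e1, R.ha, R.k1, R.k2, R.h2, R.h3, s1, s2, b1, b2, t1, t2]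

theorem d159 {s a b t k : ℝ} (R : Reg s a b t k) (hE : b / 2 ≤ t + k)
    (s1 : 7361 / 10000 ≤ s) (s2 : s ≤ 8661 / 10000)
    (b1 : 1 / 20 ≤ b) (b2 : b ≤ 11 / 40) (t1 : 63 / 400 ≤ t) (t2 : t ≤ 21 / 100) :
    (t - b / 2 + k ≤ a ∧ 0 ≤ Daa s a b t k) ∨ 0 ≤ Dbb s a b t k ∨ 0 ≤ Da0 s a b t k := by
  have e1 := up (t1 := 284 / 1000) (t2 := (416 / 1000)) (x := s - t) (by norm_num)
    (by linarith only [s1, t2]) (by linarith only [s2, t1])
  have e2 := R.lo2 (501 / 1000) (by norm_num)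
  have e3 := R.lo7 (348 / 1000) (by norm_num)
  have e4 := up (t1 := 380 / 1000) (t2 := (458 / 1000)) (x := s - a) (by norm_num)
    (by linarith only [s1, R.ha]) (by linarith only [s2, R.ha])
  have e5 := R.lo1 (393 / 1000) (by norm_num)
  have e6 := R.lo3 (225 / 1000) (by norm_num)
  have e7 := up (t1 := 25 / 1000) (t2 := (141 / 1000)) (x := b) (by norm_num)
    (by linarith only [b1]) (by linarith only [b2])
  right; right
  unfold Da0
  linarith only [e7, e6, e5, e4, e3, e2, e1, R.ha, R.k1, R.k2, R.h2, R.h3, s1, s2, b1, b2, t1, t2]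

theorem d161 {s a b t k : ℝ} (R : Reg s a b t k) (hE : b / 2 ≤ t + k)
    (s1 : 7361 / 10000 ≤ s) (s2 : s ≤ 8661 / 10000)
    (b1 : 11 / 40 ≤ b) (b2 : b ≤ 31 / 80) (t1 : 63 / 400 ≤ t) (t2 : t ≤ 21 / 100) :
    (t - b / 2 + k ≤ a ∧ 0 ≤ Daa s a b t k) ∨ 0 ≤ Dbb s a b t k ∨ 0 ≤ Da0 s a b t k := by
  have e1 := up (t1 := 284 / 1000) (t2 := (416 / 1000)) (x := s - t) (by norm_num)
    (by linarith only [s1, t2]) (by linarith only [s2, t1])
  have e2 := R.lo2 (501 / 1000) (by norm_num)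
  have e3 := R.lo7 (348 / 1000) (by norm_num)
  have e4 := up (t1 := 380 / 1000) (t2 := (458 / 1000)) (x := s - a) (by norm_num)
    (by linarith only [s1, R.ha]) (by linarith only [s2, R.ha])
  have e5 := R.lo1 (436 / 1000) (by norm_num)
  have e6 := R.lo3 (159 / 1000) (by norm_num)
  have e7 := up (t1 := 140 / 1000) (t2 := (202 / 1000)) (x := b) (by norm_num)
    (by linarith only [b1]) (by linarith only [b2])
  right; right
  unfold Da0
  linarith only [e7, e6, e5, e4, e3, e2, e1, R.ha, R.k1, R.k2, R.h2, R.h3, s1, s2, b1, b2, t1, t2]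

theorem d163 {s a b t k : ℝ} (R : Reg s a b t k) (hE : b / 2 ≤ t + k)
    (s1 : 7361 / 10000 ≤ s) (s2 : s ≤ 8011 / 10000)
    (b1 : 31 / 80 ≤ b) (b2 : b ≤ 1 / 2) (t1 : 63 / 400 ≤ t) (t2 : t ≤ 21 / 100) :
    (t - b / 2 + k ≤ a ∧ 0 ≤ Daa s a b t k) ∨ 0 ≤ Dbb s a b t k ∨ 0 ≤ Da0 s a b t k := by
  have e1 := up (t1 := 284 / 1000) (t2 := (365 / 1000)) (x := s - t) (by norm_num)
    (by linarith only [s1, t2]) (by linarith only [s2, t1])
  have e2 := R.lo2 (469 / 1000) (by norm_num)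
  have e3 := R.lo7 (339 / 1000) (by norm_num)
  have e4 := up (t1 := 380 / 1000) (t2 := (418 / 1000)) (x := s - a) (by norm_num)
    (by linarith only [s1, R.ha]) (by linarith only [s2, R.ha])
  have e5 := R.lo1 (421 / 1000) (by norm_num)
  have e6 := R.lo3 (96 / 1000) (by norm_num)
  have e7 := up (t1 := 201 / 1000) (t2 := (268 / 1000)) (x := b) (by norm_num)
    (by linarith only [b1]) (by linarith only [b2])
  right; right
  unfold Da0
  linarith only [e7, e6, e5, e4, e3, e2, e1, R.ha, R.k1, R.k2, R.h2, R.h3, s1, s2, b1, b2, t1, t2]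

theorem d164 {s a b t k : ℝ} (R : Reg s a b t k) (hE : b / 2 ≤ t + k)
    (s1 : 8011 / 10000 ≤ s) (s2 : s ≤ 8661 / 10000)
    (b1 : 31 / 80 ≤ b) (b2 : b ≤ 1 / 2) (t1 : 63 / 400 ≤ t) (t2 : t ≤ 21 / 100) :
    (t - b / 2 + k ≤ a ∧ 0 ≤ Daa s a b t k) ∨ 0 ≤ Dbb s a b t k ∨ 0 ≤ Da0 s a b t k := by
  have e1 := up (t1 := 327 / 1000) (t2 := (416 / 1000)) (x := s - t) (by norm_num)
    (by linarith only [s1, t2]) (by linarith only [s2, t1])
  have e2 := R.lo2 (537 / 1000) (by norm_num)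
  have e3 := R.lo4 (207 / 1000) (by norm_num)
  have e4 := up (t1 := 417 / 1000) (t2 := (458 / 1000)) (x := s - a) (by norm_num)
    (by linarith only [s1, R.ha]) (by linarith only [s2, R.ha])
  have e5 := R.lo6 (392 / 1000) (by norm_num)
  have e6 := R.lo1 (480 / 1000) (by norm_num)
  have e7 := R.lo3 (120 / 1000) (by norm_num)
  have e8 := up (t1 := 201 / 1000) (t2 := (268 / 1000)) (x := b) (by norm_num)
    (by linarith only [b1]) (by linarith only [b2])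
  left
  unfold Daa
  constructor
  · linarith only [e8, e7, e6, e5, e4, e3, e2, e1, R.ha, R.k1, R.k2, R.h2, R.h3, s1, s2, b1, b2, t1, t2]
  · linarith only [e8, e7, e6, e5, e4, e3, e2, e1, R.ha, R.k1, R.k2, R.h2, R.h3, s1, s2, b1, b2, t1, t2]

end Pool.Agent.Strip051.FourB
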