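import Pool.Agent.Strip051.FourB.BoxD1
import Pool.Agent.Strip051.FourB.BoxD2
import Pool.Agent.Strip051.FourB.BoxD3

/-! # The exit is below the top of the body, the subdivision -/

namespace Pool.Agent.Strip051.FourB

open Pool.Agent.StripNear Pool.Agent.StripSquare Pool.Agent.Strip051
open Pool.Agent.Strip051.Four.Low (ph)

theorem d162 {s a b t k : ℝ} (R : Reg s a b t k) (hE : b / 2 ≤ t + k)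
    (s1 : 7361 / 10000 ≤ s) (s2 : s ≤ 8661 / 10000)
    (b1 : 31 / 80 ≤ b) (b2 : b ≤ 1 / 2) (t1 : 63 / 400 ≤ t) (t2 : t ≤ 21 / 100) :
    (t - b / 2 + k ≤ a ∧ 0 ≤ Daa s a b t k) ∨ 0 ≤ Dbb s a b t k ∨ 0 ≤ Da0 s a b t k := by
  rcases le_total s (8011 / 10000) with h | h
  · exact d163 R hE s1 h b1 b2 t1 t2
  · exact d164 R hE h s2 b1 b2 t1 t2

theorem d160 {s a b t k : ℝ} (R : Reg s a b t k) (hE : b / 2 ≤ t + k)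
    (s1 : 7361 / 10000 ≤ s) (s2 : s ≤ 8661 / 10000)
    (b1 : 11 / 40 ≤ b) (b2 : b ≤ 1 / 2) (t1 : 63 / 400 ≤ t) (t2 : t ≤ 21 / 100) :
    (t - b / 2 + k ≤ a ∧ 0 ≤ Daa s a b t k) ∨ 0 ≤ Dbb s a b t k ∨ 0 ≤ Da0 s a b t k := by
  rcases le_total b (31 / 80) with h | h
  · exact d161 R hE s1 s2 b1 h t1 t2
  · exact d162 R hE s1 s2 h b2 t1 t2

theorem d158 {s a b t k : ℝ} (R : Reg s a b t k) (hE : b / 2 ≤ t + k)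
    (s1 : 7361 / 10000 ≤ s) (s2 : s ≤ 8661 / 10000)
    (b1 : 1 / 20 ≤ b) (b2 : b ≤ 1 / 2) (t1 : 63 / 400 ≤ t) (t2 : t ≤ 21 / 100) :
    (t - b / 2 + k ≤ a ∧ 0 ≤ Daa s a b t k) ∨ 0 ≤ Dbb s a b t k ∨ 0 ≤ Da0 s a b t k := by
  rcases le_total b (11 / 40) with h | h
  · exact d159 R hE s1 s2 b1 h t1 t2
  · exact d160 R hE s1 s2 h b2 t1 t2

theorem d154 {s a b t k : ℝ} (R : Reg s a b t k) (hE : b / 2 ≤ t + k)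
    (s1 : 8011 / 10000 ≤ s) (s2 : s ≤ 8661 / 10000)
    (b1 : 31 / 80 ≤ b) (b2 : b ≤ 1 / 2) (t1 : 21 / 200 ≤ t) (t2 : t ≤ 1313 / 10000) :
    (t - b / 2 + k ≤ a ∧ 0 ≤ Daa s a b t k) ∨ 0 ≤ Dbb s a b t k ∨ 0 ≤ Da0 s a b t k := by
  rcases le_total b (2219 / 5000) with h | h
  · exact d155 R hE s1 s2 b1 h t1 t2
  · exact d156 R hE s1 s2 h b2 t1 t2

theorem d153 {s a b t k : ℝ} (R : Reg s a b t k) (hE : b / 2 ≤ t + k)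
    (s1 : 8011 / 10000 ≤ s) (s2 : s ≤ 8661 / 10000)
    (b1 : 31 / 80 ≤ b) (b2 : b ≤ 1 / 2) (t1 : 21 / 200 ≤ t) (t2 : t ≤ 63 / 400) :
    (t - b / 2 + k ≤ a ∧ 0 ≤ Daa s a b t k) ∨ 0 ≤ Dbb s a b t k ∨ 0 ≤ Da0 s a b t k := by
  rcases le_total t (1313 / 10000) with h | h
  · exact d154 R hE s1 s2 b1 b2 t1 h
  · exact d157 R hE s1 s2 b1 b2 h t2

theorem d147 {s a b t k : ℝ} (R : Reg s a b t k) (hE : b / 2 ≤ t + k)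
    (s1 : 7361 / 10000 ≤ s) (s2 : s ≤ 3843 / 5000)
    (b1 : 243 / 500 ≤ b) (b2 : b ≤ 1 / 2) (t1 : 1313 / 10000 ≤ t) (t2 : t ≤ 1379 / 10000) :
    (t - b / 2 + k ≤ a ∧ 0 ≤ Daa s a b t k) ∨ 0 ≤ Dbb s a b t k ∨ 0 ≤ Da0 s a b t k := by
  rcases le_total s (1881 / 2500) with h | h
  · exact d148 R hE s1 h b1 b2 t1 t2
  · exact d149 R hE h s2 b1 b2 t1 t2

theorem d146 {s a b t k : ℝ} (R : Reg s a b t k) (hE : b / 2 ≤ t + k)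
    (s1 : 7361 / 10000 ≤ s) (s2 : s ≤ 3843 / 5000)
    (b1 : 243 / 500 ≤ b) (b2 : b ≤ 1 / 2) (t1 : 1313 / 10000 ≤ t) (t2 : t ≤ 361 / 2500) :
    (t - b / 2 + k ≤ a ∧ 0 ≤ Daa s a b t k) ∨ 0 ≤ Dbb s a b t k ∨ 0 ≤ Da0 s a b t k := by
  rcases le_total t (1379 / 10000) with h | h
  · exact d147 R hE s1 s2 b1 b2 t1 h
  · exact d150 R hE s1 s2 b1 b2 h t2

theorem d144 {s a b t k : ℝ} (R : Reg s a b t k) (hE : b / 2 ≤ t + k)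
    (s1 : 7361 / 10000 ≤ s) (s2 : s ≤ 3843 / 5000)
    (b1 : 4719 / 10000 ≤ b) (b2 : b ≤ 1 / 2) (t1 : 1313 / 10000 ≤ t) (t2 : t ≤ 361 / 2500) :
    (t - b / 2 + k ≤ a ∧ 0 ≤ Daa s a b t k) ∨ 0 ≤ Dbb s a b t k ∨ 0 ≤ Da0 s a b t k := by
  rcases le_total b (243 / 500) with h | h
  · exact d145 R hE s1 s2 b1 h t1 t2
  · exact d146 R hE s1 s2 h b2 t1 t2

theorem d143 {s a b t k : ℝ} (R : Reg s a b t k) (hE : b / 2 ≤ t + k)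
    (s1 : 7361 / 10000 ≤ s) (s2 : s ≤ 3843 / 5000)
    (b1 : 4719 / 10000 ≤ b) (b2 : b ≤ 1 / 2) (t1 : 1313 / 10000 ≤ t) (t2 : t ≤ 63 / 400) :
    (t - b / 2 + k ≤ a ∧ 0 ≤ Daa s a b t k) ∨ 0 ≤ Dbb s a b t k ∨ 0 ≤ Da0 s a b t k := by
  rcases le_total t (361 / 2500) with h | h
  · exact d144 R hE s1 s2 b1 b2 t1 h
  · exact d151 R hE s1 s2 b1 b2 h t2

theorem d142 {s a b t k : ℝ} (R : Reg s a b t k) (hE : b / 2 ≤ t + k)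
    (s1 : 7361 / 10000 ≤ s) (s2 : s ≤ 8011 / 10000)
    (b1 : 4719 / 10000 ≤ b) (b2 : b ≤ 1 / 2) (t1 : 1313 / 10000 ≤ t) (t2 : t ≤ 63 / 400) :
    (t - b / 2 + k ≤ a ∧ 0 ≤ Daa s a b t k) ∨ 0 ≤ Dbb s a b t k ∨ 0 ≤ Da0 s a b t k := by
  rcases le_total s (3843 / 5000) with h | h
  · exact d143 R hE s1 h b1 b2 t1 t2
  · exact d152 R hE h s2 b1 b2 t1 t2

theorem d140 {s a b t k : ℝ} (R : Reg s a b t k) (hE : b / 2 ≤ t + k)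
    (s1 : 7361 / 10000 ≤ s) (s2 : s ≤ 8011 / 10000)
    (b1 : 2219 / 5000 ≤ b) (b2 : b ≤ 1 / 2) (t1 : 1313 / 10000 ≤ t) (t2 : t ≤ 63 / 400) :
    (t - b / 2 + k ≤ a ∧ 0 ≤ Daa s a b t k) ∨ 0 ≤ Dbb s a b t k ∨ 0 ≤ Da0 s a b t k := by
  rcases le_total b (4719 / 10000) with h | h
  · exact d141 R hE s1 s2 b1 h t1 t2
  · exact d142 R hE s1 s2 h b2 t1 t2

theorem d138 {s a b t k : ℝ} (R : Reg s a b t k) (hE : b / 2 ≤ t + k)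
    (s1 : 7361 / 10000 ≤ s) (s2 : s ≤ 8011 / 10000)
    (b1 : 2219 / 5000 ≤ b) (b2 : b ≤ 1 / 2) (t1 : 21 / 200 ≤ t) (t2 : t ≤ 63 / 400) :
    (t - b / 2 + k ≤ a ∧ 0 ≤ Daa s a b t k) ∨ 0 ≤ Dbb s a b t k ∨ 0 ≤ Da0 s a b t k := by
  rcases le_total t (1313 / 10000) with h | h
  · exact d139 R hE s1 s2 b1 b2 t1 h
  · exact d140 R hE s1 s2 b1 b2 h t2

theorem d134 {s a b t k : ℝ} (R : Reg s a b t k) (hE : b / 2 ≤ t + k)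
    (s1 : 7361 / 10000 ≤ s) (s2 : s ≤ 8011 / 10000)
    (b1 : 31 / 80 ≤ b) (b2 : b ≤ 2219 / 5000) (t1 : 21 / 200 ≤ t) (t2 : t ≤ 1313 / 10000) :
    (t - b / 2 + k ≤ a ∧ 0 ≤ Daa s a b t k) ∨ 0 ≤ Dbb s a b t k ∨ 0 ≤ Da0 s a b t k := by
  rcases le_total t (591 / 5000) with h | h
  · exact d135 R hE s1 s2 b1 b2 t1 h
  · exact d136 R hE s1 s2 b1 b2 h t2

theorem d133 {s a b t k : ℝ} (R : Reg s a b t k) (hE : b / 2 ≤ t + k)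
    (s1 : 7361 / 10000 ≤ s) (s2 : s ≤ 8011 / 10000)
    (b1 : 31 / 80 ≤ b) (b2 : b ≤ 2219 / 5000) (t1 : 21 / 200 ≤ t) (t2 : t ≤ 63 / 400) :
    (t - b / 2 + k ≤ a ∧ 0 ≤ Daa s a b t k) ∨ 0 ≤ Dbb s a b t k ∨ 0 ≤ Da0 s a b t k := by
  rcases le_total t (1313 / 10000) with h | h
  · exact d134 R hE s1 s2 b1 b2 t1 h
  · exact d137 R hE s1 s2 b1 b2 h t2

theorem d132 {s a b t k : ℝ} (R : Reg s a b t k) (hE : b / 2 ≤ t + k)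
    (s1 : 7361 / 10000 ≤ s) (s2 : s ≤ 8011 / 10000)
    (b1 : 31 / 80 ≤ b) (b2 : b ≤ 1 / 2) (t1 : 21 / 200 ≤ t) (t2 : t ≤ 63 / 400) :
    (t - b / 2 + k ≤ a ∧ 0 ≤ Daa s a b t k) ∨ 0 ≤ Dbb s a b t k ∨ 0 ≤ Da0 s a b t k := by
  rcases le_total b (2219 / 5000) with h | h
  · exact d133 R hE s1 s2 b1 h t1 t2
  · exact d138 R hE s1 s2 h b2 t1 t2

theorem d131 {s a b t k : ℝ} (R : Reg s a b t k) (hE : b / 2 ≤ t + k)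
    (s1 : 7361 / 10000 ≤ s) (s2 : s ≤ 8661 / 10000)
    (b1 : 31 / 80 ≤ b) (b2 : b ≤ 1 / 2) (t1 : 21 / 200 ≤ t) (t2 : t ≤ 63 / 400) :
    (t - b / 2 + k ≤ a ∧ 0 ≤ Daa s a b t k) ∨ 0 ≤ Dbb s a b t k ∨ 0 ≤ Da0 s a b t k := by
  rcases le_total s (8011 / 10000) with h | h
  · exact d132 R hE s1 h b1 b2 t1 t2
  · exact d153 R hE h s2 b1 b2 t1 t2

theorem d128 {s a b t k : ℝ} (R : Reg s a b t k) (hE : b / 2 ≤ t + k)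
    (s1 : 7361 / 10000 ≤ s) (s2 : s ≤ 8661 / 10000)
    (b1 : 11 / 40 ≤ b) (b2 : b ≤ 31 / 80) (t1 : 21 / 200 ≤ t) (t2 : t ≤ 63 / 400) :
    (t - b / 2 + k ≤ a ∧ 0 ≤ Daa s a b t k) ∨ 0 ≤ Dbb s a b t k ∨ 0 ≤ Da0 s a b t k := by
  rcases le_total s (8011 / 10000) with h | h
  · exact d129 R hE s1 h b1 b2 t1 t2
  · exact d130 R hE h s2 b1 b2 t1 t2

theorem d127 {s a b t k : ℝ} (R : Reg s a b t k) (hE : b / 2 ≤ t + k)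
    (s1 : 7361 / 10000 ≤ s) (s2 : s ≤ 8661 / 10000)
    (b1 : 11 / 40 ≤ b) (b2 : b ≤ 1 / 2) (t1 : 21 / 200 ≤ t) (t2 : t ≤ 63 / 400) :
    (t - b / 2 + k ≤ a ∧ 0 ≤ Daa s a b t k) ∨ 0 ≤ Dbb s a b t k ∨ 0 ≤ Da0 s a b t k := by
  rcases le_total b (31 / 80) with h | h
  · exact d128 R hE s1 s2 b1 h t1 t2
  · exact d131 R hE s1 s2 h b2 t1 t2

theorem d124 {s a b t k : ℝ} (R : Reg s a b t k) (hE : b / 2 ≤ t + k)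
    (s1 : 7361 / 10000 ≤ s) (s2 : s ≤ 8661 / 10000)
    (b1 : 1 / 20 ≤ b) (b2 : b ≤ 11 / 40) (t1 : 21 / 200 ≤ t) (t2 : t ≤ 63 / 400) :
    (t - b / 2 + k ≤ a ∧ 0 ≤ Daa s a b t k) ∨ 0 ≤ Dbb s a b t k ∨ 0 ≤ Da0 s a b t k := by
  rcases le_total t (1313 / 10000) with h | h
  · exact d125 R hE s1 s2 b1 b2 t1 h
  · exact d126 R hE s1 s2 b1 b2 h t2

theorem d123 {s a b t k : ℝ} (R : Reg s a b t k) (hE : b / 2 ≤ t + k)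
    (s1 : 7361 / 10000 ≤ s) (s2 : s ≤ 8661 / 10000)
    (b1 : 1 / 20 ≤ b) (b2 : b ≤ 1 / 2) (t1 : 21 / 200 ≤ t) (t2 : t ≤ 63 / 400) :
    (t - b / 2 + k ≤ a ∧ 0 ≤ Daa s a b t k) ∨ 0 ≤ Dbb s a b t k ∨ 0 ≤ Da0 s a b t k := by
  rcases le_total b (11 / 40) with h | h
  · exact d124 R hE s1 s2 b1 h t1 t2
  · exact d127 R hE s1 s2 h b2 t1 t2

theorem d122 {s a b t k : ℝ} (R : Reg s a b t k) (hE : b / 2 ≤ t + k)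
    (s1 : 7361 / 10000 ≤ s) (s2 : s ≤ 8661 / 10000)
    (b1 : 1 / 20 ≤ b) (b2 : b ≤ 1 / 2) (t1 : 21 / 200 ≤ t) (t2 : t ≤ 21 / 100) :
    (t - b / 2 + k ≤ a ∧ 0 ≤ Daa s a b t k) ∨ 0 ≤ Dbb s a b t k ∨ 0 ≤ Da0 s a b t k := by
  rcases le_total t (63 / 400) with h | h
  · exact d123 R hE s1 s2 b1 b2 t1 h
  · exact d158 R hE s1 s2 b1 b2 h t2

theorem d118 {s a b t k : ℝ} (R : Reg s a b t k) (hE : b / 2 ≤ t + k)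
    (s1 : 7361 / 10000 ≤ s) (s2 : s ≤ 8661 / 10000)
    (b1 : 11 / 40 ≤ b) (b2 : b ≤ 31 / 80) (t1 : 197 / 2500 ≤ t) (t2 : t ≤ 21 / 200) :
    (t - b / 2 + k ≤ a ∧ 0 ≤ Daa s a b t k) ∨ 0 ≤ Dbb s a b t k ∨ 0 ≤ Da0 s a b t k := by
  rcases le_total b (3313 / 10000) with h | h
  · exact d119 R hE s1 s2 b1 h t1 t2
  · exact d120 R hE s1 s2 h b2 t1 t2

theorem d116 {s a b t k : ℝ} (R : Reg s a b t k) (hE : b / 2 ≤ t + k)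
    (s1 : 7361 / 10000 ≤ s) (s2 : s ≤ 8661 / 10000)
    (b1 : 11 / 40 ≤ b) (b2 : b ≤ 31 / 80) (t1 : 21 / 400 ≤ t) (t2 : t ≤ 21 / 200) :
    (t - b / 2 + k ≤ a ∧ 0 ≤ Daa s a b t k) ∨ 0 ≤ Dbb s a b t k ∨ 0 ≤ Da0 s a b t k := by
  rcases le_total t (197 / 2500) with h | h
  · exact d117 R hE s1 s2 b1 b2 t1 h
  · exact d118 R hE s1 s2 b1 b2 h t2

theorem d115 {s a b t k : ℝ} (R : Reg s a b t k) (hE : b / 2 ≤ t + k)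
    (s1 : 7361 / 10000 ≤ s) (s2 : s ≤ 8661 / 10000)
    (b1 : 11 / 40 ≤ b) (b2 : b ≤ 1 / 2) (t1 : 21 / 400 ≤ t) (t2 : t ≤ 21 / 200) :
    (t - b / 2 + k ≤ a ∧ 0 ≤ Daa s a b t k) ∨ 0 ≤ Dbb s a b t k ∨ 0 ≤ Da0 s a b t k := by
  rcases le_total b (31 / 80) with h | h
  · exact d116 R hE s1 s2 b1 h t1 t2
  · exact d121 R hE s1 s2 h b2 t1 t2

theorem d113 {s a b t k : ℝ} (R : Reg s a b t k) (hE : b / 2 ≤ t + k)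
    (s1 : 7361 / 10000 ≤ s) (s2 : s ≤ 8661 / 10000)
    (b1 : 11 / 40 ≤ b) (b2 : b ≤ 1 / 2) (t1 : 0 ≤ t) (t2 : t ≤ 21 / 200) :
    (t - b / 2 + k ≤ a ∧ 0 ≤ Daa s a b t k) ∨ 0 ≤ Dbb s a b t k ∨ 0 ≤ Da0 s a b t k := by
  rcases le_total t (21 / 400) with h | h
  · exact d114 R hE s1 s2 b1 b2 t1 h
  · exact d115 R hE s1 s2 b1 b2 h t2

theorem d110 {s a b t k : ℝ} (R : Reg s a b t k) (hE : b / 2 ≤ t + k)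
    (s1 : 7361 / 10000 ≤ s) (s2 : s ≤ 8661 / 10000)
    (b1 : 13 / 80 ≤ b) (b2 : b ≤ 11 / 40) (t1 : 21 / 400 ≤ t) (t2 : t ≤ 21 / 200) :
    (t - b / 2 + k ≤ a ∧ 0 ≤ Daa s a b t k) ∨ 0 ≤ Dbb s a b t k ∨ 0 ≤ Da0 s a b t k := by
  rcases le_total s (8011 / 10000) with h | h
  · exact d111 R hE s1 h b1 b2 t1 t2
  · exact d112 R hE h s2 b1 b2 t1 t2

theorem d108 {s a b t k : ℝ} (R : Reg s a b t k) (hE : b / 2 ≤ t + k)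
    (s1 : 7361 / 10000 ≤ s) (s2 : s ≤ 8661 / 10000)
    (b1 : 13 / 80 ≤ b) (b2 : b ≤ 11 / 40) (t1 : 0 ≤ t) (t2 : t ≤ 21 / 200) :
    (t - b / 2 + k ≤ a ∧ 0 ≤ Daa s a b t k) ∨ 0 ≤ Dbb s a b t k ∨ 0 ≤ Da0 s a b t k := by
  rcases le_total t (21 / 400) with h | h
  · exact d109 R hE s1 s2 b1 b2 t1 h
  · exact d110 R hE s1 s2 b1 b2 h t2

theorem d102 {s a b t k : ℝ} (R : Reg s a b t k) (hE : b / 2 ≤ t + k)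
    (s1 : 8011 / 10000 ≤ s) (s2 : s ≤ 8661 / 10000)
    (b1 : 1 / 20 ≤ b) (b2 : b ≤ 1063 / 10000) (t1 : 21 / 400 ≤ t) (t2 : t ≤ 657 / 10000) :
    (t - b / 2 + k ≤ a ∧ 0 ≤ Daa s a b t k) ∨ 0 ≤ Dbb s a b t k ∨ 0 ≤ Da0 s a b t k := by
  rcases le_total s (521 / 625) with h | h
  · exact d103 R hE s1 h b1 b2 t1 t2
  · exact d104 R hE h s2 b1 b2 t1 t2

theorem d101 {s a b t k : ℝ} (R : Reg s a b t k) (hE : b / 2 ≤ t + k)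
    (s1 : 8011 / 10000 ≤ s) (s2 : s ≤ 8661 / 10000)
    (b1 : 1 / 20 ≤ b) (b2 : b ≤ 13 / 80) (t1 : 21 / 400 ≤ t) (t2 : t ≤ 657 / 10000) :
    (t - b / 2 + k ≤ a ∧ 0 ≤ Daa s a b t k) ∨ 0 ≤ Dbb s a b t k ∨ 0 ≤ Da0 s a b t k := by
  rcases le_total b (1063 / 10000) with h | h
  · exact d102 R hE s1 s2 b1 h t1 t2
  · exact d105 R hE s1 s2 h b2 t1 t2

theorem d100 {s a b t k : ℝ} (R : Reg s a b t k) (hE : b / 2 ≤ t + k)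
    (s1 : 8011 / 10000 ≤ s) (s2 : s ≤ 8661 / 10000)
    (b1 : 1 / 20 ≤ b) (b2 : b ≤ 13 / 80) (t1 : 21 / 400 ≤ t) (t2 : t ≤ 197 / 2500) :
    (t - b / 2 + k ≤ a ∧ 0 ≤ Daa s a b t k) ∨ 0 ≤ Dbb s a b t k ∨ 0 ≤ Da0 s a b t k := by
  rcases le_total t (657 / 10000) with h | h
  · exact d101 R hE s1 s2 b1 b2 t1 h
  · exact d106 R hE s1 s2 b1 b2 h t2

theorem d99 {s a b t k : ℝ} (R : Reg s a b t k) (hE : b / 2 ≤ t + k)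
    (s1 : 8011 / 10000 ≤ s) (s2 : s ≤ 8661 / 10000)
    (b1 : 1 / 20 ≤ b) (b2 : b ≤ 13 / 80) (t1 : 21 / 400 ≤ t) (t2 : t ≤ 21 / 200) :
    (t - b / 2 + k ≤ a ∧ 0 ≤ Daa s a b t k) ∨ 0 ≤ Dbb s a b t k ∨ 0 ≤ Da0 s a b t k := by
  rcases le_total t (197 / 2500) with h | h
  · exact d100 R hE s1 s2 b1 b2 t1 h
  · exact d107 R hE s1 s2 b1 b2 h t2

theorem d96 {s a b t k : ℝ} (R : Reg s a b t k) (hE : b / 2 ≤ t + k)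
    (s1 : 8011 / 10000 ≤ s) (s2 : s ≤ 8661 / 10000)
    (b1 : 1063 / 10000 ≤ b) (b2 : b ≤ 13 / 80) (t1 : 197 / 5000 ≤ t) (t2 : t ≤ 21 / 400) :
    (t - b / 2 + k ≤ a ∧ 0 ≤ Daa s a b t k) ∨ 0 ≤ Dbb s a b t k ∨ 0 ≤ Da0 s a b t k := by
  rcases le_total t (23 / 500) with h | h
  · exact d97 R hE s1 s2 b1 b2 t1 h
  · exact d98 R hE s1 s2 b1 b2 h t2

theorem d94 {s a b t k : ℝ} (R : Reg s a b t k) (hE : b / 2 ≤ t + k)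
    (s1 : 8011 / 10000 ≤ s) (s2 : s ≤ 8661 / 10000)
    (b1 : 1063 / 10000 ≤ b) (b2 : b ≤ 13 / 80) (t1 : 263 / 10000 ≤ t) (t2 : t ≤ 21 / 400) :
    (t - b / 2 + k ≤ a ∧ 0 ≤ Daa s a b t k) ∨ 0 ≤ Dbb s a b t k ∨ 0 ≤ Da0 s a b t k := by
  rcases le_total t (197 / 5000) with h | h
  · exact d95 R hE s1 s2 b1 b2 t1 h
  · exact d96 R hE s1 s2 b1 b2 h t2

theorem d90 {s a b t k : ℝ} (R : Reg s a b t k) (hE : b / 2 ≤ t + k)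
    (s1 : 521 / 625 ≤ s) (s2 : s ≤ 8661 / 10000)
    (b1 : 1 / 20 ≤ b) (b2 : b ≤ 1063 / 10000) (t1 : 263 / 10000 ≤ t) (t2 : t ≤ 197 / 5000) :
    (t - b / 2 + k ≤ a ∧ 0 ≤ Daa s a b t k) ∨ 0 ≤ Dbb s a b t k ∨ 0 ≤ Da0 s a b t k := by
  rcases le_total s (8499 / 10000) with h | h
  · exact d91 R hE s1 h b1 b2 t1 t2
  · exact d92 R hE h s2 b1 b2 t1 t2

theorem d89 {s a b t k : ℝ} (R : Reg s a b t k) (hE : b / 2 ≤ t + k)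
    (s1 : 521 / 625 ≤ s) (s2 : s ≤ 8661 / 10000)
    (b1 : 1 / 20 ≤ b) (b2 : b ≤ 1063 / 10000) (t1 : 263 / 10000 ≤ t) (t2 : t ≤ 21 / 400) :
    (t - b / 2 + k ≤ a ∧ 0 ≤ Daa s a b t k) ∨ 0 ≤ Dbb s a b t k ∨ 0 ≤ Da0 s a b t k := by
  rcases le_total t (197 / 5000) with h | h
  · exact d90 R hE s1 s2 b1 b2 t1 h
  · exact d93 R hE s1 s2 b1 b2 h t2

theorem d84 {s a b t k : ℝ} (R : Reg s a b t k) (hE : b / 2 ≤ t + k)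
    (s1 : 8011 / 10000 ≤ s) (s2 : s ≤ 4087 / 5000)
    (b1 : 391 / 5000 ≤ b) (b2 : b ≤ 1063 / 10000) (t1 : 263 / 10000 ≤ t) (t2 : t ≤ 197 / 5000) :
    (t - b / 2 + k ≤ a ∧ 0 ≤ Daa s a b t k) ∨ 0 ≤ Dbb s a b t k ∨ 0 ≤ Da0 s a b t k := by
  rcases le_total t (329 / 10000) with h | h
  · exact d85 R hE s1 s2 b1 b2 t1 h
  · exact d86 R hE s1 s2 b1 b2 h t2

theorem d82 {s a b t k : ℝ} (R : Reg s a b t k) (hE : b / 2 ≤ t + k)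
    (s1 : 8011 / 10000 ≤ s) (s2 : s ≤ 4087 / 5000)
    (b1 : 1 / 20 ≤ b) (b2 : b ≤ 1063 / 10000) (t1 : 263 / 10000 ≤ t) (t2 : t ≤ 197 / 5000) :
    (t - b / 2 + k ≤ a ∧ 0 ≤ Daa s a b t k) ∨ 0 ≤ Dbb s a b t k ∨ 0 ≤ Da0 s a b t k := by
  rcases le_total b (391 / 5000) with h | h
  · exact d83 R hE s1 s2 b1 h t1 t2
  · exact d84 R hE s1 s2 h b2 t1 t2

theorem d81 {s a b t k : ℝ} (R : Reg s a b t k) (hE : b / 2 ≤ t + k)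
    (s1 : 8011 / 10000 ≤ s) (s2 : s ≤ 521 / 625)
    (b1 : 1 / 20 ≤ b) (b2 : b ≤ 1063 / 10000) (t1 : 263 / 10000 ≤ t) (t2 : t ≤ 197 / 5000) :
    (t - b / 2 + k ≤ a ∧ 0 ≤ Daa s a b t k) ∨ 0 ≤ Dbb s a b t k ∨ 0 ≤ Da0 s a b t k := by
  rcases le_total s (4087 / 5000) with h | h
  · exact d82 R hE s1 h b1 b2 t1 t2
  · exact d87 R hE h s2 b1 b2 t1 t2

theorem d80 {s a b t k : ℝ} (R : Reg s a b t k) (hE : b / 2 ≤ t + k)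
    (s1 : 8011 / 10000 ≤ s) (s2 : s ≤ 521 / 625)
    (b1 : 1 / 20 ≤ b) (b2 : b ≤ 1063 / 10000) (t1 : 263 / 10000 ≤ t) (t2 : t ≤ 21 / 400) :
    (t - b / 2 + k ≤ a ∧ 0 ≤ Daa s a b t k) ∨ 0 ≤ Dbb s a b t k ∨ 0 ≤ Da0 s a b t k := by
  rcases le_total t (197 / 5000) with h | h
  · exact d81 R hE s1 s2 b1 b2 t1 h
  · exact d88 R hE s1 s2 b1 b2 h t2

theorem d79 {s a b t k : ℝ} (R : Reg s a b t k) (hE : b / 2 ≤ t + k)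
    (s1 : 8011 / 10000 ≤ s) (s2 : s ≤ 8661 / 10000)
    (b1 : 1 / 20 ≤ b) (b2 : b ≤ 1063 / 10000) (t1 : 263 / 10000 ≤ t) (t2 : t ≤ 21 / 400) :
    (t - b / 2 + k ≤ a ∧ 0 ≤ Daa s a b t k) ∨ 0 ≤ Dbb s a b t k ∨ 0 ≤ Da0 s a b t k := by
  rcases le_total s (521 / 625) with h | h
  · exact d80 R hE s1 h b1 b2 t1 t2
  · exact d89 R hE h s2 b1 b2 t1 t2

theorem d78 {s a b t k : ℝ} (R : Reg s a b t k) (hE : b / 2 ≤ t + k)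
    (s1 : 8011 / 10000 ≤ s) (s2 : s ≤ 8661 / 10000)
    (b1 : 1 / 20 ≤ b) (b2 : b ≤ 13 / 80) (t1 : 263 / 10000 ≤ t) (t2 : t ≤ 21 / 400) :
    (t - b / 2 + k ≤ a ∧ 0 ≤ Daa s a b t k) ∨ 0 ≤ Dbb s a b t k ∨ 0 ≤ Da0 s a b t k := by
  rcases le_total b (1063 / 10000) with h | h
  · exact d79 R hE s1 s2 b1 h t1 t2
  · exact d94 R hE s1 s2 h b2 t1 t2

theorem d71 {s a b t k : ℝ} (R : Reg s a b t k) (hE : b / 2 ≤ t + k)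
    (s1 : 8011 / 10000 ≤ s) (s2 : s ≤ 8661 / 10000)
    (b1 : 1 / 20 ≤ b) (b2 : b ≤ 571 / 10000) (t1 : 231 / 10000 ≤ t) (t2 : t ≤ 263 / 10000) :
    (t - b / 2 + k ≤ a ∧ 0 ≤ Daa s a b t k) ∨ 0 ≤ Dbb s a b t k ∨ 0 ≤ Da0 s a b t k := by
  rcases le_total s (521 / 625) with h | h
  · exact d72 R hE s1 h b1 b2 t1 t2
  · exact d73 R hE h s2 b1 b2 t1 t2

theorem d70 {s a b t k : ℝ} (R : Reg s a b t k) (hE : b / 2 ≤ t + k)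
    (s1 : 8011 / 10000 ≤ s) (s2 : s ≤ 8661 / 10000)
    (b1 : 1 / 20 ≤ b) (b2 : b ≤ 641 / 10000) (t1 : 231 / 10000 ≤ t) (t2 : t ≤ 263 / 10000) :
    (t - b / 2 + k ≤ a ∧ 0 ≤ Daa s a b t k) ∨ 0 ≤ Dbb s a b t k ∨ 0 ≤ Da0 s a b t k := by
  rcases le_total b (571 / 10000) with h | h
  · exact d71 R hE s1 s2 b1 h t1 t2
  · exact d74 R hE s1 s2 h b2 t1 t2

theorem d69 {s a b t k : ℝ} (R : Reg s a b t k) (hE : b / 2 ≤ t + k)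
    (s1 : 8011 / 10000 ≤ s) (s2 : s ≤ 8661 / 10000)
    (b1 : 1 / 20 ≤ b) (b2 : b ≤ 391 / 5000) (t1 : 231 / 10000 ≤ t) (t2 : t ≤ 263 / 10000) :
    (t - b / 2 + k ≤ a ∧ 0 ≤ Daa s a b t k) ∨ 0 ≤ Dbb s a b t k ∨ 0 ≤ Da0 s a b t k := by
  rcases le_total b (641 / 10000) with h | h
  · exact d70 R hE s1 s2 b1 h t1 t2
  · exact d75 R hE s1 s2 h b2 t1 t2

theorem d67 {s a b t k : ℝ} (R : Reg s a b t k) (hE : b / 2 ≤ t + k)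
    (s1 : 8011 / 10000 ≤ s) (s2 : s ≤ 8661 / 10000)
    (b1 : 1 / 20 ≤ b) (b2 : b ≤ 391 / 5000) (t1 : 99 / 5000 ≤ t) (t2 : t ≤ 263 / 10000) :
    (t - b / 2 + k ≤ a ∧ 0 ≤ Daa s a b t k) ∨ 0 ≤ Dbb s a b t k ∨ 0 ≤ Da0 s a b t k := by
  rcases le_total t (231 / 10000) with h | h
  · exact d68 R hE s1 s2 b1 b2 t1 h
  · exact d69 R hE s1 s2 b1 b2 h t2

theorem d65 {s a b t k : ℝ} (R : Reg s a b t k) (hE : b / 2 ≤ t + k)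
    (s1 : 8011 / 10000 ≤ s) (s2 : s ≤ 8661 / 10000)
    (b1 : 1 / 20 ≤ b) (b2 : b ≤ 391 / 5000) (t1 : 33 / 2500 ≤ t) (t2 : t ≤ 263 / 10000) :
    (t - b / 2 + k ≤ a ∧ 0 ≤ Daa s a b t k) ∨ 0 ≤ Dbb s a b t k ∨ 0 ≤ Da0 s a b t k := by
  rcases le_total t (99 / 5000) with h | h
  · exact d66 R hE s1 s2 b1 b2 t1 h
  · exact d67 R hE s1 s2 b1 b2 h t2

theorem d64 {s a b t k : ℝ} (R : Reg s a b t k) (hE : b / 2 ≤ t + k)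
    (s1 : 8011 / 10000 ≤ s) (s2 : s ≤ 8661 / 10000)
    (b1 : 1 / 20 ≤ b) (b2 : b ≤ 1063 / 10000) (t1 : 33 / 2500 ≤ t) (t2 : t ≤ 263 / 10000) :
    (t - b / 2 + k ≤ a ∧ 0 ≤ Daa s a b t k) ∨ 0 ≤ Dbb s a b t k ∨ 0 ≤ Da0 s a b t k := by
  rcases le_total b (391 / 5000) with h | h
  · exact d65 R hE s1 s2 b1 h t1 t2
  · exact d76 R hE s1 s2 h b2 t1 t2

theorem d62 {s a b t k : ℝ} (R : Reg s a b t k) (hE : b / 2 ≤ t + k)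
    (s1 : 8011 / 10000 ≤ s) (s2 : s ≤ 8661 / 10000)
    (b1 : 1 / 20 ≤ b) (b2 : b ≤ 1063 / 10000) (t1 : 0 ≤ t) (t2 : t ≤ 263 / 10000) :
    (t - b / 2 + k ≤ a ∧ 0 ≤ Daa s a b t k) ∨ 0 ≤ Dbb s a b t k ∨ 0 ≤ Da0 s a b t k := by
  rcases le_total t (33 / 2500) with h | h
  · exact d63 R hE s1 s2 b1 b2 t1 h
  · exact d64 R hE s1 s2 b1 b2 h t2

theorem d61 {s a b t k : ℝ} (R : Reg s a b t k) (hE : b / 2 ≤ t + k)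
    (s1 : 8011 / 10000 ≤ s) (s2 : s ≤ 8661 / 10000)
    (b1 : 1 / 20 ≤ b) (b2 : b ≤ 13 / 80) (t1 : 0 ≤ t) (t2 : t ≤ 263 / 10000) :
    (t - b / 2 + k ≤ a ∧ 0 ≤ Daa s a b t k) ∨ 0 ≤ Dbb s a b t k ∨ 0 ≤ Da0 s a b t k := by
  rcases le_total b (1063 / 10000) with h | h
  · exact d62 R hE s1 s2 b1 h t1 t2
  · exact d77 R hE s1 s2 h b2 t1 t2

theorem d60 {s a b t k : ℝ} (R : Reg s a b t k) (hE : b / 2 ≤ t + k)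
    (s1 : 8011 / 10000 ≤ s) (s2 : s ≤ 8661 / 10000)
    (b1 : 1 / 20 ≤ b) (b2 : b ≤ 13 / 80) (t1 : 0 ≤ t) (t2 : t ≤ 21 / 400) :
    (t - b / 2 + k ≤ a ∧ 0 ≤ Daa s a b t k) ∨ 0 ≤ Dbb s a b t k ∨ 0 ≤ Da0 s a b t k := by
  rcases le_total t (263 / 10000) with h | h
  · exact d61 R hE s1 s2 b1 b2 t1 h
  · exact d78 R hE s1 s2 b1 b2 h t2

theorem d59 {s a b t k : ℝ} (R : Reg s a b t k) (hE : b / 2 ≤ t + k)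
    (s1 : 8011 / 10000 ≤ s) (s2 : s ≤ 8661 / 10000)
    (b1 : 1 / 20 ≤ b) (b2 : b ≤ 13 / 80) (t1 : 0 ≤ t) (t2 : t ≤ 21 / 200) :
    (t - b / 2 + k ≤ a ∧ 0 ≤ Daa s a b t k) ∨ 0 ≤ Dbb s a b t k ∨ 0 ≤ Da0 s a b t k := by
  rcases le_total t (21 / 400) with h | h
  · exact d60 R hE s1 s2 b1 b2 t1 h
  · exact d99 R hE s1 s2 b1 b2 h t2

theorem d56 {s a b t k : ℝ} (R : Reg s a b t k) (hE : b / 2 ≤ t + k)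
    (s1 : 7361 / 10000 ≤ s) (s2 : s ≤ 8011 / 10000)
    (b1 : 1 / 20 ≤ b) (b2 : b ≤ 13 / 80) (t1 : 21 / 400 ≤ t) (t2 : t ≤ 21 / 200) :
    (t - b / 2 + k ≤ a ∧ 0 ≤ Daa s a b t k) ∨ 0 ≤ Dbb s a b t k ∨ 0 ≤ Da0 s a b t k := by
  rcases le_total t (197 / 2500) with h | h
  · exact d57 R hE s1 s2 b1 b2 t1 h
  · exact d58 R hE s1 s2 b1 b2 h t2

theorem d53 {s a b t k : ℝ} (R : Reg s a b t k) (hE : b / 2 ≤ t + k)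
    (s1 : 7361 / 10000 ≤ s) (s2 : s ≤ 8011 / 10000)
    (b1 : 1063 / 10000 ≤ b) (b2 : b ≤ 13 / 80) (t1 : 263 / 10000 ≤ t) (t2 : t ≤ 21 / 400) :
    (t - b / 2 + k ≤ a ∧ 0 ≤ Daa s a b t k) ∨ 0 ≤ Dbb s a b t k ∨ 0 ≤ Da0 s a b t k := by
  rcases le_total t (197 / 5000) with h | h
  · exact d54 R hE s1 s2 b1 b2 t1 h
  · exact d55 R hE s1 s2 b1 b2 h t2

theorem d50 {s a b t k : ℝ} (R : Reg s a b t k) (hE : b / 2 ≤ t + k)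
    (s1 : 3843 / 5000 ≤ s) (s2 : s ≤ 8011 / 10000)
    (b1 : 1 / 20 ≤ b) (b2 : b ≤ 1063 / 10000) (t1 : 197 / 5000 ≤ t) (t2 : t ≤ 21 / 400) :
    (t - b / 2 + k ≤ a ∧ 0 ≤ Daa s a b t k) ∨ 0 ≤ Dbb s a b t k ∨ 0 ≤ Da0 s a b t k := by
  rcases le_total b (391 / 5000) with h | h
  · exact d51 R hE s1 s2 b1 h t1 t2
  · exact d52 R hE s1 s2 h b2 t1 t2

theorem d47 {s a b t k : ℝ} (R : Reg s a b t k) (hE : b / 2 ≤ t + k)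
    (s1 : 3843 / 5000 ≤ s) (s2 : s ≤ 8011 / 10000)
    (b1 : 391 / 5000 ≤ b) (b2 : b ≤ 1063 / 10000) (t1 : 329 / 10000 ≤ t) (t2 : t ≤ 197 / 5000) :
    (t - b / 2 + k ≤ a ∧ 0 ≤ Daa s a b t k) ∨ 0 ≤ Dbb s a b t k ∨ 0 ≤ Da0 s a b t k := by
  rcases le_total b (923 / 10000) with h | h
  · exact d48 R hE s1 s2 b1 h t1 t2
  · exact d49 R hE s1 s2 h b2 t1 t2

theorem d45 {s a b t k : ℝ} (R : Reg s a b t k) (hE : b / 2 ≤ t + k)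
    (s1 : 3843 / 5000 ≤ s) (s2 : s ≤ 8011 / 10000)
    (b1 : 391 / 5000 ≤ b) (b2 : b ≤ 1063 / 10000) (t1 : 263 / 10000 ≤ t) (t2 : t ≤ 197 / 5000) :
    (t - b / 2 + k ≤ a ∧ 0 ≤ Daa s a b t k) ∨ 0 ≤ Dbb s a b t k ∨ 0 ≤ Da0 s a b t k := by
  rcases le_total t (329 / 10000) with h | h
  · exact d46 R hE s1 s2 b1 b2 t1 h
  · exact d47 R hE s1 s2 b1 b2 h t2

theorem d42 {s a b t k : ℝ} (R : Reg s a b t k) (hE : b / 2 ≤ t + k)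
    (s1 : 3843 / 5000 ≤ s) (s2 : s ≤ 8011 / 10000)
    (b1 : 1 / 20 ≤ b) (b2 : b ≤ 391 / 5000) (t1 : 263 / 10000 ≤ t) (t2 : t ≤ 197 / 5000) :
    (t - b / 2 + k ≤ a ∧ 0 ≤ Daa s a b t k) ∨ 0 ≤ Dbb s a b t k ∨ 0 ≤ Da0 s a b t k := by
  rcases le_total s (7849 / 10000) with h | h
  · exact d43 R hE s1 h b1 b2 t1 t2
  · exact d44 R hE h s2 b1 b2 t1 t2

theorem d41 {s a b t k : ℝ} (R : Reg s a b t k) (hE : b / 2 ≤ t + k)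
    (s1 : 3843 / 5000 ≤ s) (s2 : s ≤ 8011 / 10000)
    (b1 : 1 / 20 ≤ b) (b2 : b ≤ 1063 / 10000) (t1 : 263 / 10000 ≤ t) (t2 : t ≤ 197 / 5000) :
    (t - b / 2 + k ≤ a ∧ 0 ≤ Daa s a b t k) ∨ 0 ≤ Dbb s a b t k ∨ 0 ≤ Da0 s a b t k := by
  rcases le_total b (391 / 5000) with h | h
  · exact d42 R hE s1 s2 b1 h t1 t2
  · exact d45 R hE s1 s2 h b2 t1 t2

theorem d40 {s a b t k : ℝ} (R : Reg s a b t k) (hE : b / 2 ≤ t + k)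
    (s1 : 3843 / 5000 ≤ s) (s2 : s ≤ 8011 / 10000)
    (b1 : 1 / 20 ≤ b) (b2 : b ≤ 1063 / 10000) (t1 : 263 / 10000 ≤ t) (t2 : t ≤ 21 / 400) :
    (t - b / 2 + k ≤ a ∧ 0 ≤ Daa s a b t k) ∨ 0 ≤ Dbb s a b t k ∨ 0 ≤ Da0 s a b t k := by
  rcases le_total t (197 / 5000) with h | h
  · exact d41 R hE s1 s2 b1 b2 t1 h
  · exact d50 R hE s1 s2 b1 b2 h t2

theorem d37 {s a b t k : ℝ} (R : Reg s a b t k) (hE : b / 2 ≤ t + k)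
    (s1 : 7361 / 10000 ≤ s) (s2 : s ≤ 3843 / 5000)
    (b1 : 1 / 20 ≤ b) (b2 : b ≤ 1063 / 10000) (t1 : 197 / 5000 ≤ t) (t2 : t ≤ 21 / 400) :
    (t - b / 2 + k ≤ a ∧ 0 ≤ Daa s a b t k) ∨ 0 ≤ Dbb s a b t k ∨ 0 ≤ Da0 s a b t k := by
  rcases le_total b (391 / 5000) with h | h
  · exact d38 R hE s1 s2 b1 h t1 t2
  · exact d39 R hE s1 s2 h b2 t1 t2

theorem d34 {s a b t k : ℝ} (R : Reg s a b t k) (hE : b / 2 ≤ t + k)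
    (s1 : 7361 / 10000 ≤ s) (s2 : s ≤ 3843 / 5000)
    (b1 : 391 / 5000 ≤ b) (b2 : b ≤ 1063 / 10000) (t1 : 329 / 10000 ≤ t) (t2 : t ≤ 197 / 5000) :
    (t - b / 2 + k ≤ a ∧ 0 ≤ Daa s a b t k) ∨ 0 ≤ Dbb s a b t k ∨ 0 ≤ Da0 s a b t k := by
  rcases le_total t (181 / 5000) with h | h
  · exact d35 R hE s1 s2 b1 b2 t1 h
  · exact d36 R hE s1 s2 b1 b2 h t2

theorem d32 {s a b t k : ℝ} (R : Reg s a b t k) (hE : b / 2 ≤ t + k)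
    (s1 : 7361 / 10000 ≤ s) (s2 : s ≤ 3843 / 5000)
    (b1 : 391 / 5000 ≤ b) (b2 : b ≤ 1063 / 10000) (t1 : 263 / 10000 ≤ t) (t2 : t ≤ 197 / 5000) :
    (t - b / 2 + k ≤ a ∧ 0 ≤ Daa s a b t k) ∨ 0 ≤ Dbb s a b t k ∨ 0 ≤ Da0 s a b t k := by
  rcases le_total t (329 / 10000) with h | h
  · exact d33 R hE s1 s2 b1 b2 t1 h
  · exact d34 R hE s1 s2 b1 b2 h t2

theorem d28 {s a b t k : ℝ} (R : Reg s a b t k) (hE : b / 2 ≤ t + k)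
    (s1 : 7361 / 10000 ≤ s) (s2 : s ≤ 1881 / 2500)
    (b1 : 1 / 20 ≤ b) (b2 : b ≤ 391 / 5000) (t1 : 263 / 10000 ≤ t) (t2 : t ≤ 197 / 5000) :
    (t - b / 2 + k ≤ a ∧ 0 ≤ Daa s a b t k) ∨ 0 ≤ Dbb s a b t k ∨ 0 ≤ Da0 s a b t k := by
  rcases le_total t (329 / 10000) with h | h
  · exact d29 R hE s1 s2 b1 b2 t1 h
  · exact d30 R hE s1 s2 b1 b2 h t2

theorem d27 {s a b t k : ℝ} (R : Reg s a b t k) (hE : b / 2 ≤ t + k)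
    (s1 : 7361 / 10000 ≤ s) (s2 : s ≤ 3843 / 5000)
    (b1 : 1 / 20 ≤ b) (b2 : b ≤ 391 / 5000) (t1 : 263 / 10000 ≤ t) (t2 : t ≤ 197 / 5000) :
    (t - b / 2 + k ≤ a ∧ 0 ≤ Daa s a b t k) ∨ 0 ≤ Dbb s a b t k ∨ 0 ≤ Da0 s a b t k := by
  rcases le_total s (1881 / 2500) with h | h
  · exact d28 R hE s1 h b1 b2 t1 t2
  · exact d31 R hE h s2 b1 b2 t1 t2

theorem d26 {s a b t k : ℝ} (R : Reg s a b t k) (hE : b / 2 ≤ t + k)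
    (s1 : 7361 / 10000 ≤ s) (s2 : s ≤ 3843 / 5000)
    (b1 : 1 / 20 ≤ b) (b2 : b ≤ 1063 / 10000) (t1 : 263 / 10000 ≤ t) (t2 : t ≤ 197 / 5000) :
    (t - b / 2 + k ≤ a ∧ 0 ≤ Daa s a b t k) ∨ 0 ≤ Dbb s a b t k ∨ 0 ≤ Da0 s a b t k := by
  rcases le_total b (391 / 5000) with h | h
  · exact d27 R hE s1 s2 b1 h t1 t2
  · exact d32 R hE s1 s2 h b2 t1 t2

theorem d25 {s a b t k : ℝ} (R : Reg s a b t k) (hE : b / 2 ≤ t + k)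
    (s1 : 7361 / 10000 ≤ s) (s2 : s ≤ 3843 / 5000)
    (b1 : 1 / 20 ≤ b) (b2 : b ≤ 1063 / 10000) (t1 : 263 / 10000 ≤ t) (t2 : t ≤ 21 / 400) :
    (t - b / 2 + k ≤ a ∧ 0 ≤ Daa s a b t k) ∨ 0 ≤ Dbb s a b t k ∨ 0 ≤ Da0 s a b t k := by
  rcases le_total t (197 / 5000) with h | h
  · exact d26 R hE s1 s2 b1 b2 t1 h
  · exact d37 R hE s1 s2 b1 b2 h t2

theorem d24 {s a b t k : ℝ} (R : Reg s a b t k) (hE : b / 2 ≤ t + k)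
    (s1 : 7361 / 10000 ≤ s) (s2 : s ≤ 8011 / 10000)
    (b1 : 1 / 20 ≤ b) (b2 : b ≤ 1063 / 10000) (t1 : 263 / 10000 ≤ t) (t2 : t ≤ 21 / 400) :
    (t - b / 2 + k ≤ a ∧ 0 ≤ Daa s a b t k) ∨ 0 ≤ Dbb s a b t k ∨ 0 ≤ Da0 s a b t k := by
  rcases le_total s (3843 / 5000) with h | h
  · exact d25 R hE s1 h b1 b2 t1 t2
  · exact d40 R hE h s2 b1 b2 t1 t2

theorem d23 {s a b t k : ℝ} (R : Reg s a b t k) (hE : b / 2 ≤ t + k)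
    (s1 : 7361 / 10000 ≤ s) (s2 : s ≤ 8011 / 10000)
    (b1 : 1 / 20 ≤ b) (b2 : b ≤ 13 / 80) (t1 : 263 / 10000 ≤ t) (t2 : t ≤ 21 / 400) :
    (t - b / 2 + k ≤ a ∧ 0 ≤ Daa s a b t k) ∨ 0 ≤ Dbb s a b t k ∨ 0 ≤ Da0 s a b t k := by
  rcases le_total b (1063 / 10000) with h | h
  · exact d24 R hE s1 s2 b1 h t1 t2
  · exact d53 R hE s1 s2 h b2 t1 t2

theorem d16 {s a b t k : ℝ} (R : Reg s a b t k) (hE : b / 2 ≤ t + k)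
    (s1 : 7361 / 10000 ≤ s) (s2 : s ≤ 8011 / 10000)
    (b1 : 1 / 20 ≤ b) (b2 : b ≤ 571 / 10000) (t1 : 231 / 10000 ≤ t) (t2 : t ≤ 263 / 10000) :
    (t - b / 2 + k ≤ a ∧ 0 ≤ Daa s a b t k) ∨ 0 ≤ Dbb s a b t k ∨ 0 ≤ Da0 s a b t k := by
  rcases le_total s (3843 / 5000) with h | h
  · exact d17 R hE s1 h b1 b2 t1 t2
  · exact d18 R hE h s2 b1 b2 t1 t2

theorem d15 {s a b t k : ℝ} (R : Reg s a b t k) (hE : b / 2 ≤ t + k)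
    (s1 : 7361 / 10000 ≤ s) (s2 : s ≤ 8011 / 10000)
    (b1 : 1 / 20 ≤ b) (b2 : b ≤ 641 / 10000) (t1 : 231 / 10000 ≤ t) (t2 : t ≤ 263 / 10000) :
    (t - b / 2 + k ≤ a ∧ 0 ≤ Daa s a b t k) ∨ 0 ≤ Dbb s a b t k ∨ 0 ≤ Da0 s a b t k := by
  rcases le_total b (571 / 10000) with h | h
  · exact d16 R hE s1 s2 b1 h t1 t2
  · exact d19 R hE s1 s2 h b2 t1 t2

theorem d13 {s a b t k : ℝ} (R : Reg s a b t k) (hE : b / 2 ≤ t + k)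
    (s1 : 7361 / 10000 ≤ s) (s2 : s ≤ 8011 / 10000)
    (b1 : 1 / 20 ≤ b) (b2 : b ≤ 641 / 10000) (t1 : 99 / 5000 ≤ t) (t2 : t ≤ 263 / 10000) :
    (t - b / 2 + k ≤ a ∧ 0 ≤ Daa s a b t k) ∨ 0 ≤ Dbb s a b t k ∨ 0 ≤ Da0 s a b t k := by
  rcases le_total t (231 / 10000) with h | h
  · exact d14 R hE s1 s2 b1 b2 t1 h
  · exact d15 R hE s1 s2 b1 b2 h t2

theorem d12 {s a b t k : ℝ} (R : Reg s a b t k) (hE : b / 2 ≤ t + k)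
    (s1 : 7361 / 10000 ≤ s) (s2 : s ≤ 8011 / 10000)
    (b1 : 1 / 20 ≤ b) (b2 : b ≤ 391 / 5000) (t1 : 99 / 5000 ≤ t) (t2 : t ≤ 263 / 10000) :
    (t - b / 2 + k ≤ a ∧ 0 ≤ Daa s a b t k) ∨ 0 ≤ Dbb s a b t k ∨ 0 ≤ Da0 s a b t k := by
  rcases le_total b (641 / 10000) with h | h
  · exact d13 R hE s1 s2 b1 h t1 t2
  · exact d20 R hE s1 s2 h b2 t1 t2

theorem d10 {s a b t k : ℝ} (R : Reg s a b t k) (hE : b / 2 ≤ t + k)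
    (s1 : 7361 / 10000 ≤ s) (s2 : s ≤ 8011 / 10000)
    (b1 : 1 / 20 ≤ b) (b2 : b ≤ 391 / 5000) (t1 : 33 / 2500 ≤ t) (t2 : t ≤ 263 / 10000) :
    (t - b / 2 + k ≤ a ∧ 0 ≤ Daa s a b t k) ∨ 0 ≤ Dbb s a b t k ∨ 0 ≤ Da0 s a b t k := by
  rcases le_total t (99 / 5000) with h | h
  · exact d11 R hE s1 s2 b1 b2 t1 h
  · exact d12 R hE s1 s2 b1 b2 h t2

theorem d9 {s a b t k : ℝ} (R : Reg s a b t k) (hE : b / 2 ≤ t + k)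
    (s1 : 7361 / 10000 ≤ s) (s2 : s ≤ 8011 / 10000)
    (b1 : 1 / 20 ≤ b) (b2 : b ≤ 1063 / 10000) (t1 : 33 / 2500 ≤ t) (t2 : t ≤ 263 / 10000) :
    (t - b / 2 + k ≤ a ∧ 0 ≤ Daa s a b t k) ∨ 0 ≤ Dbb s a b t k ∨ 0 ≤ Da0 s a b t k := by
  rcases le_total b (391 / 5000) with h | h
  · exact d10 R hE s1 s2 b1 h t1 t2
  · exact d21 R hE s1 s2 h b2 t1 t2

theorem d7 {s a b t k : ℝ} (R : Reg s a b t k) (hE : b / 2 ≤ t + k)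
    (s1 : 7361 / 10000 ≤ s) (s2 : s ≤ 8011 / 10000)
    (b1 : 1 / 20 ≤ b) (b2 : b ≤ 1063 / 10000) (t1 : 0 ≤ t) (t2 : t ≤ 263 / 10000) :
    (t - b / 2 + k ≤ a ∧ 0 ≤ Daa s a b t k) ∨ 0 ≤ Dbb s a b t k ∨ 0 ≤ Da0 s a b t k := by
  rcases le_total t (33 / 2500) with h | h
  · exact d8 R hE s1 s2 b1 b2 t1 h
  · exact d9 R hE s1 s2 b1 b2 h t2

theorem d6 {s a b t k : ℝ} (R : Reg s a b t k) (hE : b / 2 ≤ t + k)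
    (s1 : 7361 / 10000 ≤ s) (s2 : s ≤ 8011 / 10000)
    (b1 : 1 / 20 ≤ b) (b2 : b ≤ 13 / 80) (t1 : 0 ≤ t) (t2 : t ≤ 263 / 10000) :
    (t - b / 2 + k ≤ a ∧ 0 ≤ Daa s a b t k) ∨ 0 ≤ Dbb s a b t k ∨ 0 ≤ Da0 s a b t k := by
  rcases le_total b (1063 / 10000) with h | h
  · exact d7 R hE s1 s2 b1 h t1 t2
  · exact d22 R hE s1 s2 h b2 t1 t2

theorem d5 {s a b t k : ℝ} (R : Reg s a b t k) (hE : b / 2 ≤ t + k)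
    (s1 : 7361 / 10000 ≤ s) (s2 : s ≤ 8011 / 10000)
    (b1 : 1 / 20 ≤ b) (b2 : b ≤ 13 / 80) (t1 : 0 ≤ t) (t2 : t ≤ 21 / 400) :
    (t - b / 2 + k ≤ a ∧ 0 ≤ Daa s a b t k) ∨ 0 ≤ Dbb s a b t k ∨ 0 ≤ Da0 s a b t k := by
  rcases le_total t (263 / 10000) with h | h
  · exact d6 R hE s1 s2 b1 b2 t1 h
  · exact d23 R hE s1 s2 b1 b2 h t2

theorem d4 {s a b t k : ℝ} (R : Reg s a b t k) (hE : b / 2 ≤ t + k)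
    (s1 : 7361 / 10000 ≤ s) (s2 : s ≤ 8011 / 10000)
    (b1 : 1 / 20 ≤ b) (b2 : b ≤ 13 / 80) (t1 : 0 ≤ t) (t2 : t ≤ 21 / 200) :
    (t - b / 2 + k ≤ a ∧ 0 ≤ Daa s a b t k) ∨ 0 ≤ Dbb s a b t k ∨ 0 ≤ Da0 s a b t k := by
  rcases le_total t (21 / 400) with h | h
  · exact d5 R hE s1 s2 b1 b2 t1 h
  · exact d56 R hE s1 s2 b1 b2 h t2

theorem d3 {s a b t k : ℝ} (R : Reg s a b t k) (hE : b / 2 ≤ t + k)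
    (s1 : 7361 / 10000 ≤ s) (s2 : s ≤ 8661 / 10000)
    (b1 : 1 / 20 ≤ b) (b2 : b ≤ 13 / 80) (t1 : 0 ≤ t) (t2 : t ≤ 21 / 200) :
    (t - b / 2 + k ≤ a ∧ 0 ≤ Daa s a b t k) ∨ 0 ≤ Dbb s a b t k ∨ 0 ≤ Da0 s a b t k := by
  rcases le_total s (8011 / 10000) with h | h
  · exact d4 R hE s1 h b1 b2 t1 t2
  · exact d59 R hE h s2 b1 b2 t1 t2

theorem d2 {s a b t k : ℝ} (R : Reg s a b t k) (hE : b / 2 ≤ t + k)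
    (s1 : 7361 / 10000 ≤ s) (s2 : s ≤ 8661 / 10000)
    (b1 : 1 / 20 ≤ b) (b2 : b ≤ 11 / 40) (t1 : 0 ≤ t) (t2 : t ≤ 21 / 200) :
    (t - b / 2 + k ≤ a ∧ 0 ≤ Daa s a b t k) ∨ 0 ≤ Dbb s a b t k ∨ 0 ≤ Da0 s a b t k := by
  rcases le_total b (13 / 80) with h | h
  · exact d3 R hE s1 s2 b1 h t1 t2
  · exact d108 R hE s1 s2 h b2 t1 t2

theorem d1 {s a b t k : ℝ} (R : Reg s a b t k) (hE : b / 2 ≤ t + k)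
    (s1 : 7361 / 10000 ≤ s) (s2 : s ≤ 8661 / 10000)
    (b1 : 1 / 20 ≤ b) (b2 : b ≤ 1 / 2) (t1 : 0 ≤ t) (t2 : t ≤ 21 / 200) :
    (t - b / 2 + k ≤ a ∧ 0 ≤ Daa s a b t k) ∨ 0 ≤ Dbb s a b t k ∨ 0 ≤ Da0 s a b t k := by
  rcases le_total b (11 / 40) with h | h
  · exact d2 R hE s1 s2 b1 h t1 t2
  · exact d113 R hE s1 s2 h b2 t1 t2

theorem d0 {s a b t k : ℝ} (R : Reg s a b t k) (hE : b / 2 ≤ t + k)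
    (s1 : 7361 / 10000 ≤ s) (s2 : s ≤ 8661 / 10000)
    (b1 : 1 / 20 ≤ b) (b2 : b ≤ 1 / 2) (t1 : 0 ≤ t) (t2 : t ≤ 21 / 100) :
    (t - b / 2 + k ≤ a ∧ 0 ≤ Daa s a b t k) ∨ 0 ≤ Dbb s a b t k ∨ 0 ≤ Da0 s a b t k := by
  rcases le_total t (21 / 200) with h | h
  · exact d1 R hE s1 s2 b1 b2 t1 h
  · exact d122 R hE s1 s2 b1 b2 h t2

end Pool.Agent.Strip051.FourB
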