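import Pool.Agent.Strip051.FourB.Box

/-! # The exit is above the top of the body, boxes 1 -/

namespace Pool.Agent.Strip051.FourB

open Pool.Agent.StripNear Pool.Agent.StripSquare Pool.Agent.Strip051
open Pool.Agent.Strip051.Four.Low (ph)

theorem u8 {s a b t k : ℝ} (R : Reg s a b t k) (hE : t + k ≤ b / 2) (hT : h0 + t ≤ 1)
    (s1 : 7361 / 10000 ≤ s) (s2 : s ≤ 3843 / 5000)
    (b1 : 1 / 20 ≤ b) (b2 : b ≤ 1063 / 10000) (t1 : 0 ≤ t) (t2 : t ≤ 4187 / 250000) :
    0 ≤ Uaa s a b t k ∨ 0 ≤ Ubb s a b t k := by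
  have e1 := R.lo1 (480 / 1000) (by norm_num)
  have e2 := up (t1 := 424 / 1000) (t2 := (469 / 1000)) (x := s - t) (by norm_num)
    (by linarith only [s1, t2]) (by linarith only [s2, t1])
  have e3 := R.lo2 (454 / 1000) (by norm_num)
  have e4 := up (t1 := 577 / 1000) (t2 := (601 / 1000)) (x := h0 + t) (by norm_num)
    (by linarith only [R.h1, t1]) (by linarith only [R.h2, t2])
  have e5 := R.lo3 (352 / 1000) (by norm_num)
  have e6 := up (t1 := 380 / 1000) (t2 := (399 / 1000)) (x := s - a) (by norm_num)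
    (by linarith only [s1, R.ha]) (by linarith only [s2, R.ha])
  have e7 := R.lo5 (410 / 1000) (by norm_num)
  have e8 := up (t1 := 25 / 1000) (t2 := (54 / 1000)) (x := b) (by norm_num)
    (by linarith only [b1]) (by linarith only [b2])
  right
  unfold Ubb
  linarith only [e8, e7, e6, e5, e4, e3, e2, e1, R.ha, R.k1, R.k2, R.h2, R.h3, s1, s2, b1, b2, t1, t2]

theorem u11 {s a b t k : ℝ} (R : Reg s a b t k) (hE : t + k ≤ b / 2) (hT : h0 + t ≤ 1)
    (s1 : 7361 / 10000 ≤ s) (s2 : s ≤ 3843 / 5000)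
    (b1 : 1 / 20 ≤ b) (b2 : b ≤ 391 / 5000) (t1 : 4187 / 250000 ≤ t) (t2 : t ≤ 25121 / 1000000) :
    0 ≤ Uaa s a b t k ∨ 0 ≤ Ubb s a b t k := by
  have e1 := R.lo1 (462 / 1000) (by norm_num)
  have e2 := up (t1 := 417 / 1000) (t2 := (454 / 1000)) (x := s - t) (by norm_num)
    (by linarith only [s1, t2]) (by linarith only [s2, t1])
  have e3 := R.lo2 (454 / 1000) (by norm_num)
  have e4 := up (t1 := 600 / 1000) (t2 := (614 / 1000)) (x := h0 + t) (by norm_num)
    (by linarith only [R.h1, t1]) (by linarith only [R.h2, t2])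
  have e5 := R.lo3 (349 / 1000) (by norm_num)
  have e6 := up (t1 := 380 / 1000) (t2 := (399 / 1000)) (x := s - a) (by norm_num)
    (by linarith only [s1, R.ha]) (by linarith only [s2, R.ha])
  have e7 := R.lo5 (406 / 1000) (by norm_num)
  have e8 := up (t1 := 25 / 1000) (t2 := (40 / 1000)) (x := b) (by norm_num)
    (by linarith only [b1]) (by linarith only [b2])
  right
  unfold Ubb
  linarith only [e8, e7, e6, e5, e4, e3, e2, e1, R.ha, R.k1, R.k2, R.h2, R.h3, s1, s2, b1, b2, t1, t2]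

theorem u15 {s a b t k : ℝ} (R : Reg s a b t k) (hE : t + k ≤ b / 2) (hT : h0 + t ≤ 1)
    (s1 : 7361 / 10000 ≤ s) (s2 : s ≤ 1881 / 2500)
    (b1 : 1 / 20 ≤ b) (b2 : b ≤ 641 / 10000) (t1 : 25121 / 1000000 ≤ t) (t2 : t ≤ 7327 / 250000) :
    0 ≤ Uaa s a b t k ∨ 0 ≤ Ubb s a b t k := by
  have e1 := R.lo1 (446 / 1000) (by norm_num)
  have e2 := up (t1 := 413 / 1000) (t2 := (432 / 1000)) (x := s - t) (by norm_num)
    (by linarith only [s1, t2]) (by linarith only [s2, t1])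
  have e3 := R.lo2 (446 / 1000) (by norm_num)
  have e4 := up (t1 := 613 / 1000) (t2 := (620 / 1000)) (x := h0 + t) (by norm_num)
    (by linarith only [R.h1, t1]) (by linarith only [R.h2, t2])
  have e5 := R.lo3 (343 / 1000) (by norm_num)
  have e6 := up (t1 := 380 / 1000) (t2 := (390 / 1000)) (x := s - a) (by norm_num)
    (by linarith only [s1, R.ha]) (by linarith only [s2, R.ha])
  have e7 := R.lo5 (398 / 1000) (by norm_num)
  have e8 := up (t1 := 25 / 1000) (t2 := (33 / 1000)) (x := b) (by norm_num)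
    (by linarith only [b1]) (by linarith only [b2])
  right
  unfold Ubb
  linarith only [e8, e7, e6, e5, e4, e3, e2, e1, R.ha, R.k1, R.k2, R.h2, R.h3, s1, s2, b1, b2, t1, t2]

theorem u17 {s a b t k : ℝ} (R : Reg s a b t k) (hE : t + k ≤ b / 2) (hT : h0 + t ≤ 1)
    (s1 : 7361 / 10000 ≤ s) (s2 : s ≤ 1881 / 2500)
    (b1 : 1 / 20 ≤ b) (b2 : b ≤ 571 / 10000) (t1 : 7327 / 250000 ≤ t) (t2 : t ≤ 6699 / 200000) :
    0 ≤ Uaa s a b t k ∨ 0 ≤ Ubb s a b t k := by
  have e1 := R.lo8 (27 / 1000) (by norm_num)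
  exfalso
  linarith only [e1, R.ha, R.k1, R.k2, R.h2, R.h3, s1, s2, b1, b2, t1, t2, hE]

theorem u18 {s a b t k : ℝ} (R : Reg s a b t k) (hE : t + k ≤ b / 2) (hT : h0 + t ≤ 1)
    (s1 : 7361 / 10000 ≤ s) (s2 : s ≤ 1881 / 2500)
    (b1 : 571 / 10000 ≤ b) (b2 : b ≤ 641 / 10000) (t1 : 7327 / 250000 ≤ t) (t2 : t ≤ 6699 / 200000) :
    0 ≤ Uaa s a b t k ∨ 0 ≤ Ubb s a b t k := by
  have e1 := R.lo1 (444 / 1000) (by norm_num)
  have e2 := up (t1 := 410 / 1000) (t2 := (428 / 1000)) (x := s - t) (by norm_num)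
    (by linarith only [s1, t2]) (by linarith only [s2, t1])
  have e3 := R.lo2 (446 / 1000) (by norm_num)
  have e4 := up (t1 := 619 / 1000) (t2 := (627 / 1000)) (x := h0 + t) (by norm_num)
    (by linarith only [R.h1, t1]) (by linarith only [R.h2, t2])
  have e5 := R.lo3 (339 / 1000) (by norm_num)
  have e6 := up (t1 := 380 / 1000) (t2 := (390 / 1000)) (x := s - a) (by norm_num)
    (by linarith only [s1, R.ha]) (by linarith only [s2, R.ha])
  have e7 := R.lo5 (393 / 1000) (by norm_num)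
  have e8 := up (t1 := 28 / 1000) (t2 := (33 / 1000)) (x := b) (by norm_num)
    (by linarith only [b1]) (by linarith only [b2])
  right
  unfold Ubb
  linarith only [e8, e7, e6, e5, e4, e3, e2, e1, R.ha, R.k1, R.k2, R.h2, R.h3, s1, s2, b1, b2, t1, t2]

theorem u19 {s a b t k : ℝ} (R : Reg s a b t k) (hE : t + k ≤ b / 2) (hT : h0 + t ≤ 1)
    (s1 : 7361 / 10000 ≤ s) (s2 : s ≤ 1881 / 2500)
    (b1 : 641 / 10000 ≤ b) (b2 : b ≤ 391 / 5000) (t1 : 25121 / 1000000 ≤ t) (t2 : t ≤ 6699 / 200000) :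
    0 ≤ Uaa s a b t k ∨ 0 ≤ Ubb s a b t k := by
  have e1 := R.lo1 (450 / 1000) (by norm_num)
  have e2 := up (t1 := 410 / 1000) (t2 := (432 / 1000)) (x := s - t) (by norm_num)
    (by linarith only [s1, t2]) (by linarith only [s2, t1])
  have e3 := R.lo2 (446 / 1000) (by norm_num)
  have e4 := up (t1 := 613 / 1000) (t2 := (627 / 1000)) (x := h0 + t) (by norm_num)
    (by linarith only [R.h1, t1]) (by linarith only [R.h2, t2])
  have e5 := R.lo3 (336 / 1000) (by norm_num)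
  have e6 := up (t1 := 380 / 1000) (t2 := (390 / 1000)) (x := s - a) (by norm_num)
    (by linarith only [s1, R.ha]) (by linarith only [s2, R.ha])
  have e7 := R.lo5 (390 / 1000) (by norm_num)
  have e8 := up (t1 := 32 / 1000) (t2 := (40 / 1000)) (x := b) (by norm_num)
    (by linarith only [b1]) (by linarith only [b2])
  right
  unfold Ubb
  linarith only [e8, e7, e6, e5, e4, e3, e2, e1, R.ha, R.k1, R.k2, R.h2, R.h3, s1, s2, b1, b2, t1, t2]

theorem u22 {s a b t k : ℝ} (R : Reg s a b t k) (hE : t + k ≤ b / 2) (hT : h0 + t ≤ 1)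
    (s1 : 1881 / 2500 ≤ s) (s2 : s ≤ 3843 / 5000)
    (b1 : 1 / 20 ≤ b) (b2 : b ≤ 641 / 10000) (t1 : 25121 / 1000000 ≤ t) (t2 : t ≤ 7327 / 250000) :
    0 ≤ Uaa s a b t k ∨ 0 ≤ Ubb s a b t k := by
  have e1 := R.lo1 (461 / 1000) (by norm_num)
  have e2 := up (t1 := 427 / 1000) (t2 := (446 / 1000)) (x := s - t) (by norm_num)
    (by linarith only [s1, t2]) (by linarith only [s2, t1])
  have e3 := R.lo2 (461 / 1000) (by norm_num)
  have e4 := up (t1 := 613 / 1000) (t2 := (620 / 1000)) (x := h0 + t) (by norm_num)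
    (by linarith only [R.h1, t1]) (by linarith only [R.h2, t2])
  have e5 := R.lo3 (351 / 1000) (by norm_num)
  have e6 := up (t1 := 389 / 1000) (t2 := (399 / 1000)) (x := s - a) (by norm_num)
    (by linarith only [s1, R.ha]) (by linarith only [s2, R.ha])
  have e7 := R.lo5 (411 / 1000) (by norm_num)
  have e8 := up (t1 := 25 / 1000) (t2 := (33 / 1000)) (x := b) (by norm_num)
    (by linarith only [b1]) (by linarith only [b2])
  right
  unfold Ubb
  linarith only [e8, e7, e6, e5, e4, e3, e2, e1, R.ha, R.k1, R.k2, R.h2, R.h3, s1, s2, b1, b2, t1, t2]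

theorem u24 {s a b t k : ℝ} (R : Reg s a b t k) (hE : t + k ≤ b / 2) (hT : h0 + t ≤ 1)
    (s1 : 1881 / 2500 ≤ s) (s2 : s ≤ 3843 / 5000)
    (b1 : 1 / 20 ≤ b) (b2 : b ≤ 571 / 10000) (t1 : 7327 / 250000 ≤ t) (t2 : t ≤ 6699 / 200000) :
    0 ≤ Uaa s a b t k ∨ 0 ≤ Ubb s a b t k := by
  have e1 := R.lo8 (27 / 1000) (by norm_num)
  exfalso
  linarith only [e1, R.ha, R.k1, R.k2, R.h2, R.h3, s1, s2, b1, b2, t1, t2, hE]

theorem u25 {s a b t k : ℝ} (R : Reg s a b t k) (hE : t + k ≤ b / 2) (hT : h0 + t ≤ 1)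
    (s1 : 1881 / 2500 ≤ s) (s2 : s ≤ 3843 / 5000)
    (b1 : 571 / 10000 ≤ b) (b2 : b ≤ 641 / 10000) (t1 : 7327 / 250000 ≤ t) (t2 : t ≤ 6699 / 200000) :
    0 ≤ Uaa s a b t k ∨ 0 ≤ Ubb s a b t k := by
  have e1 := R.lo1 (459 / 1000) (by norm_num)
  have e2 := up (t1 := 424 / 1000) (t2 := (442 / 1000)) (x := s - t) (by norm_num)
    (by linarith only [s1, t2]) (by linarith only [s2, t1])
  have e3 := R.lo2 (461 / 1000) (by norm_num)
  have e4 := up (t1 := 619 / 1000) (t2 := (627 / 1000)) (x := h0 + t) (by norm_num)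
    (by linarith only [R.h1, t1]) (by linarith only [R.h2, t2])
  have e5 := R.lo3 (347 / 1000) (by norm_num)
  have e6 := up (t1 := 389 / 1000) (t2 := (399 / 1000)) (x := s - a) (by norm_num)
    (by linarith only [s1, R.ha]) (by linarith only [s2, R.ha])
  have e7 := R.lo5 (406 / 1000) (by norm_num)
  have e8 := up (t1 := 28 / 1000) (t2 := (33 / 1000)) (x := b) (by norm_num)
    (by linarith only [b1]) (by linarith only [b2])
  right
  unfold Ubb
  linarith only [e8, e7, e6, e5, e4, e3, e2, e1, R.ha, R.k1, R.k2, R.h2, R.h3, s1, s2, b1, b2, t1, t2]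

theorem u26 {s a b t k : ℝ} (R : Reg s a b t k) (hE : t + k ≤ b / 2) (hT : h0 + t ≤ 1)
    (s1 : 1881 / 2500 ≤ s) (s2 : s ≤ 3843 / 5000)
    (b1 : 641 / 10000 ≤ b) (b2 : b ≤ 391 / 5000) (t1 : 25121 / 1000000 ≤ t) (t2 : t ≤ 6699 / 200000) :
    0 ≤ Uaa s a b t k ∨ 0 ≤ Ubb s a b t k := by
  have e1 := R.lo1 (465 / 1000) (by norm_num)
  have e2 := up (t1 := 424 / 1000) (t2 := (446 / 1000)) (x := s - t) (by norm_num)
    (by linarith only [s1, t2]) (by linarith only [s2, t1])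
  have e3 := R.lo2 (461 / 1000) (by norm_num)
  have e4 := up (t1 := 613 / 1000) (t2 := (627 / 1000)) (x := h0 + t) (by norm_num)
    (by linarith only [R.h1, t1]) (by linarith only [R.h2, t2])
  have e5 := R.lo3 (344 / 1000) (by norm_num)
  have e6 := up (t1 := 389 / 1000) (t2 := (399 / 1000)) (x := s - a) (by norm_num)
    (by linarith only [s1, R.ha]) (by linarith only [s2, R.ha])
  have e7 := R.lo5 (403 / 1000) (by norm_num)
  have e8 := up (t1 := 32 / 1000) (t2 := (40 / 1000)) (x := b) (by norm_num)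
    (by linarith only [b1]) (by linarith only [b2])
  right
  unfold Ubb
  linarith only [e8, e7, e6, e5, e4, e3, e2, e1, R.ha, R.k1, R.k2, R.h2, R.h3, s1, s2, b1, b2, t1, t2]

theorem u27 {s a b t k : ℝ} (R : Reg s a b t k) (hE : t + k ≤ b / 2) (hT : h0 + t ≤ 1)
    (s1 : 7361 / 10000 ≤ s) (s2 : s ≤ 3843 / 5000)
    (b1 : 391 / 5000 ≤ b) (b2 : b ≤ 1063 / 10000) (t1 : 4187 / 250000 ≤ t) (t2 : t ≤ 6699 / 200000) :
    0 ≤ Uaa s a b t k ∨ 0 ≤ Ubb s a b t k := by
  have e1 := R.lo1 (470 / 1000) (by norm_num)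
  have e2 := up (t1 := 410 / 1000) (t2 := (454 / 1000)) (x := s - t) (by norm_num)
    (by linarith only [s1, t2]) (by linarith only [s2, t1])
  have e3 := R.lo2 (454 / 1000) (by norm_num)
  have e4 := up (t1 := 600 / 1000) (t2 := (627 / 1000)) (x := h0 + t) (by norm_num)
    (by linarith only [R.h1, t1]) (by linarith only [R.h2, t2])
  have e5 := R.lo3 (334 / 1000) (by norm_num)
  have e6 := up (t1 := 380 / 1000) (t2 := (399 / 1000)) (x := s - a) (by norm_num)
    (by linarith only [s1, R.ha]) (by linarith only [s2, R.ha])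
  have e7 := R.lo5 (390 / 1000) (by norm_num)
  have e8 := up (t1 := 39 / 1000) (t2 := (54 / 1000)) (x := b) (by norm_num)
    (by linarith only [b1]) (by linarith only [b2])
  right
  unfold Ubb
  linarith only [e8, e7, e6, e5, e4, e3, e2, e1, R.ha, R.k1, R.k2, R.h2, R.h3, s1, s2, b1, b2, t1, t2]

theorem u28 {s a b t k : ℝ} (R : Reg s a b t k) (hE : t + k ≤ b / 2) (hT : h0 + t ≤ 1)
    (s1 : 7361 / 10000 ≤ s) (s2 : s ≤ 3843 / 5000)
    (b1 : 1063 / 10000 ≤ b) (b2 : b ≤ 13 / 80) (t1 : 0 ≤ t) (t2 : t ≤ 6699 / 200000) :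
    0 ≤ Uaa s a b t k ∨ 0 ≤ Ubb s a b t k := by
  have e1 := R.lo1 (494 / 1000) (by norm_num)
  have e2 := up (t1 := 410 / 1000) (t2 := (469 / 1000)) (x := s - t) (by norm_num)
    (by linarith only [s1, t2]) (by linarith only [s2, t1])
  have e3 := R.lo2 (454 / 1000) (by norm_num)
  have e4 := up (t1 := 577 / 1000) (t2 := (627 / 1000)) (x := h0 + t) (by norm_num)
    (by linarith only [R.h1, t1]) (by linarith only [R.h2, t2])
  have e5 := R.lo3 (323 / 1000) (by norm_num)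
  have e6 := up (t1 := 380 / 1000) (t2 := (399 / 1000)) (x := s - a) (by norm_num)
    (by linarith only [s1, R.ha]) (by linarith only [s2, R.ha])
  have e7 := R.lo5 (377 / 1000) (by norm_num)
  have e8 := up (t1 := 53 / 1000) (t2 := (82 / 1000)) (x := b) (by norm_num)
    (by linarith only [b1]) (by linarith only [b2])
  right
  unfold Ubb
  linarith only [e8, e7, e6, e5, e4, e3, e2, e1, R.ha, R.k1, R.k2, R.h2, R.h3, s1, s2, b1, b2, t1, t2]

theorem u31 {s a b t k : ℝ} (R : Reg s a b t k) (hE : t + k ≤ b / 2) (hT : h0 + t ≤ 1)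
    (s1 : 3843 / 5000 ≤ s) (s2 : s ≤ 8011 / 10000)
    (b1 : 1 / 20 ≤ b) (b2 : b ≤ 1063 / 10000) (t1 : 0 ≤ t) (t2 : t ≤ 4187 / 250000) :
    0 ≤ Uaa s a b t k ∨ 0 ≤ Ubb s a b t k := by
  have e1 := R.lo1 (513 / 1000) (by norm_num)
  have e2 := up (t1 := 453 / 1000) (t2 := (502 / 1000)) (x := s - t) (by norm_num)
    (by linarith only [s1, t2]) (by linarith only [s2, t1])
  have e3 := R.lo2 (485 / 1000) (by norm_num)
  have e4 := up (t1 := 577 / 1000) (t2 := (601 / 1000)) (x := h0 + t) (by norm_num)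
    (by linarith only [R.h1, t1]) (by linarith only [R.h2, t2])
  have e5 := R.lo3 (369 / 1000) (by norm_num)
  have e6 := up (t1 := 398 / 1000) (t2 := (418 / 1000)) (x := s - a) (by norm_num)
    (by linarith only [s1, R.ha]) (by linarith only [s2, R.ha])
  have e7 := R.lo5 (437 / 1000) (by norm_num)
  have e8 := up (t1 := 25 / 1000) (t2 := (54 / 1000)) (x := b) (by norm_num)
    (by linarith only [b1]) (by linarith only [b2])
  right
  unfold Ubb
  linarith only [e8, e7, e6, e5, e4, e3, e2, e1, R.ha, R.k1, R.k2, R.h2, R.h3, s1, s2, b1, b2, t1, t2]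

theorem u34 {s a b t k : ℝ} (R : Reg s a b t k) (hE : t + k ≤ b / 2) (hT : h0 + t ≤ 1)
    (s1 : 3843 / 5000 ≤ s) (s2 : s ≤ 8011 / 10000)
    (b1 : 1 / 20 ≤ b) (b2 : b ≤ 391 / 5000) (t1 : 4187 / 250000 ≤ t) (t2 : t ≤ 25121 / 1000000) :
    0 ≤ Uaa s a b t k ∨ 0 ≤ Ubb s a b t k := by
  have e1 := R.lo1 (494 / 1000) (by norm_num)
  have e2 := up (t1 := 445 / 1000) (t2 := (485 / 1000)) (x := s - t) (by norm_num)
    (by linarith only [s1, t2]) (by linarith only [s2, t1])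
  have e3 := R.lo2 (485 / 1000) (by norm_num)
  have e4 := up (t1 := 600 / 1000) (t2 := (614 / 1000)) (x := h0 + t) (by norm_num)
    (by linarith only [R.h1, t1]) (by linarith only [R.h2, t2])
  have e5 := R.lo3 (365 / 1000) (by norm_num)
  have e6 := up (t1 := 398 / 1000) (t2 := (418 / 1000)) (x := s - a) (by norm_num)
    (by linarith only [s1, R.ha]) (by linarith only [s2, R.ha])
  have e7 := R.lo5 (434 / 1000) (by norm_num)
  have e8 := up (t1 := 25 / 1000) (t2 := (40 / 1000)) (x := b) (by norm_num)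
    (by linarith only [b1]) (by linarith only [b2])
  right
  unfold Ubb
  linarith only [e8, e7, e6, e5, e4, e3, e2, e1, R.ha, R.k1, R.k2, R.h2, R.h3, s1, s2, b1, b2, t1, t2]

theorem u36 {s a b t k : ℝ} (R : Reg s a b t k) (hE : t + k ≤ b / 2) (hT : h0 + t ≤ 1)
    (s1 : 3843 / 5000 ≤ s) (s2 : s ≤ 7849 / 10000)
    (b1 : 1 / 20 ≤ b) (b2 : b ≤ 391 / 5000) (t1 : 25121 / 1000000 ≤ t) (t2 : t ≤ 6699 / 200000) :
    0 ≤ Uaa s a b t k ∨ 0 ≤ Ubb s a b t k := by
  have e1 := R.lo1 (477 / 1000) (by norm_num)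
  have e2 := up (t1 := 438 / 1000) (t2 := (461 / 1000)) (x := s - t) (by norm_num)
    (by linarith only [s1, t2]) (by linarith only [s2, t1])
  have e3 := R.lo2 (477 / 1000) (by norm_num)
  have e4 := up (t1 := 613 / 1000) (t2 := (627 / 1000)) (x := h0 + t) (by norm_num)
    (by linarith only [R.h1, t1]) (by linarith only [R.h2, t2])
  have e5 := R.lo3 (355 / 1000) (by norm_num)
  have e6 := up (t1 := 398 / 1000) (t2 := (408 / 1000)) (x := s - a) (by norm_num)
    (by linarith only [s1, R.ha]) (by linarith only [s2, R.ha])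
  have e7 := R.lo5 (420 / 1000) (by norm_num)
  have e8 := up (t1 := 25 / 1000) (t2 := (40 / 1000)) (x := b) (by norm_num)
    (by linarith only [b1]) (by linarith only [b2])
  right
  unfold Ubb
  linarith only [e8, e7, e6, e5, e4, e3, e2, e1, R.ha, R.k1, R.k2, R.h2, R.h3, s1, s2, b1, b2, t1, t2]

theorem u37 {s a b t k : ℝ} (R : Reg s a b t k) (hE : t + k ≤ b / 2) (hT : h0 + t ≤ 1)
    (s1 : 7849 / 10000 ≤ s) (s2 : s ≤ 8011 / 10000)
    (b1 : 1 / 20 ≤ b) (b2 : b ≤ 391 / 5000) (t1 : 25121 / 1000000 ≤ t) (t2 : t ≤ 6699 / 200000) :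
    0 ≤ Uaa s a b t k ∨ 0 ≤ Ubb s a b t k := by
  have e1 := R.lo1 (494 / 1000) (by norm_num)
  have e2 := up (t1 := 452 / 1000) (t2 := (476 / 1000)) (x := s - t) (by norm_num)
    (by linarith only [s1, t2]) (by linarith only [s2, t1])
  have e3 := R.lo2 (493 / 1000) (by norm_num)
  have e4 := up (t1 := 613 / 1000) (t2 := (627 / 1000)) (x := h0 + t) (by norm_num)
    (by linarith only [R.h1, t1]) (by linarith only [R.h2, t2])
  have e5 := R.lo3 (363 / 1000) (by norm_num)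
  have e6 := up (t1 := 407 / 1000) (t2 := (418 / 1000)) (x := s - a) (by norm_num)
    (by linarith only [s1, R.ha]) (by linarith only [s2, R.ha])
  have e7 := R.lo5 (433 / 1000) (by norm_num)
  have e8 := up (t1 := 25 / 1000) (t2 := (40 / 1000)) (x := b) (by norm_num)
    (by linarith only [b1]) (by linarith only [b2])
  right
  unfold Ubb
  linarith only [e8, e7, e6, e5, e4, e3, e2, e1, R.ha, R.k1, R.k2, R.h2, R.h3, s1, s2, b1, b2, t1, t2]

theorem u38 {s a b t k : ℝ} (R : Reg s a b t k) (hE : t + k ≤ b / 2) (hT : h0 + t ≤ 1)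
    (s1 : 3843 / 5000 ≤ s) (s2 : s ≤ 8011 / 10000)
    (b1 : 391 / 5000 ≤ b) (b2 : b ≤ 1063 / 10000) (t1 : 4187 / 250000 ≤ t) (t2 : t ≤ 6699 / 200000) :
    0 ≤ Uaa s a b t k ∨ 0 ≤ Ubb s a b t k := by
  have e1 := R.lo1 (502 / 1000) (by norm_num)
  have e2 := up (t1 := 438 / 1000) (t2 := (485 / 1000)) (x := s - t) (by norm_num)
    (by linarith only [s1, t2]) (by linarith only [s2, t1])
  have e3 := R.lo2 (485 / 1000) (by norm_num)
  have e4 := up (t1 := 600 / 1000) (t2 := (627 / 1000)) (x := h0 + t) (by norm_num)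
    (by linarith only [R.h1, t1]) (by linarith only [R.h2, t2])
  have e5 := R.lo3 (351 / 1000) (by norm_num)
  have e6 := up (t1 := 398 / 1000) (t2 := (418 / 1000)) (x := s - a) (by norm_num)
    (by linarith only [s1, R.ha]) (by linarith only [s2, R.ha])
  have e7 := R.lo5 (416 / 1000) (by norm_num)
  have e8 := up (t1 := 39 / 1000) (t2 := (54 / 1000)) (x := b) (by norm_num)
    (by linarith only [b1]) (by linarith only [b2])
  right
  unfold Ubb
  linarith only [e8, e7, e6, e5, e4, e3, e2, e1, R.ha, R.k1, R.k2, R.h2, R.h3, s1, s2, b1, b2, t1, t2]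

theorem u39 {s a b t k : ℝ} (R : Reg s a b t k) (hE : t + k ≤ b / 2) (hT : h0 + t ≤ 1)
    (s1 : 3843 / 5000 ≤ s) (s2 : s ≤ 8011 / 10000)
    (b1 : 1063 / 10000 ≤ b) (b2 : b ≤ 13 / 80) (t1 : 0 ≤ t) (t2 : t ≤ 6699 / 200000) :
    0 ≤ Uaa s a b t k ∨ 0 ≤ Ubb s a b t k := by
  have e1 := R.lo1 (529 / 1000) (by norm_num)
  have e2 := up (t1 := 438 / 1000) (t2 := (502 / 1000)) (x := s - t) (by norm_num)
    (by linarith only [s1, t2]) (by linarith only [s2, t1])
  have e3 := R.lo2 (485 / 1000) (by norm_num)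
  have e4 := up (t1 := 577 / 1000) (t2 := (627 / 1000)) (x := h0 + t) (by norm_num)
    (by linarith only [R.h1, t1]) (by linarith only [R.h2, t2])
  have e5 := R.lo3 (338 / 1000) (by norm_num)
  have e6 := up (t1 := 398 / 1000) (t2 := (418 / 1000)) (x := s - a) (by norm_num)
    (by linarith only [s1, R.ha]) (by linarith only [s2, R.ha])
  have e7 := R.lo5 (402 / 1000) (by norm_num)
  have e8 := up (t1 := 53 / 1000) (t2 := (82 / 1000)) (x := b) (by norm_num)
    (by linarith only [b1]) (by linarith only [b2])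
  right
  unfold Ubb
  linarith only [e8, e7, e6, e5, e4, e3, e2, e1, R.ha, R.k1, R.k2, R.h2, R.h3, s1, s2, b1, b2, t1, t2]

theorem u45 {s a b t k : ℝ} (R : Reg s a b t k) (hE : t + k ≤ b / 2) (hT : h0 + t ≤ 1)
    (s1 : 7361 / 10000 ≤ s) (s2 : s ≤ 8011 / 10000)
    (b1 : 1 / 20 ≤ b) (b2 : b ≤ 641 / 10000) (t1 : 6699 / 200000 ≤ t) (t2 : t ≤ 41869 / 1000000) :
    0 ≤ Uaa s a b t k ∨ 0 ≤ Ubb s a b t k := by
  have e1 := R.lo8 (29 / 1000) (by norm_num)
  exfalso
  linarith only [e1, R.ha, R.k1, R.k2, R.h2, R.h3, s1, s2, b1, b2, t1, t2, hE]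

theorem u48 {s a b t k : ℝ} (R : Reg s a b t k) (hE : t + k ≤ b / 2) (hT : h0 + t ≤ 1)
    (s1 : 7361 / 10000 ≤ s) (s2 : s ≤ 8011 / 10000)
    (b1 : 641 / 10000 ≤ b) (b2 : b ≤ 89 / 1250) (t1 : 6699 / 200000 ≤ t) (t2 : t ≤ 18841 / 500000) :
    0 ≤ Uaa s a b t k ∨ 0 ≤ Ubb s a b t k := by
  have e1 := R.lo8 (34 / 1000) (by norm_num)
  exfalso
  linarith only [e1, R.ha, R.k1, R.k2, R.h2, R.h3, s1, s2, b1, b2, t1, t2, hE]

theorem u51 {s a b t k : ℝ} (R : Reg s a b t k) (hE : t + k ≤ b / 2) (hT : h0 + t ≤ 1)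
    (s1 : 7361 / 10000 ≤ s) (s2 : s ≤ 1881 / 2500)
    (b1 : 89 / 1250 ≤ b) (b2 : b ≤ 391 / 5000) (t1 : 6699 / 200000 ≤ t) (t2 : t ≤ 18841 / 500000) :
    0 ≤ Uaa s a b t k ∨ 0 ≤ Ubb s a b t k := by
  have e1 := R.lo1 (446 / 1000) (by norm_num)
  have e2 := up (t1 := 407 / 1000) (t2 := (425 / 1000)) (x := s - t) (by norm_num)
    (by linarith only [s1, t2]) (by linarith only [s2, t1])
  have e3 := R.lo2 (446 / 1000) (by norm_num)
  have e4 := up (t1 := 626 / 1000) (t2 := (633 / 1000)) (x := h0 + t) (by norm_num)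
    (by linarith only [R.h1, t1]) (by linarith only [R.h2, t2])
  have e5 := R.lo4 (1 / 1000) (by norm_num)
  have e6 := R.lo3 (330 / 1000) (by norm_num)
  have e7 := up (t1 := 35 / 1000) (t2 := (40 / 1000)) (x := b) (by norm_num)
    (by linarith only [b1]) (by linarith only [b2])
  left
  unfold Uaa
  linarith only [e7, e6, e5, e4, e3, e2, e1, R.ha, R.k1, R.k2, R.h2, R.h3, s1, s2, b1, b2, t1, t2]

theorem u52 {s a b t k : ℝ} (R : Reg s a b t k) (hE : t + k ≤ b / 2) (hT : h0 + t ≤ 1)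
    (s1 : 1881 / 2500 ≤ s) (s2 : s ≤ 3843 / 5000)
    (b1 : 89 / 1250 ≤ b) (b2 : b ≤ 391 / 5000) (t1 : 6699 / 200000 ≤ t) (t2 : t ≤ 18841 / 500000) :
    0 ≤ Uaa s a b t k ∨ 0 ≤ Ubb s a b t k := by
  have e1 := R.lo1 (460 / 1000) (by norm_num)
  have e2 := up (t1 := 420 / 1000) (t2 := (439 / 1000)) (x := s - t) (by norm_num)
    (by linarith only [s1, t2]) (by linarith only [s2, t1])
  have e3 := R.lo2 (461 / 1000) (by norm_num)
  have e4 := up (t1 := 626 / 1000) (t2 := (633 / 1000)) (x := h0 + t) (by norm_num)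
    (by linarith only [R.h1, t1]) (by linarith only [R.h2, t2])
  have e5 := R.lo3 (338 / 1000) (by norm_num)
  have e6 := up (t1 := 389 / 1000) (t2 := (399 / 1000)) (x := s - a) (by norm_num)
    (by linarith only [s1, R.ha]) (by linarith only [s2, R.ha])
  have e7 := R.lo5 (396 / 1000) (by norm_num)
  have e8 := up (t1 := 35 / 1000) (t2 := (40 / 1000)) (x := b) (by norm_num)
    (by linarith only [b1]) (by linarith only [b2])
  right
  unfold Ubb
  linarith only [e8, e7, e6, e5, e4, e3, e2, e1, R.ha, R.k1, R.k2, R.h2, R.h3, s1, s2, b1, b2, t1, t2]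

theorem u53 {s a b t k : ℝ} (R : Reg s a b t k) (hE : t + k ≤ b / 2) (hT : h0 + t ≤ 1)
    (s1 : 3843 / 5000 ≤ s) (s2 : s ≤ 8011 / 10000)
    (b1 : 89 / 1250 ≤ b) (b2 : b ≤ 391 / 5000) (t1 : 6699 / 200000 ≤ t) (t2 : t ≤ 18841 / 500000) :
    0 ≤ Uaa s a b t k ∨ 0 ≤ Ubb s a b t k := by
  have e1 := R.lo1 (484 / 1000) (by norm_num)
  have e2 := up (t1 := 434 / 1000) (t2 := (468 / 1000)) (x := s - t) (by norm_num)
    (by linarith only [s1, t2]) (by linarith only [s2, t1])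
  have e3 := R.lo2 (485 / 1000) (by norm_num)
  have e4 := up (t1 := 626 / 1000) (t2 := (633 / 1000)) (x := h0 + t) (by norm_num)
    (by linarith only [R.h1, t1]) (by linarith only [R.h2, t2])
  have e5 := R.lo3 (350 / 1000) (by norm_num)
  have e6 := up (t1 := 398 / 1000) (t2 := (418 / 1000)) (x := s - a) (by norm_num)
    (by linarith only [s1, R.ha]) (by linarith only [s2, R.ha])
  have e7 := R.lo5 (416 / 1000) (by norm_num)
  have e8 := up (t1 := 35 / 1000) (t2 := (40 / 1000)) (x := b) (by norm_num)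
    (by linarith only [b1]) (by linarith only [b2])
  right
  unfold Ubb
  linarith only [e8, e7, e6, e5, e4, e3, e2, e1, R.ha, R.k1, R.k2, R.h2, R.h3, s1, s2, b1, b2, t1, t2]

theorem u54 {s a b t k : ℝ} (R : Reg s a b t k) (hE : t + k ≤ b / 2) (hT : h0 + t ≤ 1)
    (s1 : 7361 / 10000 ≤ s) (s2 : s ≤ 8011 / 10000)
    (b1 : 641 / 10000 ≤ b) (b2 : b ≤ 391 / 5000) (t1 : 18841 / 500000 ≤ t) (t2 : t ≤ 41869 / 1000000) :
    0 ≤ Uaa s a b t k ∨ 0 ≤ Ubb s a b t k := by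
  have e1 := R.lo8 (36 / 1000) (by norm_num)
  exfalso
  linarith only [e1, R.ha, R.k1, R.k2, R.h2, R.h3, s1, s2, b1, b2, t1, t2, hE]

theorem u55 {s a b t k : ℝ} (R : Reg s a b t k) (hE : t + k ≤ b / 2) (hT : h0 + t ≤ 1)
    (s1 : 7361 / 10000 ≤ s) (s2 : s ≤ 8011 / 10000)
    (b1 : 1 / 20 ≤ b) (b2 : b ≤ 391 / 5000) (t1 : 41869 / 1000000 ≤ t) (t2 : t ≤ 25121 / 500000) :
    0 ≤ Uaa s a b t k ∨ 0 ≤ Ubb s a b t k := by
  have e1 := R.lo8 (32 / 1000) (by norm_num)
  exfalso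
  linarith only [e1, R.ha, R.k1, R.k2, R.h2, R.h3, s1, s2, b1, b2, t1, t2, hE]

theorem u57 {s a b t k : ℝ} (R : Reg s a b t k) (hE : t + k ≤ b / 2) (hT : h0 + t ≤ 1)
    (s1 : 7361 / 10000 ≤ s) (s2 : s ≤ 3843 / 5000)
    (b1 : 391 / 5000 ≤ b) (b2 : b ≤ 1063 / 10000) (t1 : 6699 / 200000 ≤ t) (t2 : t ≤ 25121 / 500000) :
    0 ≤ Uaa s a b t k ∨ 0 ≤ Ubb s a b t k := by
  have e1 := R.lo1 (454 / 1000) (by norm_num)
  have e2 := up (t1 := 396 / 1000) (t2 := (439 / 1000)) (x := s - t) (by norm_num)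
    (by linarith only [s1, t2]) (by linarith only [s2, t1])
  have e3 := R.lo2 (454 / 1000) (by norm_num)
  have e4 := up (t1 := 626 / 1000) (t2 := (655 / 1000)) (x := h0 + t) (by norm_num)
    (by linarith only [R.h1, t1]) (by linarith only [R.h2, t2])
  have e5 := R.lo4 (8 / 1000) (by norm_num)
  have e6 := R.lo3 (323 / 1000) (by norm_num)
  have e7 := up (t1 := 39 / 1000) (t2 := (54 / 1000)) (x := b) (by norm_num)
    (by linarith only [b1]) (by linarith only [b2])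
  left
  unfold Uaa
  linarith only [e7, e6, e5, e4, e3, e2, e1, R.ha, R.k1, R.k2, R.h2, R.h3, s1, s2, b1, b2, t1, t2]

theorem u60 {s a b t k : ℝ} (R : Reg s a b t k) (hE : t + k ≤ b / 2) (hT : h0 + t ≤ 1)
    (s1 : 3843 / 5000 ≤ s) (s2 : s ≤ 8011 / 10000)
    (b1 : 391 / 5000 ≤ b) (b2 : b ≤ 923 / 10000) (t1 : 6699 / 200000 ≤ t) (t2 : t ≤ 41869 / 1000000) :
    0 ≤ Uaa s a b t k ∨ 0 ≤ Ubb s a b t k := by
  have e1 := R.lo1 (486 / 1000) (by norm_num)
  have e2 := up (t1 := 430 / 1000) (t2 := (468 / 1000)) (x := s - t) (by norm_num)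
    (by linarith only [s1, t2]) (by linarith only [s2, t1])
  have e3 := R.lo2 (485 / 1000) (by norm_num)
  have e4 := up (t1 := 626 / 1000) (t2 := (640 / 1000)) (x := h0 + t) (by norm_num)
    (by linarith only [R.h1, t1]) (by linarith only [R.h2, t2])
  have e5 := R.lo3 (345 / 1000) (by norm_num)
  have e6 := up (t1 := 398 / 1000) (t2 := (418 / 1000)) (x := s - a) (by norm_num)
    (by linarith only [s1, R.ha]) (by linarith only [s2, R.ha])
  have e7 := R.lo5 (409 / 1000) (by norm_num)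
  have e8 := up (t1 := 39 / 1000) (t2 := (47 / 1000)) (x := b) (by norm_num)
    (by linarith only [b1]) (by linarith only [b2])
  right
  unfold Ubb
  linarith only [e8, e7, e6, e5, e4, e3, e2, e1, R.ha, R.k1, R.k2, R.h2, R.h3, s1, s2, b1, b2, t1, t2]

theorem u61 {s a b t k : ℝ} (R : Reg s a b t k) (hE : t + k ≤ b / 2) (hT : h0 + t ≤ 1)
    (s1 : 3843 / 5000 ≤ s) (s2 : s ≤ 8011 / 10000)
    (b1 : 391 / 5000 ≤ b) (b2 : b ≤ 923 / 10000) (t1 : 41869 / 1000000 ≤ t) (t2 : t ≤ 25121 / 500000) :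
    0 ≤ Uaa s a b t k ∨ 0 ≤ Ubb s a b t k := by
  have e1 := R.lo1 (478 / 1000) (by norm_num)
  have e2 := up (t1 := 423 / 1000) (t2 := (460 / 1000)) (x := s - t) (by norm_num)
    (by linarith only [s1, t2]) (by linarith only [s2, t1])
  have e3 := R.lo2 (485 / 1000) (by norm_num)
  have e4 := up (t1 := 639 / 1000) (t2 := (655 / 1000)) (x := h0 + t) (by norm_num)
    (by linarith only [R.h1, t1]) (by linarith only [R.h2, t2])
  have e5 := R.lo4 (3 / 1000) (by norm_num)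
  have e6 := R.lo3 (339 / 1000) (by norm_num)
  have e7 := up (t1 := 39 / 1000) (t2 := (47 / 1000)) (x := b) (by norm_num)
    (by linarith only [b1]) (by linarith only [b2])
  left
  unfold Uaa
  linarith only [e7, e6, e5, e4, e3, e2, e1, R.ha, R.k1, R.k2, R.h2, R.h3, s1, s2, b1, b2, t1, t2]

theorem u62 {s a b t k : ℝ} (R : Reg s a b t k) (hE : t + k ≤ b / 2) (hT : h0 + t ≤ 1)
    (s1 : 3843 / 5000 ≤ s) (s2 : s ≤ 8011 / 10000)
    (b1 : 923 / 10000 ≤ b) (b2 : b ≤ 1063 / 10000) (t1 : 6699 / 200000 ≤ t) (t2 : t ≤ 25121 / 500000) :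
    0 ≤ Uaa s a b t k ∨ 0 ≤ Ubb s a b t k := by
  have e1 := R.lo1 (488 / 1000) (by norm_num)
  have e2 := up (t1 := 423 / 1000) (t2 := (468 / 1000)) (x := s - t) (by norm_num)
    (by linarith only [s1, t2]) (by linarith only [s2, t1])
  have e3 := R.lo2 (485 / 1000) (by norm_num)
  have e4 := up (t1 := 626 / 1000) (t2 := (655 / 1000)) (x := h0 + t) (by norm_num)
    (by linarith only [R.h1, t1]) (by linarith only [R.h2, t2])
  have e5 := R.lo4 (5 / 1000) (by norm_num)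
  have e6 := R.lo3 (336 / 1000) (by norm_num)
  have e7 := up (t1 := 46 / 1000) (t2 := (54 / 1000)) (x := b) (by norm_num)
    (by linarith only [b1]) (by linarith only [b2])
  left
  unfold Uaa
  linarith only [e7, e6, e5, e4, e3, e2, e1, R.ha, R.k1, R.k2, R.h2, R.h3, s1, s2, b1, b2, t1, t2]

theorem u63 {s a b t k : ℝ} (R : Reg s a b t k) (hE : t + k ≤ b / 2) (hT : h0 + t ≤ 1)
    (s1 : 7361 / 10000 ≤ s) (s2 : s ≤ 8011 / 10000)
    (b1 : 1 / 20 ≤ b) (b2 : b ≤ 1063 / 10000) (t1 : 25121 / 500000 ≤ t) (t2 : t ≤ 6699 / 100000) :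
    0 ≤ Uaa s a b t k ∨ 0 ≤ Ubb s a b t k := by
  have e1 := R.lo8 (39 / 1000) (by norm_num)
  exfalso
  linarith only [e1, R.ha, R.k1, R.k2, R.h2, R.h3, s1, s2, b1, b2, t1, t2, hE]

theorem u64 {s a b t k : ℝ} (R : Reg s a b t k) (hE : t + k ≤ b / 2) (hT : h0 + t ≤ 1)
    (s1 : 7361 / 10000 ≤ s) (s2 : s ≤ 8011 / 10000)
    (b1 : 1063 / 10000 ≤ b) (b2 : b ≤ 13 / 80) (t1 : 6699 / 200000 ≤ t) (t2 : t ≤ 6699 / 100000) :
    0 ≤ Uaa s a b t k ∨ 0 ≤ Ubb s a b t k := by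
  have e1 := R.lo1 (477 / 1000) (by norm_num)
  have e2 := up (t1 := 383 / 1000) (t2 := (468 / 1000)) (x := s - t) (by norm_num)
    (by linarith only [s1, t2]) (by linarith only [s2, t1])
  have e3 := R.lo2 (469 / 1000) (by norm_num)
  have e4 := up (t1 := 626 / 1000) (t2 := (687 / 1000)) (x := h0 + t) (by norm_num)
    (by linarith only [R.h1, t1]) (by linarith only [R.h2, t2])
  have e5 := R.lo4 (23 / 1000) (by norm_num)
  have e6 := R.lo3 (308 / 1000) (by norm_num)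
  have e7 := up (t1 := 53 / 1000) (t2 := (82 / 1000)) (x := b) (by norm_num)
    (by linarith only [b1]) (by linarith only [b2])
  left
  unfold Uaa
  linarith only [e7, e6, e5, e4, e3, e2, e1, R.ha, R.k1, R.k2, R.h2, R.h3, s1, s2, b1, b2, t1, t2]

end Pool.Agent.Strip051.FourB
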