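import Pool.Agent.Strip051.FourB.Box

/-! # The exit is above the top of the body, boxes 2 -/

namespace Pool.Agent.Strip051.FourB

open Pool.Agent.StripNear Pool.Agent.StripSquare Pool.Agent.Strip051
open Pool.Agent.Strip051.Four.Low (ph)

theorem u65 {s a b t k : ℝ} (R : Reg s a b t k) (hE : t + k ≤ b / 2) (hT : h0 + t ≤ 1)
    (s1 : 7361 / 10000 ≤ s) (s2 : s ≤ 8011 / 10000)
    (b1 : 13 / 80 ≤ b) (b2 : b ≤ 11 / 40) (t1 : 0 ≤ t) (t2 : t ≤ 6699 / 100000) :
    0 ≤ Uaa s a b t k ∨ 0 ≤ Ubb s a b t k := by
  have e1 := R.lo1 (524 / 1000) (by norm_num)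
  have e2 := up (t1 := 383 / 1000) (t2 := (502 / 1000)) (x := s - t) (by norm_num)
    (by linear_combination (1146689 / 1000000) * s1 + (1146689 / 1000000) * t2) (by linear_combination (313001 / 250000) * s2 + (313001 / 250000) * t1)
  have e3 := R.lo2 (469 / 1000) (by norm_num)
  have e4 := up (t1 := 577 / 1000) (t2 := (687 / 1000)) (x := h0 + t) (by norm_num)
    (by linear_combination (1332929 / 1000000) * R.h1 + (1332929 / 1000000) * t1) (by linear_combination (1471969 / 1000000) * R.h2 + (1471969 / 1000000) * t2)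
  have e5 := R.lo4 (42 / 1000) (by norm_num)
  have e6 := R.lo3 (282 / 1000) (by norm_num)
  have e7 := up (t1 := 81 / 1000) (t2 := (141 / 1000)) (x := b) (by norm_num)
    (by linear_combination (1006561 / 1000000) * b1) (by linear_combination (1019881 / 1000000) * b2)
  left
  unfold Uaa
  linear_combination (8355126438350574665000 / 2574002904069040516401) * e7 + (250000 / 230119) * e6 + (250000 / 249559) * e5 + (1000000 / 603601) * e4 + (2000000 / 780039) * e3 + (2000000 / 403867) * e2 + (62500 / 45339) * e1 + (40020318000 / 57428267521) * R.ha + (5137831376105500 / 2603740221134619) * R.k2 + (1264000 / 603601) * R.h2 + R.h3 + (35349611361995894311755100 / 273420505832908101312211749) * s2 + (4568572548159227984216453 / 7570596776673648577650000) * b1 + (200117506182112646962389500 / 634725535804937302596994473) * t1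

theorem u71 {s a b t k : ℝ} (R : Reg s a b t k) (hE : t + k ≤ b / 2) (hT : h0 + t ≤ 1)
    (s1 : 8011 / 10000 ≤ s) (s2 : s ≤ 521 / 625)
    (b1 : 1 / 20 ≤ b) (b2 : b ≤ 1063 / 10000) (t1 : 0 ≤ t) (t2 : t ≤ 4187 / 250000) :
    0 ≤ Uaa s a b t k ∨ 0 ≤ Ubb s a b t k := by
  have e1 := R.lo1 (551 / 1000) (by norm_num)
  have e2 := up (t1 := 484 / 1000) (t2 := (537 / 1000)) (x := s - t) (by norm_num)
    (by linear_combination (77141 / 62500) * s1 + (77141 / 62500) * t2) (by linear_combination (1288369 / 1000000) * s2 + (1288369 / 1000000) * t1)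
  have e3 := R.lo2 (519 / 1000) (by norm_num)
  have e4 := up (t1 := 577 / 1000) (t2 := (601 / 1000)) (x := h0 + t) (by norm_num)
    (by linear_combination (1332929 / 1000000) * R.h1 + (1332929 / 1000000) * t1) (by linear_combination (1361201 / 1000000) * R.h2 + (1361201 / 1000000) * t2)
  have e5 := R.lo3 (386 / 1000) (by norm_num)
  have e6 := up (t1 := 417 / 1000) (t2 := (437 / 1000)) (x := s - a) (by norm_num)
    (by linear_combination (8217223 / 10000000) * s1 + (1173889 / 1000000) * R.ha) (by linear_combination (8336783 / 10000000) * s2 - (1190969 / 1000000) * R.ha)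
  have e7 := R.lo5 (467 / 1000) (by norm_num)
  have e8 := up (t1 := 25 / 1000) (t2 := (54 / 1000)) (x := b) (by norm_num)
    (by linear_combination (1601 / 1600) * b1) (by linear_combination (250729 / 250000) * b2)
  right
  unfold Ubb
  linear_combination (11826529742417531387 / 1540734183271933650) * e8 + (1000000 / 781911) * e7 + (1000000 / 817771) * e6 + (250000 / 212751) * e5 + (1000000 / 653223) * e4 + (2000000 / 730639) * e3 + (1000000 / 185023) * e2 + (1000000 / 696399) * e1 - (23859551000 / 173981598021) * R.ha + (13096250939191048891793 / 44020976664912390) * R.k1 + (10186099090875488865839 / 34238537406042970) * R.k2 + (1178000 / 653223) * R.h2 + R.h3 + (11786189703990257204908900 / 2907112910398710725845426293) * s1 + (483496221127048564346000 / 15714354783799241804575341) * t1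

theorem u72 {s a b t k : ℝ} (R : Reg s a b t k) (hE : t + k ≤ b / 2) (hT : h0 + t ≤ 1)
    (s1 : 8011 / 10000 ≤ s) (s2 : s ≤ 521 / 625)
    (b1 : 1 / 20 ≤ b) (b2 : b ≤ 1063 / 10000) (t1 : 4187 / 250000 ≤ t) (t2 : t ≤ 6699 / 200000) :
    0 ≤ Uaa s a b t k ∨ 0 ≤ Ubb s a b t k := by
  have e1 := R.lo1 (531 / 1000) (by norm_num)
  have e2 := up (t1 := 467 / 1000) (t2 := (519 / 1000)) (x := s - t) (by norm_num)
    (by linear_combination (1218089 / 1000000) * s1 + (1218089 / 1000000) * t2) (by linear_combination (1269361 / 1000000) * s2 + (1269361 / 1000000) * t1)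
  have e3 := R.lo2 (519 / 1000) (by norm_num)
  have e4 := up (t1 := 600 / 1000) (t2 := (627 / 1000)) (x := h0 + t) (by norm_num)
    (by linear_combination (34 / 25) * R.h1 + (34 / 25) * t1) (by linear_combination (1393129 / 1000000) * R.h2 + (1393129 / 1000000) * t2)
  have e5 := R.lo3 (373 / 1000) (by norm_num)
  have e6 := up (t1 := 417 / 1000) (t2 := (437 / 1000)) (x := s - a) (by norm_num)
    (by linear_combination (8217223 / 10000000) * s1 + (1173889 / 1000000) * R.ha) (by linear_combination (8336783 / 10000000) * s2 - (1190969 / 1000000) * R.ha)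
  have e7 := R.lo5 (452 / 1000) (by norm_num)
  have e8 := up (t1 := 25 / 1000) (t2 := (54 / 1000)) (x := b) (by norm_num)
    (by linear_combination (1601 / 1600) * b1) (by linear_combination (250729 / 250000) * b2)
  right
  unfold Ubb
  linear_combination (7647500510927426900 / 1691414232411726669) * e8 + (62500 / 49731) * e7 + (1000000 / 817771) * e6 + (1000000 / 860871) * e5 + (5000 / 3119) * e4 + (2000000 / 730639) * e3 + (4000000 / 757627) * e2 + (1000000 / 718039) * e1 - (125126668000 / 703995338541) * R.ha + (3243331270376500 / 931535400617283) * R.k2 + (6135 / 3119) * R.h2 + R.h3 + (585470086668316790866728120100 / 4633914011617280225882141414319) * s1 + (229786152943400480133059 / 930277827826449667950000) * b1 + (534802403623097048457035 / 2201254121035063764148479) * t2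

theorem u73 {s a b t k : ℝ} (R : Reg s a b t k) (hE : t + k ≤ b / 2) (hT : h0 + t ≤ 1)
    (s1 : 8011 / 10000 ≤ s) (s2 : s ≤ 521 / 625)
    (b1 : 1063 / 10000 ≤ b) (b2 : b ≤ 13 / 80) (t1 : 0 ≤ t) (t2 : t ≤ 6699 / 200000) :
    0 ≤ Uaa s a b t k ∨ 0 ≤ Ubb s a b t k := by
  have e1 := R.lo1 (569 / 1000) (by norm_num)
  have e2 := up (t1 := 467 / 1000) (t2 := (537 / 1000)) (x := s - t) (by norm_num)
    (by linear_combination (1218089 / 1000000) * s1 + (1218089 / 1000000) * t2) (by linear_combination (1288369 / 1000000) * s2 + (1288369 / 1000000) * t1)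
  have e3 := R.lo2 (519 / 1000) (by norm_num)
  have e4 := up (t1 := 577 / 1000) (t2 := (627 / 1000)) (x := h0 + t) (by norm_num)
    (by linear_combination (1332929 / 1000000) * R.h1 + (1332929 / 1000000) * t1) (by linear_combination (1393129 / 1000000) * R.h2 + (1393129 / 1000000) * t2)
  have e5 := R.lo3 (355 / 1000) (by norm_num)
  have e6 := up (t1 := 417 / 1000) (t2 := (437 / 1000)) (x := s - a) (by norm_num)
    (by linear_combination (8217223 / 10000000) * s1 + (1173889 / 1000000) * R.ha) (by linear_combination (8336783 / 10000000) * s2 - (1190969 / 1000000) * R.ha)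
  have e7 := R.lo5 (429 / 1000) (by norm_num)
  have e8 := up (t1 := 53 / 1000) (t2 := (82 / 1000)) (x := b) (by norm_num)
    (by linear_combination (1002809 / 1000000) * b1) (by linear_combination (251681 / 250000) * b2)
  right
  unfold Ubb
  linear_combination (9233936340949766339 / 1607482693484063250) * e8 + (1000000 / 815959) * e7 + (1000000 / 817771) * e6 + (40000 / 34959) * e5 + (1000000 / 638221) * e4 + (2000000 / 730639) * e3 + (4000000 / 749221) * e2 + (1000000 / 676239) * e1 - (6630289600 / 28588456389) * R.ha + (307510640186150619748451 / 2679137822473438750) * R.k1 + (922560427179309502745353 / 8037413467420316250) * R.k2 + (1204000 / 638221) * R.h2 + R.h3 + (152927443013055162477669112353440 / 2878397671457751002356182657067797) * s1 + (224446128478624766897190800 / 3074590840929317018729863773) * t2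

theorem u76 {s a b t k : ℝ} (R : Reg s a b t k) (hE : t + k ≤ b / 2) (hT : h0 + t ≤ 1)
    (s1 : 521 / 625 ≤ s) (s2 : s ≤ 8661 / 10000)
    (b1 : 1 / 20 ≤ b) (b2 : b ≤ 1063 / 10000) (t1 : 0 ≤ t) (t2 : t ≤ 4187 / 250000) :
    0 ≤ Uaa s a b t k ∨ 0 ≤ Ubb s a b t k := by
  have e1 := R.lo1 (593 / 1000) (by norm_num)
  have e2 := up (t1 := 518 / 1000) (t2 := (578 / 1000)) (x := s - t) (by norm_num)
    (by linear_combination (317081 / 250000) * s1 + (317081 / 250000) * t2) (by linear_combination (333521 / 250000) * s2 + (333521 / 250000) * t1)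
  have e3 := R.lo2 (557 / 1000) (by norm_num)
  have e4 := up (t1 := 577 / 1000) (t2 := (601 / 1000)) (x := h0 + t) (by norm_num)
    (by linear_combination (1332929 / 1000000) * R.h1 + (1332929 / 1000000) * t1) (by linear_combination (1361201 / 1000000) * R.h2 + (1361201 / 1000000) * t2)
  have e5 := R.lo3 (404 / 1000) (by norm_num)
  have e6 := up (t1 := 436 / 1000) (t2 := (458 / 1000)) (x := s - a) (by norm_num)
    (by linear_combination (520667 / 625000) * s1 + (74381 / 62500) * R.ha) (by linear_combination (2117087 / 2500000) * s2 - (302441 / 250000) * R.ha)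
  have e7 := R.lo5 (499 / 1000) (by norm_num)
  have e8 := up (t1 := 25 / 1000) (t2 := (54 / 1000)) (x := b) (by norm_num)
    (by linear_combination (1601 / 1600) * b1) (by linear_combination (250729 / 250000) * b2)
  right
  unfold Ubb
  linear_combination (9956466508133324671 / 1241809578453465450) * e8 + (1000000 / 750999) * e7 + (125000 / 100039) * e6 + (62500 / 52299) * e5 + (1000000 / 653223) * e4 + (2000000 / 689751) * e3 + (1000000 / 175149) * e2 + (1000000 / 648351) * e1 - (792443750 / 5231939661) * R.ha + (72908853458882013028883 / 248361915690693090) * R.k1 + (72909877642394760403883 / 248361915690693090) * R.k2 + (1178000 / 653223) * R.h2 + R.h3 + (2289919701877616179990375 / 92519712432701864299084293) * s1 + (11286281223691250964500 / 34158490342176196013589) * t1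

theorem u77 {s a b t k : ℝ} (R : Reg s a b t k) (hE : t + k ≤ b / 2) (hT : h0 + t ≤ 1)
    (s1 : 521 / 625 ≤ s) (s2 : s ≤ 8661 / 10000)
    (b1 : 1 / 20 ≤ b) (b2 : b ≤ 1063 / 10000) (t1 : 4187 / 250000 ≤ t) (t2 : t ≤ 6699 / 200000) :
    0 ≤ Uaa s a b t k ∨ 0 ≤ Ubb s a b t k := by
  have e1 := R.lo1 (570 / 1000) (by norm_num)
  have e2 := up (t1 := 500 / 1000) (t2 := (556 / 1000)) (x := s - t) (by norm_num)
    (by linear_combination (5 / 4) * s1 + (5 / 4) * t2) (by linear_combination (81821 / 62500) * s2 + (81821 / 62500) * t1)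
  have e3 := R.lo2 (557 / 1000) (by norm_num)
  have e4 := up (t1 := 600 / 1000) (t2 := (627 / 1000)) (x := h0 + t) (by norm_num)
    (by linear_combination (34 / 25) * R.h1 + (34 / 25) * t1) (by linear_combination (1393129 / 1000000) * R.h2 + (1393129 / 1000000) * t2)
  have e5 := R.lo3 (391 / 1000) (by norm_num)
  have e6 := up (t1 := 436 / 1000) (t2 := (458 / 1000)) (x := s - a) (by norm_num)
    (by linear_combination (520667 / 625000) * s1 + (74381 / 62500) * R.ha) (by linear_combination (2117087 / 2500000) * s2 - (302441 / 250000) * R.ha)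
  have e7 := R.lo5 (482 / 1000) (by norm_num)
  have e8 := up (t1 := 25 / 1000) (t2 := (54 / 1000)) (x := b) (by norm_num)
    (by linear_combination (1601 / 1600) * b1) (by linear_combination (250729 / 250000) * b2)
  right
  unfold Ubb
  linear_combination (457194487176859 / 58170434028050) * e8 + (250000 / 191919) * e7 + (125000 / 100039) * e6 + (1000000 / 847119) * e5 + (5000 / 3119) * e4 + (2000000 / 689751) * e3 + (2000 / 361) * e2 + (10000 / 6751) * e1 - (16435050250 / 84744937641) * R.ha + (3489739421893032807 / 11634086805610) * R.k1 + (94318497751077211 / 314434778530) * R.k2 + (6135 / 3119) * R.h2 + R.h3 + (330936844277076967303007 / 1756960033520993086701279) * s1 + (13905229483573 / 872718504034499) * t1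

theorem u78 {s a b t k : ℝ} (R : Reg s a b t k) (hE : t + k ≤ b / 2) (hT : h0 + t ≤ 1)
    (s1 : 521 / 625 ≤ s) (s2 : s ≤ 8661 / 10000)
    (b1 : 1063 / 10000 ≤ b) (b2 : b ≤ 13 / 80) (t1 : 0 ≤ t) (t2 : t ≤ 6699 / 200000) :
    0 ≤ Uaa s a b t k ∨ 0 ≤ Ubb s a b t k := by
  have e1 := R.lo1 (614 / 1000) (by norm_num)
  have e2 := up (t1 := 500 / 1000) (t2 := (578 / 1000)) (x := s - t) (by norm_num)
    (by linear_combination (5 / 4) * s1 + (5 / 4) * t2) (by linear_combination (333521 / 250000) * s2 + (333521 / 250000) * t1)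
  have e3 := R.lo2 (557 / 1000) (by norm_num)
  have e4 := up (t1 := 577 / 1000) (t2 := (627 / 1000)) (x := h0 + t) (by norm_num)
    (by linear_combination (1332929 / 1000000) * R.h1 + (1332929 / 1000000) * t1) (by linear_combination (1393129 / 1000000) * R.h2 + (1393129 / 1000000) * t2)
  have e5 := R.lo3 (371 / 1000) (by norm_num)
  have e6 := up (t1 := 436 / 1000) (t2 := (458 / 1000)) (x := s - a) (by norm_num)
    (by linear_combination (520667 / 625000) * s1 + (74381 / 62500) * R.ha) (by linear_combination (2117087 / 2500000) * s2 - (302441 / 250000) * R.ha)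
  have e7 := R.lo5 (458 / 1000) (by norm_num)
  have e8 := up (t1 := 53 / 1000) (t2 := (82 / 1000)) (x := b) (by norm_num)
    (by linear_combination (1002809 / 1000000) * b1) (by linear_combination (251681 / 250000) * b2)
  right
  unfold Ubb
  linear_combination (124091227769286928859 / 19901097460198073250) * e8 + (250000 / 197559) * e7 + (125000 / 100039) * e6 + (1000000 / 862359) * e5 + (1000000 / 638221) * e4 + (2000000 / 689751) * e3 + (4000 / 711) * e2 + (250000 / 155751) * e1 - (22139680250 / 86269532001) * R.ha + (12460622591211080178089393 / 99505487300990366250) * R.k1 + (12461019685052636950589393 / 99505487300990366250) * R.k2 + (1204000 / 638221) * R.h2 + R.h3 + (207239607283472877576172273 / 1785745301782722052594332681) * s1 + (27876893770011931440152 / 148652232214734946089981) * t1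

theorem u85 {s a b t k : ℝ} (R : Reg s a b t k) (hE : t + k ≤ b / 2) (hT : h0 + t ≤ 1)
    (s1 : 8011 / 10000 ≤ s) (s2 : s ≤ 521 / 625)
    (b1 : 1 / 20 ≤ b) (b2 : b ≤ 641 / 10000) (t1 : 6699 / 200000 ≤ t) (t2 : t ≤ 41869 / 1000000) :
    0 ≤ Uaa s a b t k ∨ 0 ≤ Ubb s a b t k := by
  have e1 := R.lo8 (29 / 1000) (by norm_num)
  exfalso
  exact absurd b2 (not_le.mpr (by linear_combination (43301000 / 22467517) * e1 + (49957950 / 22467517) * R.k1 + (49957950 / 22467517) * t1 + (49957950 / 22467517) * hE))

theorem u86 {s a b t k : ℝ} (R : Reg s a b t k) (hE : t + k ≤ b / 2) (hT : h0 + t ≤ 1)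
    (s1 : 8011 / 10000 ≤ s) (s2 : s ≤ 521 / 625)
    (b1 : 641 / 10000 ≤ b) (b2 : b ≤ 391 / 5000) (t1 : 6699 / 200000 ≤ t) (t2 : t ≤ 41869 / 1000000) :
    0 ≤ Uaa s a b t k ∨ 0 ≤ Ubb s a b t k := by
  have e1 := R.lo1 (514 / 1000) (by norm_num)
  have e2 := up (t1 := 459 / 1000) (t2 := (501 / 1000)) (x := s - t) (by norm_num)
    (by linear_combination (1210681 / 1000000) * s1 + (1210681 / 1000000) * t2) (by linear_combination (1251001 / 1000000) * s2 + (1251001 / 1000000) * t1)
  have e3 := R.lo2 (519 / 1000) (by norm_num)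
  have e4 := up (t1 := 626 / 1000) (t2 := (640 / 1000)) (x := h0 + t) (by norm_num)
    (by linear_combination (347969 / 250000) * R.h1 + (347969 / 250000) * t1) (by linear_combination (881 / 625) * R.h2 + (881 / 625) * t2)
  have e5 := R.lo3 (367 / 1000) (by norm_num)
  have e6 := up (t1 := 417 / 1000) (t2 := (437 / 1000)) (x := s - a) (by norm_num)
    (by linear_combination (8217223 / 10000000) * s1 + (1173889 / 1000000) * R.ha) (by linear_combination (8336783 / 10000000) * s2 - (1190969 / 1000000) * R.ha)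
  have e7 := R.lo5 (444 / 1000) (by norm_num)
  have e8 := up (t1 := 32 / 1000) (t2 := (40 / 1000)) (x := b) (by norm_num)
    (by linear_combination (15641 / 15625) * b1) (by linear_combination (626 / 625) * b2)
  right
  unfold Ubb
  linear_combination (293025920111599401125 / 66475081855390790664) * e8 + (62500 / 50179) * e7 + (1000000 / 817771) * e6 + (1000000 / 865311) * e5 + (3125 / 1873) * e4 + (2000000 / 730639) * e3 + (4000000 / 770041) * e2 + (250000 / 183951) * e1 - (138731680000 / 707626241781) * R.ha + (8922808752251500 / 2662411160501073) * R.k2 + (15825 / 7492) * R.h2 + R.h3 + (270124323810105781227681001511500 / 1224964576941548897573286940726317) * s1 + (112197626304273110311483 / 415469261596192441650000) * b1 + (7325217760185192302257225 / 15359841817306003400915556) * t2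

theorem u87 {s a b t k : ℝ} (R : Reg s a b t k) (hE : t + k ≤ b / 2) (hT : h0 + t ≤ 1)
    (s1 : 8011 / 10000 ≤ s) (s2 : s ≤ 521 / 625)
    (b1 : 1 / 20 ≤ b) (b2 : b ≤ 391 / 5000) (t1 : 41869 / 1000000 ≤ t) (t2 : t ≤ 25121 / 500000) :
    0 ≤ Uaa s a b t k ∨ 0 ≤ Ubb s a b t k := by
  have e1 := R.lo8 (32 / 1000) (by norm_num)
  exfalso
  exact absurd b2 (not_le.mpr (by linear_combination (125875 / 64544) * e1 + (9075 / 4034) * R.k1 + (9075 / 4034) * t1 + (9075 / 4034) * hE))

theorem u88 {s a b t k : ℝ} (R : Reg s a b t k) (hE : t + k ≤ b / 2) (hT : h0 + t ≤ 1)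
    (s1 : 8011 / 10000 ≤ s) (s2 : s ≤ 521 / 625)
    (b1 : 391 / 5000 ≤ b) (b2 : b ≤ 1063 / 10000) (t1 : 6699 / 200000 ≤ t) (t2 : t ≤ 25121 / 500000) :
    0 ≤ Uaa s a b t k ∨ 0 ≤ Ubb s a b t k := by
  have e1 := R.lo1 (519 / 1000) (by norm_num)
  have e2 := up (t1 := 452 / 1000) (t2 := (501 / 1000)) (x := s - t) (by norm_num)
    (by linear_combination (75269 / 62500) * s1 + (75269 / 62500) * t2) (by linear_combination (1251001 / 1000000) * s2 + (1251001 / 1000000) * t1)
  have e3 := R.lo2 (519 / 1000) (by norm_num)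
  have e4 := up (t1 := 626 / 1000) (t2 := (655 / 1000)) (x := h0 + t) (by norm_num)
    (by linear_combination (347969 / 250000) * R.h1 + (347969 / 250000) * t1) (by linear_combination (57161 / 40000) * R.h2 + (57161 / 40000) * t2)
  have e5 := R.lo3 (355 / 1000) (by norm_num)
  have e6 := up (t1 := 417 / 1000) (t2 := (437 / 1000)) (x := s - a) (by norm_num)
    (by linear_combination (8217223 / 10000000) * s1 + (1173889 / 1000000) * R.ha) (by linear_combination (8336783 / 10000000) * s2 - (1190969 / 1000000) * R.ha)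
  have e7 := R.lo5 (430 / 1000) (by norm_num)
  have e8 := up (t1 := 39 / 1000) (t2 := (54 / 1000)) (x := b) (by norm_num)
    (by linear_combination (1001521 / 1000000) * b1) (by linear_combination (250729 / 250000) * b2)
  right
  unfold Ubb
  linear_combination (351654794298929000 / 80713952212206131) * e8 + (10000 / 8151) * e7 + (1000000 / 817771) * e6 + (40000 / 34959) * e5 + (100000 / 58997) * e4 + (2000000 / 730639) * e3 + (1000000 / 193387) * e2 + (1000000 / 730639) * e1 - (6630289600 / 28588456389) * R.ha + (5851094944600 / 1779454479803) * R.k2 + (128100 / 58997) * R.h2 + R.h3 + (63830404942917060718720 / 281414107081033921725731) * s1 + (10540671457790591112741 / 44392673716713372050000) * b1 + (10790524894923973180500 / 20302246075563645910717) * t2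

theorem u89 {s a b t k : ℝ} (R : Reg s a b t k) (hE : t + k ≤ b / 2) (hT : h0 + t ≤ 1)
    (s1 : 521 / 625 ≤ s) (s2 : s ≤ 8661 / 10000)
    (b1 : 1 / 20 ≤ b) (b2 : b ≤ 1063 / 10000) (t1 : 6699 / 200000 ≤ t) (t2 : t ≤ 25121 / 500000) :
    0 ≤ Uaa s a b t k ∨ 0 ≤ Ubb s a b t k := by
  have e1 := R.lo1 (549 / 1000) (by norm_num)
  have e2 := up (t1 := 483 / 1000) (t2 := (536 / 1000)) (x := s - t) (by norm_num)
    (by linear_combination (1233289 / 1000000) * s1 + (1233289 / 1000000) * t2) (by linear_combination (20114 / 15625) * s2 + (20114 / 15625) * t1)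
  have e3 := R.lo2 (557 / 1000) (by norm_num)
  have e4 := up (t1 := 626 / 1000) (t2 := (655 / 1000)) (x := h0 + t) (by norm_num)
    (by linear_combination (347969 / 250000) * R.h1 + (347969 / 250000) * t1) (by linear_combination (57161 / 40000) * R.h2 + (57161 / 40000) * t2)
  have e5 := R.lo3 (378 / 1000) (by norm_num)
  have e6 := up (t1 := 436 / 1000) (t2 := (458 / 1000)) (x := s - a) (by norm_num)
    (by linear_combination (520667 / 625000) * s1 + (74381 / 62500) * R.ha) (by linear_combination (2117087 / 2500000) * s2 - (302441 / 250000) * R.ha)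
  have e7 := R.lo5 (466 / 1000) (by norm_num)
  have e8 := up (t1 := 25 / 1000) (t2 := (54 / 1000)) (x := b) (by norm_num)
    (by linear_combination (1601 / 1600) * b1) (by linear_combination (250729 / 250000) * b2)
  right
  unfold Ubb
  linear_combination (248014998605103079600 / 53195319713815228833) * e8 + (250000 / 195711) * e7 + (125000 / 100039) * e6 + (250000 / 214279) * e5 + (100000 / 58997) * e4 + (2000000 / 689751) * e3 + (500000 / 92639) * e2 + (1000000 / 698599) * e1 - (5038307250 / 21436256881) * R.ha + (106766259934376000 / 29296976761226031) * R.k2 + (128100 / 58997) * R.h2 + R.h3 + (20477206426500247858942140694475 / 62424790117420249426780900866267) * s1 + (7234598232796951752055063 / 29257425842598375858150000) * b1 + (50554652955531347126224400 / 160120373052919329207873573) * t2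

theorem u90 {s a b t k : ℝ} (R : Reg s a b t k) (hE : t + k ≤ b / 2) (hT : h0 + t ≤ 1)
    (s1 : 8011 / 10000 ≤ s) (s2 : s ≤ 8661 / 10000)
    (b1 : 1 / 20 ≤ b) (b2 : b ≤ 1063 / 10000) (t1 : 25121 / 500000 ≤ t) (t2 : t ≤ 6699 / 100000) :
    0 ≤ Uaa s a b t k ∨ 0 ≤ Ubb s a b t k := by
  have e1 := R.lo8 (39 / 1000) (by norm_num)
  exfalso
  exact absurd b2 (not_le.mpr (by linear_combination (43301000 / 21584497) * e1 + (49923950 / 21584497) * R.k1 + (49923950 / 21584497) * t1 + (49923950 / 21584497) * hE))

theorem u93 {s a b t k : ℝ} (R : Reg s a b t k) (hE : t + k ≤ b / 2) (hT : h0 + t ≤ 1)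
    (s1 : 8011 / 10000 ≤ s) (s2 : s ≤ 521 / 625)
    (b1 : 1063 / 10000 ≤ b) (b2 : b ≤ 84 / 625) (t1 : 6699 / 200000 ≤ t) (t2 : t ≤ 6699 / 100000) :
    0 ≤ Uaa s a b t k ∨ 0 ≤ Ubb s a b t k := by
  have e1 := R.lo1 (523 / 1000) (by norm_num)
  have e2 := up (t1 := 437 / 1000) (t2 := (501 / 1000)) (x := s - t) (by norm_num)
    (by linear_combination (1190969 / 1000000) * s1 + (1190969 / 1000000) * t2) (by linear_combination (1251001 / 1000000) * s2 + (1251001 / 1000000) * t1)
  have e3 := R.lo2 (519 / 1000) (by norm_num)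
  have e4 := up (t1 := 626 / 1000) (t2 := (687 / 1000)) (x := h0 + t) (by norm_num)
    (by linear_combination (347969 / 250000) * R.h1 + (347969 / 250000) * t1) (by linear_combination (1471969 / 1000000) * R.h2 + (1471969 / 1000000) * t2)
  have e5 := R.lo4 (11 / 1000) (by norm_num)
  have e6 := R.lo3 (337 / 1000) (by norm_num)
  have e7 := up (t1 := 53 / 1000) (t2 := (68 / 1000)) (x := b) (by norm_num)
    (by linear_combination (1002809 / 1000000) * b1) (by linear_combination (62789 / 62500) * b2)
  left
  unfold Uaa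
  linear_combination (60568003176725473040000 / 17821331136904760952669) * e7 + (1000000 / 886431) * e6 + (1000000 / 999879) * e5 + (500000 / 284969) * e4 + (2000000 / 730639) * e3 + (4000000 / 781063) * e2 + (1000000 / 726471) * e1 + (231139976000 / 295441247283) * R.ha + (155834397803122000 / 71543166118309431) * R.k2 + (656500 / 284969) * R.h2 + R.h3 + (1400629514590873683260800 / 448658271541699041295273437) * s1 + (102540148037198170695645767 / 127295222406462578233350000) * b1 + (5123756681883962128577849500 / 15923987916672865126276345257) * t1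

theorem u94 {s a b t k : ℝ} (R : Reg s a b t k) (hE : t + k ≤ b / 2) (hT : h0 + t ≤ 1)
    (s1 : 521 / 625 ≤ s) (s2 : s ≤ 8661 / 10000)
    (b1 : 1063 / 10000 ≤ b) (b2 : b ≤ 84 / 625) (t1 : 6699 / 200000 ≤ t) (t2 : t ≤ 6699 / 100000) :
    0 ≤ Uaa s a b t k ∨ 0 ≤ Ubb s a b t k := by
  have e1 := R.lo1 (561 / 1000) (by norm_num)
  have e2 := up (t1 := 466 / 1000) (t2 := (536 / 1000)) (x := s - t) (by norm_num)
    (by linear_combination (304289 / 250000) * s1 + (304289 / 250000) * t2) (by linear_combination (20114 / 15625) * s2 + (20114 / 15625) * t1)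
  have e3 := R.lo2 (557 / 1000) (by norm_num)
  have e4 := up (t1 := 626 / 1000) (t2 := (687 / 1000)) (x := h0 + t) (by norm_num)
    (by linear_combination (347969 / 250000) * R.h1 + (347969 / 250000) * t1) (by linear_combination (1471969 / 1000000) * R.h2 + (1471969 / 1000000) * t2)
  have e5 := R.lo4 (6 / 1000) (by norm_num)
  have e6 := R.lo3 (353 / 1000) (by norm_num)
  have e7 := up (t1 := 53 / 1000) (t2 := (68 / 1000)) (x := b) (by norm_num)
    (by linear_combination (1002809 / 1000000) * b1) (by linear_combination (62789 / 62500) * b2)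
  left
  unfold Uaa
  linear_combination (1755774754198263902500 / 485148991874402542113) * e7 + (1000000 / 875391) * e6 + (250000 / 249991) * e5 + (500000 / 284969) * e4 + (2000000 / 689751) * e3 + (250000 / 46889) * e2 + (1000000 / 685279) * e1 + (179119819000 / 218839871481) * R.ha + (52098009118807000 / 21423766898375457) * R.k2 + (656500 / 284969) * R.h2 + R.h3 + (19858847510737339327119800 / 230960594665017036828118341) * s1 + (226677041595817067900010143 / 266831945530921398162150000) * b1 + (173721070429221951341555000 / 286262476028720103201903537) * t1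

theorem u95 {s a b t k : ℝ} (R : Reg s a b t k) (hE : t + k ≤ b / 2) (hT : h0 + t ≤ 1)
    (s1 : 8011 / 10000 ≤ s) (s2 : s ≤ 8661 / 10000)
    (b1 : 84 / 625 ≤ b) (b2 : b ≤ 13 / 80) (t1 : 6699 / 200000 ≤ t) (t2 : t ≤ 6699 / 100000) :
    0 ≤ Uaa s a b t k ∨ 0 ≤ Ubb s a b t k := by
  have e1 := R.lo1 (554 / 1000) (by norm_num)
  have e2 := up (t1 := 437 / 1000) (t2 := (536 / 1000)) (x := s - t) (by norm_num)
    (by linear_combination (1190969 / 1000000) * s1 + (1190969 / 1000000) * t2) (by linear_combination (20114 / 15625) * s2 + (20114 / 15625) * t1)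
  have e3 := R.lo2 (537 / 1000) (by norm_num)
  have e4 := up (t1 := 626 / 1000) (t2 := (687 / 1000)) (x := h0 + t) (by norm_num)
    (by linear_combination (347969 / 250000) * R.h1 + (347969 / 250000) * t1) (by linear_combination (1471969 / 1000000) * R.h2 + (1471969 / 1000000) * t2)
  have e5 := R.lo4 (17 / 1000) (by norm_num)
  have e6 := R.lo3 (333 / 1000) (by norm_num)
  have e7 := up (t1 := 67 / 1000) (t2 := (82 / 1000)) (x := b) (by norm_num)
    (by linear_combination (1004489 / 1000000) * b1) (by linear_combination (251681 / 250000) * b2)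
  left
  unfold Uaa
  linear_combination (89936644978654666295000 / 25527747362870618006841) * e7 + (1000000 / 889111) * e6 + (1000000 / 999711) * e5 + (500000 / 284969) * e4 + (2000000 / 711631) * e3 + (500000 / 95721) * e2 + (250000 / 173271) * e1 + (696037300000 / 888854046921) * R.ha + (118779921221303000 / 51337543188016197) * R.k2 + (656500 / 284969) * R.h2 + R.h3 + (652933987111825670871500 / 13398514773293434940748327) * s1 + (999256172059425843291472141 / 1276387368143530900342050000) * b1 + (217062968156029625320669000 / 466786913455803846321786951) * t1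

theorem u97 {s a b t k : ℝ} (R : Reg s a b t k) (hE : t + k ≤ b / 2) (hT : h0 + t ≤ 1)
    (s1 : 8011 / 10000 ≤ s) (s2 : s ≤ 8661 / 10000)
    (b1 : 13 / 80 ≤ b) (b2 : b ≤ 11 / 40) (t1 : 0 ≤ t) (t2 : t ≤ 6699 / 200000) :
    0 ≤ Uaa s a b t k ∨ 0 ≤ Ubb s a b t k := by
  have e1 := R.lo1 (633 / 1000) (by norm_num)
  have e2 := up (t1 := 467 / 1000) (t2 := (578 / 1000)) (x := s - t) (by norm_num)
    (by linear_combination (1218089 / 1000000) * s1 + (1218089 / 1000000) * t2) (by linear_combination (333521 / 250000) * s2 + (333521 / 250000) * t1)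
  have e3 := R.lo2 (537 / 1000) (by norm_num)
  have e4 := up (t1 := 577 / 1000) (t2 := (627 / 1000)) (x := h0 + t) (by norm_num)
    (by linear_combination (1332929 / 1000000) * R.h1 + (1332929 / 1000000) * t1) (by linear_combination (1393129 / 1000000) * R.h2 + (1393129 / 1000000) * t2)
  have e5 := R.lo3 (323 / 1000) (by norm_num)
  have e6 := up (t1 := 417 / 1000) (t2 := (458 / 1000)) (x := s - a) (by norm_num)
    (by linear_combination (8217223 / 10000000) * s1 + (1173889 / 1000000) * R.ha) (by linear_combination (2117087 / 2500000) * s2 - (302441 / 250000) * R.ha)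
  have e7 := R.lo5 (396 / 1000) (by norm_num)
  have e8 := up (t1 := 81 / 1000) (t2 := (141 / 1000)) (x := b) (by norm_num)
    (by linear_combination (1006561 / 1000000) * b1) (by linear_combination (1019881 / 1000000) * b2)
  right
  unfold Ubb
  linear_combination (134863452479769685025000 / 27964980239654242457001) * e8 + (62500 / 52699) * e7 + (500000 / 404507) * e6 + (1000000 / 895671) * e5 + (1000000 / 638221) * e4 + (2000000 / 711631) * e3 + (2000000 / 365037) * e2 + (1000000 / 599311) * e1 - (130544540500 / 362305189197) * R.ha + (106729980776717500 / 28288058151806019) * R.k2 + (1204000 / 638221) * R.h2 + R.h3 + (13089193961916113886183290152450 / 141547312490396320975704744713031) * s1 + (29849089460870283340600301 / 1398249011982712122850050000) * b1 + (144952640707624542053333500 / 2196796652411355372418322121) * t1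

theorem u98 {s a b t k : ℝ} (R : Reg s a b t k) (hE : t + k ≤ b / 2) (hT : h0 + t ≤ 1)
    (s1 : 8011 / 10000 ≤ s) (s2 : s ≤ 8661 / 10000)
    (b1 : 13 / 80 ≤ b) (b2 : b ≤ 11 / 40) (t1 : 6699 / 200000 ≤ t) (t2 : t ≤ 6699 / 100000) :
    0 ≤ Uaa s a b t k ∨ 0 ≤ Ubb s a b t k := by
  have e1 := R.lo1 (583 / 1000) (by norm_num)
  have e2 := up (t1 := 437 / 1000) (t2 := (536 / 1000)) (x := s - t) (by norm_num)
    (by linear_combination (1190969 / 1000000) * s1 + (1190969 / 1000000) * t2) (by linear_combination (20114 / 15625) * s2 + (20114 / 15625) * t1)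
  have e3 := R.lo2 (537 / 1000) (by norm_num)
  have e4 := up (t1 := 626 / 1000) (t2 := (687 / 1000)) (x := h0 + t) (by norm_num)
    (by linear_combination (347969 / 250000) * R.h1 + (347969 / 250000) * t1) (by linear_combination (1471969 / 1000000) * R.h2 + (1471969 / 1000000) * t2)
  have e5 := R.lo4 (41 / 1000) (by norm_num)
  have e6 := R.lo3 (301 / 1000) (by norm_num)
  have e7 := up (t1 := 81 / 1000) (t2 := (141 / 1000)) (x := b) (by norm_num)
    (by linear_combination (1006561 / 1000000) * b1) (by linear_combination (1019881 / 1000000) * b2)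
  left
  unfold Uaa
  linear_combination (235182456504804449720000 / 65827846847976822978621) * e7 + (1000000 / 909399) * e6 + (1000000 / 998319) * e5 + (500000 / 284969) * e4 + (2000000 / 711631) * e3 + (500000 / 95721) * e2 + (1000000 / 660111) * e1 + (75062084000 / 100874477809) * R.ha + (156230070405574000 / 66588352420976799) * R.k2 + (656500 / 284969) * R.h2 + R.h3 + (213261514980892436184844100 / 1511955817062731125311635283) * s1 + (730852506691405799185089307 / 1097130780799613716310350000) * b1 + (261867003909636364175164000 / 605454986127008837514008517) * t1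

theorem u102 {s a b t k : ℝ} (R : Reg s a b t k) (hE : t + k ≤ b / 2) (hT : h0 + t ≤ 1)
    (s1 : 7361 / 10000 ≤ s) (s2 : s ≤ 8661 / 10000)
    (b1 : 1 / 20 ≤ b) (b2 : b ≤ 1063 / 10000) (t1 : 6699 / 100000 ≤ t) (t2 : t ≤ 20097 / 200000) :
    0 ≤ Uaa s a b t k ∨ 0 ≤ Ubb s a b t k := by
  have e1 := R.lo8 (39 / 1000) (by norm_num)
  exfalso
  exact absurd b2 (not_le.mpr (by linear_combination (43301000 / 21584497) * e1 + (49923950 / 21584497) * R.k1 + (49923950 / 21584497) * t1 + (49923950 / 21584497) * hE))

theorem u105 {s a b t k : ℝ} (R : Reg s a b t k) (hE : t + k ≤ b / 2) (hT : h0 + t ≤ 1)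
    (s1 : 7361 / 10000 ≤ s) (s2 : s ≤ 8661 / 10000)
    (b1 : 1063 / 10000 ≤ b) (b2 : b ≤ 84 / 625) (t1 : 6699 / 100000 ≤ t) (t2 : t ≤ 83737 / 1000000) :
    0 ≤ Uaa s a b t k ∨ 0 ≤ Ubb s a b t k := by
  have e1 := R.lo8 (60 / 1000) (by norm_num)
  exfalso
  exact absurd b2 (not_le.mpr (by linear_combination (20425 / 9299) * e1 + (23500 / 9299) * R.k1 + (23500 / 9299) * t1 + (23500 / 9299) * hE))

theorem u106 {s a b t k : ℝ} (R : Reg s a b t k) (hE : t + k ≤ b / 2) (hT : h0 + t ≤ 1)
    (s1 : 7361 / 10000 ≤ s) (s2 : s ≤ 8661 / 10000)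
    (b1 : 84 / 625 ≤ b) (b2 : b ≤ 13 / 80) (t1 : 6699 / 100000 ≤ t) (t2 : t ≤ 83737 / 1000000) :
    0 ≤ Uaa s a b t k ∨ 0 ≤ Ubb s a b t k := by
  have e1 := R.lo1 (490 / 1000) (by norm_num)
  have e2 := up (t1 := 371 / 1000) (t2 := (500 / 1000)) (x := s - t) (by norm_num)
    (by linear_combination (1137641 / 1000000) * s1 + (1137641 / 1000000) * t2) (by linear_combination (5 / 4) * s2 + (5 / 4) * t1)
  have e3 := R.lo2 (501 / 1000) (by norm_num)
  have e4 := up (t1 := 686 / 1000) (t2 := (724 / 1000)) (x := h0 + t) (by norm_num)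
    (by linear_combination (367649 / 250000) * R.h1 + (367649 / 250000) * t1) (by linear_combination (95261 / 62500) * R.h2 + (95261 / 62500) * t2)
  have e5 := R.lo4 (35 / 1000) (by norm_num)
  have e6 := R.lo3 (301 / 1000) (by norm_num)
  have e7 := up (t1 := 67 / 1000) (t2 := (82 / 1000)) (x := b) (by norm_num)
    (by linear_combination (1004489 / 1000000) * b1) (by linear_combination (251681 / 250000) * b2)
  left
  unfold Uaa
  linear_combination (47999426736627209000 / 15253639346250347067) * e7 + (1000000 / 909399) * e6 + (40000 / 39951) * e5 + (125000 / 62917) * e4 + (2000000 / 748999) * e3 + (8000 / 1629) * e2 + (10000 / 7599) * e1 + (8865606400 / 12110466483) * R.ha + (57717557210600 / 30675811601439) * R.k2 + (176250 / 62917) * R.h2 + R.h3 + (541047772046916304688 / 4158683550673583930541) * s1 + (568984141964680696298167 / 762681967312517353350000) * b1 + (8330047263312747422 / 20549143351383558759) * t2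

theorem u107 {s a b t k : ℝ} (R : Reg s a b t k) (hE : t + k ≤ b / 2) (hT : h0 + t ≤ 1)
    (s1 : 7361 / 10000 ≤ s) (s2 : s ≤ 8661 / 10000)
    (b1 : 1063 / 10000 ≤ b) (b2 : b ≤ 13 / 80) (t1 : 83737 / 1000000 ≤ t) (t2 : t ≤ 20097 / 200000) :
    0 ≤ Uaa s a b t k ∨ 0 ≤ Ubb s a b t k := by
  have e1 := R.lo8 (68 / 1000) (by norm_num)
  exfalso
  exact absurd b2 (not_le.mpr (by linear_combination (5412625 / 2374433) * e1 + (6221100 / 2374433) * R.k1 + (6221100 / 2374433) * t1 + (6221100 / 2374433) * hE))

theorem u109 {s a b t k : ℝ} (R : Reg s a b t k) (hE : t + k ≤ b / 2) (hT : h0 + t ≤ 1)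
    (s1 : 7361 / 10000 ≤ s) (s2 : s ≤ 8011 / 10000)
    (b1 : 13 / 80 ≤ b) (b2 : b ≤ 11 / 40) (t1 : 6699 / 100000 ≤ t) (t2 : t ≤ 20097 / 200000) :
    0 ≤ Uaa s a b t k ∨ 0 ≤ Ubb s a b t k := by
  have e1 := R.lo1 (472 / 1000) (by norm_num)
  have e2 := up (t1 := 358 / 1000) (t2 := (438 / 1000)) (x := s - t) (by norm_num)
    (by linear_combination (282041 / 250000) * s1 + (282041 / 250000) * t2) (by linear_combination (297961 / 250000) * s2 + (297961 / 250000) * t1)
  have e3 := R.lo2 (469 / 1000) (by norm_num)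
  have e4 := up (t1 := 686 / 1000) (t2 := (770 / 1000)) (x := h0 + t) (by norm_num)
    (by linear_combination (367649 / 250000) * R.h1 + (367649 / 250000) * t1) (by linear_combination (15929 / 10000) * R.h2 + (15929 / 10000) * t2)
  have e5 := R.lo4 (68 / 1000) (by norm_num)
  have e6 := R.lo3 (251 / 1000) (by norm_num)
  have e7 := up (t1 := 81 / 1000) (t2 := (141 / 1000)) (x := b) (by norm_num)
    (by linear_combination (1006561 / 1000000) * b1) (by linear_combination (1019881 / 1000000) * b2)
  left
  unfold Uaa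
  linear_combination (5179643541172339375 / 1767194141358521484) * e7 + (1000000 / 936999) * e6 + (62500 / 62211) * e5 + (50000 / 23589) * e4 + (2000000 / 780039) * e3 + (1000000 / 210799) * e2 + (15625 / 12144) * e1 + (13064804500 / 19430548263) * R.ha + (63463174923875 / 39327429684312) * R.k2 + (72800 / 23589) * R.h2 + R.h3 + (6074152089576175072775 / 34215163704493721866488) * s1 + (151400128454466746047631 / 242989194436796704050000) * b1 + (2230287945689382679025 / 2414285472212336748872) * t2

theorem u110 {s a b t k : ℝ} (R : Reg s a b t k) (hE : t + k ≤ b / 2) (hT : h0 + t ≤ 1)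
    (s1 : 8011 / 10000 ≤ s) (s2 : s ≤ 8661 / 10000)
    (b1 : 13 / 80 ≤ b) (b2 : b ≤ 11 / 40) (t1 : 6699 / 100000 ≤ t) (t2 : t ≤ 20097 / 200000) :
    0 ≤ Uaa s a b t k ∨ 0 ≤ Ubb s a b t k := by
  have e1 := R.lo1 (541 / 1000) (by norm_num)
  have e2 := up (t1 := 408 / 1000) (t2 := (500 / 1000)) (x := s - t) (by norm_num)
    (by linear_combination (18226 / 15625) * s1 + (18226 / 15625) * t2) (by linear_combination (5 / 4) * s2 + (5 / 4) * t1)
  have e3 := R.lo2 (537 / 1000) (by norm_num)
  have e4 := up (t1 := 686 / 1000) (t2 := (770 / 1000)) (x := h0 + t) (by norm_num)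
    (by linear_combination (367649 / 250000) * R.h1 + (367649 / 250000) * t1) (by linear_combination (15929 / 10000) * R.h2 + (15929 / 10000) * t2)
  have e5 := R.lo4 (58 / 1000) (by norm_num)
  have e6 := R.lo3 (279 / 1000) (by norm_num)
  have e7 := up (t1 := 81 / 1000) (t2 := (141 / 1000)) (x := b) (by norm_num)
    (by linear_combination (1006561 / 1000000) * b1) (by linear_combination (1019881 / 1000000) * b2)
  left
  unfold Uaa
  linear_combination (7650106111335182870000 / 2328412931271580861449) * e7 + (1000000 / 922159) * e6 + (250000 / 249159) * e5 + (50000 / 23589) * e4 + (2000000 / 711631) * e3 + (1000 / 199) * e2 + (1000000 / 707319) * e1 + (165773333000 / 229764214281) * R.ha + (4754034699079000 / 2355312960594531) * R.k2 + (72800 / 23589) * R.h2 + R.h3 + (17819866765670106211216 / 47649518539244070188877) * s1 + (195662268130635768796939 / 297751014229102411950000) * b1 + (665591821931750383892 / 1228481778673934884449) * t2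

theorem u113 {s a b t k : ℝ} (R : Reg s a b t k) (hE : t + k ≤ b / 2) (hT : h0 + t ≤ 1)
    (s1 : 7361 / 10000 ≤ s) (s2 : s ≤ 8661 / 10000)
    (b1 : 1 / 20 ≤ b) (b2 : b ≤ 13 / 80) (t1 : 20097 / 200000 ≤ t) (t2 : t ≤ 7327 / 62500) :
    0 ≤ Uaa s a b t k ∨ 0 ≤ Ubb s a b t k := by
  have e1 := R.lo8 (53 / 1000) (by norm_num)
  exfalso
  exact absurd b2 (not_le.mpr (by linear_combination (43301000 / 20339869) * e1 + (49859550 / 20339869) * R.k1 + (49859550 / 20339869) * t1 + (49859550 / 20339869) * hE))

theorem u115 {s a b t k : ℝ} (R : Reg s a b t k) (hE : t + k ≤ b / 2) (hT : h0 + t ≤ 1)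
    (s1 : 7361 / 10000 ≤ s) (s2 : s ≤ 8661 / 10000)
    (b1 : 13 / 80 ≤ b) (b2 : b ≤ 547 / 2500) (t1 : 20097 / 200000 ≤ t) (t2 : t ≤ 7327 / 62500) :
    0 ≤ Uaa s a b t k ∨ 0 ≤ Ubb s a b t k := by
  have e1 := R.lo8 (96 / 1000) (by norm_num)
  exfalso
  exact absurd b2 (not_le.mpr (by linear_combination (5412625 / 2056976) * e1 + (387025 / 128561) * R.k1 + (387025 / 128561) * t1 + (387025 / 128561) * hE))

theorem u117 {s a b t k : ℝ} (R : Reg s a b t k) (hE : t + k ≤ b / 2) (hT : h0 + t ≤ 1)
    (s1 : 7361 / 10000 ≤ s) (s2 : s ≤ 8661 / 10000)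
    (b1 : 547 / 2500 ≤ b) (b2 : b ≤ 11 / 40) (t1 : 20097 / 200000 ≤ t) (t2 : t ≤ 108859 / 1000000) :
    0 ≤ Uaa s a b t k ∨ 0 ≤ Ubb s a b t k := by
  have e1 := R.lo1 (492 / 1000) (by norm_num)
  have e2 := up (t1 := 352 / 1000) (t2 := (466 / 1000)) (x := s - t) (by norm_num)
    (by linear_combination (17561 / 15625) * s1 + (17561 / 15625) * t2) (by linear_combination (304289 / 250000) * s2 + (304289 / 250000) * t1)
  have e3 := R.lo2 (501 / 1000) (by norm_num)
  have e4 := up (t1 := 769 / 1000) (t2 := (798 / 1000)) (x := h0 + t) (by norm_num)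
    (by linear_combination (1591361 / 1000000) * R.h1 + (1591361 / 1000000) * t1) (by linear_combination (409201 / 250000) * R.h2 + (409201 / 250000) * t2)
  have e5 := R.lo4 (83 / 1000) (by norm_num)
  have e6 := R.lo3 (241 / 1000) (by norm_num)
  have e7 := up (t1 := 110 / 1000) (t2 := (141 / 1000)) (x := b) (by norm_num)
    (by linear_combination (10121 / 10000) * b1) (by linear_combination (1019881 / 1000000) * b2)
  left
  unfold Uaa
  linear_combination (392464580139740046500 / 132196900178825822067) * e7 + (1000000 / 941919) * e6 + (1000000 / 993111) * e5 + (500000 / 193169) * e4 + (2000000 / 748999) * e3 + (31250 / 6531) * e2 + (62500 / 47371) * e1 + (70559784000 / 103936680001) * R.ha + (24265872669420500 / 14770753404982113) * R.k2 + (783500 / 193169) * R.h2 + R.h3 + (133233150287377321739675 / 362176835126191523228406) * s1 + (14485931284625438209243279 / 24236098366118067378950000) * b1 + (1055865756947756229841125 / 591574178436969215650778) * t2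

theorem u118 {s a b t k : ℝ} (R : Reg s a b t k) (hE : t + k ≤ b / 2) (hT : h0 + t ≤ 1)
    (s1 : 7361 / 10000 ≤ s) (s2 : s ≤ 8661 / 10000)
    (b1 : 547 / 2500 ≤ b) (b2 : b ≤ 11 / 40) (t1 : 108859 / 1000000 ≤ t) (t2 : t ≤ 7327 / 62500) :
    0 ≤ Uaa s a b t k ∨ 0 ≤ Ubb s a b t k := by
  have e1 := R.lo8 (125 / 1000) (by norm_num)
  exfalso
  exact absurd b2 (not_le.mpr (by linear_combination (346408 / 110273) * e1 + (393750 / 110273) * R.k1 + (393750 / 110273) * t1 + (393750 / 110273) * hE))

theorem u119 {s a b t k : ℝ} (R : Reg s a b t k) (hE : t + k ≤ b / 2) (hT : h0 + t ≤ 1)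
    (s1 : 7361 / 10000 ≤ s) (s2 : s ≤ 8661 / 10000)
    (b1 : 1 / 20 ≤ b) (b2 : b ≤ 11 / 40) (t1 : 7327 / 62500 ≤ t) (t2 : t ≤ 6699 / 50000) :
    0 ≤ Uaa s a b t k ∨ 0 ≤ Ubb s a b t k := by
  have e1 := R.lo8 (82 / 1000) (by norm_num)
  exfalso
  exact absurd b2 (not_le.mpr (by linear_combination (5412625 / 2216317) * e1 + (6207975 / 2216317) * R.k1 + (6207975 / 2216317) * t1 + (6207975 / 2216317) * hE))

theorem u121 {s a b t k : ℝ} (R : Reg s a b t k) (hE : t + k ≤ b / 2) (hT : h0 + t ≤ 1)
    (s1 : 7361 / 10000 ≤ s) (s2 : s ≤ 8661 / 10000)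
    (b1 : 11 / 40 ≤ b) (b2 : b ≤ 1 / 2) (t1 : 0 ≤ t) (t2 : t ≤ 6699 / 100000) :
    0 ≤ Uaa s a b t k ∨ 0 ≤ Ubb s a b t k := by
  have e1 := R.lo1 (606 / 1000) (by norm_num)
  have e2 := up (t1 := 383 / 1000) (t2 := (578 / 1000)) (x := s - t) (by norm_num)
    (by linear_combination (1146689 / 1000000) * s1 + (1146689 / 1000000) * t2) (by linear_combination (333521 / 250000) * s2 + (333521 / 250000) * t1)
  have e3 := R.lo2 (501 / 1000) (by norm_num)
  have e4 := up (t1 := 577 / 1000) (t2 := (687 / 1000)) (x := h0 + t) (by norm_num)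
    (by linear_combination (1332929 / 1000000) * R.h1 + (1332929 / 1000000) * t1) (by linear_combination (1471969 / 1000000) * R.h2 + (1471969 / 1000000) * t2)
  have e5 := R.lo4 (107 / 1000) (by norm_num)
  have e6 := R.lo3 (214 / 1000) (by norm_num)
  have e7 := up (t1 := 140 / 1000) (t2 := (268 / 1000)) (x := b) (by norm_num)
    (by linear_combination (2549 / 2500) * b1) (by linear_combination (66989 / 62500) * b2)
  left
  unfold Uaa
  linear_combination (47475335981385125750 / 13600343569319341137) * e7 + (250000 / 238551) * e6 + (1000000 / 988551) * e5 + (1000000 / 603601) * e4 + (2000000 / 748999) * e3 + (2000000 / 389313) * e2 + (250000 / 158191) * e1 + (52274957000 / 78606609867) * R.ha + (26703472548772000 / 12434858221470597) * R.k2 + (1264000 / 603601) * R.h2 + R.h3 + (684823827613508898727900 / 7068115158032753878135203) * s2 + (2120390163910980728005607 / 7480188963125637625350000) * b1 + (25084081017828260952374000 / 36074861769984934202550981) * t1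

theorem u123 {s a b t k : ℝ} (R : Reg s a b t k) (hE : t + k ≤ b / 2) (hT : h0 + t ≤ 1)
    (s1 : 7361 / 10000 ≤ s) (s2 : s ≤ 8661 / 10000)
    (b1 : 11 / 40 ≤ b) (b2 : b ≤ 1 / 2) (t1 : 6699 / 100000 ≤ t) (t2 : t ≤ 20097 / 200000) :
    0 ≤ Uaa s a b t k ∨ 0 ≤ Ubb s a b t k := by
  have e1 := R.lo1 (540 / 1000) (by norm_num)
  have e2 := up (t1 := 358 / 1000) (t2 := (500 / 1000)) (x := s - t) (by norm_num)
    (by linear_combination (282041 / 250000) * s1 + (282041 / 250000) * t2) (by linear_combination (5 / 4) * s2 + (5 / 4) * t1)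
  have e3 := R.lo2 (501 / 1000) (by norm_num)
  have e4 := up (t1 := 686 / 1000) (t2 := (770 / 1000)) (x := h0 + t) (by norm_num)
    (by linear_combination (367649 / 250000) * R.h1 + (367649 / 250000) * t1) (by linear_combination (15929 / 10000) * R.h2 + (15929 / 10000) * t2)
  have e5 := R.lo4 (133 / 1000) (by norm_num)
  have e6 := R.lo3 (185 / 1000) (by norm_num)
  have e7 := up (t1 := 140 / 1000) (t2 := (268 / 1000)) (x := b) (by norm_num)
    (by linear_combination (2549 / 2500) * b1) (by linear_combination (66989 / 62500) * b2)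
  left
  unfold Uaa
  linear_combination (53361693027559789 / 13848364684215600) * e7 + (40000 / 38631) * e6 + (1000000 / 982311) * e5 + (50000 / 23589) * e4 + (2000000 / 748999) * e3 + (4000 / 821) * e2 + (2500 / 1771) * e1 + (8271349600 / 12649218747) * R.ha + (136946227518599596459 / 1731045585526950) * R.k1 + (136949061040111171459 / 1731045585526950) * R.k2 + (72800 / 23589) * R.h2 + R.h3 + (3278323122151452356 / 15852102899092719567) * s1 + (7136107562045920828 / 13146828931079638641) * t2

end Pool.Agent.Strip051.FourB
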