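import Pool.Agent.Strip051.FourB.Box

/-! # The exit is above the top of the body, boxes 3 -/

namespace Pool.Agent.Strip051.FourB

open Pool.Agent.StripNear Pool.Agent.StripSquare Pool.Agent.Strip051
open Pool.Agent.Strip051.Four.Low (ph)

theorem u125 {s a b t k : ℝ} (R : Reg s a b t k) (hE : t + k ≤ b / 2) (hT : h0 + t ≤ 1)
    (s1 : 7361 / 10000 ≤ s) (s2 : s ≤ 8661 / 10000)
    (b1 : 11 / 40 ≤ b) (b2 : b ≤ 1 / 2) (t1 : 20097 / 200000 ≤ t) (t2 : t ≤ 7327 / 62500) :
    0 ≤ Uaa s a b t k ∨ 0 ≤ Ubb s a b t k := by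
  have e1 := R.lo1 (512 / 1000) (by norm_num)
  have e2 := up (t1 := 346 / 1000) (t2 := (466 / 1000)) (x := s - t) (by norm_num)
    (by linear_combination (279929 / 250000) * s1 + (279929 / 250000) * t2) (by linear_combination (304289 / 250000) * s2 + (304289 / 250000) * t1)
  have e3 := R.lo2 (501 / 1000) (by norm_num)
  have e4 := up (t1 := 769 / 1000) (t2 := (832 / 1000)) (x := h0 + t) (by norm_num)
    (by linear_combination (1591361 / 1000000) * R.h1 + (1591361 / 1000000) * t1) (by linear_combination (26441 / 15625) * R.h2 + (26441 / 15625) * t2)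
  have e5 := R.lo4 (147 / 1000) (by norm_num)
  have e6 := R.lo3 (172 / 1000) (by norm_num)
  have e7 := up (t1 := 140 / 1000) (t2 := (268 / 1000)) (x := b) (by norm_num)
    (by linear_combination (2549 / 2500) * b1) (by linear_combination (66989 / 62500) * b2)
  left
  unfold Uaa
  linear_combination (5223451041870909875 / 1829073960936895302) * e7 + (62500 / 60651) * e6 + (1000000 / 978391) * e5 + (15625 / 5628) * e4 + (2000000 / 748999) * e3 + (1000000 / 209691) * e2 + (15625 / 11529) * e1 + (38866800500 / 59340392541) * R.ha + (109598371196500 / 76015042845021) * R.k2 + (200125 / 45024) * R.h2 + R.h3 + (20128932107509904309450 / 57675348559864296470727) * s1 + (16816649526288883510951 / 45726849023422382550000) * b1 + (332548352286502815625 / 165094943133901449312) * t2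

theorem u129 {s a b t k : ℝ} (R : Reg s a b t k) (hE : t + k ≤ b / 2) (hT : h0 + t ≤ 1)
    (s1 : 7361 / 10000 ≤ s) (s2 : s ≤ 8661 / 10000)
    (b1 : 11 / 40 ≤ b) (b2 : b ≤ 3313 / 10000) (t1 : 7327 / 62500 ≤ t) (t2 : t ≤ 62803 / 500000) :
    0 ≤ Uaa s a b t k ∨ 0 ≤ Ubb s a b t k := by
  have e1 := R.lo8 (155 / 1000) (by norm_num)
  exfalso
  exact absurd b2 (not_le.mpr (by linear_combination (8660200 / 2195213) * e1 + (9759750 / 2195213) * R.k1 + (9759750 / 2195213) * t1 + (9759750 / 2195213) * hE))

theorem u130 {s a b t k : ℝ} (R : Reg s a b t k) (hE : t + k ≤ b / 2) (hT : h0 + t ≤ 1)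
    (s1 : 7361 / 10000 ≤ s) (s2 : s ≤ 8661 / 10000)
    (b1 : 3313 / 10000 ≤ b) (b2 : b ≤ 31 / 80) (t1 : 7327 / 62500 ≤ t) (t2 : t ≤ 62803 / 500000) :
    0 ≤ Uaa s a b t k ∨ 0 ≤ Ubb s a b t k := by
  have e1 := R.lo1 (501 / 1000) (by norm_num)
  have e2 := up (t1 := 340 / 1000) (t2 := (451 / 1000)) (x := s - t) (by norm_num)
    (by linear_combination (2789 / 2500) * s1 + (2789 / 2500) * t2) (by linear_combination (1203401 / 1000000) * s2 + (1203401 / 1000000) * t1)
  have e3 := R.lo2 (501 / 1000) (by norm_num)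
  have e4 := up (t1 := 831 / 1000) (t2 := (879 / 1000)) (x := h0 + t) (by norm_num)
    (by linear_combination (1690561 / 1000000) * R.h1 + (1690561 / 1000000) * t1) (by linear_combination (1772641 / 1000000) * R.h2 + (1772641 / 1000000) * t2)
  have e5 := R.lo4 (137 / 1000) (by norm_num)
  have e6 := R.lo3 (181 / 1000) (by norm_num)
  have e7 := up (t1 := 170 / 1000) (t2 := (202 / 1000)) (x := b) (by norm_num)
    (by linear_combination (10289 / 10000) * b1) (by linear_combination (260201 / 250000) * b2)
  left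
  unfold Uaa
  linear_combination (32472874330845951616000 / 11440876287071687952951) * e7 + (1000000 / 967239) * e6 + (1000000 / 981231) * e5 + (1000000 / 269551) * e4 + (2000000 / 748999) * e3 + (200000 / 42333) * e2 + (1000000 / 748999) * e1 + (206743036000 / 316361630403) * R.ha + (339509796891094000 / 236954544810216597) * R.k2 + (1710000 / 269551) * R.h2 + R.h3 + (217113611499658943000 / 477666511688138057181) * s1 + (246864052367916424843131251 / 572043814353584397647550000) * b1 + (35348454692171218309297400 / 8750372827615001069498739) * t2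

theorem u131 {s a b t k : ℝ} (R : Reg s a b t k) (hE : t + k ≤ b / 2) (hT : h0 + t ≤ 1)
    (s1 : 7361 / 10000 ≤ s) (s2 : s ≤ 8661 / 10000)
    (b1 : 31 / 80 ≤ b) (b2 : b ≤ 1 / 2) (t1 : 7327 / 62500 ≤ t) (t2 : t ≤ 62803 / 500000) :
    0 ≤ Uaa s a b t k ∨ 0 ≤ Ubb s a b t k := by
  have e1 := R.lo1 (510 / 1000) (by norm_num)
  have e2 := up (t1 := 340 / 1000) (t2 := (451 / 1000)) (x := s - t) (by norm_num)
    (by linear_combination (2789 / 2500) * s1 + (2789 / 2500) * t2) (by linear_combination (1203401 / 1000000) * s2 + (1203401 / 1000000) * t1)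
  have e3 := R.lo2 (501 / 1000) (by norm_num)
  have e4 := up (t1 := 831 / 1000) (t2 := (879 / 1000)) (x := h0 + t) (by norm_num)
    (by linear_combination (1690561 / 1000000) * R.h1 + (1690561 / 1000000) * t1) (by linear_combination (1772641 / 1000000) * R.h2 + (1772641 / 1000000) * t2)
  have e5 := R.lo4 (178 / 1000) (by norm_num)
  have e6 := R.lo3 (141 / 1000) (by norm_num)
  have e7 := up (t1 := 201 / 1000) (t2 := (268 / 1000)) (x := b) (by norm_num)
    (by linear_combination (1040401 / 1000000) * b1) (by linear_combination (66989 / 62500) * b2)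
  left
  unfold Uaa
  linear_combination (164559756368264207000 / 59320206242093654781) * e7 + (1000000 / 980119) * e6 + (250000 / 242079) * e5 + (1000000 / 269551) * e4 + (2000000 / 748999) * e3 + (200000 / 42333) * e2 + (10000 / 7399) * e1 + (155496869000 / 237266227401) * R.ha + (325685509657600 / 250790402362857) * R.k2 + (1710000 / 269551) * R.h2 + R.h3 + (415678142285479270700 / 1018300070509257137091) * s1 + (872650727054041861522081 / 2966010312104682739050000) * b1 + (88004572591299016600 / 22533601249103489069) * t2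

theorem u135 {s a b t k : ℝ} (R : Reg s a b t k) (hE : t + k ≤ b / 2) (hT : h0 + t ≤ 1)
    (s1 : 7361 / 10000 ≤ s) (s2 : s ≤ 8661 / 10000)
    (b1 : 11 / 40 ≤ b) (b2 : b ≤ 3313 / 10000) (t1 : 62803 / 500000 ≤ t) (t2 : t ≤ 129793 / 1000000) :
    0 ≤ Uaa s a b t k ∨ 0 ≤ Ubb s a b t k := by
  have e1 := R.lo8 (155 / 1000) (by norm_num)
  exfalso
  exact absurd b2 (not_le.mpr (by linear_combination (8660200 / 2195213) * e1 + (9759750 / 2195213) * R.k1 + (9759750 / 2195213) * t1 + (9759750 / 2195213) * hE))

theorem u137 {s a b t k : ℝ} (R : Reg s a b t k) (hE : t + k ≤ b / 2) (hT : h0 + t ≤ 1)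
    (s1 : 7361 / 10000 ≤ s) (s2 : s ≤ 8661 / 10000)
    (b1 : 3313 / 10000 ≤ b) (b2 : b ≤ 31 / 80) (t1 : 62803 / 500000 ≤ t) (t2 : t ≤ 1277 / 10000) :
    0 ≤ Uaa s a b t k ∨ 0 ≤ Ubb s a b t k := by
  have e1 := R.lo1 (496 / 1000) (by norm_num)
  have e2 := up (t1 := 339 / 1000) (t2 := (443 / 1000)) (x := s - t) (by norm_num)
    (by linear_combination (1114921 / 1000000) * s1 + (1114921 / 1000000) * t2) (by linear_combination (1196249 / 1000000) * s2 + (1196249 / 1000000) * t1)
  have e3 := R.lo2 (501 / 1000) (by norm_num)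
  have e4 := up (t1 := 878 / 1000) (t2 := (894 / 1000)) (x := h0 + t) (by norm_num)
    (by linear_combination (442721 / 250000) * R.h1 + (442721 / 250000) * t1) (by linear_combination (449809 / 250000) * R.h2 + (449809 / 250000) * t2)
  have e5 := R.lo4 (140 / 1000) (by norm_num)
  have e6 := R.lo3 (179 / 1000) (by norm_num)
  have e7 := up (t1 := 170 / 1000) (t2 := (202 / 1000)) (x := b) (by norm_num)
    (by linear_combination (10289 / 10000) * b1) (by linear_combination (260201 / 250000) * b2)
  left
  unfold Uaa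
  linear_combination (1418091621327100 / 504867851841059) * e7 + (1000000 / 967959) * e6 + (2500 / 2451) * e5 + (250000 / 53767) * e4 + (2000000 / 748999) * e3 + (4000000 / 849823) * e2 + (15625 / 11781) * e1 + (518343100 / 790822503) * R.ha + (161021035400 / 115020739603) * R.k2 + (443000 / 53767) * R.h2 + R.h3 + (1863832168156619669310 / 3853295130340451044249) * s1 + (1091717811595857940141 / 2499095866613242050000) * b1 + (4473561460629473967200 / 750796780805788906189) * t2

theorem u138 {s a b t k : ℝ} (R : Reg s a b t k) (hE : t + k ≤ b / 2) (hT : h0 + t ≤ 1)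
    (s1 : 7361 / 10000 ≤ s) (s2 : s ≤ 8661 / 10000)
    (b1 : 3313 / 10000 ≤ b) (b2 : b ≤ 31 / 80) (t1 : 1277 / 10000 ≤ t) (t2 : t ≤ 129793 / 1000000) :
    0 ≤ Uaa s a b t k ∨ 0 ≤ Ubb s a b t k := by
  have e1 := R.lo8 (186 / 1000) (by norm_num)
  exfalso
  exact absurd b2 (not_le.mpr (by linear_combination (5412625 / 1003391) * e1 + (6033775 / 1003391) * R.k1 + (6033775 / 1003391) * t1 + (6033775 / 1003391) * hE))

theorem u139 {s a b t k : ℝ} (R : Reg s a b t k) (hE : t + k ≤ b / 2) (hT : h0 + t ≤ 1)
    (s1 : 7361 / 10000 ≤ s) (s2 : s ≤ 8661 / 10000)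
    (b1 : 31 / 80 ≤ b) (b2 : b ≤ 1 / 2) (t1 : 62803 / 500000 ≤ t) (t2 : t ≤ 129793 / 1000000) :
    0 ≤ Uaa s a b t k ∨ 0 ≤ Ubb s a b t k := by
  have e1 := R.lo1 (504 / 1000) (by norm_num)
  have e2 := up (t1 := 337 / 1000) (t2 := (443 / 1000)) (x := s - t) (by norm_num)
    (by linear_combination (1113569 / 1000000) * s1 + (1113569 / 1000000) * t2) (by linear_combination (1196249 / 1000000) * s2 + (1196249 / 1000000) * t1)
  have e3 := R.lo2 (501 / 1000) (by norm_num)
  have e4 := up (t1 := 878 / 1000) (t2 := (913 / 1000)) (x := h0 + t) (by norm_num)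
    (by linear_combination (442721 / 250000) * R.h1 + (442721 / 250000) * t1) (by linear_combination (1833569 / 1000000) * R.h2 + (1833569 / 1000000) * t2)
  have e5 := R.lo4 (181 / 1000) (by norm_num)
  have e6 := R.lo3 (137 / 1000) (by norm_num)
  have e7 := up (t1 := 201 / 1000) (t2 := (268 / 1000)) (x := b) (by norm_num)
    (by linear_combination (1040401 / 1000000) * b1) (by linear_combination (66989 / 62500) * b2)
  left
  unfold Uaa
  linear_combination (2385746115083002939375 / 872218078149058785144) * e7 + (1000000 / 981231) * e6 + (1000000 / 967239) * e5 + (500000 / 99193) * e4 + (2000000 / 748999) * e3 + (4000000 / 850709) * e2 + (15625 / 11656) * e1 + (206743036000 / 316361630403) * R.ha + (2316154009887625 / 1843755581988684) * R.k2 + (895500 / 99193) * R.h2 + R.h3 + (173271030815951393241688825 / 391601510860547707776222348) * s1 + (513785524324512482054869 / 1677342457978959202200000) * b1 + (1029429028128044150097225125 / 155584167669610942514396508) * t2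

theorem u141 {s a b t k : ℝ} (R : Reg s a b t k) (hE : t + k ≤ b / 2) (hT : h0 + t ≤ 1)
    (s1 : 7361 / 10000 ≤ s) (s2 : s ≤ 8661 / 10000)
    (b1 : 11 / 40 ≤ b) (b2 : b ≤ 31 / 80) (t1 : 129793 / 1000000 ≤ t) (t2 : t ≤ 6699 / 50000) :
    0 ≤ Uaa s a b t k ∨ 0 ≤ Ubb s a b t k := by
  have e1 := R.lo8 (170 / 1000) (by norm_num)
  exfalso
  exact absurd b2 (not_le.mpr (by linear_combination (1082525 / 238879) * e1 + (1213875 / 238879) * R.k1 + (1213875 / 238879) * t1 + (1213875 / 238879) * hE))

theorem u144 {s a b t k : ℝ} (R : Reg s a b t k) (hE : t + k ≤ b / 2) (hT : h0 + t ≤ 1)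
    (s1 : 7361 / 10000 ≤ s) (s2 : s ≤ 8011 / 10000)
    (b1 : 31 / 80 ≤ b) (b2 : b ≤ 1 / 2) (t1 : 129793 / 1000000 ≤ t) (t2 : t ≤ 131887 / 1000000) :
    0 ≤ Uaa s a b t k ∨ 0 ≤ Ubb s a b t k := by
  have e1 := R.lo1 (468 / 1000) (by norm_num)
  have e2 := up (t1 := 336 / 1000) (t2 := (386 / 1000)) (x := s - t) (by norm_num)
    (by linear_combination (17389 / 15625) * s1 + (17389 / 15625) * t2) (by linear_combination (287249 / 250000) * s2 + (287249 / 250000) * t1)
  have e3 := R.lo2 (469 / 1000) (by norm_num)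
  have e4 := up (t1 := 912 / 1000) (t2 := (938 / 1000)) (x := h0 + t) (by norm_num)
    (by linear_combination (28621 / 15625) * R.h1 + (28621 / 15625) * t1) (by linear_combination (469961 / 250000) * R.h2 + (469961 / 250000) * t2)
  have e5 := R.lo4 (188 / 1000) (by norm_num)
  have e6 := R.lo3 (124 / 1000) (by norm_num)
  have e7 := up (t1 := 201 / 1000) (t2 := (268 / 1000)) (x := b) (by norm_num)
    (by linear_combination (1040401 / 1000000) * b1) (by linear_combination (66989 / 62500) * b2)
  left
  unfold Uaa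
  linear_combination (474019614985266250 / 185438705690969577) * e7 + (62500 / 61539) * e6 + (62500 / 60291) * e5 + (31250 / 4517) * e4 + (2000000 / 780039) * e3 + (125000 / 27197) * e2 + (62500 / 48811) * e1 + (793559000 / 1236749283) * R.ha + (9146431340500 / 8623852750359) * R.k2 + (115625 / 9034) * R.h2 + R.h3 + (778126143027551723450 / 2258674411236882876237) * s1 + (3109446168653867591177 / 9271935284548478850000) * b1 + (22335095937588604049375 / 2118860768654174973582) * t2

theorem u147 {s a b t k : ℝ} (R : Reg s a b t k) (hE : t + k ≤ b / 2) (hT : h0 + t ≤ 1)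
    (s1 : 7361 / 10000 ≤ s) (s2 : s ≤ 8011 / 10000)
    (b1 : 31 / 80 ≤ b) (b2 : b ≤ 2219 / 5000) (t1 : 131887 / 1000000 ≤ t) (t2 : t ≤ 132933 / 1000000) :
    0 ≤ Uaa s a b t k ∨ 0 ≤ Ubb s a b t k := by
  have e1 := R.lo1 (466 / 1000) (by norm_num)
  have e2 := up (t1 := 335 / 1000) (t2 := (384 / 1000)) (x := s - t) (by norm_num)
    (by linear_combination (44489 / 40000) * s1 + (44489 / 40000) * t2) (by linear_combination (17929 / 15625) * s2 + (17929 / 15625) * t1)
  have e3 := R.lo2 (469 / 1000) (by norm_num)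
  have e4 := up (t1 := 937 / 1000) (t2 := (956 / 1000)) (x := h0 + t) (by norm_num)
    (by linear_combination (1877969 / 1000000) * R.h1 + (1877969 / 1000000) * t1) (by linear_combination (119621 / 62500) * R.h2 + (119621 / 62500) * t2)
  have e5 := R.lo4 (174 / 1000) (by norm_num)
  have e6 := R.lo3 (137 / 1000) (by norm_num)
  have e7 := up (t1 := 201 / 1000) (t2 := (235 / 1000)) (x := b) (by norm_num)
    (by linear_combination (1040401 / 1000000) * b1) (by linear_combination (42209 / 40000) * b2)
  left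
  unfold Uaa
  linear_combination (2547206090911105420000 / 985707203607550677407) * e7 + (1000000 / 981231) * e6 + (250000 / 242431) * e5 + (250000 / 26057) * e4 + (2000000 / 780039) * e3 + (12500 / 2723) * e2 + (250000 / 195711) * e1 + (151793191000 / 237880812561) * R.ha + (5746585187620000 / 5172876856347319) * R.k2 + (473250 / 26057) * R.h2 + R.h3 + (2909411696796267541475 / 7601127232289061385746) * s1 + (7908443418374694261314503 / 21122297220161800230150000) * b1 + (239281423194632353837675 / 14980907063895020991482) * t2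

theorem u148 {s a b t k : ℝ} (R : Reg s a b t k) (hE : t + k ≤ b / 2) (hT : h0 + t ≤ 1)
    (s1 : 7361 / 10000 ≤ s) (s2 : s ≤ 8011 / 10000)
    (b1 : 2219 / 5000 ≤ b) (b2 : b ≤ 1 / 2) (t1 : 131887 / 1000000 ≤ t) (t2 : t ≤ 132933 / 1000000) :
    0 ≤ Uaa s a b t k ∨ 0 ≤ Ubb s a b t k := by
  have e1 := R.lo1 (469 / 1000) (by norm_num)
  have e2 := up (t1 := 335 / 1000) (t2 := (384 / 1000)) (x := s - t) (by norm_num)
    (by linear_combination (44489 / 40000) * s1 + (44489 / 40000) * t2) (by linear_combination (17929 / 15625) * s2 + (17929 / 15625) * t1)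
  have e3 := R.lo2 (469 / 1000) (by norm_num)
  have e4 := up (t1 := 937 / 1000) (t2 := (956 / 1000)) (x := h0 + t) (by norm_num)
    (by linear_combination (1877969 / 1000000) * R.h1 + (1877969 / 1000000) * t1) (by linear_combination (119621 / 62500) * R.h2 + (119621 / 62500) * t2)
  have e5 := R.lo4 (203 / 1000) (by norm_num)
  have e6 := R.lo3 (110 / 1000) (by norm_num)
  have e7 := up (t1 := 234 / 1000) (t2 := (268 / 1000)) (x := b) (by norm_num)
    (by linear_combination (263689 / 250000) * b1) (by linear_combination (66989 / 62500) * b2)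
  left
  unfold Uaa
  linear_combination (242951106419544655750 / 96182001756324013959) * e7 + (10000 / 9879) * e6 + (1000000 / 958791) * e5 + (250000 / 26057) * e4 + (2000000 / 780039) * e3 + (12500 / 2723) * e2 + (1000000 / 780039) * e1 + (680023800 / 1052432921) * R.ha + (822374243918200 / 820938723263919) * R.k2 + (473250 / 26057) * R.h2 + R.h3 + (500398773278460005 / 1490277428965100958) * s1 + (160101261141554268234851 / 534344454201800077550000) * b1 + (1848014740662808433341475 / 116496476899630906987818) * t2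

theorem u150 {s a b t k : ℝ} (R : Reg s a b t k) (hE : t + k ≤ b / 2) (hT : h0 + t ≤ 1)
    (s1 : 7361 / 10000 ≤ s) (s2 : s ≤ 8011 / 10000)
    (b1 : 31 / 80 ≤ b) (b2 : b ≤ 2219 / 5000) (t1 : 132933 / 1000000 ≤ t) (t2 : t ≤ 6699 / 50000) :
    0 ≤ Uaa s a b t k ∨ 0 ≤ Ubb s a b t k := by
  have e1 := R.lo8 (218 / 1000) (by norm_num)
  exfalso
  exact absurd b2 (not_le.mpr (by linear_combination (5412625 / 616583) * e1 + (5952975 / 616583) * R.k1 + (5952975 / 616583) * t1 + (5952975 / 616583) * hE))

theorem u152 {s a b t k : ℝ} (R : Reg s a b t k) (hE : t + k ≤ b / 2) (hT : h0 + t ≤ 1)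
    (s1 : 7361 / 10000 ≤ s) (s2 : s ≤ 8011 / 10000)
    (b1 : 2219 / 5000 ≤ b) (b2 : b ≤ 1 / 2) (t1 : 132933 / 1000000 ≤ t) (t2 : t ≤ 8341 / 62500) :
    0 ≤ Uaa s a b t k ∨ 0 ≤ Ubb s a b t k := by
  have e1 := R.lo1 (469 / 1000) (by norm_num)
  have e2 := up (t1 := 335 / 1000) (t2 := (384 / 1000)) (x := s - t) (by norm_num)
    (by linear_combination (44489 / 40000) * s1 + (44489 / 40000) * t2) (by linear_combination (17929 / 15625) * s2 + (17929 / 15625) * t1)
  have e3 := R.lo2 (469 / 1000) (by norm_num)
  have e4 := up (t1 := 955 / 1000) (t2 := (969 / 1000)) (x := h0 + t) (by norm_num)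
    (by linear_combination (76481 / 40000) * R.h1 + (76481 / 40000) * t1) (by linear_combination (1938961 / 1000000) * R.h2 + (1938961 / 1000000) * t2)
  have e5 := R.lo4 (204 / 1000) (by norm_num)
  have e6 := R.lo3 (109 / 1000) (by norm_num)
  have e7 := up (t1 := 234 / 1000) (t2 := (268 / 1000)) (x := b) (by norm_num)
    (by linear_combination (263689 / 250000) * b1) (by linear_combination (66989 / 62500) * b2)
  left
  unfold Uaa
  linear_combination (137793288256441635625 / 54637776124146616401) * e7 + (1000000 / 988119) * e6 + (62500 / 59899) * e5 + (200000 / 14921) * e4 + (2000000 / 780039) * e3 + (12500 / 2723) * e2 + (1000000 / 780039) * e1 + (38255016500 / 59187339981) * R.ha + (5116532281014500 / 5129825943493251) * R.k2 + (384800 / 14921) * R.h2 + R.h3 + (1331575524929429225 / 3991004584037749278) * s1 + (75451030070157154099291 / 248353527837030074550000) * b1 + (32525226991766801231575 / 1384878590661098999466) * t2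

theorem u154 {s a b t k : ℝ} (R : Reg s a b t k) (hE : t + k ≤ b / 2) (hT : h0 + t ≤ 1)
    (s1 : 7361 / 10000 ≤ s) (s2 : s ≤ 8011 / 10000)
    (b1 : 2219 / 5000 ≤ b) (b2 : b ≤ 1 / 2) (t1 : 8341 / 62500 ≤ t) (t2 : t ≤ 66859 / 500000) :
    0 ≤ Uaa s a b t k ∨ 0 ≤ Ubb s a b t k := by
  have e1 := R.lo1 (468 / 1000) (by norm_num)
  have e2 := up (t1 := 334 / 1000) (t2 := (383 / 1000)) (x := s - t) (by norm_num)
    (by linear_combination (277889 / 250000) * s1 + (277889 / 250000) * t2) (by linear_combination (1146689 / 1000000) * s2 + (1146689 / 1000000) * t1)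
  have e3 := R.lo2 (469 / 1000) (by norm_num)
  have e4 := up (t1 := 968 / 1000) (t2 := (978 / 1000)) (x := h0 + t) (by norm_num)
    (by linear_combination (30266 / 15625) * R.h1 + (30266 / 15625) * t1) (by linear_combination (489121 / 250000) * R.h2 + (489121 / 250000) * t2)
  have e5 := R.lo4 (204 / 1000) (by norm_num)
  have e6 := R.lo3 (109 / 1000) (by norm_num)
  have e7 := up (t1 := 234 / 1000) (t2 := (268 / 1000)) (x := b) (by norm_num)
    (by linear_combination (263689 / 250000) * b1) (by linear_combination (66989 / 62500) * b2)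
  left
  unfold Uaa
  linear_combination (11069714448365473750 / 4395809589293700963) * e7 + (1000000 / 988119) * e6 + (62500 / 59899) * e5 + (62500 / 3331) * e4 + (2000000 / 780039) * e3 + (2000000 / 436039) * e2 + (62500 / 48811) * e1 + (38255016500 / 59187339981) * R.ha + (409991442473000 / 412713321687513) * R.k2 + (121625 / 3331) * R.h2 + R.h3 + (5326947129098414178216350 / 15597235509310454660357697) * s1 + (6067419178510600388533 / 19980952678607731650000) * b1 + (20511627687611514598931375 / 599443775674829233234317) * t2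

theorem u156 {s a b t k : ℝ} (R : Reg s a b t k) (hE : t + k ≤ b / 2) (hT : h0 + t ≤ 1)
    (s1 : 7361 / 10000 ≤ s) (s2 : s ≤ 8011 / 10000)
    (b1 : 2219 / 5000 ≤ b) (b2 : b ≤ 4719 / 10000) (t1 : 66859 / 500000 ≤ t) (t2 : t ≤ 6699 / 50000) :
    0 ≤ Uaa s a b t k ∨ 0 ≤ Ubb s a b t k := by
  have e1 := R.lo8 (242 / 1000) (by norm_num)
  exfalso
  exact absurd b2 (not_le.mpr (by linear_combination (5412625 / 322277) * e1 + (5883975 / 322277) * R.k1 + (5883975 / 322277) * t1 + (5883975 / 322277) * hE))

theorem u159 {s a b t k : ℝ} (R : Reg s a b t k) (hE : t + k ≤ b / 2) (hT : h0 + t ≤ 1)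
    (s1 : 7361 / 10000 ≤ s) (s2 : s ≤ 3843 / 5000)
    (b1 : 4719 / 10000 ≤ b) (b2 : b ≤ 1 / 2) (t1 : 66859 / 500000 ≤ t) (t2 : t ≤ 133849 / 1000000) :
    0 ≤ Uaa s a b t k ∨ 0 ≤ Ubb s a b t k := by
  have e1 := R.lo1 (453 / 1000) (by norm_num)
  have e2 := up (t1 := 334 / 1000) (t2 := (359 / 1000)) (x := s - t) (by norm_num)
    (by linear_combination (277889 / 250000) * s1 + (277889 / 250000) * t2) (by linear_combination (1128881 / 1000000) * s2 + (1128881 / 1000000) * t1)
  have e3 := R.lo2 (454 / 1000) (by norm_num)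
  have e4 := up (t1 := 977 / 1000) (t2 := (985 / 1000)) (x := h0 + t) (by norm_num)
    (by linear_combination (1954529 / 1000000) * R.h1 + (1954529 / 1000000) * t1) (by linear_combination (78809 / 40000) * R.h2 + (78809 / 40000) * t2)
  have e5 := R.lo4 (215 / 1000) (by norm_num)
  have e6 := R.lo3 (96 / 1000) (by norm_num)
  have e7 := up (t1 := 250 / 1000) (t2 := (268 / 1000)) (x := b) (by norm_num)
    (by linear_combination (17 / 16) * b1) (by linear_combination (66989 / 62500) * b2)
  left
  unfold Uaa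
  linear_combination (1063034902011529534 / 437965116783586893) * e7 + (15625 / 15481) * e6 + (40000 / 38151) * e5 + (200000 / 7531) * e4 + (500000 / 198471) * e3 + (2000000 / 440047) * e2 + (1000000 / 794791) * e1 + (380726200 / 590615631) * R.ha + (414432433107800 / 469415987978121) * R.k2 + (392400 / 7531) * R.h2 + R.h3 + (1267016671201092966667820 / 4555242379849815286858953) * s1 + (6727397640159946123193 / 21898255839179344650000) * b1 + (77529822622065562453657400 / 1555641747478677642214797) * t2

theorem u161 {s a b t k : ℝ} (R : Reg s a b t k) (hE : t + k ≤ b / 2) (hT : h0 + t ≤ 1)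
    (s1 : 7361 / 10000 ≤ s) (s2 : s ≤ 3843 / 5000)
    (b1 : 4719 / 10000 ≤ b) (b2 : b ≤ 1 / 2) (t1 : 133849 / 1000000 ≤ t) (t2 : t ≤ 26783 / 200000) :
    0 ≤ Uaa s a b t k ∨ 0 ≤ Ubb s a b t k := by
  have e1 := R.lo1 (453 / 1000) (by norm_num)
  have e2 := up (t1 := 334 / 1000) (t2 := (359 / 1000)) (x := s - t) (by norm_num)
    (by linear_combination (277889 / 250000) * s1 + (277889 / 250000) * t2) (by linear_combination (1128881 / 1000000) * s2 + (1128881 / 1000000) * t1)
  have e3 := R.lo2 (454 / 1000) (by norm_num)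
  have e4 := up (t1 := 983 / 1000) (t2 := (990 / 1000)) (x := h0 + t) (by norm_num)
    (by linear_combination (1966289 / 1000000) * R.h1 + (1966289 / 1000000) * t1) (by linear_combination (19801 / 10000) * R.h2 + (19801 / 10000) * t2)
  have e5 := R.lo4 (215 / 1000) (by norm_num)
  have e6 := R.lo3 (96 / 1000) (by norm_num)
  have e7 := up (t1 := 250 / 1000) (t2 := (268 / 1000)) (x := b) (by norm_num)
    (by linear_combination (17 / 16) * b1) (by linear_combination (66989 / 62500) * b2)
  left
  unfold Uaa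
  linear_combination (1063034902011529534 / 437965116783586893) * e7 + (15625 / 15481) * e6 + (40000 / 38151) * e5 + (100000 / 2683) * e4 + (500000 / 198471) * e3 + (2000000 / 440047) * e2 + (1000000 / 794791) * e1 + (380726200 / 590615631) * R.ha + (414432433107800 / 469415987978121) * R.k2 + (197300 / 2683) * R.h2 + R.h3 + (1267016671201092966667820 / 4555242379849815286858953) * s1 + (6727397640159946123193 / 21898255839179344650000) * b1 + (39499003595328443629334900 / 554214155953431431956221) * t2

theorem u163 {s a b t k : ℝ} (R : Reg s a b t k) (hE : t + k ≤ b / 2) (hT : h0 + t ≤ 1)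
    (s1 : 7361 / 10000 ≤ s) (s2 : s ≤ 3843 / 5000)
    (b1 : 4719 / 10000 ≤ b) (b2 : b ≤ 243 / 500) (t1 : 26783 / 200000 ≤ t) (t2 : t ≤ 6699 / 50000) :
    0 ≤ Uaa s a b t k ∨ 0 ≤ Ubb s a b t k := by
  have e1 := R.lo8 (255 / 1000) (by norm_num)
  exfalso
  exact absurd b2 (not_le.mpr (by linear_combination (8660200 / 258173) * e1 + (9349750 / 258173) * R.k1 + (9349750 / 258173) * t1 + (9349750 / 258173) * hE))

theorem u165 {s a b t k : ℝ} (R : Reg s a b t k) (hE : t + k ≤ b / 2) (hT : h0 + t ≤ 1)
    (s1 : 7361 / 10000 ≤ s) (s2 : s ≤ 3843 / 5000)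
    (b1 : 243 / 500 ≤ b) (b2 : b ≤ 1 / 2) (t1 : 26783 / 200000 ≤ t) (t2 : t ≤ 33487 / 250000) :
    0 ≤ Uaa s a b t k ∨ 0 ≤ Ubb s a b t k := by
  have e1 := R.lo1 (454 / 1000) (by norm_num)
  have e2 := up (t1 := 334 / 1000) (t2 := (359 / 1000)) (x := s - t) (by norm_num)
    (by linear_combination (277889 / 250000) * s1 + (277889 / 250000) * t2) (by linear_combination (1128881 / 1000000) * s2 + (1128881 / 1000000) * t1)
  have e3 := R.lo2 (454 / 1000) (by norm_num)
  have e4 := up (t1 := 988 / 1000) (t2 := (994 / 1000)) (x := h0 + t) (by norm_num)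
    (by linear_combination (123509 / 62500) * R.h1 + (123509 / 62500) * t1) (by linear_combination (497009 / 250000) * R.h2 + (497009 / 250000) * t2)
  have e5 := R.lo4 (219 / 1000) (by norm_num)
  have e6 := R.lo3 (93 / 1000) (by norm_num)
  have e7 := up (t1 := 259 / 1000) (t2 := (268 / 1000)) (x := b) (by norm_num)
    (by linear_combination (1067081 / 1000000) * b1) (by linear_combination (66989 / 62500) * b2)
  left
  unfold Uaa
  linear_combination (9598224748842591492500 / 3961722189009360302163) * e7 + (1000000 / 991351) * e6 + (1000000 / 952039) * e5 + (125000 / 2241) * e4 + (500000 / 198471) * e3 + (2000000 / 440047) * e2 + (250000 / 198471) * e1 + (611290992000 / 943804814689) * R.ha + (163210351702439000 / 187317885376140519) * R.k2 + (247750 / 2241) * R.h2 + R.h3 + (7552790341034128238600 / 27476224502038168988131) * s1 + (647864068309781857007435693 / 2178947203955148166189650000) * b1 + (6666946254848647861037808250 / 61574219109067536702401571) * t2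

theorem u168 {s a b t k : ℝ} (R : Reg s a b t k) (hE : t + k ≤ b / 2) (hT : h0 + t ≤ 1)
    (s1 : 7361 / 10000 ≤ s) (s2 : s ≤ 1881 / 2500)
    (b1 : 243 / 500 ≤ b) (b2 : b ≤ 1 / 2) (t1 : 33487 / 250000 ≤ t) (t2 : t ≤ 33491 / 250000) :
    0 ≤ Uaa s a b t k ∨ 0 ≤ Ubb s a b t k := by
  have e1 := R.lo1 (446 / 1000) (by norm_num)
  have e2 := up (t1 := 334 / 1000) (t2 := (347 / 1000)) (x := s - t) (by norm_num)
    (by linear_combination (277889 / 250000) * s1 + (277889 / 250000) * t2) (by linear_combination (1120409 / 1000000) * s2 + (1120409 / 1000000) * t1)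
  have e3 := R.lo2 (446 / 1000) (by norm_num)
  have e4 := up (t1 := 992 / 1000) (t2 := (997 / 1000)) (x := h0 + t) (by norm_num)
    (by linear_combination (31001 / 15625) * R.h1 + (31001 / 15625) * t1) (by linear_combination (1994009 / 1000000) * R.h2 + (1994009 / 1000000) * t2)
  have e5 := R.lo4 (220 / 1000) (by norm_num)
  have e6 := R.lo3 (90 / 1000) (by norm_num)
  have e7 := up (t1 := 259 / 1000) (t2 := (268 / 1000)) (x := b) (by norm_num)
    (by linear_combination (1067081 / 1000000) * b1) (by linear_combination (66989 / 62500) * b2)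
  left
  unfold Uaa
  linear_combination (67284087911145250 / 28191179593277883) * e7 + (10000 / 9919) * e6 + (2500 / 2379) * e5 + (31250 / 343) * e4 + (500000 / 200271) * e3 + (2000000 / 442051) * e2 + (250000 / 200271) * e1 + (89900 / 139629) * R.ha + (100888762700 / 121175770989) * R.k2 + (248625 / 1372) * R.h2 + R.h3 + (631813001549930 / 2550755749593259) * s1 + (33116569137855828791 / 108427613820299550000) * b1 + (1878938034085114877825 / 10498910665325854044) * t2

theorem u170 {s a b t k : ℝ} (R : Reg s a b t k) (hE : t + k ≤ b / 2) (hT : h0 + t ≤ 1)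
    (s1 : 7361 / 10000 ≤ s) (s2 : s ≤ 1881 / 2500)
    (b1 : 243 / 500 ≤ b) (b2 : b ≤ 493 / 1000) (t1 : 33491 / 250000 ≤ t) (t2 : t ≤ 6699 / 50000) :
    0 ≤ Uaa s a b t k ∨ 0 ≤ Ubb s a b t k := by
  have e1 := R.lo8 (261 / 1000) (by norm_num)
  exfalso
  exact absurd b2 (not_le.mpr (by linear_combination (43301000 / 693853) * e1 + (46593950 / 693853) * R.k1 + (46593950 / 693853) * t1 + (46593950 / 693853) * hE))

theorem u173 {s a b t k : ℝ} (R : Reg s a b t k) (hE : t + k ≤ b / 2) (hT : h0 + t ≤ 1)
    (s1 : 7361 / 10000 ≤ s) (s2 : s ≤ 3701 / 5000)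
    (b1 : 493 / 1000 ≤ b) (b2 : b ≤ 1 / 2) (t1 : 33491 / 250000 ≤ t) (t2 : t ≤ 6699 / 50000) :
    0 ≤ Uaa s a b t k ∨ 0 ≤ Ubb s a b t k := by
  have e1 := R.lo1 (441 / 1000) (by norm_num)
  have e2 := up (t1 := 334 / 1000) (t2 := (338 / 1000)) (x := s - t) (by norm_num)
    (by linear_combination (277889 / 250000) * s1 + (277889 / 250000) * t2) (by linear_combination (278561 / 250000) * s2 + (278561 / 250000) * t1)
  have e3 := R.lo2 (441 / 1000) (by norm_num)
  have e4 := up (t1 := 994 / 1000) (t2 := 1) (x := h0 + t) (by norm_num)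
    (by linear_combination (497009 / 250000) * R.h1 + (497009 / 250000) * t1) (by linear_combination 2 * hT)
  have e5 := R.lo4 (223 / 1000) (by norm_num)
  have e6 := R.lo3 (86 / 1000) (by norm_num)
  have e7 := up (t1 := 263 / 1000) (t2 := (268 / 1000)) (x := b) (by norm_num)
    (by linear_combination (1069169 / 1000000) * b1) (by linear_combination (66989 / 62500) * b2)
  left
  unfold Uaa
  linear_combination (4635353904472601632968259 / 14042180263880175147741) * hT + (1051373721614164212500 / 445862532065749805279) * e7 + (250000 / 248151) * e6 + (1000000 / 950271) * e5 + (500 / 3) * e4 + (2000000 / 805519) * e3 + (1000000 / 221777) * e2 + (1000000 / 805519) * e1 + (50512333000 / 78603566307) * R.ha + (16860975586295000 / 21105555376016111) * R.k2 + (10443556630081080377000 / 4680726754626725049247) * R.h2 + R.h3 + (3303607504748905957300 / 14042180263880175147741) * s1 + (75869643551520541216620769 / 245224392636162392903450000) * b1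

theorem u174 {s a b t k : ℝ} (R : Reg s a b t k) (hE : t + k ≤ b / 2) (hT : h0 + t ≤ 1)
    (s1 : 3701 / 5000 ≤ s) (s2 : s ≤ 7443 / 10000)
    (b1 : 493 / 1000 ≤ b) (b2 : b ≤ 1 / 2) (t1 : 33491 / 250000 ≤ t) (t2 : t ≤ 6699 / 50000) :
    0 ≤ Uaa s a b t k ∨ 0 ≤ Ubb s a b t k := by
  have e1 := R.lo1 (444 / 1000) (by norm_num)
  have e2 := up (t1 := 337 / 1000) (t2 := (341 / 1000)) (x := s - t) (by norm_num)
    (by linear_combination (1113569 / 1000000) * s1 + (1113569 / 1000000) * t2) (by linear_combination (1116281 / 1000000) * s2 + (1116281 / 1000000) * t1)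
  have e3 := R.lo2 (444 / 1000) (by norm_num)
  have e4 := up (t1 := 994 / 1000) (t2 := 1) (x := h0 + t) (by norm_num)
    (by linear_combination (497009 / 250000) * R.h1 + (497009 / 250000) * t1) (by linear_combination 2 * hT)
  have e5 := R.lo4 (222 / 1000) (by norm_num)
  have e6 := R.lo3 (87 / 1000) (by norm_num)
  have e7 := up (t1 := 263 / 1000) (t2 := (268 / 1000)) (x := b) (by norm_num)
    (by linear_combination (1069169 / 1000000) * b1) (by linear_combination (66989 / 62500) * b2)
  left
  unfold Uaa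
  linear_combination (10373905567581300063968921 / 31428119029142949978579) * hT + (84746294802208788750 / 35720644703462274517) * e7 + (1000000 / 992431) * e6 + (250000 / 237679) * e5 + (500 / 3) * e4 + (125000 / 50179) * e3 + (4000000 / 885083) * e2 + (62500 / 50179) * e1 + (151515987000 / 235880007649) * R.ha + (9638839813114500 / 11836222903819171) * R.k2 + (23568663256846770748500 / 10476039676380983326193) * R.h2 + R.h3 + (2478900430835235067800 / 10476039676380983326193) * s1 + (461086759546567949656099 / 1511258045146480844950000) * b1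

theorem u175 {s a b t k : ℝ} (R : Reg s a b t k) (hE : t + k ≤ b / 2) (hT : h0 + t ≤ 1)
    (s1 : 7443 / 10000 ≤ s) (s2 : s ≤ 1881 / 2500)
    (b1 : 493 / 1000 ≤ b) (b2 : b ≤ 1 / 2) (t1 : 33491 / 250000 ≤ t) (t2 : t ≤ 6699 / 50000) :
    0 ≤ Uaa s a b t k ∨ 0 ≤ Ubb s a b t k := by
  have e1 := R.lo1 (450 / 1000) (by norm_num)
  have e2 := up (t1 := 340 / 1000) (t2 := (347 / 1000)) (x := s - t) (by norm_num)
    (by linear_combination (2789 / 2500) * s1 + (2789 / 2500) * t2) (by linear_combination (1120409 / 1000000) * s2 + (1120409 / 1000000) * t1)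
  have e3 := R.lo2 (450 / 1000) (by norm_num)
  have e4 := up (t1 := 994 / 1000) (t2 := 1) (x := h0 + t) (by norm_num)
    (by linear_combination (497009 / 250000) * R.h1 + (497009 / 250000) * t1) (by linear_combination 2 * hT)
  have e5 := R.lo4 (221 / 1000) (by norm_num)
  have e6 := R.lo3 (89 / 1000) (by norm_num)
  have e7 := up (t1 := 263 / 1000) (t2 := (268 / 1000)) (x := b) (by norm_num)
    (by linear_combination (1069169 / 1000000) * b1) (by linear_combination (66989 / 62500) * b2)
  left
  unfold Uaa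
  linear_combination (12070523254938334927 / 36570582145538793) * hT + (42032999464942900 / 17518125353575077) * e7 + (1000000 / 992079) * e6 + (1000000 / 951159) * e5 + (500 / 3) * e4 + (800 / 319) * e3 + (200000 / 44101) * e2 + (400 / 319) * e1 + (18418340000 / 28594693017) * R.ha + (699263108920 / 829246097493) * R.k2 + (83100211429057280 / 36570582145538793) * R.h2 + R.h3 + (9369028225496560 / 36570582145538793) * s1 + (99286411959818674343 / 332240308429872150000) * b1

theorem u176 {s a b t k : ℝ} (R : Reg s a b t k) (hE : t + k ≤ b / 2) (hT : h0 + t ≤ 1)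
    (s1 : 1881 / 2500 ≤ s) (s2 : s ≤ 3843 / 5000)
    (b1 : 243 / 500 ≤ b) (b2 : b ≤ 1 / 2) (t1 : 33487 / 250000 ≤ t) (t2 : t ≤ 6699 / 50000) :
    0 ≤ Uaa s a b t k ∨ 0 ≤ Ubb s a b t k := by
  have e1 := R.lo1 (461 / 1000) (by norm_num)
  have e2 := up (t1 := 346 / 1000) (t2 := (358 / 1000)) (x := s - t) (by norm_num)
    (by linear_combination (279929 / 250000) * s1 + (279929 / 250000) * t2) (by linear_combination (282041 / 250000) * s2 + (282041 / 250000) * t1)
  have e3 := R.lo2 (461 / 1000) (by norm_num)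
  have e4 := up (t1 := 992 / 1000) (t2 := 1) (x := h0 + t) (by norm_num)
    (by linear_combination (31001 / 15625) * R.h1 + (31001 / 15625) * t1) (by linear_combination 2 * hT)
  have e5 := R.lo4 (217 / 1000) (by norm_num)
  have e6 := R.lo3 (96 / 1000) (by norm_num)
  have e7 := up (t1 := 259 / 1000) (t2 := (268 / 1000)) (x := b) (by norm_num)
    (by linear_combination (1067081 / 1000000) * b1) (by linear_combination (66989 / 62500) * b2)
  left
  unfold Uaa
  linear_combination (23248585334841680537819 / 94240182708577913931) * hT + (201303625122858657500 / 81898104220668588951) * e7 + (15625 / 15481) * e6 + (1000000 / 952911) * e5 + 125 * e4 + (2000000 / 787479) * e3 + (1000000 / 219033) * e2 + (1000000 / 787479) * e1 + (9577487000 / 14752015191) * R.ha + (3520557509681000 / 3872300723531163) * R.k2 + (217220159594220031000 / 94240182708577913931) * R.h2 + R.h3 + (9341189388168766300 / 31413394236192637977) * s1 + (12923519204481604120464761 / 45043957321367723923050000) * b1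

theorem u177 {s a b t k : ℝ} (R : Reg s a b t k) (hE : t + k ≤ b / 2) (hT : h0 + t ≤ 1)
    (s1 : 3843 / 5000 ≤ s) (s2 : s ≤ 8011 / 10000)
    (b1 : 4719 / 10000 ≤ b) (b2 : b ≤ 1 / 2) (t1 : 66859 / 500000 ≤ t) (t2 : t ≤ 6699 / 50000) :
    0 ≤ Uaa s a b t k ∨ 0 ≤ Ubb s a b t k := by
  have e1 := R.lo1 (484 / 1000) (by norm_num)
  have e2 := up (t1 := 357 / 1000) (t2 := (383 / 1000)) (x := s - t) (by norm_num)
    (by linear_combination (1127449 / 1000000) * s1 + (1127449 / 1000000) * t2) (by linear_combination (1146689 / 1000000) * s2 + (1146689 / 1000000) * t1)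
  have e3 := R.lo2 (485 / 1000) (by norm_num)
  have e4 := up (t1 := 977 / 1000) (t2 := 1) (x := h0 + t) (by norm_num)
    (by linear_combination (1954529 / 1000000) * R.h1 + (1954529 / 1000000) * t1) (by linear_combination 2 * hT)
  have e5 := R.lo4 (209 / 1000) (by norm_num)
  have e6 := R.lo3 (108 / 1000) (by norm_num)
  have e7 := up (t1 := 250 / 1000) (t2 := (268 / 1000)) (x := b) (by norm_num)
    (by linear_combination (17 / 16) * b1) (by linear_combination (66989 / 62500) * b2)
  left
  unfold Uaa
  linear_combination (223394860668261818346823 / 2673041635051193583177) * hT + (323846186592088780 / 125606867641325343) * e7 + (62500 / 61771) * e6 + (1000000 / 956319) * e5 + (1000 / 23) * e4 + (80000 / 30591) * e3 + (4000000 / 863269) * e2 + (62500 / 47859) * e1 + (38730584500 / 59072780949) * R.ha + (140764043876000 / 134626867782771) * R.k2 + (276978293244211516000 / 116219201523964938399) * R.h2 + R.h3 + (42431888621172699144850 / 107735199812715497895873) * s1 + (131318169609396482711 / 483103337082020550000)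 * b1

theorem u179 {s a b t k : ℝ} (R : Reg s a b t k) (hE : t + k ≤ b / 2) (hT : h0 + t ≤ 1)
    (s1 : 8011 / 10000 ≤ s) (s2 : s ≤ 8661 / 10000)
    (b1 : 31 / 80 ≤ b) (b2 : b ≤ 1 / 2) (t1 : 129793 / 1000000 ≤ t) (t2 : t ≤ 131887 / 1000000) :
    0 ≤ Uaa s a b t k ∨ 0 ≤ Ubb s a b t k := by
  have e1 := R.lo1 (536 / 1000) (by norm_num)
  have e2 := up (t1 := 383 / 1000) (t2 := (440 / 1000)) (x := s - t) (by norm_num)
    (by linear_combination (1146689 / 1000000) * s1 + (1146689 / 1000000) * t2) (by linear_combination (746 / 625) * s2 + (746 / 625) * t1)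
  have e3 := R.lo2 (537 / 1000) (by norm_num)
  have e4 := up (t1 := 912 / 1000) (t2 := (938 / 1000)) (x := h0 + t) (by norm_num)
    (by linear_combination (28621 / 15625) * R.h1 + (28621 / 15625) * t1) (by linear_combination (469961 / 250000) * R.h2 + (469961 / 250000) * t2)
  have e5 := R.lo4 (178 / 1000) (by norm_num)
  have e6 := R.lo3 (148 / 1000) (by norm_num)
  have e7 := up (t1 := 201 / 1000) (t2 := (268 / 1000)) (x := b) (by norm_num)
    (by linear_combination (1040401 / 1000000) * b1) (by linear_combination (66989 / 62500) * b2)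
  left
  unfold Uaa
  linear_combination (12571740605275488125 / 4331088616602346368) * e7 + (62500 / 61131) * e6 + (250000 / 242079) * e5 + (31250 / 4517) * e4 + (2000000 / 711631) * e3 + (100000 / 20787) * e2 + (15625 / 11136) * e1 + (1102124500 / 1644281261) * R.ha + (13175576040875 / 9155358061248) * R.k2 + (115625 / 9034) * R.h2 + R.h3 + (3606369354705290375 / 5424014716797004224) * s1 + (31318201224009161149759 / 108277215415058659200000) * b1 + (23945962719578269925 / 2329651049763023168) * t2

theorem u181 {s a b t k : ℝ} (R : Reg s a b t k) (hE : t + k ≤ b / 2) (hT : h0 + t ≤ 1)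
    (s1 : 8011 / 10000 ≤ s) (s2 : s ≤ 8661 / 10000)
    (b1 : 31 / 80 ≤ b) (b2 : b ≤ 1 / 2) (t1 : 131887 / 1000000 ≤ t) (t2 : t ≤ 132933 / 1000000) :
    0 ≤ Uaa s a b t k ∨ 0 ≤ Ubb s a b t k := by
  have e1 := R.lo1 (534 / 1000) (by norm_num)
  have e2 := up (t1 := 383 / 1000) (t2 := (438 / 1000)) (x := s - t) (by norm_num)
    (by linear_combination (1146689 / 1000000) * s1 + (1146689 / 1000000) * t2) (by linear_combination (297961 / 250000) * s2 + (297961 / 250000) * t1)
  have e3 := R.lo2 (537 / 1000) (by norm_num)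
  have e4 := up (t1 := 937 / 1000) (t2 := (956 / 1000)) (x := h0 + t) (by norm_num)
    (by linear_combination (1877969 / 1000000) * R.h1 + (1877969 / 1000000) * t1) (by linear_combination (119621 / 62500) * R.h2 + (119621 / 62500) * t2)
  have e5 := R.lo4 (179 / 1000) (by norm_num)
  have e6 := R.lo3 (147 / 1000) (by norm_num)
  have e7 := up (t1 := 201 / 1000) (t2 := (268 / 1000)) (x := b) (by norm_num)
    (by linear_combination (1040401 / 1000000) * b1) (by linear_combination (66989 / 62500) * b2)
  left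
  unfold Uaa
  linear_combination (115672273615010508407500 / 40032474560079355644147) * e7 + (1000000 / 978391) * e6 + (1000000 / 967959) * e5 + (250000 / 26057) * e4 + (2000000 / 711631) * e3 + (2000000 / 416123) * e2 + (250000 / 178711) * e1 + (634843924000 / 947042373969) * R.ha + (241121854806971000 / 169246889694373959) * R.k2 + (473250 / 26057) * R.h2 + R.h3 + (11124483926631017233167371800 / 16706136320601219473069390289) * s1 + (585589903368394485966334247 / 2001623728003967782207350000) * b1 + (28702961040032286824144935250 / 1835129979325967991036516549) * t2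

theorem u183 {s a b t k : ℝ} (R : Reg s a b t k) (hE : t + k ≤ b / 2) (hT : h0 + t ≤ 1)
    (s1 : 8011 / 10000 ≤ s) (s2 : s ≤ 8661 / 10000)
    (b1 : 31 / 80 ≤ b) (b2 : b ≤ 2219 / 5000) (t1 : 132933 / 1000000 ≤ t) (t2 : t ≤ 6699 / 50000) :
    0 ≤ Uaa s a b t k ∨ 0 ≤ Ubb s a b t k := by
  have e1 := R.lo8 (218 / 1000) (by norm_num)
  exfalso
  exact absurd b2 (not_le.mpr (by linear_combination (5412625 / 616583) * e1 + (5952975 / 616583) * R.k1 + (5952975 / 616583) * t1 + (5952975 / 616583) * hE))

theorem u184 {s a b t k : ℝ} (R : Reg s a b t k) (hE : t + k ≤ b / 2) (hT : h0 + t ≤ 1)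
    (s1 : 8011 / 10000 ≤ s) (s2 : s ≤ 8661 / 10000)
    (b1 : 2219 / 5000 ≤ b) (b2 : b ≤ 1 / 2) (t1 : 132933 / 1000000 ≤ t) (t2 : t ≤ 6699 / 50000) :
    0 ≤ Uaa s a b t k ∨ 0 ≤ Ubb s a b t k := by
  have e1 := R.lo1 (536 / 1000) (by norm_num)
  have e2 := up (t1 := 382 / 1000) (t2 := (437 / 1000)) (x := s - t) (by norm_num)
    (by linear_combination (286481 / 250000) * s1 + (286481 / 250000) * t2) (by linear_combination (1190969 / 1000000) * s2 + (1190969 / 1000000) * t1)
  have e3 := R.lo2 (537 / 1000) (by norm_num)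
  have e4 := up (t1 := 955 / 1000) (t2 := 1) (x := h0 + t) (by norm_num)
    (by linear_combination (76481 / 40000) * R.h1 + (76481 / 40000) * t1) (by linear_combination 2 * hT)
  have e5 := R.lo4 (193 / 1000) (by norm_num)
  have e6 := R.lo3 (133 / 1000) (by norm_num)
  have e7 := up (t1 := 234 / 1000) (t2 := (268 / 1000)) (x := b) (by norm_num)
    (by linear_combination (263689 / 250000) * b1) (by linear_combination (66989 / 62500) * b2)
  left
  unfold Uaa
  linear_combination (2299435951917211919869 / 56240221125363713856) * hT + (23845919030457770625 / 8309001247793610496) * e7 + (1000000 / 982311) * e6 + (1000000 / 962751) * e5 + (200 / 9) * e4 + (2000000 / 711631) * e3 + (2000000 / 416533) * e2 + (15625 / 11136) * e1 + (70584868000 / 105080099729) * R.ha + (267966722890125 / 195028665097024) * R.k2 + (15987690034102528875 / 6248913458373745984) * R.h2 + R.h3 + (303322984291937051028325 / 460026262065100058104128) * s1 + (2605224609099928178443 / 10744398165250358400000) * b1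

end Pool.Agent.Strip051.FourB
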