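import Pool.Agent.Strip051.FourB.BoxU1
import Pool.Agent.Strip051.FourB.BoxU2
import Pool.Agent.Strip051.FourB.BoxU3

/-! # The exit is above the top of the body, the subdivision -/

namespace Pool.Agent.Strip051.FourB

open Pool.Agent.StripNear Pool.Agent.StripSquare Pool.Agent.Strip051
open Pool.Agent.Strip051.Four.Low (ph)

theorem u182 {s a b t k : ℝ} (R : Reg s a b t k) (hE : t + k ≤ b / 2) (hT : h0 + t ≤ 1)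
    (s1 : 8011 / 10000 ≤ s) (s2 : s ≤ 8661 / 10000)
    (b1 : 31 / 80 ≤ b) (b2 : b ≤ 1 / 2) (t1 : 132933 / 1000000 ≤ t) (t2 : t ≤ 6699 / 50000) :
    0 ≤ Uaa s a b t k ∨ 0 ≤ Ubb s a b t k := by
  rcases le_total b (2219 / 5000) with h | h
  · exact u183 R hE hT s1 s2 b1 h t1 t2
  · exact u184 R hE hT s1 s2 h b2 t1 t2

theorem u180 {s a b t k : ℝ} (R : Reg s a b t k) (hE : t + k ≤ b / 2) (hT : h0 + t ≤ 1)
    (s1 : 8011 / 10000 ≤ s) (s2 : s ≤ 8661 / 10000)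
    (b1 : 31 / 80 ≤ b) (b2 : b ≤ 1 / 2) (t1 : 131887 / 1000000 ≤ t) (t2 : t ≤ 6699 / 50000) :
    0 ≤ Uaa s a b t k ∨ 0 ≤ Ubb s a b t k := by
  rcases le_total t (132933 / 1000000) with h | h
  · exact u181 R hE hT s1 s2 b1 b2 t1 h
  · exact u182 R hE hT s1 s2 b1 b2 h t2

theorem u178 {s a b t k : ℝ} (R : Reg s a b t k) (hE : t + k ≤ b / 2) (hT : h0 + t ≤ 1)
    (s1 : 8011 / 10000 ≤ s) (s2 : s ≤ 8661 / 10000)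
    (b1 : 31 / 80 ≤ b) (b2 : b ≤ 1 / 2) (t1 : 129793 / 1000000 ≤ t) (t2 : t ≤ 6699 / 50000) :
    0 ≤ Uaa s a b t k ∨ 0 ≤ Ubb s a b t k := by
  rcases le_total t (131887 / 1000000) with h | h
  · exact u179 R hE hT s1 s2 b1 b2 t1 h
  · exact u180 R hE hT s1 s2 b1 b2 h t2

theorem u172 {s a b t k : ℝ} (R : Reg s a b t k) (hE : t + k ≤ b / 2) (hT : h0 + t ≤ 1)
    (s1 : 7361 / 10000 ≤ s) (s2 : s ≤ 7443 / 10000)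
    (b1 : 493 / 1000 ≤ b) (b2 : b ≤ 1 / 2) (t1 : 33491 / 250000 ≤ t) (t2 : t ≤ 6699 / 50000) :
    0 ≤ Uaa s a b t k ∨ 0 ≤ Ubb s a b t k := by
  rcases le_total s (3701 / 5000) with h | h
  · exact u173 R hE hT s1 h b1 b2 t1 t2
  · exact u174 R hE hT h s2 b1 b2 t1 t2

theorem u171 {s a b t k : ℝ} (R : Reg s a b t k) (hE : t + k ≤ b / 2) (hT : h0 + t ≤ 1)
    (s1 : 7361 / 10000 ≤ s) (s2 : s ≤ 1881 / 2500)
    (b1 : 493 / 1000 ≤ b) (b2 : b ≤ 1 / 2) (t1 : 33491 / 250000 ≤ t) (t2 : t ≤ 6699 / 50000) :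
    0 ≤ Uaa s a b t k ∨ 0 ≤ Ubb s a b t k := by
  rcases le_total s (7443 / 10000) with h | h
  · exact u172 R hE hT s1 h b1 b2 t1 t2
  · exact u175 R hE hT h s2 b1 b2 t1 t2

theorem u169 {s a b t k : ℝ} (R : Reg s a b t k) (hE : t + k ≤ b / 2) (hT : h0 + t ≤ 1)
    (s1 : 7361 / 10000 ≤ s) (s2 : s ≤ 1881 / 2500)
    (b1 : 243 / 500 ≤ b) (b2 : b ≤ 1 / 2) (t1 : 33491 / 250000 ≤ t) (t2 : t ≤ 6699 / 50000) :
    0 ≤ Uaa s a b t k ∨ 0 ≤ Ubb s a b t k := by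
  rcases le_total b (493 / 1000) with h | h
  · exact u170 R hE hT s1 s2 b1 h t1 t2
  · exact u171 R hE hT s1 s2 h b2 t1 t2

theorem u167 {s a b t k : ℝ} (R : Reg s a b t k) (hE : t + k ≤ b / 2) (hT : h0 + t ≤ 1)
    (s1 : 7361 / 10000 ≤ s) (s2 : s ≤ 1881 / 2500)
    (b1 : 243 / 500 ≤ b) (b2 : b ≤ 1 / 2) (t1 : 33487 / 250000 ≤ t) (t2 : t ≤ 6699 / 50000) :
    0 ≤ Uaa s a b t k ∨ 0 ≤ Ubb s a b t k := by
  rcases le_total t (33491 / 250000) with h | h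
  · exact u168 R hE hT s1 s2 b1 b2 t1 h
  · exact u169 R hE hT s1 s2 b1 b2 h t2

theorem u166 {s a b t k : ℝ} (R : Reg s a b t k) (hE : t + k ≤ b / 2) (hT : h0 + t ≤ 1)
    (s1 : 7361 / 10000 ≤ s) (s2 : s ≤ 3843 / 5000)
    (b1 : 243 / 500 ≤ b) (b2 : b ≤ 1 / 2) (t1 : 33487 / 250000 ≤ t) (t2 : t ≤ 6699 / 50000) :
    0 ≤ Uaa s a b t k ∨ 0 ≤ Ubb s a b t k := by
  rcases le_total s (1881 / 2500) with h | h
  · exact u167 R hE hT s1 h b1 b2 t1 t2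
  · exact u176 R hE hT h s2 b1 b2 t1 t2

theorem u164 {s a b t k : ℝ} (R : Reg s a b t k) (hE : t + k ≤ b / 2) (hT : h0 + t ≤ 1)
    (s1 : 7361 / 10000 ≤ s) (s2 : s ≤ 3843 / 5000)
    (b1 : 243 / 500 ≤ b) (b2 : b ≤ 1 / 2) (t1 : 26783 / 200000 ≤ t) (t2 : t ≤ 6699 / 50000) :
    0 ≤ Uaa s a b t k ∨ 0 ≤ Ubb s a b t k := by
  rcases le_total t (33487 / 250000) with h | h
  · exact u165 R hE hT s1 s2 b1 b2 t1 h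
  · exact u166 R hE hT s1 s2 b1 b2 h t2

theorem u162 {s a b t k : ℝ} (R : Reg s a b t k) (hE : t + k ≤ b / 2) (hT : h0 + t ≤ 1)
    (s1 : 7361 / 10000 ≤ s) (s2 : s ≤ 3843 / 5000)
    (b1 : 4719 / 10000 ≤ b) (b2 : b ≤ 1 / 2) (t1 : 26783 / 200000 ≤ t) (t2 : t ≤ 6699 / 50000) :
    0 ≤ Uaa s a b t k ∨ 0 ≤ Ubb s a b t k := by
  rcases le_total b (243 / 500) with h | h
  · exact u163 R hE hT s1 s2 b1 h t1 t2
  · exact u164 R hE hT s1 s2 h b2 t1 t2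

theorem u160 {s a b t k : ℝ} (R : Reg s a b t k) (hE : t + k ≤ b / 2) (hT : h0 + t ≤ 1)
    (s1 : 7361 / 10000 ≤ s) (s2 : s ≤ 3843 / 5000)
    (b1 : 4719 / 10000 ≤ b) (b2 : b ≤ 1 / 2) (t1 : 133849 / 1000000 ≤ t) (t2 : t ≤ 6699 / 50000) :
    0 ≤ Uaa s a b t k ∨ 0 ≤ Ubb s a b t k := by
  rcases le_total t (26783 / 200000) with h | h
  · exact u161 R hE hT s1 s2 b1 b2 t1 h
  · exact u162 R hE hT s1 s2 b1 b2 h t2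

theorem u158 {s a b t k : ℝ} (R : Reg s a b t k) (hE : t + k ≤ b / 2) (hT : h0 + t ≤ 1)
    (s1 : 7361 / 10000 ≤ s) (s2 : s ≤ 3843 / 5000)
    (b1 : 4719 / 10000 ≤ b) (b2 : b ≤ 1 / 2) (t1 : 66859 / 500000 ≤ t) (t2 : t ≤ 6699 / 50000) :
    0 ≤ Uaa s a b t k ∨ 0 ≤ Ubb s a b t k := by
  rcases le_total t (133849 / 1000000) with h | h
  · exact u159 R hE hT s1 s2 b1 b2 t1 h
  · exact u160 R hE hT s1 s2 b1 b2 h t2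

theorem u157 {s a b t k : ℝ} (R : Reg s a b t k) (hE : t + k ≤ b / 2) (hT : h0 + t ≤ 1)
    (s1 : 7361 / 10000 ≤ s) (s2 : s ≤ 8011 / 10000)
    (b1 : 4719 / 10000 ≤ b) (b2 : b ≤ 1 / 2) (t1 : 66859 / 500000 ≤ t) (t2 : t ≤ 6699 / 50000) :
    0 ≤ Uaa s a b t k ∨ 0 ≤ Ubb s a b t k := by
  rcases le_total s (3843 / 5000) with h | h
  · exact u158 R hE hT s1 h b1 b2 t1 t2
  · exact u177 R hE hT h s2 b1 b2 t1 t2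

theorem u155 {s a b t k : ℝ} (R : Reg s a b t k) (hE : t + k ≤ b / 2) (hT : h0 + t ≤ 1)
    (s1 : 7361 / 10000 ≤ s) (s2 : s ≤ 8011 / 10000)
    (b1 : 2219 / 5000 ≤ b) (b2 : b ≤ 1 / 2) (t1 : 66859 / 500000 ≤ t) (t2 : t ≤ 6699 / 50000) :
    0 ≤ Uaa s a b t k ∨ 0 ≤ Ubb s a b t k := by
  rcases le_total b (4719 / 10000) with h | h
  · exact u156 R hE hT s1 s2 b1 h t1 t2
  · exact u157 R hE hT s1 s2 h b2 t1 t2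

theorem u153 {s a b t k : ℝ} (R : Reg s a b t k) (hE : t + k ≤ b / 2) (hT : h0 + t ≤ 1)
    (s1 : 7361 / 10000 ≤ s) (s2 : s ≤ 8011 / 10000)
    (b1 : 2219 / 5000 ≤ b) (b2 : b ≤ 1 / 2) (t1 : 8341 / 62500 ≤ t) (t2 : t ≤ 6699 / 50000) :
    0 ≤ Uaa s a b t k ∨ 0 ≤ Ubb s a b t k := by
  rcases le_total t (66859 / 500000) with h | h
  · exact u154 R hE hT s1 s2 b1 b2 t1 h
  · exact u155 R hE hT s1 s2 b1 b2 h t2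

theorem u151 {s a b t k : ℝ} (R : Reg s a b t k) (hE : t + k ≤ b / 2) (hT : h0 + t ≤ 1)
    (s1 : 7361 / 10000 ≤ s) (s2 : s ≤ 8011 / 10000)
    (b1 : 2219 / 5000 ≤ b) (b2 : b ≤ 1 / 2) (t1 : 132933 / 1000000 ≤ t) (t2 : t ≤ 6699 / 50000) :
    0 ≤ Uaa s a b t k ∨ 0 ≤ Ubb s a b t k := by
  rcases le_total t (8341 / 62500) with h | h
  · exact u152 R hE hT s1 s2 b1 b2 t1 h
  · exact u153 R hE hT s1 s2 b1 b2 h t2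

theorem u149 {s a b t k : ℝ} (R : Reg s a b t k) (hE : t + k ≤ b / 2) (hT : h0 + t ≤ 1)
    (s1 : 7361 / 10000 ≤ s) (s2 : s ≤ 8011 / 10000)
    (b1 : 31 / 80 ≤ b) (b2 : b ≤ 1 / 2) (t1 : 132933 / 1000000 ≤ t) (t2 : t ≤ 6699 / 50000) :
    0 ≤ Uaa s a b t k ∨ 0 ≤ Ubb s a b t k := by
  rcases le_total b (2219 / 5000) with h | h
  · exact u150 R hE hT s1 s2 b1 h t1 t2
  · exact u151 R hE hT s1 s2 h b2 t1 t2

theorem u146 {s a b t k : ℝ} (R : Reg s a b t k) (hE : t + k ≤ b / 2) (hT : h0 + t ≤ 1)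
    (s1 : 7361 / 10000 ≤ s) (s2 : s ≤ 8011 / 10000)
    (b1 : 31 / 80 ≤ b) (b2 : b ≤ 1 / 2) (t1 : 131887 / 1000000 ≤ t) (t2 : t ≤ 132933 / 1000000) :
    0 ≤ Uaa s a b t k ∨ 0 ≤ Ubb s a b t k := by
  rcases le_total b (2219 / 5000) with h | h
  · exact u147 R hE hT s1 s2 b1 h t1 t2
  · exact u148 R hE hT s1 s2 h b2 t1 t2

theorem u145 {s a b t k : ℝ} (R : Reg s a b t k) (hE : t + k ≤ b / 2) (hT : h0 + t ≤ 1)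
    (s1 : 7361 / 10000 ≤ s) (s2 : s ≤ 8011 / 10000)
    (b1 : 31 / 80 ≤ b) (b2 : b ≤ 1 / 2) (t1 : 131887 / 1000000 ≤ t) (t2 : t ≤ 6699 / 50000) :
    0 ≤ Uaa s a b t k ∨ 0 ≤ Ubb s a b t k := by
  rcases le_total t (132933 / 1000000) with h | h
  · exact u146 R hE hT s1 s2 b1 b2 t1 h
  · exact u149 R hE hT s1 s2 b1 b2 h t2

theorem u143 {s a b t k : ℝ} (R : Reg s a b t k) (hE : t + k ≤ b / 2) (hT : h0 + t ≤ 1)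
    (s1 : 7361 / 10000 ≤ s) (s2 : s ≤ 8011 / 10000)
    (b1 : 31 / 80 ≤ b) (b2 : b ≤ 1 / 2) (t1 : 129793 / 1000000 ≤ t) (t2 : t ≤ 6699 / 50000) :
    0 ≤ Uaa s a b t k ∨ 0 ≤ Ubb s a b t k := by
  rcases le_total t (131887 / 1000000) with h | h
  · exact u144 R hE hT s1 s2 b1 b2 t1 h
  · exact u145 R hE hT s1 s2 b1 b2 h t2

theorem u142 {s a b t k : ℝ} (R : Reg s a b t k) (hE : t + k ≤ b / 2) (hT : h0 + t ≤ 1)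
    (s1 : 7361 / 10000 ≤ s) (s2 : s ≤ 8661 / 10000)
    (b1 : 31 / 80 ≤ b) (b2 : b ≤ 1 / 2) (t1 : 129793 / 1000000 ≤ t) (t2 : t ≤ 6699 / 50000) :
    0 ≤ Uaa s a b t k ∨ 0 ≤ Ubb s a b t k := by
  rcases le_total s (8011 / 10000) with h | h
  · exact u143 R hE hT s1 h b1 b2 t1 t2
  · exact u178 R hE hT h s2 b1 b2 t1 t2

theorem u140 {s a b t k : ℝ} (R : Reg s a b t k) (hE : t + k ≤ b / 2) (hT : h0 + t ≤ 1)
    (s1 : 7361 / 10000 ≤ s) (s2 : s ≤ 8661 / 10000)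
    (b1 : 11 / 40 ≤ b) (b2 : b ≤ 1 / 2) (t1 : 129793 / 1000000 ≤ t) (t2 : t ≤ 6699 / 50000) :
    0 ≤ Uaa s a b t k ∨ 0 ≤ Ubb s a b t k := by
  rcases le_total b (31 / 80) with h | h
  · exact u141 R hE hT s1 s2 b1 h t1 t2
  · exact u142 R hE hT s1 s2 h b2 t1 t2

theorem u136 {s a b t k : ℝ} (R : Reg s a b t k) (hE : t + k ≤ b / 2) (hT : h0 + t ≤ 1)
    (s1 : 7361 / 10000 ≤ s) (s2 : s ≤ 8661 / 10000)
    (b1 : 3313 / 10000 ≤ b) (b2 : b ≤ 31 / 80) (t1 : 62803 / 500000 ≤ t) (t2 : t ≤ 129793 / 1000000) :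
    0 ≤ Uaa s a b t k ∨ 0 ≤ Ubb s a b t k := by
  rcases le_total t (1277 / 10000) with h | h
  · exact u137 R hE hT s1 s2 b1 b2 t1 h
  · exact u138 R hE hT s1 s2 b1 b2 h t2

theorem u134 {s a b t k : ℝ} (R : Reg s a b t k) (hE : t + k ≤ b / 2) (hT : h0 + t ≤ 1)
    (s1 : 7361 / 10000 ≤ s) (s2 : s ≤ 8661 / 10000)
    (b1 : 11 / 40 ≤ b) (b2 : b ≤ 31 / 80) (t1 : 62803 / 500000 ≤ t) (t2 : t ≤ 129793 / 1000000) :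
    0 ≤ Uaa s a b t k ∨ 0 ≤ Ubb s a b t k := by
  rcases le_total b (3313 / 10000) with h | h
  · exact u135 R hE hT s1 s2 b1 h t1 t2
  · exact u136 R hE hT s1 s2 h b2 t1 t2

theorem u133 {s a b t k : ℝ} (R : Reg s a b t k) (hE : t + k ≤ b / 2) (hT : h0 + t ≤ 1)
    (s1 : 7361 / 10000 ≤ s) (s2 : s ≤ 8661 / 10000)
    (b1 : 11 / 40 ≤ b) (b2 : b ≤ 1 / 2) (t1 : 62803 / 500000 ≤ t) (t2 : t ≤ 129793 / 1000000) :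
    0 ≤ Uaa s a b t k ∨ 0 ≤ Ubb s a b t k := by
  rcases le_total b (31 / 80) with h | h
  · exact u134 R hE hT s1 s2 b1 h t1 t2
  · exact u139 R hE hT s1 s2 h b2 t1 t2

theorem u132 {s a b t k : ℝ} (R : Reg s a b t k) (hE : t + k ≤ b / 2) (hT : h0 + t ≤ 1)
    (s1 : 7361 / 10000 ≤ s) (s2 : s ≤ 8661 / 10000)
    (b1 : 11 / 40 ≤ b) (b2 : b ≤ 1 / 2) (t1 : 62803 / 500000 ≤ t) (t2 : t ≤ 6699 / 50000) :
    0 ≤ Uaa s a b t k ∨ 0 ≤ Ubb s a b t k := by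
  rcases le_total t (129793 / 1000000) with h | h
  · exact u133 R hE hT s1 s2 b1 b2 t1 h
  · exact u140 R hE hT s1 s2 b1 b2 h t2

theorem u128 {s a b t k : ℝ} (R : Reg s a b t k) (hE : t + k ≤ b / 2) (hT : h0 + t ≤ 1)
    (s1 : 7361 / 10000 ≤ s) (s2 : s ≤ 8661 / 10000)
    (b1 : 11 / 40 ≤ b) (b2 : b ≤ 31 / 80) (t1 : 7327 / 62500 ≤ t) (t2 : t ≤ 62803 / 500000) :
    0 ≤ Uaa s a b t k ∨ 0 ≤ Ubb s a b t k := by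
  rcases le_total b (3313 / 10000) with h | h
  · exact u129 R hE hT s1 s2 b1 h t1 t2
  · exact u130 R hE hT s1 s2 h b2 t1 t2

theorem u127 {s a b t k : ℝ} (R : Reg s a b t k) (hE : t + k ≤ b / 2) (hT : h0 + t ≤ 1)
    (s1 : 7361 / 10000 ≤ s) (s2 : s ≤ 8661 / 10000)
    (b1 : 11 / 40 ≤ b) (b2 : b ≤ 1 / 2) (t1 : 7327 / 62500 ≤ t) (t2 : t ≤ 62803 / 500000) :
    0 ≤ Uaa s a b t k ∨ 0 ≤ Ubb s a b t k := by
  rcases le_total b (31 / 80) with h | h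
  · exact u128 R hE hT s1 s2 b1 h t1 t2
  · exact u131 R hE hT s1 s2 h b2 t1 t2

theorem u126 {s a b t k : ℝ} (R : Reg s a b t k) (hE : t + k ≤ b / 2) (hT : h0 + t ≤ 1)
    (s1 : 7361 / 10000 ≤ s) (s2 : s ≤ 8661 / 10000)
    (b1 : 11 / 40 ≤ b) (b2 : b ≤ 1 / 2) (t1 : 7327 / 62500 ≤ t) (t2 : t ≤ 6699 / 50000) :
    0 ≤ Uaa s a b t k ∨ 0 ≤ Ubb s a b t k := by
  rcases le_total t (62803 / 500000) with h | h
  · exact u127 R hE hT s1 s2 b1 b2 t1 h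
  · exact u132 R hE hT s1 s2 b1 b2 h t2

theorem u124 {s a b t k : ℝ} (R : Reg s a b t k) (hE : t + k ≤ b / 2) (hT : h0 + t ≤ 1)
    (s1 : 7361 / 10000 ≤ s) (s2 : s ≤ 8661 / 10000)
    (b1 : 11 / 40 ≤ b) (b2 : b ≤ 1 / 2) (t1 : 20097 / 200000 ≤ t) (t2 : t ≤ 6699 / 50000) :
    0 ≤ Uaa s a b t k ∨ 0 ≤ Ubb s a b t k := by
  rcases le_total t (7327 / 62500) with h | h
  · exact u125 R hE hT s1 s2 b1 b2 t1 h
  · exact u126 R hE hT s1 s2 b1 b2 h t2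

theorem u122 {s a b t k : ℝ} (R : Reg s a b t k) (hE : t + k ≤ b / 2) (hT : h0 + t ≤ 1)
    (s1 : 7361 / 10000 ≤ s) (s2 : s ≤ 8661 / 10000)
    (b1 : 11 / 40 ≤ b) (b2 : b ≤ 1 / 2) (t1 : 6699 / 100000 ≤ t) (t2 : t ≤ 6699 / 50000) :
    0 ≤ Uaa s a b t k ∨ 0 ≤ Ubb s a b t k := by
  rcases le_total t (20097 / 200000) with h | h
  · exact u123 R hE hT s1 s2 b1 b2 t1 h
  · exact u124 R hE hT s1 s2 b1 b2 h t2

theorem u120 {s a b t k : ℝ} (R : Reg s a b t k) (hE : t + k ≤ b / 2) (hT : h0 + t ≤ 1)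
    (s1 : 7361 / 10000 ≤ s) (s2 : s ≤ 8661 / 10000)
    (b1 : 11 / 40 ≤ b) (b2 : b ≤ 1 / 2) (t1 : 0 ≤ t) (t2 : t ≤ 6699 / 50000) :
    0 ≤ Uaa s a b t k ∨ 0 ≤ Ubb s a b t k := by
  rcases le_total t (6699 / 100000) with h | h
  · exact u121 R hE hT s1 s2 b1 b2 t1 h
  · exact u122 R hE hT s1 s2 b1 b2 h t2

theorem u116 {s a b t k : ℝ} (R : Reg s a b t k) (hE : t + k ≤ b / 2) (hT : h0 + t ≤ 1)
    (s1 : 7361 / 10000 ≤ s) (s2 : s ≤ 8661 / 10000)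
    (b1 : 547 / 2500 ≤ b) (b2 : b ≤ 11 / 40) (t1 : 20097 / 200000 ≤ t) (t2 : t ≤ 7327 / 62500) :
    0 ≤ Uaa s a b t k ∨ 0 ≤ Ubb s a b t k := by
  rcases le_total t (108859 / 1000000) with h | h
  · exact u117 R hE hT s1 s2 b1 b2 t1 h
  · exact u118 R hE hT s1 s2 b1 b2 h t2

theorem u114 {s a b t k : ℝ} (R : Reg s a b t k) (hE : t + k ≤ b / 2) (hT : h0 + t ≤ 1)
    (s1 : 7361 / 10000 ≤ s) (s2 : s ≤ 8661 / 10000)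
    (b1 : 13 / 80 ≤ b) (b2 : b ≤ 11 / 40) (t1 : 20097 / 200000 ≤ t) (t2 : t ≤ 7327 / 62500) :
    0 ≤ Uaa s a b t k ∨ 0 ≤ Ubb s a b t k := by
  rcases le_total b (547 / 2500) with h | h
  · exact u115 R hE hT s1 s2 b1 h t1 t2
  · exact u116 R hE hT s1 s2 h b2 t1 t2

theorem u112 {s a b t k : ℝ} (R : Reg s a b t k) (hE : t + k ≤ b / 2) (hT : h0 + t ≤ 1)
    (s1 : 7361 / 10000 ≤ s) (s2 : s ≤ 8661 / 10000)
    (b1 : 1 / 20 ≤ b) (b2 : b ≤ 11 / 40) (t1 : 20097 / 200000 ≤ t) (t2 : t ≤ 7327 / 62500) :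
    0 ≤ Uaa s a b t k ∨ 0 ≤ Ubb s a b t k := by
  rcases le_total b (13 / 80) with h | h
  · exact u113 R hE hT s1 s2 b1 h t1 t2
  · exact u114 R hE hT s1 s2 h b2 t1 t2

theorem u111 {s a b t k : ℝ} (R : Reg s a b t k) (hE : t + k ≤ b / 2) (hT : h0 + t ≤ 1)
    (s1 : 7361 / 10000 ≤ s) (s2 : s ≤ 8661 / 10000)
    (b1 : 1 / 20 ≤ b) (b2 : b ≤ 11 / 40) (t1 : 20097 / 200000 ≤ t) (t2 : t ≤ 6699 / 50000) :
    0 ≤ Uaa s a b t k ∨ 0 ≤ Ubb s a b t k := by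
  rcases le_total t (7327 / 62500) with h | h
  · exact u112 R hE hT s1 s2 b1 b2 t1 h
  · exact u119 R hE hT s1 s2 b1 b2 h t2

theorem u108 {s a b t k : ℝ} (R : Reg s a b t k) (hE : t + k ≤ b / 2) (hT : h0 + t ≤ 1)
    (s1 : 7361 / 10000 ≤ s) (s2 : s ≤ 8661 / 10000)
    (b1 : 13 / 80 ≤ b) (b2 : b ≤ 11 / 40) (t1 : 6699 / 100000 ≤ t) (t2 : t ≤ 20097 / 200000) :
    0 ≤ Uaa s a b t k ∨ 0 ≤ Ubb s a b t k := by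
  rcases le_total s (8011 / 10000) with h | h
  · exact u109 R hE hT s1 h b1 b2 t1 t2
  · exact u110 R hE hT h s2 b1 b2 t1 t2

theorem u104 {s a b t k : ℝ} (R : Reg s a b t k) (hE : t + k ≤ b / 2) (hT : h0 + t ≤ 1)
    (s1 : 7361 / 10000 ≤ s) (s2 : s ≤ 8661 / 10000)
    (b1 : 1063 / 10000 ≤ b) (b2 : b ≤ 13 / 80) (t1 : 6699 / 100000 ≤ t) (t2 : t ≤ 83737 / 1000000) :
    0 ≤ Uaa s a b t k ∨ 0 ≤ Ubb s a b t k := by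
  rcases le_total b (84 / 625) with h | h
  · exact u105 R hE hT s1 s2 b1 h t1 t2
  · exact u106 R hE hT s1 s2 h b2 t1 t2

theorem u103 {s a b t k : ℝ} (R : Reg s a b t k) (hE : t + k ≤ b / 2) (hT : h0 + t ≤ 1)
    (s1 : 7361 / 10000 ≤ s) (s2 : s ≤ 8661 / 10000)
    (b1 : 1063 / 10000 ≤ b) (b2 : b ≤ 13 / 80) (t1 : 6699 / 100000 ≤ t) (t2 : t ≤ 20097 / 200000) :
    0 ≤ Uaa s a b t k ∨ 0 ≤ Ubb s a b t k := by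
  rcases le_total t (83737 / 1000000) with h | h
  · exact u104 R hE hT s1 s2 b1 b2 t1 h
  · exact u107 R hE hT s1 s2 b1 b2 h t2

theorem u101 {s a b t k : ℝ} (R : Reg s a b t k) (hE : t + k ≤ b / 2) (hT : h0 + t ≤ 1)
    (s1 : 7361 / 10000 ≤ s) (s2 : s ≤ 8661 / 10000)
    (b1 : 1 / 20 ≤ b) (b2 : b ≤ 13 / 80) (t1 : 6699 / 100000 ≤ t) (t2 : t ≤ 20097 / 200000) :
    0 ≤ Uaa s a b t k ∨ 0 ≤ Ubb s a b t k := by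
  rcases le_total b (1063 / 10000) with h | h
  · exact u102 R hE hT s1 s2 b1 h t1 t2
  · exact u103 R hE hT s1 s2 h b2 t1 t2

theorem u100 {s a b t k : ℝ} (R : Reg s a b t k) (hE : t + k ≤ b / 2) (hT : h0 + t ≤ 1)
    (s1 : 7361 / 10000 ≤ s) (s2 : s ≤ 8661 / 10000)
    (b1 : 1 / 20 ≤ b) (b2 : b ≤ 11 / 40) (t1 : 6699 / 100000 ≤ t) (t2 : t ≤ 20097 / 200000) :
    0 ≤ Uaa s a b t k ∨ 0 ≤ Ubb s a b t k := by
  rcases le_total b (13 / 80) with h | h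
  · exact u101 R hE hT s1 s2 b1 h t1 t2
  · exact u108 R hE hT s1 s2 h b2 t1 t2

theorem u99 {s a b t k : ℝ} (R : Reg s a b t k) (hE : t + k ≤ b / 2) (hT : h0 + t ≤ 1)
    (s1 : 7361 / 10000 ≤ s) (s2 : s ≤ 8661 / 10000)
    (b1 : 1 / 20 ≤ b) (b2 : b ≤ 11 / 40) (t1 : 6699 / 100000 ≤ t) (t2 : t ≤ 6699 / 50000) :
    0 ≤ Uaa s a b t k ∨ 0 ≤ Ubb s a b t k := by
  rcases le_total t (20097 / 200000) with h | h
  · exact u100 R hE hT s1 s2 b1 b2 t1 h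
  · exact u111 R hE hT s1 s2 b1 b2 h t2

theorem u96 {s a b t k : ℝ} (R : Reg s a b t k) (hE : t + k ≤ b / 2) (hT : h0 + t ≤ 1)
    (s1 : 8011 / 10000 ≤ s) (s2 : s ≤ 8661 / 10000)
    (b1 : 13 / 80 ≤ b) (b2 : b ≤ 11 / 40) (t1 : 0 ≤ t) (t2 : t ≤ 6699 / 100000) :
    0 ≤ Uaa s a b t k ∨ 0 ≤ Ubb s a b t k := by
  rcases le_total t (6699 / 200000) with h | h
  · exact u97 R hE hT s1 s2 b1 b2 t1 h
  · exact u98 R hE hT s1 s2 b1 b2 h t2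

theorem u92 {s a b t k : ℝ} (R : Reg s a b t k) (hE : t + k ≤ b / 2) (hT : h0 + t ≤ 1)
    (s1 : 8011 / 10000 ≤ s) (s2 : s ≤ 8661 / 10000)
    (b1 : 1063 / 10000 ≤ b) (b2 : b ≤ 84 / 625) (t1 : 6699 / 200000 ≤ t) (t2 : t ≤ 6699 / 100000) :
    0 ≤ Uaa s a b t k ∨ 0 ≤ Ubb s a b t k := by
  rcases le_total s (521 / 625) with h | h
  · exact u93 R hE hT s1 h b1 b2 t1 t2
  · exact u94 R hE hT h s2 b1 b2 t1 t2

theorem u91 {s a b t k : ℝ} (R : Reg s a b t k) (hE : t + k ≤ b / 2) (hT : h0 + t ≤ 1)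
    (s1 : 8011 / 10000 ≤ s) (s2 : s ≤ 8661 / 10000)
    (b1 : 1063 / 10000 ≤ b) (b2 : b ≤ 13 / 80) (t1 : 6699 / 200000 ≤ t) (t2 : t ≤ 6699 / 100000) :
    0 ≤ Uaa s a b t k ∨ 0 ≤ Ubb s a b t k := by
  rcases le_total b (84 / 625) with h | h
  · exact u92 R hE hT s1 s2 b1 h t1 t2
  · exact u95 R hE hT s1 s2 h b2 t1 t2

theorem u84 {s a b t k : ℝ} (R : Reg s a b t k) (hE : t + k ≤ b / 2) (hT : h0 + t ≤ 1)
    (s1 : 8011 / 10000 ≤ s) (s2 : s ≤ 521 / 625)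
    (b1 : 1 / 20 ≤ b) (b2 : b ≤ 391 / 5000) (t1 : 6699 / 200000 ≤ t) (t2 : t ≤ 41869 / 1000000) :
    0 ≤ Uaa s a b t k ∨ 0 ≤ Ubb s a b t k := by
  rcases le_total b (641 / 10000) with h | h
  · exact u85 R hE hT s1 s2 b1 h t1 t2
  · exact u86 R hE hT s1 s2 h b2 t1 t2

theorem u83 {s a b t k : ℝ} (R : Reg s a b t k) (hE : t + k ≤ b / 2) (hT : h0 + t ≤ 1)
    (s1 : 8011 / 10000 ≤ s) (s2 : s ≤ 521 / 625)
    (b1 : 1 / 20 ≤ b) (b2 : b ≤ 391 / 5000) (t1 : 6699 / 200000 ≤ t) (t2 : t ≤ 25121 / 500000) :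
    0 ≤ Uaa s a b t k ∨ 0 ≤ Ubb s a b t k := by
  rcases le_total t (41869 / 1000000) with h | h
  · exact u84 R hE hT s1 s2 b1 b2 t1 h
  · exact u87 R hE hT s1 s2 b1 b2 h t2

theorem u82 {s a b t k : ℝ} (R : Reg s a b t k) (hE : t + k ≤ b / 2) (hT : h0 + t ≤ 1)
    (s1 : 8011 / 10000 ≤ s) (s2 : s ≤ 521 / 625)
    (b1 : 1 / 20 ≤ b) (b2 : b ≤ 1063 / 10000) (t1 : 6699 / 200000 ≤ t) (t2 : t ≤ 25121 / 500000) :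
    0 ≤ Uaa s a b t k ∨ 0 ≤ Ubb s a b t k := by
  rcases le_total b (391 / 5000) with h | h
  · exact u83 R hE hT s1 s2 b1 h t1 t2
  · exact u88 R hE hT s1 s2 h b2 t1 t2

theorem u81 {s a b t k : ℝ} (R : Reg s a b t k) (hE : t + k ≤ b / 2) (hT : h0 + t ≤ 1)
    (s1 : 8011 / 10000 ≤ s) (s2 : s ≤ 8661 / 10000)
    (b1 : 1 / 20 ≤ b) (b2 : b ≤ 1063 / 10000) (t1 : 6699 / 200000 ≤ t) (t2 : t ≤ 25121 / 500000) :
    0 ≤ Uaa s a b t k ∨ 0 ≤ Ubb s a b t k := by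
  rcases le_total s (521 / 625) with h | h
  · exact u82 R hE hT s1 h b1 b2 t1 t2
  · exact u89 R hE hT h s2 b1 b2 t1 t2

theorem u80 {s a b t k : ℝ} (R : Reg s a b t k) (hE : t + k ≤ b / 2) (hT : h0 + t ≤ 1)
    (s1 : 8011 / 10000 ≤ s) (s2 : s ≤ 8661 / 10000)
    (b1 : 1 / 20 ≤ b) (b2 : b ≤ 1063 / 10000) (t1 : 6699 / 200000 ≤ t) (t2 : t ≤ 6699 / 100000) :
    0 ≤ Uaa s a b t k ∨ 0 ≤ Ubb s a b t k := by
  rcases le_total t (25121 / 500000) with h | h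
  · exact u81 R hE hT s1 s2 b1 b2 t1 h
  · exact u90 R hE hT s1 s2 b1 b2 h t2

theorem u79 {s a b t k : ℝ} (R : Reg s a b t k) (hE : t + k ≤ b / 2) (hT : h0 + t ≤ 1)
    (s1 : 8011 / 10000 ≤ s) (s2 : s ≤ 8661 / 10000)
    (b1 : 1 / 20 ≤ b) (b2 : b ≤ 13 / 80) (t1 : 6699 / 200000 ≤ t) (t2 : t ≤ 6699 / 100000) :
    0 ≤ Uaa s a b t k ∨ 0 ≤ Ubb s a b t k := by
  rcases le_total b (1063 / 10000) with h | h
  · exact u80 R hE hT s1 s2 b1 h t1 t2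
  · exact u91 R hE hT s1 s2 h b2 t1 t2

theorem u75 {s a b t k : ℝ} (R : Reg s a b t k) (hE : t + k ≤ b / 2) (hT : h0 + t ≤ 1)
    (s1 : 521 / 625 ≤ s) (s2 : s ≤ 8661 / 10000)
    (b1 : 1 / 20 ≤ b) (b2 : b ≤ 1063 / 10000) (t1 : 0 ≤ t) (t2 : t ≤ 6699 / 200000) :
    0 ≤ Uaa s a b t k ∨ 0 ≤ Ubb s a b t k := by
  rcases le_total t (4187 / 250000) with h | h
  · exact u76 R hE hT s1 s2 b1 b2 t1 h
  · exact u77 R hE hT s1 s2 b1 b2 h t2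

theorem u74 {s a b t k : ℝ} (R : Reg s a b t k) (hE : t + k ≤ b / 2) (hT : h0 + t ≤ 1)
    (s1 : 521 / 625 ≤ s) (s2 : s ≤ 8661 / 10000)
    (b1 : 1 / 20 ≤ b) (b2 : b ≤ 13 / 80) (t1 : 0 ≤ t) (t2 : t ≤ 6699 / 200000) :
    0 ≤ Uaa s a b t k ∨ 0 ≤ Ubb s a b t k := by
  rcases le_total b (1063 / 10000) with h | h
  · exact u75 R hE hT s1 s2 b1 h t1 t2
  · exact u78 R hE hT s1 s2 h b2 t1 t2

theorem u70 {s a b t k : ℝ} (R : Reg s a b t k) (hE : t + k ≤ b / 2) (hT : h0 + t ≤ 1)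
    (s1 : 8011 / 10000 ≤ s) (s2 : s ≤ 521 / 625)
    (b1 : 1 / 20 ≤ b) (b2 : b ≤ 1063 / 10000) (t1 : 0 ≤ t) (t2 : t ≤ 6699 / 200000) :
    0 ≤ Uaa s a b t k ∨ 0 ≤ Ubb s a b t k := by
  rcases le_total t (4187 / 250000) with h | h
  · exact u71 R hE hT s1 s2 b1 b2 t1 h
  · exact u72 R hE hT s1 s2 b1 b2 h t2

theorem u69 {s a b t k : ℝ} (R : Reg s a b t k) (hE : t + k ≤ b / 2) (hT : h0 + t ≤ 1)
    (s1 : 8011 / 10000 ≤ s) (s2 : s ≤ 521 / 625)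
    (b1 : 1 / 20 ≤ b) (b2 : b ≤ 13 / 80) (t1 : 0 ≤ t) (t2 : t ≤ 6699 / 200000) :
    0 ≤ Uaa s a b t k ∨ 0 ≤ Ubb s a b t k := by
  rcases le_total b (1063 / 10000) with h | h
  · exact u70 R hE hT s1 s2 b1 h t1 t2
  · exact u73 R hE hT s1 s2 h b2 t1 t2

theorem u68 {s a b t k : ℝ} (R : Reg s a b t k) (hE : t + k ≤ b / 2) (hT : h0 + t ≤ 1)
    (s1 : 8011 / 10000 ≤ s) (s2 : s ≤ 8661 / 10000)
    (b1 : 1 / 20 ≤ b) (b2 : b ≤ 13 / 80) (t1 : 0 ≤ t) (t2 : t ≤ 6699 / 200000) :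
    0 ≤ Uaa s a b t k ∨ 0 ≤ Ubb s a b t k := by
  rcases le_total s (521 / 625) with h | h
  · exact u69 R hE hT s1 h b1 b2 t1 t2
  · exact u74 R hE hT h s2 b1 b2 t1 t2

theorem u67 {s a b t k : ℝ} (R : Reg s a b t k) (hE : t + k ≤ b / 2) (hT : h0 + t ≤ 1)
    (s1 : 8011 / 10000 ≤ s) (s2 : s ≤ 8661 / 10000)
    (b1 : 1 / 20 ≤ b) (b2 : b ≤ 13 / 80) (t1 : 0 ≤ t) (t2 : t ≤ 6699 / 100000) :
    0 ≤ Uaa s a b t k ∨ 0 ≤ Ubb s a b t k := by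
  rcases le_total t (6699 / 200000) with h | h
  · exact u68 R hE hT s1 s2 b1 b2 t1 h
  · exact u79 R hE hT s1 s2 b1 b2 h t2

theorem u66 {s a b t k : ℝ} (R : Reg s a b t k) (hE : t + k ≤ b / 2) (hT : h0 + t ≤ 1)
    (s1 : 8011 / 10000 ≤ s) (s2 : s ≤ 8661 / 10000)
    (b1 : 1 / 20 ≤ b) (b2 : b ≤ 11 / 40) (t1 : 0 ≤ t) (t2 : t ≤ 6699 / 100000) :
    0 ≤ Uaa s a b t k ∨ 0 ≤ Ubb s a b t k := by
  rcases le_total b (13 / 80) with h | h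
  · exact u67 R hE hT s1 s2 b1 h t1 t2
  · exact u96 R hE hT s1 s2 h b2 t1 t2

theorem u59 {s a b t k : ℝ} (R : Reg s a b t k) (hE : t + k ≤ b / 2) (hT : h0 + t ≤ 1)
    (s1 : 3843 / 5000 ≤ s) (s2 : s ≤ 8011 / 10000)
    (b1 : 391 / 5000 ≤ b) (b2 : b ≤ 923 / 10000) (t1 : 6699 / 200000 ≤ t) (t2 : t ≤ 25121 / 500000) :
    0 ≤ Uaa s a b t k ∨ 0 ≤ Ubb s a b t k := by
  rcases le_total t (41869 / 1000000) with h | h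
  · exact u60 R hE hT s1 s2 b1 b2 t1 h
  · exact u61 R hE hT s1 s2 b1 b2 h t2

theorem u58 {s a b t k : ℝ} (R : Reg s a b t k) (hE : t + k ≤ b / 2) (hT : h0 + t ≤ 1)
    (s1 : 3843 / 5000 ≤ s) (s2 : s ≤ 8011 / 10000)
    (b1 : 391 / 5000 ≤ b) (b2 : b ≤ 1063 / 10000) (t1 : 6699 / 200000 ≤ t) (t2 : t ≤ 25121 / 500000) :
    0 ≤ Uaa s a b t k ∨ 0 ≤ Ubb s a b t k := by
  rcases le_total b (923 / 10000) with h | h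
  · exact u59 R hE hT s1 s2 b1 h t1 t2
  · exact u62 R hE hT s1 s2 h b2 t1 t2

theorem u56 {s a b t k : ℝ} (R : Reg s a b t k) (hE : t + k ≤ b / 2) (hT : h0 + t ≤ 1)
    (s1 : 7361 / 10000 ≤ s) (s2 : s ≤ 8011 / 10000)
    (b1 : 391 / 5000 ≤ b) (b2 : b ≤ 1063 / 10000) (t1 : 6699 / 200000 ≤ t) (t2 : t ≤ 25121 / 500000) :
    0 ≤ Uaa s a b t k ∨ 0 ≤ Ubb s a b t k := by
  rcases le_total s (3843 / 5000) with h | h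
  · exact u57 R hE hT s1 h b1 b2 t1 t2
  · exact u58 R hE hT h s2 b1 b2 t1 t2

theorem u50 {s a b t k : ℝ} (R : Reg s a b t k) (hE : t + k ≤ b / 2) (hT : h0 + t ≤ 1)
    (s1 : 7361 / 10000 ≤ s) (s2 : s ≤ 3843 / 5000)
    (b1 : 89 / 1250 ≤ b) (b2 : b ≤ 391 / 5000) (t1 : 6699 / 200000 ≤ t) (t2 : t ≤ 18841 / 500000) :
    0 ≤ Uaa s a b t k ∨ 0 ≤ Ubb s a b t k := by
  rcases le_total s (1881 / 2500) with h | h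
  · exact u51 R hE hT s1 h b1 b2 t1 t2
  · exact u52 R hE hT h s2 b1 b2 t1 t2

theorem u49 {s a b t k : ℝ} (R : Reg s a b t k) (hE : t + k ≤ b / 2) (hT : h0 + t ≤ 1)
    (s1 : 7361 / 10000 ≤ s) (s2 : s ≤ 8011 / 10000)
    (b1 : 89 / 1250 ≤ b) (b2 : b ≤ 391 / 5000) (t1 : 6699 / 200000 ≤ t) (t2 : t ≤ 18841 / 500000) :
    0 ≤ Uaa s a b t k ∨ 0 ≤ Ubb s a b t k := by
  rcases le_total s (3843 / 5000) with h | h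
  · exact u50 R hE hT s1 h b1 b2 t1 t2
  · exact u53 R hE hT h s2 b1 b2 t1 t2

theorem u47 {s a b t k : ℝ} (R : Reg s a b t k) (hE : t + k ≤ b / 2) (hT : h0 + t ≤ 1)
    (s1 : 7361 / 10000 ≤ s) (s2 : s ≤ 8011 / 10000)
    (b1 : 641 / 10000 ≤ b) (b2 : b ≤ 391 / 5000) (t1 : 6699 / 200000 ≤ t) (t2 : t ≤ 18841 / 500000) :
    0 ≤ Uaa s a b t k ∨ 0 ≤ Ubb s a b t k := by
  rcases le_total b (89 / 1250) with h | h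
  · exact u48 R hE hT s1 s2 b1 h t1 t2
  · exact u49 R hE hT s1 s2 h b2 t1 t2

theorem u46 {s a b t k : ℝ} (R : Reg s a b t k) (hE : t + k ≤ b / 2) (hT : h0 + t ≤ 1)
    (s1 : 7361 / 10000 ≤ s) (s2 : s ≤ 8011 / 10000)
    (b1 : 641 / 10000 ≤ b) (b2 : b ≤ 391 / 5000) (t1 : 6699 / 200000 ≤ t) (t2 : t ≤ 41869 / 1000000) :
    0 ≤ Uaa s a b t k ∨ 0 ≤ Ubb s a b t k := by
  rcases le_total t (18841 / 500000) with h | h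
  · exact u47 R hE hT s1 s2 b1 b2 t1 h
  · exact u54 R hE hT s1 s2 b1 b2 h t2

theorem u44 {s a b t k : ℝ} (R : Reg s a b t k) (hE : t + k ≤ b / 2) (hT : h0 + t ≤ 1)
    (s1 : 7361 / 10000 ≤ s) (s2 : s ≤ 8011 / 10000)
    (b1 : 1 / 20 ≤ b) (b2 : b ≤ 391 / 5000) (t1 : 6699 / 200000 ≤ t) (t2 : t ≤ 41869 / 1000000) :
    0 ≤ Uaa s a b t k ∨ 0 ≤ Ubb s a b t k := by
  rcases le_total b (641 / 10000) with h | h
  · exact u45 R hE hT s1 s2 b1 h t1 t2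
  · exact u46 R hE hT s1 s2 h b2 t1 t2

theorem u43 {s a b t k : ℝ} (R : Reg s a b t k) (hE : t + k ≤ b / 2) (hT : h0 + t ≤ 1)
    (s1 : 7361 / 10000 ≤ s) (s2 : s ≤ 8011 / 10000)
    (b1 : 1 / 20 ≤ b) (b2 : b ≤ 391 / 5000) (t1 : 6699 / 200000 ≤ t) (t2 : t ≤ 25121 / 500000) :
    0 ≤ Uaa s a b t k ∨ 0 ≤ Ubb s a b t k := by
  rcases le_total t (41869 / 1000000) with h | h
  · exact u44 R hE hT s1 s2 b1 b2 t1 h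
  · exact u55 R hE hT s1 s2 b1 b2 h t2

theorem u42 {s a b t k : ℝ} (R : Reg s a b t k) (hE : t + k ≤ b / 2) (hT : h0 + t ≤ 1)
    (s1 : 7361 / 10000 ≤ s) (s2 : s ≤ 8011 / 10000)
    (b1 : 1 / 20 ≤ b) (b2 : b ≤ 1063 / 10000) (t1 : 6699 / 200000 ≤ t) (t2 : t ≤ 25121 / 500000) :
    0 ≤ Uaa s a b t k ∨ 0 ≤ Ubb s a b t k := by
  rcases le_total b (391 / 5000) with h | h
  · exact u43 R hE hT s1 s2 b1 h t1 t2
  · exact u56 R hE hT s1 s2 h b2 t1 t2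

theorem u41 {s a b t k : ℝ} (R : Reg s a b t k) (hE : t + k ≤ b / 2) (hT : h0 + t ≤ 1)
    (s1 : 7361 / 10000 ≤ s) (s2 : s ≤ 8011 / 10000)
    (b1 : 1 / 20 ≤ b) (b2 : b ≤ 1063 / 10000) (t1 : 6699 / 200000 ≤ t) (t2 : t ≤ 6699 / 100000) :
    0 ≤ Uaa s a b t k ∨ 0 ≤ Ubb s a b t k := by
  rcases le_total t (25121 / 500000) with h | h
  · exact u42 R hE hT s1 s2 b1 b2 t1 h
  · exact u63 R hE hT s1 s2 b1 b2 h t2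

theorem u40 {s a b t k : ℝ} (R : Reg s a b t k) (hE : t + k ≤ b / 2) (hT : h0 + t ≤ 1)
    (s1 : 7361 / 10000 ≤ s) (s2 : s ≤ 8011 / 10000)
    (b1 : 1 / 20 ≤ b) (b2 : b ≤ 13 / 80) (t1 : 6699 / 200000 ≤ t) (t2 : t ≤ 6699 / 100000) :
    0 ≤ Uaa s a b t k ∨ 0 ≤ Ubb s a b t k := by
  rcases le_total b (1063 / 10000) with h | h
  · exact u41 R hE hT s1 s2 b1 h t1 t2
  · exact u64 R hE hT s1 s2 h b2 t1 t2

theorem u35 {s a b t k : ℝ} (R : Reg s a b t k) (hE : t + k ≤ b / 2) (hT : h0 + t ≤ 1)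
    (s1 : 3843 / 5000 ≤ s) (s2 : s ≤ 8011 / 10000)
    (b1 : 1 / 20 ≤ b) (b2 : b ≤ 391 / 5000) (t1 : 25121 / 1000000 ≤ t) (t2 : t ≤ 6699 / 200000) :
    0 ≤ Uaa s a b t k ∨ 0 ≤ Ubb s a b t k := by
  rcases le_total s (7849 / 10000) with h | h
  · exact u36 R hE hT s1 h b1 b2 t1 t2
  · exact u37 R hE hT h s2 b1 b2 t1 t2

theorem u33 {s a b t k : ℝ} (R : Reg s a b t k) (hE : t + k ≤ b / 2) (hT : h0 + t ≤ 1)
    (s1 : 3843 / 5000 ≤ s) (s2 : s ≤ 8011 / 10000)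
    (b1 : 1 / 20 ≤ b) (b2 : b ≤ 391 / 5000) (t1 : 4187 / 250000 ≤ t) (t2 : t ≤ 6699 / 200000) :
    0 ≤ Uaa s a b t k ∨ 0 ≤ Ubb s a b t k := by
  rcases le_total t (25121 / 1000000) with h | h
  · exact u34 R hE hT s1 s2 b1 b2 t1 h
  · exact u35 R hE hT s1 s2 b1 b2 h t2

theorem u32 {s a b t k : ℝ} (R : Reg s a b t k) (hE : t + k ≤ b / 2) (hT : h0 + t ≤ 1)
    (s1 : 3843 / 5000 ≤ s) (s2 : s ≤ 8011 / 10000)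
    (b1 : 1 / 20 ≤ b) (b2 : b ≤ 1063 / 10000) (t1 : 4187 / 250000 ≤ t) (t2 : t ≤ 6699 / 200000) :
    0 ≤ Uaa s a b t k ∨ 0 ≤ Ubb s a b t k := by
  rcases le_total b (391 / 5000) with h | h
  · exact u33 R hE hT s1 s2 b1 h t1 t2
  · exact u38 R hE hT s1 s2 h b2 t1 t2

theorem u30 {s a b t k : ℝ} (R : Reg s a b t k) (hE : t + k ≤ b / 2) (hT : h0 + t ≤ 1)
    (s1 : 3843 / 5000 ≤ s) (s2 : s ≤ 8011 / 10000)
    (b1 : 1 / 20 ≤ b) (b2 : b ≤ 1063 / 10000) (t1 : 0 ≤ t) (t2 : t ≤ 6699 / 200000) :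
    0 ≤ Uaa s a b t k ∨ 0 ≤ Ubb s a b t k := by
  rcases le_total t (4187 / 250000) with h | h
  · exact u31 R hE hT s1 s2 b1 b2 t1 h
  · exact u32 R hE hT s1 s2 b1 b2 h t2

theorem u29 {s a b t k : ℝ} (R : Reg s a b t k) (hE : t + k ≤ b / 2) (hT : h0 + t ≤ 1)
    (s1 : 3843 / 5000 ≤ s) (s2 : s ≤ 8011 / 10000)
    (b1 : 1 / 20 ≤ b) (b2 : b ≤ 13 / 80) (t1 : 0 ≤ t) (t2 : t ≤ 6699 / 200000) :
    0 ≤ Uaa s a b t k ∨ 0 ≤ Ubb s a b t k := by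
  rcases le_total b (1063 / 10000) with h | h
  · exact u30 R hE hT s1 s2 b1 h t1 t2
  · exact u39 R hE hT s1 s2 h b2 t1 t2

theorem u23 {s a b t k : ℝ} (R : Reg s a b t k) (hE : t + k ≤ b / 2) (hT : h0 + t ≤ 1)
    (s1 : 1881 / 2500 ≤ s) (s2 : s ≤ 3843 / 5000)
    (b1 : 1 / 20 ≤ b) (b2 : b ≤ 641 / 10000) (t1 : 7327 / 250000 ≤ t) (t2 : t ≤ 6699 / 200000) :
    0 ≤ Uaa s a b t k ∨ 0 ≤ Ubb s a b t k := by
  rcases le_total b (571 / 10000) with h | h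
  · exact u24 R hE hT s1 s2 b1 h t1 t2
  · exact u25 R hE hT s1 s2 h b2 t1 t2

theorem u21 {s a b t k : ℝ} (R : Reg s a b t k) (hE : t + k ≤ b / 2) (hT : h0 + t ≤ 1)
    (s1 : 1881 / 2500 ≤ s) (s2 : s ≤ 3843 / 5000)
    (b1 : 1 / 20 ≤ b) (b2 : b ≤ 641 / 10000) (t1 : 25121 / 1000000 ≤ t) (t2 : t ≤ 6699 / 200000) :
    0 ≤ Uaa s a b t k ∨ 0 ≤ Ubb s a b t k := by
  rcases le_total t (7327 / 250000) with h | h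
  · exact u22 R hE hT s1 s2 b1 b2 t1 h
  · exact u23 R hE hT s1 s2 b1 b2 h t2

theorem u20 {s a b t k : ℝ} (R : Reg s a b t k) (hE : t + k ≤ b / 2) (hT : h0 + t ≤ 1)
    (s1 : 1881 / 2500 ≤ s) (s2 : s ≤ 3843 / 5000)
    (b1 : 1 / 20 ≤ b) (b2 : b ≤ 391 / 5000) (t1 : 25121 / 1000000 ≤ t) (t2 : t ≤ 6699 / 200000) :
    0 ≤ Uaa s a b t k ∨ 0 ≤ Ubb s a b t k := by
  rcases le_total b (641 / 10000) with h | h
  · exact u21 R hE hT s1 s2 b1 h t1 t2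
  · exact u26 R hE hT s1 s2 h b2 t1 t2

theorem u16 {s a b t k : ℝ} (R : Reg s a b t k) (hE : t + k ≤ b / 2) (hT : h0 + t ≤ 1)
    (s1 : 7361 / 10000 ≤ s) (s2 : s ≤ 1881 / 2500)
    (b1 : 1 / 20 ≤ b) (b2 : b ≤ 641 / 10000) (t1 : 7327 / 250000 ≤ t) (t2 : t ≤ 6699 / 200000) :
    0 ≤ Uaa s a b t k ∨ 0 ≤ Ubb s a b t k := by
  rcases le_total b (571 / 10000) with h | h
  · exact u17 R hE hT s1 s2 b1 h t1 t2
  · exact u18 R hE hT s1 s2 h b2 t1 t2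

theorem u14 {s a b t k : ℝ} (R : Reg s a b t k) (hE : t + k ≤ b / 2) (hT : h0 + t ≤ 1)
    (s1 : 7361 / 10000 ≤ s) (s2 : s ≤ 1881 / 2500)
    (b1 : 1 / 20 ≤ b) (b2 : b ≤ 641 / 10000) (t1 : 25121 / 1000000 ≤ t) (t2 : t ≤ 6699 / 200000) :
    0 ≤ Uaa s a b t k ∨ 0 ≤ Ubb s a b t k := by
  rcases le_total t (7327 / 250000) with h | h
  · exact u15 R hE hT s1 s2 b1 b2 t1 h
  · exact u16 R hE hT s1 s2 b1 b2 h t2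

theorem u13 {s a b t k : ℝ} (R : Reg s a b t k) (hE : t + k ≤ b / 2) (hT : h0 + t ≤ 1)
    (s1 : 7361 / 10000 ≤ s) (s2 : s ≤ 1881 / 2500)
    (b1 : 1 / 20 ≤ b) (b2 : b ≤ 391 / 5000) (t1 : 25121 / 1000000 ≤ t) (t2 : t ≤ 6699 / 200000) :
    0 ≤ Uaa s a b t k ∨ 0 ≤ Ubb s a b t k := by
  rcases le_total b (641 / 10000) with h | h
  · exact u14 R hE hT s1 s2 b1 h t1 t2
  · exact u19 R hE hT s1 s2 h b2 t1 t2

theorem u12 {s a b t k : ℝ} (R : Reg s a b t k) (hE : t + k ≤ b / 2) (hT : h0 + t ≤ 1)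
    (s1 : 7361 / 10000 ≤ s) (s2 : s ≤ 3843 / 5000)
    (b1 : 1 / 20 ≤ b) (b2 : b ≤ 391 / 5000) (t1 : 25121 / 1000000 ≤ t) (t2 : t ≤ 6699 / 200000) :
    0 ≤ Uaa s a b t k ∨ 0 ≤ Ubb s a b t k := by
  rcases le_total s (1881 / 2500) with h | h
  · exact u13 R hE hT s1 h b1 b2 t1 t2
  · exact u20 R hE hT h s2 b1 b2 t1 t2

theorem u10 {s a b t k : ℝ} (R : Reg s a b t k) (hE : t + k ≤ b / 2) (hT : h0 + t ≤ 1)
    (s1 : 7361 / 10000 ≤ s) (s2 : s ≤ 3843 / 5000)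
    (b1 : 1 / 20 ≤ b) (b2 : b ≤ 391 / 5000) (t1 : 4187 / 250000 ≤ t) (t2 : t ≤ 6699 / 200000) :
    0 ≤ Uaa s a b t k ∨ 0 ≤ Ubb s a b t k := by
  rcases le_total t (25121 / 1000000) with h | h
  · exact u11 R hE hT s1 s2 b1 b2 t1 h
  · exact u12 R hE hT s1 s2 b1 b2 h t2

theorem u9 {s a b t k : ℝ} (R : Reg s a b t k) (hE : t + k ≤ b / 2) (hT : h0 + t ≤ 1)
    (s1 : 7361 / 10000 ≤ s) (s2 : s ≤ 3843 / 5000)
    (b1 : 1 / 20 ≤ b) (b2 : b ≤ 1063 / 10000) (t1 : 4187 / 250000 ≤ t) (t2 : t ≤ 6699 / 200000) :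
    0 ≤ Uaa s a b t k ∨ 0 ≤ Ubb s a b t k := by
  rcases le_total b (391 / 5000) with h | h
  · exact u10 R hE hT s1 s2 b1 h t1 t2
  · exact u27 R hE hT s1 s2 h b2 t1 t2

theorem u7 {s a b t k : ℝ} (R : Reg s a b t k) (hE : t + k ≤ b / 2) (hT : h0 + t ≤ 1)
    (s1 : 7361 / 10000 ≤ s) (s2 : s ≤ 3843 / 5000)
    (b1 : 1 / 20 ≤ b) (b2 : b ≤ 1063 / 10000) (t1 : 0 ≤ t) (t2 : t ≤ 6699 / 200000) :
    0 ≤ Uaa s a b t k ∨ 0 ≤ Ubb s a b t k := by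
  rcases le_total t (4187 / 250000) with h | h
  · exact u8 R hE hT s1 s2 b1 b2 t1 h
  · exact u9 R hE hT s1 s2 b1 b2 h t2

theorem u6 {s a b t k : ℝ} (R : Reg s a b t k) (hE : t + k ≤ b / 2) (hT : h0 + t ≤ 1)
    (s1 : 7361 / 10000 ≤ s) (s2 : s ≤ 3843 / 5000)
    (b1 : 1 / 20 ≤ b) (b2 : b ≤ 13 / 80) (t1 : 0 ≤ t) (t2 : t ≤ 6699 / 200000) :
    0 ≤ Uaa s a b t k ∨ 0 ≤ Ubb s a b t k := by
  rcases le_total b (1063 / 10000) with h | h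
  · exact u7 R hE hT s1 s2 b1 h t1 t2
  · exact u28 R hE hT s1 s2 h b2 t1 t2

theorem u5 {s a b t k : ℝ} (R : Reg s a b t k) (hE : t + k ≤ b / 2) (hT : h0 + t ≤ 1)
    (s1 : 7361 / 10000 ≤ s) (s2 : s ≤ 8011 / 10000)
    (b1 : 1 / 20 ≤ b) (b2 : b ≤ 13 / 80) (t1 : 0 ≤ t) (t2 : t ≤ 6699 / 200000) :
    0 ≤ Uaa s a b t k ∨ 0 ≤ Ubb s a b t k := by
  rcases le_total s (3843 / 5000) with h | h
  · exact u6 R hE hT s1 h b1 b2 t1 t2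
  · exact u29 R hE hT h s2 b1 b2 t1 t2

theorem u4 {s a b t k : ℝ} (R : Reg s a b t k) (hE : t + k ≤ b / 2) (hT : h0 + t ≤ 1)
    (s1 : 7361 / 10000 ≤ s) (s2 : s ≤ 8011 / 10000)
    (b1 : 1 / 20 ≤ b) (b2 : b ≤ 13 / 80) (t1 : 0 ≤ t) (t2 : t ≤ 6699 / 100000) :
    0 ≤ Uaa s a b t k ∨ 0 ≤ Ubb s a b t k := by
  rcases le_total t (6699 / 200000) with h | h
  · exact u5 R hE hT s1 s2 b1 b2 t1 h
  · exact u40 R hE hT s1 s2 b1 b2 h t2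

theorem u3 {s a b t k : ℝ} (R : Reg s a b t k) (hE : t + k ≤ b / 2) (hT : h0 + t ≤ 1)
    (s1 : 7361 / 10000 ≤ s) (s2 : s ≤ 8011 / 10000)
    (b1 : 1 / 20 ≤ b) (b2 : b ≤ 11 / 40) (t1 : 0 ≤ t) (t2 : t ≤ 6699 / 100000) :
    0 ≤ Uaa s a b t k ∨ 0 ≤ Ubb s a b t k := by
  rcases le_total b (13 / 80) with h | h
  · exact u4 R hE hT s1 s2 b1 h t1 t2
  · exact u65 R hE hT s1 s2 h b2 t1 t2

theorem u2 {s a b t k : ℝ} (R : Reg s a b t k) (hE : t + k ≤ b / 2) (hT : h0 + t ≤ 1)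
    (s1 : 7361 / 10000 ≤ s) (s2 : s ≤ 8661 / 10000)
    (b1 : 1 / 20 ≤ b) (b2 : b ≤ 11 / 40) (t1 : 0 ≤ t) (t2 : t ≤ 6699 / 100000) :
    0 ≤ Uaa s a b t k ∨ 0 ≤ Ubb s a b t k := by
  rcases le_total s (8011 / 10000) with h | h
  · exact u3 R hE hT s1 h b1 b2 t1 t2
  · exact u66 R hE hT h s2 b1 b2 t1 t2

theorem u1 {s a b t k : ℝ} (R : Reg s a b t k) (hE : t + k ≤ b / 2) (hT : h0 + t ≤ 1)
    (s1 : 7361 / 10000 ≤ s) (s2 : s ≤ 8661 / 10000)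
    (b1 : 1 / 20 ≤ b) (b2 : b ≤ 11 / 40) (t1 : 0 ≤ t) (t2 : t ≤ 6699 / 50000) :
    0 ≤ Uaa s a b t k ∨ 0 ≤ Ubb s a b t k := by
  rcases le_total t (6699 / 100000) with h | h
  · exact u2 R hE hT s1 s2 b1 b2 t1 h
  · exact u99 R hE hT s1 s2 b1 b2 h t2

theorem u0 {s a b t k : ℝ} (R : Reg s a b t k) (hE : t + k ≤ b / 2) (hT : h0 + t ≤ 1)
    (s1 : 7361 / 10000 ≤ s) (s2 : s ≤ 8661 / 10000)
    (b1 : 1 / 20 ≤ b) (b2 : b ≤ 1 / 2) (t1 : 0 ≤ t) (t2 : t ≤ 6699 / 50000) :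
    0 ≤ Uaa s a b t k ∨ 0 ≤ Ubb s a b t k := by
  rcases le_total b (11 / 40) with h | h
  · exact u1 R hE hT s1 s2 b1 h t1 t2
  · exact u120 R hE hT s1 s2 h b2 t1 t2

end Pool.Agent.Strip051.FourB
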