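import Pool.Agent.Strip051.N2.MidPsi2

/-! # Concavity of `θ ↦ cos θ - g (sin θ - t)` -/

namespace Pool.Agent.Strip051.FourB

open Pool.Agent.StripNear Pool.Agent.StripSquare Pool.Agent.Strip051
open Set Pool.Agent.Strip051.N2

/-- The difference of an arc and its translate, in the angle. -/
noncomputable def Phi (t θ : ℝ) : ℝ := Real.cos θ - g (Real.sin θ - t)

theorem hasDerivAt_k {x : ℝ} (hx : x ^ 2 < 1) :
    HasDerivAt (fun z => z / g z) (1 / g x ^ 3) x := by
  have h1 := N2.hasDerivAt_g hx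
  have h2 : 0 < g x := g_pos hx
  have h3 := (hasDerivAt_id x).div h1 h2.ne'
  have h4 := g_sq hx.le
  refine h3.congr_deriv ?_
  simp only [id]
  field_simp
  linear_combination h4

theorem phi_deriv {t θ : ℝ} (h : (Real.sin θ - t) ^ 2 < 1) :
    HasDerivAt (Phi t) (-Real.sin θ +
      (Real.sin θ - t) / g (Real.sin θ - t) * Real.cos θ) θ := by
  have h1 := (Real.hasDerivAt_sin θ).sub_const t
  have h2 := (N2.hasDerivAt_g h).comp θ h1
  have h3 := (Real.hasDerivAt_cos θ).sub h2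
  refine h3.congr_deriv ?_
  ring

theorem phi_deriv2 {t θ : ℝ} (h : (Real.sin θ - t) ^ 2 < 1) :
    HasDerivAt (fun θ => -Real.sin θ + (Real.sin θ - t) / g (Real.sin θ - t) * Real.cos θ)
      (-Real.cos θ + (1 / g (Real.sin θ - t) ^ 3 * Real.cos θ * Real.cos θ
        + (Real.sin θ - t) / g (Real.sin θ - t) * (-Real.sin θ))) θ := by
  have h1 := (Real.hasDerivAt_sin θ).sub_const t
  have h2 := (hasDerivAt_k h).comp θ h1
  have h3 := (Real.hasDerivAt_sin θ).neg.add (h2.mul (Real.hasDerivAt_cos θ))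
  exact h3

theorem phi_aux {q G u v : ℝ} (h1 : q ^ 2 + G ^ 2 = 1) (h2 : v ^ 2 = 1 - u ^ 2) (hG : 0 ≤ G)
    (hu : 0 ≤ u) (hv : 0 < v) (huq : u ≤ q) :
    -G + (1 / v ^ 3 * G * G + u / v * (-q)) ≤ 0 := by
  obtain ⟨C, hC⟩ : ∃ C, C = q * u + G * v := ⟨_, rfl⟩
  obtain ⟨S, hS⟩ : ∃ S, S = q * v - G * u := ⟨_, rfl⟩
  have hq : 0 ≤ q := hu.trans huq
  have hC0 : 0 ≤ C := by rw [hC]; positivity
  have hvG : G ≤ v := by
    apply le_of_sq_le_sq' _ hv.le
    linear_combination h1 - h2 + 2 * (mul_nonneg (sub_nonneg.mpr hu) (sub_nonneg.mpr huq)) +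
      (mul_nonneg (sub_nonneg.mpr huq) (sub_nonneg.mpr huq))
  have hS0 : 0 ≤ S := by
    rw [hS]
    linear_combination (mul_le_mul huq hvG hG hq)
  have hCS : C ^ 2 + S ^ 2 = 1 := by
    rw [hC, hS]
    linear_combination (v ^ 2 + u ^ 2) * h1 + h2
  have hC1 : C ≤ 1 := by linear_combination (1 / 2) * h1 + (1 / 2) * h2 + hC + (1 / 2) * (mul_nonneg (sub_nonneg.mpr huq) (sub_nonneg.mpr huq)) +
    (1 / 2) * (mul_nonneg (sub_nonneg.mpr hvG) (sub_nonneg.mpr hvG))
  have e1 : G = v * C - u * S := by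
    rw [hC, hS]
    linear_combination (-G) * h2
  have e2 : G ≤ v * C := by linear_combination (mul_nonneg hu hS0) + e1
  have e3 : G ^ 2 ≤ v ^ 2 * C := by
    have : G ^ 2 ≤ (v * C) ^ 2 := by gcongr
    linear_combination (mul_nonneg (sq_nonneg v) (mul_nonneg hC0 (sub_nonneg.2 hC1))) + this
  have e4 : -G + (1 / v ^ 3 * G * G + u / v * (-q)) = (G ^ 2 - v ^ 2 * C) / v ^ 3 := by
    rw [hC]
    field_simp
    ring
  rw [e4]
  exact div_nonpos_of_nonpos_of_nonneg (by linear_combination e3) (by positivity)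

theorem phi_concave {t θ1 θ2 : ℝ} (ht : 0 ≤ t) (h1 : 0 ≤ θ1) (h2 : θ2 ≤ Real.pi / 2)
    (h3 : t ≤ Real.sin θ1) : ConcaveOn ℝ (Icc θ1 θ2) (Phi t) := by
  have hpi := Real.pi_pos
  have key : ∀ x ∈ Ioo θ1 θ2, 0 ≤ Real.sin x - t ∧ Real.sin x - t < 1 ∧ 0 ≤ Real.cos x := by
    intro x hx
    have a1 : Real.sin θ1 ≤ Real.sin x :=
      Real.sin_le_sin_of_le_of_le_pi_div_two (by linear_combination h1 + (1 / 2) * hpi) (by linear_combination hx.2 + h2) hx.1.le
    have a2 : Real.sin x < Real.sin (Real.pi / 2) :=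
      Real.sin_lt_sin_of_lt_of_le_pi_div_two (by linear_combination hx.1 + h1 + (1 / 2) * hpi) le_rfl (by linear_combination hx.2 + h2)
    rw [Real.sin_pi_div_two] at a2
    exact ⟨by linear_combination h3 + a1, by linear_combination ht + a2,
      Real.cos_nonneg_of_mem_Icc ⟨by linear_combination hx.1 + h1 + (1 / 2) * hpi, by linear_combination hx.2 + h2⟩⟩
  have key2 : ∀ x ∈ Ioo θ1 θ2, (Real.sin x - t) ^ 2 < 1 := by
    intro x hx
    obtain ⟨a, b, _⟩ := key x hx
    linear_combination b + (mul_nonneg (sub_nonneg.mpr a) (sub_nonneg.mpr (le_of_lt b)))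
  apply concaveOn_of_hasDerivWithinAt2_nonpos (convex_Icc _ _)
    (f' := fun θ => -Real.sin θ + (Real.sin θ - t) / g (Real.sin θ - t) * Real.cos θ)
    (f'' := fun θ => -Real.cos θ + (1 / g (Real.sin θ - t) ^ 3 * Real.cos θ * Real.cos θ
        + (Real.sin θ - t) / g (Real.sin θ - t) * (-Real.sin θ)))
  · unfold Phi g
    fun_prop
  · intro x hx
    rw [interior_Icc] at hx
    exact (phi_deriv (key2 x hx)).hasDerivWithinAt
  · intro x hx
    rw [interior_Icc] at hx
    exact (phi_deriv2 (key2 x hx)).hasDerivWithinAt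
  · intro x hx
    rw [interior_Icc] at hx
    obtain ⟨a, b, c⟩ := key x hx
    have e := g_sq (key2 x hx).le
    exact phi_aux (by rw [← Real.sin_sq_add_cos_sq x]) e c a (g_pos (key2 x hx)) (by linear_combination ht)

end Pool.Agent.Strip051.FourB
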