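import Pool.Agent.Strip051.FourB.Box
import Pool.Agent.Strip051.Four.LowE

/-! # The corner `b ≤ 1 / 20` -/

namespace Pool.Agent.Strip051.FourB

open Pool.Agent.StripNear Pool.Agent.StripSquare Pool.Agent.Strip051
open Pool.Agent.Strip051.Four (g_le_of_abs)
open Pool.Agent.Strip051.Four.Low (ph ph_mono ph_nonneg ph_neg ph_hi2' h0_hi h0_lo)

/-- A difference of values of the unit arc. -/
theorem ph_sub {x y : ℝ} (hx : x ^ 2 ≤ 1) (hy : y ^ 2 ≤ 1) :
    (ph y - ph x) * (g y + g x) = (y - x) * (y + x) := by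
  have gx := g_sq hx
  have gy := g_sq hy
  unfold Four.Low.ph
  linear_combination gx - gy

/-- The second difference of the unit arc. -/
theorem sec_diff {v x a G : ℝ} (hv : 0 ≤ v) (hx : 0 ≤ x) (ha : 0 ≤ a) (h1 : v + x + a ≤ 1)
    (hG : g v ≤ G) (hG0 : 0 < G) :
    a * x ≤ G ^ 3 * ((ph (v + x + a) - ph (v + a)) - (ph (v + x) - ph v)) := by
  obtain ⟨u, hu⟩ : ∃ u, u = v + x := ⟨_, rfl⟩
  rw [← hu] at h1 ⊢
  have hxu : x = u - v := by linear_combination -hu
  have hu0 : 0 ≤ u := by linear_combination hv + hx - hu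
  have r1 : (u + a) ^ 2 ≤ 1 := pow_le_one₀ (by linear_combination hv + hx + ha - hu) (by linear_combination h1)
  have r2 : (v + a) ^ 2 ≤ 1 := pow_le_one₀ (by linear_combination hv + ha) (by linear_combination hx + h1 - hu)
  have r3 : u ^ 2 ≤ 1 := pow_le_one₀ (by linear_combination hv + hx - hu) (by linear_combination ha + h1)
  have r4 : v ^ 2 ≤ 1 := pow_le_one₀ (by linear_combination hv) (by linear_combination hx + ha + h1 - hu)
  have e1 := ph_sub (x := v + a) (y := u + a) r2 r1
  have e2 := ph_sub (x := v) (y := u) r4 r3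
  have e3 := ph_sub (x := u) (y := u + a) r3 r1
  have e4 := ph_sub (x := v) (y := v + a) r4 r2
  have g1 := g_nonneg (u + a)
  have g2 := g_nonneg (v + a)
  have g3 := g_nonneg u
  have g4 := g_nonneg v
  have m1 : g u ≤ g v := g_anti hv (by linear_combination hx - hu)
  have m2 : g (v + a) ≤ g v := g_anti hv (by linear_combination ha)
  have m3 : g (u + a) ≤ g v := g_anti hv (by linear_combination hx + ha - hu)
  have gv := g_sq r4
  obtain ⟨X1, hX1⟩ : ∃ X1, X1 = ph (u + a) - ph (v + a) := ⟨_, rfl⟩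
  obtain ⟨X2, hX2⟩ : ∃ X2, X2 = ph u - ph v := ⟨_, rfl⟩
  obtain ⟨Y1, hY1⟩ : ∃ Y1, Y1 = ph (u + a) - ph u := ⟨_, rfl⟩
  obtain ⟨Y2, hY2⟩ : ∃ Y2, Y2 = ph (v + a) - ph v := ⟨_, rfl⟩
  rw [← hX1] at e1 ⊢
  rw [← hX2] at e2 ⊢
  rw [← hY1] at e3
  rw [← hY2] at e4
  have p2 : 0 ≤ X2 := by
    rw [hX2]
    linarith [ph_mono hv (by linear_combination hx - hu : v ≤ u)]
  have q1 : 0 ≤ Y1 := by
    rw [hY1]
    linarith [ph_mono hu0 (by linear_combination ha : u ≤ u + a)]
  have q2 : 0 ≤ Y2 := by
    rw [hY2]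
    linarith [ph_mono hv (by linear_combination ha : v ≤ v + a)]
  have hXY : X1 - X2 = Y1 - Y2 := by
    rw [hX1, hX2, hY1, hY2]
    ring
  -- bounds with `G`
  have hs : 1 ≤ G ^ 2 + v ^ 2 := by
    have := pow_le_pow_left₀ g4 hG 2
    linear_combination -gv + this
  have b2 : (u - v) * (u + v) ≤ 2 * G * X2 := by
    rw [← e2]
    have := mul_le_mul_of_nonneg_left (by linear_combination 2 * hG + m1 : g u + g v ≤ 2 * G) p2
    linear_combination this
  have b3 : a * (2 * u + a) ≤ 2 * G * Y1 := by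
    have : a * (2 * u + a) = (u + a - u) * (u + a + u) := by ring
    rw [this, ← e3]
    have := mul_le_mul_of_nonneg_left (by linear_combination 2 * hG + m1 + m3 : g (u + a) + g u ≤ 2 * G) q1
    linear_combination this
  have b4 : a * (2 * v + a) ≤ 2 * G * Y2 := by
    have : a * (2 * v + a) = (v + a - v) * (v + a + v) := by ring
    rw [this, ← e4]
    have := mul_le_mul_of_nonneg_left (by linear_combination 2 * hG + m2 : g (v + a) + g v ≤ 2 * G) q2
    linear_combination this
  -- the sum of the heights decreases by `Y1 + Y2`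
  have hS : g u + g v - (g (u + a) + g (v + a)) = Y1 + Y2 := by
    rw [hY1, hY2]
    unfold Four.Low.ph
    ring
  have key : (X1 - X2) * (g (u + a) + g (v + a)) = 2 * a * (u - v) + X2 * (Y1 + Y2) := by
    have : (X1 - X2) * (g (u + a) + g (v + a)) = X1 * (g (u + a) + g (v + a)) -
        X2 * (g u + g v) + X2 * (g u + g v - (g (u + a) + g (v + a))) := by ring
    rw [this, e1, e2, hS]
    ring
  have hd : 0 ≤ X1 - X2 := by
    by_contra hcon
    push Not at hcon
    have h3 : 0 ≤ 2 * a * (u - v) + X2 * (Y1 + Y2) := by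
      have : 0 ≤ 2 * a * (u - v) := by
        apply mul_nonneg (by linear_combination 2 * ha)
        linear_combination hx - hu
      have : 0 ≤ X2 * (Y1 + Y2) := mul_nonneg p2 (by linear_combination q1 + q2)
      linear_combination this + (‹0 ≤ 2 * a * (u - v)›)
    rw [← key] at h3
    rcases (add_nonneg g1 g2).eq_or_lt with h4 | h4
    · have h5 : g (u + a) = 0 := by exact le_antisymm (by linear_combination g2 - h4) (by linear_combination g1)
      have h6 : g (v + a) = 0 := by linear_combination -h4 - h5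
      -- then `u + a = v + a = 1`
      have k1 := g_sq r1
      have k2 := g_sq r2
      rw [h5] at k1
      rw [h6] at k2
      have k3 : u + a = 1 := by nlinarith
      have k4 : v + a = 1 := by nlinarith
      have k5 : u = v := by linear_combination k3 - k4
      rw [hX1, hX2, k5] at hcon
      exact absurd hcon (not_lt.mpr (by linear_combination))
    · have := mul_neg_of_neg_of_pos hcon h4
      exact absurd h3 (not_le.mpr (by linear_combination this))
  have h5 : 2 * a * (u - v) + X2 * (Y1 + Y2) ≤ (X1 - X2) * (2 * G) := by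
    rw [← key]
    apply mul_le_mul_of_nonneg_left _ hd
    linear_combination 2 * hG + m2 + m3
  have h6 : a * (2 * u + 2 * v + 2 * a) * ((u - v) * (u + v)) ≤
      (2 * G * (Y1 + Y2)) * (2 * G * X2) := by
    apply mul_le_mul (by linear_combination b3 + b4) b2
    · exact mul_nonneg (by linear_combination hx - hu) (by linear_combination 2 * hv + hx - hu)
    · have : 0 ≤ Y1 + Y2 := by linear_combination q1 + q2
      positivity
  have h7 : 8 * v ^ 2 * (a * (u - v)) ≤ a * (2 * u + 2 * v + 2 * a) * ((u - v) * (u + v)) := by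
    have k1 : 0 ≤ a * (u - v) := mul_nonneg ha (by linear_combination hx - hu)
    have k2 : 8 * v ^ 2 ≤ (2 * u + 2 * v + 2 * a) * (u + v) := by
      have := mul_le_mul (by linear_combination 2 * hx + 2 * ha - 2 * hu : 4 * v ≤ 2 * u + 2 * v + 2 * a)
        (by linear_combination hx - hu : 2 * v ≤ u + v) (by linear_combination 2 * hv) (by linear_combination 4 * hv + 2 * hx + 2 * ha - 2 * hu)
      linear_combination this
    have := mul_le_mul_of_nonneg_left k2 k1
    linear_combination this
  -- `a x (G ^ 2 + v ^ 2) ≤ G ^ 3 (X1 - X2)`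
  have h8 : 4 * G ^ 2 * (a * (u - v)) + 4 * v ^ 2 * (a * (u - v)) ≤ 4 * G ^ 3 * (X1 - X2) := by
    have k1 : G ^ 2 * (2 * (2 * a * (u - v) + X2 * (Y1 + Y2))) ≤
        G ^ 2 * (2 * ((X1 - X2) * (2 * G))) := by
      apply mul_le_mul_of_nonneg_left _ (by positivity)
      linear_combination 2 * h5
    linear_combination (1 / 2) * h6 + (1 / 2) * h7 + k1
  have h9 : a * (u - v) ≤ (G ^ 2 + v ^ 2) * (a * (u - v)) := by
    have k1 : 0 ≤ a * (u - v) := mul_nonneg ha (by linear_combination hx - hu)
    have := mul_le_mul_of_nonneg_right hs k1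
    linear_combination this
  rw [hxu]
  linear_combination (1 / 4) * h8 + h9

/-- The tangent at a point. -/
theorem tan_at {s z K : ℝ} (hs : s ^ 2 < 1) (hz : z ^ 2 ≤ 1) (hK : K * g s = s) :
    ph s + K * (z - s) ≤ ph z := by
  have gs := g_sq hs.le
  have gz := g_sq hz
  have g1 := g_nonneg s
  have g2 := g_nonneg z
  have g3 : 0 < g s := by
    rcases g1.eq_or_lt with h | h
    · rw [← h] at gs
      exact absurd hs (not_lt.mpr (by linear_combination -gs))
    · exact h
  have h1 : g s * g z + s * z ≤ 1 := by linear_combination (1 / 2) * (sq_nonneg (g s - g z)) + (1 / 2) * (sq_nonneg (s - z)) +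
    (1 / 2) * gs + (1 / 2) * gz
  have h2 : g s * (g z - g s + K * (z - s)) ≤ 0 := by
    have : g s * (g z - g s + K * (z - s)) = g s * g z - g s ^ 2 + (K * g s) * (z - s) := by ring
    rw [this, hK, gs]
    linear_combination h1
  have h3 : g z - g s + K * (z - s) ≤ 0 := by
    by_contra hcon
    push Not at hcon
    have := mul_pos g3 hcon
    exact absurd h2 (not_le.mpr (by linear_combination this))
  unfold Four.Low.ph
  linear_combination h3

theorem g_le_num {v v0 G : ℝ} (h0' : 0 ≤ v0) (h1 : v0 ≤ v) (hG : 0 ≤ G) (h : 1 - v0 ^ 2 ≤ G ^ 2) :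
    g v ≤ G := by
  apply (g_anti h0' h1).trans
  unfold g
  exact Real.sqrt_le_iff.2 ⟨hG, h⟩

/-- Second difference with a numeric constant. -/
theorem sec_num {v x a v0 G q : ℝ} (hv0 : 0 ≤ v0) (hv : v0 ≤ v) (hx : 0 ≤ x) (ha : 0 ≤ a)
    (h1 : v + x + a ≤ 1) (hG0 : 0 < G) (h : 1 - v0 ^ 2 ≤ G ^ 2) (hq : q * G ^ 3 ≤ 1) :
    q * (a * x) ≤ (ph (v + x + a) - ph (v + a)) - (ph (v + x) - ph v) := by
  have k1 := sec_diff (hv0.trans hv) hx ha h1 (g_le_num hv0 hv hG0.le h) hG0
  have k2 : 0 ≤ a * x := mul_nonneg ha hx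
  have k3 : 0 < G ^ 3 := by positivity
  have k4 : (q * G ^ 3) * (a * x) ≤ 1 * (a * x) := mul_le_mul_of_nonneg_right hq k2
  have k5 : G ^ 3 * (q * (a * x)) ≤
      G ^ 3 * ((ph (v + x + a) - ph (v + a)) - (ph (v + x) - ph v)) := by
    linear_combination k1 + k4
  exact le_of_mul_le_mul_left k5 k3

/-- The exit is below the top of the body, small angles. -/
theorem cornerD {s a b t k : ℝ} (R : Reg s a b t k) (hb : b ≤ 1 / 20) (hE : b / 2 ≤ t + k) :
    0 ≤ Dbb s a b t k := by
  obtain ⟨ha, k1, k2, hz, h1, h2, h3, h4, h5, s1, s2, b1, b2, t1, t2⟩ := R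
  have f0 := ph_nonneg b
  have fb : ph b ≤ 5061 / 10000 * b ^ 2 := ph_hi2' (by linear_combination (1 / 20) * hb + (mul_nonneg (sub_nonneg.mpr hb) (sub_nonneg.mpr b1)))
  have bb : b ^ 2 ≤ 1 / 20 * b := by linear_combination (mul_nonneg (sub_nonneg.mpr hb) (sub_nonneg.mpr b1))
  have kb : k ≤ 44 / 100 * b ^ 2 := by linear_combination (1702217 / 5061) * k1 + (1707278 / 5061) * k2 + (4400 / 5061) * fb
  have kb2 : k ≤ 11 / 10000 := by linear_combination (438297783 / 20000000000) * hb + k2 + (86603 / 100000) * fb + (438297783 / 1000000000) * bb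
  -- the parts
  have eP1 := sec_num (v := s - t - b / 2 - k) (x := b / 2) (a := b / 2) (v0 := 0) (G := 1)
    (q := 1) le_rfl (by linear_combination (1 / 2) * hb + h5 + s1 + t2) (by linear_combination (1 / 2) * b1) (by linear_combination (1 / 2) * b1) (by linear_combination hz) (by norm_num)
    (by norm_num) (by norm_num)
  have eP2 := sec_num (v := s - a - t - b / 2 - k) (x := b / 2) (a := b / 2) (v0 := 0) (G := 1)
    (q := 1) le_rfl (by linear_combination (1 / 2) * hb + ha + h5 + (7 / 10) * s1 + t2) (by linear_combination (1 / 2) * b1) (by linear_combination (1 / 2) * b1) (by linear_combination (3 / 10) * hE - ha + (7 / 10) * hz) (by norm_num)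
    (by norm_num) (by norm_num)
  have c1 : s - t - b / 2 - k + b / 2 + b / 2 = s - t + b / 2 - k := by ring
  have c2 : s - t - b / 2 - k + b / 2 = s - t - k := by ring
  have c3 : s - a - t - b / 2 - k + b / 2 + b / 2 = s - a - t + b / 2 - k := by ring
  have c4 : s - a - t - b / 2 - k + b / 2 = s - a - t - k := by ring
  rw [c1, c2] at eP1
  rw [c3, c4] at eP2
  have bq : 0 ≤ b / 2 * (b / 2) := by positivity
  -- the slope at `s - t`
  have hgs : 0 < g (s - t) := by
    have := g_anti (a := s - t) (b := 8661 / 10000) (by linear_combination s1 + t2) (by linear_combination s2 + t1)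
    have h6 : 1 / 4 < g (8661 / 10000) := by
      unfold g
      apply Real.lt_sqrt_of_sq_lt
      norm_num
    linear_combination this + h6
  obtain ⟨K, hK⟩ : ∃ K, K * g (s - t) = s - t := ⟨(s - t) / g (s - t), by field_simp⟩
  have hsl := tan_at (s := s - t) (z := s - t - k) (by linear_combination (189 / 200) * k2 + (16861 / 10000) * s2 + (1089361719013 / 4000000000000) * b1 +
    (11211 / 10000) * t1 + (16367967 / 20000000) * fb + (10080849009 / 25000000000) * bb +
    (1 / 2) * (mul_nonneg (sub_nonneg.mpr hb) (sub_nonneg.mpr k2)) + (mul_nonneg (sub_nonneg.mpr hb) (sub_nonneg.mpr s2)) +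
    (1 / 2) * (mul_nonneg (sub_nonneg.mpr hb) (sub_nonneg.mpr t1)) + (86603 / 200000) * (mul_nonneg (sub_nonneg.mpr hb) (sub_nonneg.mpr fb)) +
    (438297783 / 2000000000) * (mul_nonneg (sub_nonneg.mpr hb) (sub_nonneg.mpr bb)) + (mul_nonneg (sub_nonneg.mpr hE) (sub_nonneg.mpr h5)) +
    (mul_nonneg (sub_nonneg.mpr hE) (sub_nonneg.mpr s1)) + (mul_nonneg (sub_nonneg.mpr hE) (sub_nonneg.mpr t2)) +
    173206 * (mul_nonneg (sub_nonneg.mpr k1) (sub_nonneg.mpr hz)) + 86603 * (mul_nonneg (sub_nonneg.mpr k1) (sub_nonneg.mpr h5)) +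
    173204 * (mul_nonneg (sub_nonneg.mpr k2) (sub_nonneg.mpr hz)) + 86602 * (mul_nonneg (sub_nonneg.mpr k2) (sub_nonneg.mpr h5)) +
    (mul_nonneg (sub_nonneg.mpr hz) (sub_nonneg.mpr s1))) (by linear_combination (18411 / 1000) * (sq_nonneg (b)) + (11211 / 10000) * hz + (113 / 200) * s2 +
    (18661 / 1000) * bb + (1 / 2) * (mul_nonneg (sub_nonneg.mpr hb) (sub_nonneg.mpr hz)) +
    (1 / 2) * (mul_nonneg (sub_nonneg.mpr hb) (sub_nonneg.mpr s2)) + (mul_nonneg (sub_nonneg.mpr hE) (sub_nonneg.mpr h5)) +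
    (mul_nonneg (sub_nonneg.mpr hE) (sub_nonneg.mpr s1)) + (mul_nonneg (sub_nonneg.mpr hE) (sub_nonneg.mpr t2)) +
    (mul_nonneg (sub_nonneg.mpr hz) (sub_nonneg.mpr s1))) hK
  have hK0 : 0 ≤ K := by
    by_contra hcon
    push Not at hcon
    exact absurd s1 (not_le.mpr (by linear_combination t2 - hK + (mul_pos (sub_pos.mpr hgs) (sub_pos.mpr hcon))))
  have Kle : ∀ {x0 G0 K0 : ℝ}, s - t ≤ x0 → 0 < G0 → G0 ^ 2 ≤ 1 - x0 ^ 2 → x0 ≤ K0 * G0 →
      0 ≤ K0 → K ≤ K0 := by
    intro x0 G0 K0 hx hG0 hG hK1 hK2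
    have k3 : G0 ≤ g (s - t) := by
      refine le_trans ?_ (g_anti (by linear_combination s1 + t2) hx)
      unfold g
      exact Real.le_sqrt_of_sq_le hG
    by_contra hcon
    push Not at hcon
    have : K0 * G0 < K * g (s - t) := by
      calc K0 * G0 ≤ K0 * g (s - t) := mul_le_mul_of_nonneg_left k3 hK2
        _ < K * g (s - t) := mul_lt_mul_of_pos_right hcon hgs
    exact absurd hx (not_le.mpr (by linear_combination hK + hK1 + this))
  obtain ⟨w, hw⟩ : ∃ w, w = t + k := ⟨_, rfl⟩
  have hwb : b / 2 ≤ w := by linear_combination hE - hw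
  -- the main part with a numeric constant
  have main : ∀ {a0 v0 G q K0 : ℝ}, 0 ≤ v0 → v0 ≤ s - a - w → 0 < G → 1 - v0 ^ 2 ≤ G ^ 2 →
      q * G ^ 3 ≤ 1 → 0 ≤ q → a0 ≤ a → 0 ≤ a0 → K ≤ K0 → ∀ {P : ℝ},
      P ≤ ph (s - t + b / 2 - k) - ph (s - t - k) - (ph (s - t - k) - ph (s - t - b / 2 - k)) →
      (4 * (44 / 100) * K0 + 10122 / 10000) * b ^ 2 ≤ 2 * (q * (a0 * w)) + P →
      0 ≤ Dbb s a b t k := by
    intro a0 v0 G q K0 hv0 hv hG0 hG hq hq0 ha0 ha1 hK2 P hP hfin
    have hQ := sec_num (v := s - a - t - k) (x := t + k) (a := a) (v0 := v0) (G := G)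
      (q := q) hv0 (by linear_combination -hw + hv) (by linear_combination hE + (1 / 2) * b1) (by linear_combination -ha + (3 / 10) * s1) (by linear_combination s2) hG0 hG hq
    rw [show s - a - t - k + (t + k) + a = s by ring, show s - a - t - k + a = s - t - k by ring,
      show s - a - t - k + (t + k) = s - a by ring] at hQ
    have k3 : q * (a0 * w) ≤ q * (a * (t + k)) := by
      apply mul_le_mul_of_nonneg_left _ hq0
      rw [← hw]
      exact mul_le_mul_of_nonneg_right ha0 (by linear_combination hE + (1 / 2) * b1 - hw)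
    have k4 : K * k ≤ K0 * (44 / 100 * b ^ 2) := mul_le_mul hK2 kb h4 (hK0.trans hK2)
    unfold Dbb
    linear_combination (250000000 / 5061) * k1 + (250000000 / 5061) * k2 + (12622 / 5061) * fb +
      eP2 + 4 * hsl + hP + hfin + 2 * hQ + 2 * k3 + 4 * k4
  have hb0 : 0 ≤ b * w := mul_nonneg b1 (by linear_combination hE + (1 / 2) * b1 - hw)
  rcases le_total w (55 / 1000) with hw1 | hw1
  · rcases le_total s (8 / 10) with hs | hs
    · have eP := sec_num (v := s - t - b / 2 - k) (x := b / 2) (a := b / 2) (v0 := 656 / 1000)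
        (G := 75477 / 100000) (q := 232 / 100) (by norm_num) (by linear_combination (1 / 2) * hb + s1 - hw + hw1) (by linear_combination (1 / 2) * b1)
        (by linear_combination (1 / 2) * b1) (by linear_combination hz) (by norm_num) (by norm_num) (by norm_num)
      rw [c1, c2] at eP
      apply main (a0 := 7083 / 100000) (v0 := 61027 / 100000) (G := 7922 / 10000)
        (q := 2011 / 1000) (K0 := 13334 / 10000) (by norm_num) (by linear_combination ha + (7 / 10) * s1 + hw1) (by norm_num)
        (by norm_num) (by norm_num) (by norm_num) (by linear_combination -ha + (3 / 10) * s1) (by norm_num)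
        (Kle (x0 := 8 / 10) (G0 := 6 / 10) (by linear_combination t1 + hs) (by norm_num) (by norm_num)
          (by norm_num) (by norm_num)) eP
      linear_combination (347373 / 1250000) * hE + (30223840779 / 50000000) * k1 + (15111745893 / 25000000) * k2 +
        (348993 / 50000000) * t1 + (347373 / 125000) * bb - (14243913 / 50000000) * hw
    · apply main (a0 := 9 / 100) (v0 := 655 / 1000) (G := 75564 / 100000)
        (q := 2317 / 1000) (K0 := 17329 / 10000) (by norm_num) (by linear_combination ha + hw1 + (7 / 10) * hs) (by norm_num)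
        (by norm_num) (by norm_num) (by norm_num) (by linear_combination -ha + (3 / 10) * hs) (by norm_num)
        (Kle (x0 := 8661 / 10000) (G0 := 49987 / 100000) (by linear_combination s2 + t1) (by norm_num)
          (by norm_num) (by norm_num) (by norm_num)) (P := 0) (by linear_combination (250000000 / 5061) * k1 + (250000000 / 5061) * k2 + (2500 / 5061) * fb + eP1)
      linear_combination (507763 / 1250000) * hE + (587254943 / 625000) * k1 + (293624081 / 312500) * k2 +
        (6781 / 625000) * t1 + (507763 / 125000) * bb - (20853 / 50000) * hw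
  · apply main (a0 := 7083 / 100000) (v0 := 45 / 100) (G := 8931 / 10000)
      (q := 14 / 10) (K0 := 1393 / 1000) (by norm_num) (by linear_combination (438297783 / 20000000000) * hb + ha + k2 + (7 / 10) * s1 + t2 + (86603 / 100000) * fb +
        (438297783 / 1000000000) * bb + hw) (by norm_num)
      (by norm_num) (by norm_num) (by norm_num) (by linear_combination -ha + (3 / 10) * s1) (by norm_num)
      (Kle (x0 := 8123 / 10000) (G0 := 5832 / 10000) (by linear_combination (438297783 / 20000000000) * hb + k2 + s2 + (86603 / 100000) * fb +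
        (438297783 / 1000000000) * bb + hw + hw1) (by norm_num)
        (by norm_num) (by norm_num) (by norm_num)) (P := 0) (by linear_combination (250000000 / 5061) * k1 + (250000000 / 5061) * k2 + (2500 / 5061) * fb + eP1)
    linear_combination (86597 / 500000) * hb + (86597 / 25000) * bb + (49581 / 250000) * hw1

theorem g_cont : Continuous g := by
  unfold g
  fun_prop

theorem ph_cont : Continuous ph := by
  unfold Four.Low.ph
  exact continuous_const.sub g_cont

theorem g_exit {b : ℝ} (h1 : 0 ≤ b) (h2 : b ≤ 1 / 2) :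
    g (h0 * g b + b / 2) = g b / 2 - h0 * b ∧ g (h0 * g b - b / 2) = g b / 2 + h0 * b := by
  have hq := h0_sq
  have hp := h0_pos
  have gb := g_sq (r := b) (by linear_combination (1 / 2) * h2 + (mul_nonneg (sub_nonneg.mpr h1) (sub_nonneg.mpr h2)))
  have gn := g_nonneg b
  have gh : h0 ≤ g b := by
    have := g_anti h1 h2
    rwa [Four.Low.g_half_eq] at this
  constructor
  · have h3 : 0 ≤ g b / 2 - h0 * b := by linear_combination (1 / 2) * gh + (mul_nonneg (sub_nonneg.mpr h2) (sub_nonneg.mpr (le_of_lt hp)))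
    rw [show g (h0 * g b + b / 2) = √(1 - (h0 * g b + b / 2) ^ 2) from rfl,
      show 1 - (h0 * g b + b / 2) ^ 2 = (g b / 2 - h0 * b) ^ 2 by
      have : 1 - (h0 * g b + b / 2) ^ 2 - (g b / 2 - h0 * b) ^ 2 =
        1 - (h0 ^ 2 + 1 / 4) * (g b ^ 2 + b ^ 2) := by ring
      rw [hq, gb] at this
      linear_combination this, Real.sqrt_sq h3]
  · have h3 : 0 ≤ g b / 2 + h0 * b := by positivity
    rw [show g (h0 * g b - b / 2) = √(1 - (h0 * g b - b / 2) ^ 2) from rfl,
      show 1 - (h0 * g b - b / 2) ^ 2 = (g b / 2 + h0 * b) ^ 2 by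
      have : 1 - (h0 * g b - b / 2) ^ 2 - (g b / 2 + h0 * b) ^ 2 =
        1 - (h0 ^ 2 + 1 / 4) * (g b ^ 2 + b ^ 2) := by ring
      rw [hq, gb] at this
      linear_combination this, Real.sqrt_sq h3]

/-- The slope of the unit arc. -/
theorem slope_le {x y K : ℝ} (h1 : 0 ≤ x) (h2 : x ≤ y) (h3 : y ^ 2 < 1) (hK : y ≤ K * g y) :
    x ≤ K * g x := by
  have e := g_anti h1 h2
  have g1 := g_nonneg y
  have hK0 : 0 ≤ K := by
    by_contra hcon
    push Not at hcon
    have gs := g_sq h3.le
    exact absurd (mul_pos (sub_pos.mpr h3) (sub_pos.mpr hcon)) (not_lt.mpr (by linear_combination (mul_nonneg (sub_nonneg.mpr h1) (sub_nonneg.mpr g1)) + (mul_nonneg (sub_nonneg.mpr h2) (sub_nonneg.mpr g1)) + (mul_nonneg (sub_nonneg.mpr hK) (sub_nonneg.mpr g1)) + (mul_nonneg (sub_nonneg.mpr (le_of_lt hcon)) (sub_nonneg.mpr (ge_of_eq gs)))))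
  have := mul_le_mul_of_nonneg_left e hK0
  linear_combination h2 + hK + this

/-- The tangent at a point, upper slope. -/
theorem tan_up {s x K : ℝ} (hs0 : 0 ≤ s) (hs : s ^ 2 < 1) (hx : 0 ≤ x) (hx1 : x ≤ s)
    (hK : s ≤ K * g s) : ph s - ph (s - x) ≤ K * x := by
  have gs := g_sq hs.le
  have g3 : 0 < g s := by
    rcases (g_nonneg s).eq_or_lt with h | h
    · rw [← h] at gs
      exact absurd hs (not_lt.mpr (by linear_combination -gs))
    · exact h
  have h1 := tan_at (s := s) (z := s - x) (K := s / g s) hs (by linear_combination hs + (mul_nonneg (sub_nonneg.mpr hs0) (sub_nonneg.mpr hx)) + (mul_nonneg (sub_nonneg.mpr hx) (sub_nonneg.mpr hx1))) (by field_simp)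
  have h2 : s / g s ≤ K := by
    rw [div_le_iff₀ g3]
    exact hK
  have h3 := mul_le_mul_of_nonneg_right h2 hx
  linear_combination h1 + h3

/-- The tangent at a point, lower slope. -/
theorem tan_dn {s x K : ℝ} (hs : s ^ 2 < 1) (hx : 0 ≤ x) (hx1 : (s + x) ^ 2 ≤ 1)
    (hK : K * g s ≤ s) : K * x ≤ ph (s + x) - ph s := by
  have gs := g_sq hs.le
  have g3 : 0 < g s := by
    rcases (g_nonneg s).eq_or_lt with h | h
    · rw [← h] at gs
      exact absurd hs (not_lt.mpr (by linear_combination -gs))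
    · exact h
  have h1 := tan_at (s := s) (z := s + x) (K := s / g s) hs hx1 (by field_simp)
  have h2 : K ≤ s / g s := by
    rw [le_div_iff₀ g3]
    exact hK
  have h3 := mul_le_mul_of_nonneg_right h2 hx
  linear_combination h1 + h3

/-- The exit is above the top of the body, small angles. -/
theorem cornerU {s a b t : ℝ} (R : Reg s a b t (h0 * ph b)) (hb : b ≤ 1 / 20)
    (hE : t + h0 * ph b ≤ b / 2) : 0 ≤ Ubb s a b t (h0 * ph b) := by
  obtain ⟨ha, k1, k2, hz, h1, h2, h3, h4, h5, s1, s2, b1, b2, t1, t2⟩ := R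
  have hp := h0_pos
  -- the angle for which the exit is exactly at the top
  have cont : ContinuousOn (fun x : ℝ => x / 2 - h0 * ph x) (Set.Icc 0 b) :=
    ((continuous_id.div_const 2).sub (continuous_const.mul ph_cont)).continuousOn
  have hmem : t ∈ Set.Icc ((fun x : ℝ => x / 2 - h0 * ph x) 0)
      ((fun x : ℝ => x / 2 - h0 * ph x) b) := by
    refine ⟨?_, ?_⟩
    · simp only [Four.Low.ph_zero]
      linear_combination t1
    · simp only
      linear_combination hE
  obtain ⟨c, ⟨c0, c1⟩, hc⟩ := intermediate_value_Icc b1 cont hmem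
  simp only at hc
  have f0 := ph_nonneg b
  have fc0 := ph_nonneg c
  have fb : ph b ≤ 5061 / 10000 * b ^ 2 := ph_hi2' (by linear_combination (1 / 20) * hb + (mul_nonneg (sub_nonneg.mpr hb) (sub_nonneg.mpr b1)))
  have fc : ph c ≤ ph b := ph_mono c0 c1
  -- the difference of the two angles
  have hdf : ph b - ph c ≤ 5007 / 100000 * (b - c) := by
    have := tan_up (s := b) (x := b - c) (K := 5007 / 100000) b1 (by linear_combination (1 / 20) * hb + (mul_nonneg (sub_nonneg.mpr hb) (sub_nonneg.mpr b1))) (by linear_combination c1)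
      (by linear_combination c0) (by
        have : 9987 / 10000 ≤ g b := by
          unfold g
          apply Real.le_sqrt_of_sq_le
          linear_combination (1 / 20) * hb + (mul_nonneg (sub_nonneg.mpr hb) (sub_nonneg.mpr b1))
        linear_combination hb + (5007 / 100000) * this)
    rwa [sub_sub_cancel] at this
  have hk0 : 0 ≤ h0 * ph b - h0 * ph c := by
    rw [← mul_sub]
    exact mul_nonneg hp.le (by linear_combination fc)
  have hk1 : h0 * ph b - h0 * ph c ≤ 4337 / 100000 * (b - c) := by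
    rw [← mul_sub]
    have := mul_le_mul h2 hdf (by linear_combination fc) (by norm_num)
    linear_combination (78779 / 4566378779) * hE + (78779 / 4566378779) * hc + (4566300000 / 4566378779) * this
  have hkc0 : 0 ≤ h0 * ph c := mul_nonneg hp.le fc0
  have hkb : h0 * ph b ≤ 11 / 10000 := by linear_combination (438297783 / 20000000000) * hb + k2 + (86603 / 100000) * fb + (438297783 / 1000000000) * (mul_nonneg (sub_nonneg.mpr hb) (sub_nonneg.mpr b1))
  have hsq : s ^ 2 < 1 := by linear_combination (17361 / 10000) * s2 + (mul_nonneg (sub_nonneg.mpr hE) (sub_nonneg.mpr s1)) +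
    (mul_nonneg (sub_nonneg.mpr hz) (sub_nonneg.mpr s1))
  have gs := g_sq hsq.le
  -- slopes
  obtain ⟨K, hK⟩ : ∃ K, K * g s = s := by
    have : 0 < g s := by
      rcases (g_nonneg s).eq_or_lt with h | h
      · rw [← h] at gs
        exact absurd hsq (not_lt.mpr (by linear_combination -gs))
      · exact h
    exact ⟨s / g s, by field_simp⟩
  have hgs : 49987 / 100000 ≤ g s := by
    unfold g
    apply Real.le_sqrt_of_sq_le
    linear_combination (8011 / 5000) * s2 + (mul_nonneg (sub_nonneg.mpr s1) (sub_nonneg.mpr s2))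
  have hK1 : K ≤ 1733 / 1000 := by
    by_contra hcon
    push Not at hcon
    exact absurd s2 (not_le.mpr (by linear_combination -(216612355000 / 471991323631) * gs + (124935008450 / 471991323631) * hK + (216612355000 / 471991323631) * (mul_nonneg (sub_nonneg.mpr s1) (sub_nonneg.mpr s2)) + (249935000000 / 471991323631) * (mul_nonneg (sub_nonneg.mpr s2) (sub_nonneg.mpr hgs)) + (249935000000 / 471991323631) * (mul_pos (sub_pos.mpr hsq) (sub_pos.mpr hcon)) + (249935000000 / 471991323631) * (mul_nonneg (sub_nonneg.mpr (ge_of_eq gs)) (sub_nonneg.mpr (le_of_lt hcon))) + (249935000000 / 471991323631) * (mul_nonneg (sub_nonneg.mpr (le_of_eq hK)) (sub_nonneg.mpr hgs)) + (216525000000 / 471991323631) * (mul_nonneg (sub_nonneg.mpr hgs) (sub_nonneg.mpr hgs))))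
  have i1 := tan_up (s := s - c) (x := (b - c) / 2 + (h0 * ph b - h0 * ph c)) (K := K)
    (by linear_combination hb + s1 + c1) (by linear_combination (140505319953 / 50000000000) * (sq_nonneg (b)) + (31 / 200) * k2 +
      (16111 / 10000) * s2 + (36111 / 10000) * t1 - (39 / 10) * hc + (2684693 / 20000000) * fb +
      (39 / 10) * hkc0 + (438297783 / 2000000000) * (mul_nonneg (sub_nonneg.mpr (sq_nonneg (b))) (sub_nonneg.mpr hb)) +
      (37957902901149 / 1000000000) * (mul_nonneg (sub_nonneg.mpr (sq_nonneg (b))) (sub_nonneg.mpr k1)) +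
      (18978732301683 / 500000000) * (mul_nonneg (sub_nonneg.mpr (sq_nonneg (b))) (sub_nonneg.mpr k2)) +
      (438297783 / 1000000000) * (mul_nonneg (sub_nonneg.mpr (sq_nonneg (b))) (sub_nonneg.mpr t1)) +
      (3889 / 500) * (mul_nonneg (sub_nonneg.mpr hb) (sub_nonneg.mpr hE)) + (250196067 / 500) * (mul_nonneg (sub_nonneg.mpr hb) (sub_nonneg.mpr k1)) +
      (125096589 / 250) * (mul_nonneg (sub_nonneg.mpr hb) (sub_nonneg.mpr k2)) + (5 / 2) * (mul_nonneg (sub_nonneg.mpr hb) (sub_nonneg.mpr hz)) +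
      (2889 / 500) * (mul_nonneg (sub_nonneg.mpr hb) (sub_nonneg.mpr t1)) + (mul_nonneg (sub_nonneg.mpr hb) (sub_nonneg.mpr c0)) +
      3 * (mul_nonneg (sub_nonneg.mpr hE) (sub_nonneg.mpr hE)) + (mul_nonneg (sub_nonneg.mpr hE) (sub_nonneg.mpr k2)) +
      4 * (mul_nonneg (sub_nonneg.mpr hE) (sub_nonneg.mpr (le_of_eq hc))) + (86603 / 100000) * (mul_nonneg (sub_nonneg.mpr hE) (sub_nonneg.mpr fb)) +
      4 * (mul_nonneg (sub_nonneg.mpr hE) (sub_nonneg.mpr hk0)) + 86603 * (mul_nonneg (sub_nonneg.mpr k1) (sub_nonneg.mpr s2)) +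
      86602 * (mul_nonneg (sub_nonneg.mpr k2) (sub_nonneg.mpr s2)) + (mul_nonneg (sub_nonneg.mpr hz) (sub_nonneg.mpr s1)) +
      (mul_nonneg (sub_nonneg.mpr hz) (sub_nonneg.mpr t1)) + 2 * (mul_nonneg (sub_nonneg.mpr hz) (sub_nonneg.mpr c1)) +
      (mul_nonneg (sub_nonneg.mpr c0) (sub_nonneg.mpr c1))) (by linear_combination (1 / 2) * c1 + hk0) (by linear_combination hb + hE + s1 + hc)
    (slope_le (by linear_combination hb + s1 + c1) (by linear_combination c0) hsq hK.ge)
  have i2 := tan_up (s := s - a - c) (x := (b - c) / 2 + (h0 * ph b - h0 * ph c))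
    (K := 11566 / 10000) (by linear_combination hb + ha + (7 / 10) * s1 + c1) (by linear_combination (9373 / 1866100) * hb - (17 / 10) * ha + (811729919 / 933050) * k1 +
      (405860273 / 466525) * k2 + (527194500 / 808039961) * h2 + (1544219 / 466525) * t1 - (33 / 10) * hc +
      (33 / 10) * hkc0 + (527194500 / 808039961) * (mul_nonneg (sub_nonneg.mpr (sq_nonneg (s))) (sub_nonneg.mpr h1)) +
      (7 / 5) * (mul_nonneg (sub_nonneg.mpr hb) (sub_nonneg.mpr hE)) + (7 / 5) * (mul_nonneg (sub_nonneg.mpr hb) (sub_nonneg.mpr hz)) +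
      (mul_nonneg (sub_nonneg.mpr hb) (sub_nonneg.mpr c0)) + (1400 / 18661) * (mul_nonneg (sub_nonneg.mpr hE) (sub_nonneg.mpr hE)) +
      (7 / 5) * (mul_nonneg (sub_nonneg.mpr hE) (sub_nonneg.mpr (le_of_eq ha))) + (1400 / 18661) * (mul_nonneg (sub_nonneg.mpr hE) (sub_nonneg.mpr hz)) +
      (7 / 5) * (mul_nonneg (sub_nonneg.mpr hE) (sub_nonneg.mpr c1)) + (mul_nonneg (sub_nonneg.mpr (ge_of_eq ha)) (sub_nonneg.mpr (le_of_eq ha))) +
      (7 / 5) * (mul_nonneg (sub_nonneg.mpr (le_of_eq ha)) (sub_nonneg.mpr hz)) + 2 * (mul_nonneg (sub_nonneg.mpr (le_of_eq ha)) (sub_nonneg.mpr c0)) +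
      (1400 / 18661) * (mul_nonneg (sub_nonneg.mpr hz) (sub_nonneg.mpr s2)) + (7 / 5) * (mul_nonneg (sub_nonneg.mpr hz) (sub_nonneg.mpr c1)) +
      (527194500 / 808039961) * (mul_pos (sub_pos.mpr hp) (sub_pos.mpr hsq)) + (mul_nonneg (sub_nonneg.mpr c0) (sub_nonneg.mpr c1))) (by linear_combination (1 / 2) * c1 + hk0) (by linear_combination hb + hE + ha + (7 / 10) * s1 + hc)
    (slope_le (y := 7563 / 10000) (by linear_combination hb + ha + (7 / 10) * s1 + c1) (by linear_combination -ha + (7 / 10) * s2 + c0) (by norm_num) (by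
      have : 654 / 1000 ≤ g (7563 / 10000) := by
        unfold g
        apply Real.le_sqrt_of_sq_le
        norm_num
      linear_combination (5783 / 5000) * this))
  have i3 := tan_dn (s := s) (x := (b - c) / 2 - (h0 * ph b - h0 * ph c)) (K := K) hsq
    (by linear_combination hE + hc) (by linear_combination (17361 / 10000) * hz - 2 * hc + (mul_nonneg (sub_nonneg.mpr hE) (sub_nonneg.mpr hz)) +
      (mul_nonneg (sub_nonneg.mpr hz) (sub_nonneg.mpr s1)) + 2 * (mul_nonneg (sub_nonneg.mpr hz) (sub_nonneg.mpr (le_of_eq hc))) +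
      (mul_nonneg (sub_nonneg.mpr (ge_of_eq hc)) (sub_nonneg.mpr (le_of_eq hc)))) hK.le
  -- the value at the other angle
  have hDc : 0 ≤ Dbb s a c t (h0 * ph c) := by
    apply cornerD ⟨ha, ?_, ?_, ?_, h1, h2, ?_, hkc0, by linear_combination (1 / 2) * hb + t1 - hc + (1 / 2) * c1, s1, s2, c0, by linear_combination hb + c1, t1, t2⟩
      (by linear_combination hb + c1) (by linear_combination hc)
    · exact mul_le_mul_of_nonneg_right h1 fc0
    · exact mul_le_mul_of_nonneg_right h2 fc0
    · linear_combination s2 + hc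
    · exact mul_le_mul_of_nonneg_right h1 c0
  have hex := (g_exit (b := c) c0 (by linear_combination hb + c1)).1
  have hex2 : ph (h0 + t) = 1 / 2 + ph c / 2 + h0 * c := by
    have e : h0 + t = h0 * g c + c / 2 := by
      rw [← hc]
      unfold Four.Low.ph
      ring
    rw [e]
    have : ph (h0 * g c + c / 2) = 1 - g (h0 * g c + c / 2) := rfl
    rw [this, hex]
    unfold Four.Low.ph
    ring
  have e1 : s - t + c / 2 - h0 * ph c = s := by linear_combination hc
  have e2 : s - a - t + c / 2 - h0 * ph c = s - a := by linear_combination hc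
  have e3 : s - t - c / 2 - h0 * ph c = s - c := by linear_combination hc
  have e4 : s - a - t - c / 2 - h0 * ph c = s - a - c := by linear_combination hc
  have e5 : s - c - ((b - c) / 2 + (h0 * ph b - h0 * ph c)) = s - t - b / 2 - h0 * ph b := by
    linear_combination -hc
  have e6 : s - a - c - ((b - c) / 2 + (h0 * ph b - h0 * ph c)) =
      s - a - t - b / 2 - h0 * ph b := by
    linear_combination -hc
  have e7 : s + ((b - c) / 2 - (h0 * ph b - h0 * ph c)) = s - t + b / 2 - h0 * ph b := by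
    linear_combination -hc
  rw [e5] at i1
  rw [e6] at i2
  rw [e7] at i3
  unfold Dbb at hDc
  rw [e1, e2, e3, e4] at hDc
  unfold Ubb
  rw [hex2]
  have m1 : K * (h0 * ph b - h0 * ph c) ≤ 1733 / 1000 * (4337 / 100000 * (b - c)) :=
    mul_le_mul hK1 hk1 hk0 (by norm_num)
  have m2 : 86602 / 100000 * (b - c) ≤ h0 * (b - c) :=
    mul_le_mul_of_nonneg_right h1 (by linear_combination c1)
  linear_combination (6066419 / 228315000) * hE + (6066419 / 228315000) * hc + (3 / 2) * hdf +
    (25800271 / 22831500) * hk1 + i1 + i2 + i3 + hDc + 2 * m1 + m2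

end Pool.Agent.Strip051.FourB
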