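import Pool.Agent.Strip051.Four.Gain

/-! # The four probes for the strip of height `2 h0 + s`, `(17 / 20) h0 ≤ s < h0`

The wall probes are the ones of the range `s ≤ h0 / 2`, the body of the second probe is different:
it lives on `[h0 + s - 1, h0 + s]` and has an edge of width `a = (3 / 10) (s - 1 / 2)`. -/

namespace Pool.Agent.Strip051.FourB

open Pool.Agent.StripNear Pool.Agent.StripSquare Pool.Agent.Strip051
open Pool.Agent.Strip051.Four (gn mirP mirP_ok mirP_gn mirP_val j1 j4 j1_gn j4_gn arc_sub le_gn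
  gn_nonneg gain_ge ext_facts g_le_of_abs gam_neg adm_low)

/-- The body of the second probe: four unit arcs. -/
noncomputable def bd (s a z : ℝ) : ℝ :=
  min (min (g (z - (h0 + s)) + (g (s - a) - g s + 1 - g (s - 2 * a)))
      (g (z - (h0 + s - a)) + (1 - g (s - 2 * a))))
    (min (g (z - (h0 + a))) (g (z - h0) + (g (s - 2 * a) - g (s - a))))

/-- The second probe. -/
noncomputable def k2 (s a : ℝ) : Probe := ⟨h0 + s - 1, h0 + s, bd s a⟩

/-- The third probe. -/
noncomputable def k3 (s a : ℝ) : Probe := mirP (2 * h0 + s) (k2 s a)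

/-- The parameters. -/
structure Par (s t a : ℝ) : Prop where
  s0 : 17 / 20 * h0 ≤ s
  s1 : s < h0
  t0 : 0 ≤ t
  ts : t ≤ s
  gt : g t = (3 + g s) / 4
  ha : a = 3 / 10 * (s - 1 / 2)

section

variable {s t a : ℝ}

theorem Par.s_gt (P : Par s t a) : 0.7361 < s := by
  have := P.s0
  have := h0_gt
  linear_combination (17 / 20) * this + (‹17 / 20 * h0 ≤ s›)

theorem Par.s_lt (P : Par s t a) : s < 0.8661 := by
  have := P.s1
  have := h0_lt
  linear_combination this + (‹s < h0›)

theorem Par.a_gt (P : Par s t a) : 0.0708 < a := by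
  have := P.s_gt
  rw [P.ha]
  linear_combination (3 / 10) * this

theorem Par.a_lt (P : Par s t a) : a < 0.1099 := by
  have := P.s_lt
  rw [P.ha]
  linear_combination (3 / 10) * this

end

theorem par_exists {s : ℝ} (h1 : 17 / 20 * h0 ≤ s) (h2 : s < h0) : ∃ t a, Par s t a := by
  have hh := h0_lt
  have hp := h0_pos
  have hc0 := g_nonneg s
  have hc1 := g_le_one s
  have hs0 : 0 ≤ s := by linear_combination (20 / 3) * h1 + (17 / 3) * h2
  have hc := g_sq (r := s) (by linear_combination (8661 / 10000) * hh + (40 / 3) * (mul_nonneg (sub_nonneg.mpr h1) (sub_nonneg.mpr (le_of_lt h2))) +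
    (20 / 3) * (mul_nonneg (sub_nonneg.mpr h1) (sub_nonneg.mpr (le_of_lt hh))) + (37 / 3) * (mul_pos (sub_pos.mpr h2) (sub_pos.mpr h2)) +
    (20 / 3) * (mul_pos (sub_pos.mpr h2) (sub_pos.mpr hh)))
  have hu := g_sq (r := (3 + g s) / 4) (by linear_combination (1 / 16) * (sq_nonneg (s)) + (3 / 8) * hc1 + (1 / 16) * hc)
  refine ⟨g ((3 + g s) / 4), 3 / 10 * (s - 1 / 2), h1, h2, g_nonneg _, ?_, ?_, rfl⟩
  · apply abs_le_of_sq_le_sq' _ hs0 |>.2
    linear_combination (47 / 96) * (sq_nonneg (s)) - (49 / 96) * hc - (1 / 3) * hu + (1 / 6) * (mul_nonneg (sub_nonneg.mpr (sq_nonneg (g ((3 + g s) / 4)))) (sub_nonneg.mpr (sq_nonneg (s)))) +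
      (mul_nonneg (sub_nonneg.mpr (sq_nonneg (g ((3 + g s) / 4)))) (sub_nonneg.mpr hc0)) +
      (1 / 6) * (mul_nonneg (sub_nonneg.mpr (sq_nonneg (g ((3 + g s) / 4)))) (sub_nonneg.mpr (le_of_eq hc))) +
      (1 / 96) * (mul_nonneg (sub_nonneg.mpr (sq_nonneg (s))) (sub_nonneg.mpr (sq_nonneg (g s)))) +
      (1 / 96) * (mul_nonneg (sub_nonneg.mpr (sq_nonneg (g s))) (sub_nonneg.mpr (le_of_eq hc))) +
      (1 / 3) * (mul_nonneg (sub_nonneg.mpr (sq_nonneg (g s))) (sub_nonneg.mpr (ge_of_eq hu))) +
      (8 / 3) * (mul_nonneg (sub_nonneg.mpr (sq_nonneg ((3 + g s) / 4))) (sub_nonneg.mpr (le_of_eq hu)))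
  · unfold g at *
    rw [show 1 - (√(1 - ((3 + √(1 - s ^ 2)) / 4) ^ 2)) ^ 2 = ((3 + √(1 - s ^ 2)) / 4) ^ 2 by
      rw [hu]; ring, Real.sqrt_sq (by positivity)]

theorem k2_gn (s a r q y : ℝ) : gn (k3 s a) r q y = gn (k2 s a) q r (2 * h0 + s - y) :=
  mirP_gn _ _ _ _ _

theorem k3_gn (s a r q y : ℝ) : gn (k2 s a) r q y = gn (k3 s a) q r (2 * h0 + s - y) := by
  rw [k2_gn, sub_sub_cancel]

/-! ### The body -/

section

variable {s a z : ℝ}

theorem bd_le1 : bd s a z ≤ g (z - (h0 + s)) + (g (s - a) - g s + 1 - g (s - 2 * a)) :=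
  (min_le_left _ _).trans (min_le_left _ _)

theorem bd_le2 : bd s a z ≤ g (z - (h0 + s - a)) + (1 - g (s - 2 * a)) :=
  (min_le_left _ _).trans (min_le_right _ _)

theorem bd_le3 : bd s a z ≤ g (z - (h0 + a)) :=
  (min_le_right _ _).trans (min_le_left _ _)

theorem bd_le4 : bd s a z ≤ g (z - h0) + (g (s - 2 * a) - g (s - a)) :=
  (min_le_right _ _).trans (min_le_right _ _)

end

section

variable {s t a z : ℝ}

theorem arc12 (P : Par s t a) (h1 : h0 + s - 1 ≤ z) (h2 : z ≤ h0) :
    g (z - (h0 + s)) + (g (s - a) - g s + 1 - g (s - 2 * a)) ≤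
      g (z - (h0 + s - a)) + (1 - g (s - 2 * a)) := by
  have := P.s_gt
  have := P.s_lt
  have := P.a_gt
  have := P.a_lt
  have e1 := arc_sub (a := h0 + s - a) (b := h0 + s) (x := z) (y := h0) (by linear_combination (‹708e-4 < a›)) h2
    (by linear_combination h1) (by linear_combination this + (‹0.7361 < s›))
  rw [show h0 - (h0 + s - a) = -(s - a) by ring, show h0 - (h0 + s) = -s by ring, g_neg,
    g_neg] at e1
  linear_combination e1

theorem arc21 (P : Par s t a) (h1 : h0 ≤ z) (h2 : z ≤ h0 + s) :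
    g (z - (h0 + s - a)) + (1 - g (s - 2 * a)) ≤
      g (z - (h0 + s)) + (g (s - a) - g s + 1 - g (s - 2 * a)) := by
  have := P.s_gt
  have := P.s_lt
  have := P.a_gt
  have := P.a_lt
  have e1 := arc_sub (a := h0 + s - a) (b := h0 + s) (x := h0) (y := z) (by linear_combination (‹708e-4 < a›)) h1
    (by linear_combination (‹s < 0.8661›)) (by linear_combination h2 + this)
  rw [show h0 - (h0 + s - a) = -(s - a) by ring, show h0 - (h0 + s) = -s by ring, g_neg,
    g_neg] at e1
  linear_combination e1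

theorem arc23 (P : Par s t a) (h1 : h0 + s - 1 ≤ z) (h2 : z ≤ h0 + a) :
    g (z - (h0 + s - a)) + (1 - g (s - 2 * a)) ≤ g (z - (h0 + a)) := by
  have := P.s_gt
  have := P.s_lt
  have := P.a_gt
  have := P.a_lt
  have e1 := arc_sub (a := h0 + a) (b := h0 + s - a) (x := z) (y := h0 + a) (by linear_combination 2 * this + (‹0.7361 < s›)) h2
    (by linear_combination h1 + (‹708e-4 < a›)) (by linear_combination)
  rw [sub_self, g_zero, show h0 + a - (h0 + s - a) = -(s - 2 * a) by ring, g_neg] at e1
  linear_combination e1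

theorem arc32 (P : Par s t a) (h1 : h0 + a ≤ z) (h2 : z ≤ h0 + s) :
    g (z - (h0 + a)) ≤ g (z - (h0 + s - a)) + (1 - g (s - 2 * a)) := by
  have := P.s_gt
  have := P.s_lt
  have := P.a_gt
  have := P.a_lt
  have e1 := arc_sub (a := h0 + a) (b := h0 + s - a) (x := h0 + a) (y := z) (by linear_combination 2 * this + (‹0.7361 < s›)) h1
    (by linear_combination (‹s < 0.8661›) + 2 * (‹708e-4 < a›)) (by linear_combination h2 + (‹s < 0.8661›) + (‹708e-4 < a›))
  rw [sub_self, g_zero, show h0 + a - (h0 + s - a) = -(s - 2 * a) by ring, g_neg] at e1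
  linear_combination e1

theorem arc34 (P : Par s t a) (h1 : h0 + s - 1 ≤ z) (h2 : z ≤ h0 + s - a) :
    g (z - (h0 + a)) ≤ g (z - h0) + (g (s - 2 * a) - g (s - a)) := by
  have := P.s_gt
  have := P.s_lt
  have := P.a_gt
  have := P.a_lt
  have e1 := arc_sub (a := h0) (b := h0 + a) (x := z) (y := h0 + s - a) (by linear_combination (‹708e-4 < a›)) h2
    (by linear_combination h1 + this + (‹0.7361 < s›)) (by linear_combination (‹s < 0.8661›) + (‹708e-4 < a›))
  rw [show h0 + s - a - h0 = s - a by ring, show h0 + s - a - (h0 + a) = s - 2 * a by ring] at e1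
  linear_combination e1

theorem arc43 (P : Par s t a) (h1 : h0 + s - a ≤ z) (h2 : z ≤ h0 + s) :
    g (z - h0) + (g (s - 2 * a) - g (s - a)) ≤ g (z - (h0 + a)) := by
  have := P.s_gt
  have := P.s_lt
  have := P.a_gt
  have := P.a_lt
  have hh := h0_lt
  have e1 := arc_sub (a := h0) (b := h0 + a) (x := h0 + s - a) (y := z) (by linear_combination h1 + h2) h1
    (by linear_combination 2 * this + (‹0.7361 < s›)) (by linear_combination h2 + (‹s < 0.8661›))
  rw [show h0 + s - a - h0 = s - a by ring, show h0 + s - a - (h0 + a) = s - 2 * a by ring] at e1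
  linear_combination e1

/-- The cell `[h0 + s - 1, h0]`. -/
theorem bd_eq1 (P : Par s t a) (h1 : h0 + s - 1 ≤ z) (h2 : z ≤ h0) :
    bd s a z = g (z - (h0 + s)) + (g (s - a) - g s + 1 - g (s - 2 * a)) := by
  have := P.s_gt
  have := P.a_gt
  have := P.a_lt
  have e1 := arc12 P h1 h2
  have e2 := arc23 P h1 (by linear_combination h2 + (‹708e-4 < a›))
  have e3 := arc34 P h1 (by linear_combination h2 + this + (‹0.7361 < s›))
  unfold bd
  rw [min_eq_left e1, min_eq_left e3, min_eq_left (by linear_combination e1 + e2)]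

/-- The cell `[h0, h0 + a]`. -/
theorem bd_eq2 (P : Par s t a) (h1 : h0 ≤ z) (h2 : z ≤ h0 + a) :
    bd s a z = g (z - (h0 + s - a)) + (1 - g (s - 2 * a)) := by
  have := P.s_gt
  have := P.s_lt
  have := P.a_gt
  have := P.a_lt
  have e1 := arc21 P h1 (by linear_combination h2 + this + (‹0.7361 < s›))
  have e2 := arc23 P (by linear_combination h1 + (‹s < 0.8661›)) h2
  have e3 := arc34 P (z := z) (by linear_combination h1 + (‹s < 0.8661›)) (by linear_combination h2 + 2 * this + (‹0.7361 < s›))
  unfold bd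
  rw [min_eq_right e1, min_eq_left e3, min_eq_left (by linear_combination e2)]

/-- The cell `[h0 + a, h0 + s - a]`. -/
theorem bd_eq3 (P : Par s t a) (h1 : h0 + a ≤ z) (h2 : z ≤ h0 + s - a) :
    bd s a z = g (z - (h0 + a)) := by
  have := P.s_gt
  have := P.s_lt
  have := P.a_gt
  have := P.a_lt
  have e1 := arc21 P (z := z) (by linear_combination h1 + (‹708e-4 < a›)) (by linear_combination h2 + (‹708e-4 < a›))
  have e2 := arc32 P (z := z) h1 (by linear_combination h2 + (‹708e-4 < a›))
  have e3 := arc34 P (z := z) (by linear_combination h1 + (‹s < 0.8661›) + (‹708e-4 < a›)) h2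
  unfold bd
  rw [min_eq_right e1, min_eq_left e3, min_eq_right (by linear_combination e2)]

/-- The cell `[h0 + s - a, h0 + s]`. -/
theorem bd_eq4 (P : Par s t a) (h1 : h0 + s - a ≤ z) (h2 : z ≤ h0 + s) :
    bd s a z = g (z - h0) + (g (s - 2 * a) - g (s - a)) := by
  have := P.s_gt
  have := P.s_lt
  have := P.a_gt
  have := P.a_lt
  have e1 := arc21 P (z := z) (by linear_combination h1 + this + (‹0.7361 < s›)) (by linear_combination h2)
  have e2 := arc32 P (z := z) (by linear_combination h1 + 2 * this + (‹0.7361 < s›)) (by linear_combination h2)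
  have e3 := arc43 P h1 h2
  unfold bd
  rw [min_eq_right e1, min_eq_right e3, min_eq_right (by linear_combination e2 + e3)]

end

/-! ### The probes lie in the strip -/

section

variable {s t a : ℝ}

theorem j1_ok (P : Par s t a) : (j1 t).Ok (2 * h0 + s) := by
  have := h0_pos
  have := P.s_gt
  have := P.t0
  have := P.ts
  refine ⟨le_rfl, P.t0, by simp only [j1]; linear_combination this + 2 * (‹0 < h0›), 1, fun z _ _ => g_le_one _⟩

theorem k2_ok (P : Par s t a) : (k2 s a).Ok (2 * h0 + s) := by
  have := h0_gt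
  have := P.s_gt
  refine ⟨by simp only [k2]; linear_combination this + (‹0.866 < h0›), by simp only [k2]; linear_combination,
    by simp only [k2]; linear_combination (‹0.866 < h0›), 1, fun z _ _ => ?_⟩
  exact bd_le3.trans (g_le_one _)

theorem k3_ok (P : Par s t a) : (k3 s a).Ok (2 * h0 + s) := mirP_ok (k2_ok P)

theorem j4_ok (P : Par s t a) : (j4 s t).Ok (2 * h0 + s) := mirP_ok (j1_ok P)

/-- The new point is not above `t`. -/
theorem case_a (P : Par s t a) {r q y : ℝ} (h1 : 0 ≤ y) (h2 : y ≤ t) :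
    (1 + g s) / 2 ≤ gn (j1 t) r q y := by
  have := P.s_lt
  have := P.t0
  have := P.ts
  have hgt := P.gt
  have h3 := le_gn (r := r) (q := q) (y := y) (z0 := y) (v := g (t - y) - 1) (j1_ok P) h1 h2
    (by
      intro z k1 k2
      simp only [j1] at k1 k2 ⊢
      right
      have := arc_sub (a := y) (b := t) (x := z) (y := t) h2 k2 (by linear_combination this + k1 + (‹s < 0.8661›)) (by linear_combination h1 + this + (‹s < 0.8661›))
      rw [sub_self, g_zero] at this
      linear_combination this)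
  simp only [j1, sub_self] at h3
  have h4 : gam r q 0 = 0 := by
    unfold gam
    rw [if_pos le_rfl, vir_zero]
  have h5 : g (y - t) = g (t - y) := by rw [← g_neg, neg_sub]
  have h6 : g t ≤ g (t - y) := g_anti (by linear_combination h2) (by linear_combination h1)
  rw [h4, h5] at h3
  simp only [j1]
  linear_combination -2 * hgt + h3 + 2 * h6

/-- The lower side when the new point is between `t` and `h0`. -/
theorem lower_gain (P : Par s t a) {r y : ℝ} (h1 : t ≤ y) (h2 : y ≤ h0) :
    1 + 2 * g y - 2 * g t ≤ gn (j1 t) r y y := by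
  have hh := h0_lt
  have := P.s_lt
  have := P.t0
  have := P.ts
  have h3 := le_gn (r := r) (q := y) (y := y) (z0 := t) (v := g y - g t) (j1_ok P) P.t0 le_rfl
    (by
      intro z k1 k2
      simp only [j1] at k1 k2 ⊢
      right
      have := arc_sub (a := t) (b := y) (x := 0) (y := z) h1 k1 (by linear_combination h2 + hh) (by linear_combination k2)
      rw [zero_sub, zero_sub, g_neg, g_neg] at this
      linear_combination this)
  simp only [j1, sub_self, g_zero] at h3
  have h4 : gam r y (t - y) ≤ g t - g y := by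
    unfold gam
    split
    · next h =>
      rw [show t - y = 0 by exact le_antisymm (by linear_combination h1) (by linear_combination h), vir_zero]
      rw [show t = y by exact le_antisymm (by linear_combination h1) (by linear_combination h), sub_self]
    · unfold vir
      apply max_le
      · have := g_anti P.t0 h1
        linear_combination this
      · rw [show -(t - y) - y = -t by ring, g_neg]
  simp only [j1]
  linear_combination h3 + h4

/-- What remains to be proved when the new point is between `t` and `s`. -/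
def LowA (s t a : ℝ) : Prop := ∀ y r : ℝ, t ≤ y → y ≤ s → 1 / 2 ≤ r → r ≤ 1 →
  1 + g s - 2 * g y ≤ (gn (k2 s a) r y y + gn (k3 s a) r y y) / 2

/-- What remains to be proved when the new point is between `s` and `h0`. -/
def MidB (s a : ℝ) : Prop := ∀ y r : ℝ, s ≤ y → y ≤ h0 → 1 / 2 ≤ r → r ≤ 1 →
  r ≤ 2 * h0 + s - y → ext r ≤ 2 * h0 + s - y →
  1 + g s - 2 * g y ≤ (gn (k2 s a) r y y + gn (k3 s a) r y y) / 2

/-- What remains to be proved when the new point is between `h0` and `h0 + s / 2`. -/
def HighC (s t a : ℝ) : Prop := ∀ y r q : ℝ, h0 ≤ y → y ≤ h0 + s / 2 → 1 / 2 ≤ r → r ≤ 1 →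
  r ≤ 2 * h0 + s - y → ext r ≤ 2 * h0 + s - y → 1 / 2 ≤ q → q ≤ 1 → q ≤ y → ext q ≤ y →
  (1 + g s) / 2 ≤ gn (j1 t) r q y + (gn (k2 s a) r q y + gn (k3 s a) r q y) / 2

/-- The insertion inequality up to the middle of the strip. -/
theorem half_gain (P : Par s t a) (hA : LowA s t a) (hB : MidB s a) (hC : HighC s t a)
    {y r q : ℝ} (h1 : 0 ≤ y) (h2 : y ≤ h0 + s / 2) (hr : Adm (2 * h0 + s - y) r)
    (hq : Adm y q) :
    (1 + g s) / 2 ≤ gn (j1 t) r q y + (gn (k2 s a) r q y + gn (k3 s a) r q y) / 2 +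
      gn (j4 s t) r q y := by
  have hg := h0_gt
  have := P.s_gt
  have ht0 := P.t0
  have hts := P.ts
  have k1 := gn_nonneg (r := r) (q := q) (y := y) (j1_ok P)
  have k2 := gn_nonneg (r := r) (q := q) (y := y) (k2_ok P)
  have k3 := gn_nonneg (r := r) (q := q) (y := y) (k3_ok P)
  have k4 := gn_nonneg (r := r) (q := q) (y := y) (j4_ok P)
  rcases le_total y t with h3 | h3
  · have := case_a (r := r) (q := q) P h1 h3
    linear_combination (1 / 2) * k2 + (1 / 2) * k3 + k4 + this
  · have hr' : 1 / 2 ≤ r ∧ r ≤ 1 ∧ r ≤ 2 * h0 + s - y ∧ ext r ≤ 2 * h0 + s - y := by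
      rcases hr with hr | ⟨-, -, hr⟩
      · exact hr
      · exact absurd h2 (not_le.mpr (by linear_combination (1 / 2) * ht0 + (1 / 2) * hts + hr))
    obtain ⟨r1, r2, r3, r4⟩ := hr'
    rcases le_total y h0 with h4 | h4
    · have hqy := adm_low h4 hq
      subst hqy
      have k5 := lower_gain (r := r) P h3 h4
      have hgt := P.gt
      have k6 : 1 + g s - 2 * g q ≤
          (gn (FourB.k2 s a) r q q + gn (FourB.k3 s a) r q q) / 2 := by
        rcases le_total q s with h5 | h5
        · exact hA q r h3 h5 r1 r2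
        · exact hB q r h5 h4 r1 r2 r3 r4
      linear_combination k4 + k5 + 2 * hgt + k6
    · have hq' : 1 / 2 ≤ q ∧ q ≤ 1 ∧ q ≤ y ∧ ext q ≤ y := by
        rcases hq with hq | ⟨-, -, hq⟩
        · exact hq
        · exact absurd h4 (not_le.mpr (by linear_combination hq))
      obtain ⟨q1, q2, q3, q4⟩ := hq'
      have := hC y r q h4 h2 r1 r2 r3 r4 q1 q2 q3 q4
      linear_combination k4 + this

/-- The insertion inequality. -/
theorem full_gain (P : Par s t a) (hA : LowA s t a) (hB : MidB s a) (hC : HighC s t a)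
    {y r q : ℝ} (h1 : 0 ≤ y) (h2 : y ≤ 2 * h0 + s) (hr : Adm (2 * h0 + s - y) r)
    (hq : Adm y q) :
    (1 + g s) / 2 ≤ gn (j1 t) r q y + (gn (k2 s a) r q y + gn (k3 s a) r q y) / 2 +
      gn (j4 s t) r q y := by
  rcases le_total y (h0 + s / 2) with h3 | h3
  · exact half_gain P hA hB hC h1 h3 hr hq
  · have := half_gain P hA hB hC (y := 2 * h0 + s - y) (r := q) (q := r) (by linear_combination h2)
      (by linear_combination h3) (by rwa [sub_sub_cancel]) hr
    rw [j4_gn s t q r, k3_gn s a q r, k2_gn s a q r, j1_gn s t q r, sub_sub_cancel] at this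
    linear_combination this

/-- The four probes. -/
noncomputable def probes (s t a : ℝ) : Fin 4 → Probe := ![j1 t, k2 s a, k3 s a, j4 s t]

/-- The four weights. -/
noncomputable def weights (s : ℝ) : Fin 4 → ℝ :=
  ![2 / (1 + g s), 1 / (1 + g s), 1 / (1 + g s), 2 / (1 + g s)]

theorem cert (P : Par s t a) (hA : LowA s t a) (hB : MidB s a) (hC : HighC s t a) :
    ProbeCert (2 * h0 + s) (weights s) (probes s t a) := by
  have hc : 0 < 1 + g s := by linear_combination (g_nonneg s)
  refine ⟨?_, ?_, ?_⟩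
  · intro i
    fin_cases i <;> simp [weights] <;> positivity
  · intro i
    fin_cases i
    · exact j1_ok P
    · exact k2_ok P
    · exact k3_ok P
    · exact j4_ok P
  · intro y r q h1 h2 hr hq
    have h := full_gain P hA hB hC h1 h2 hr hq
    have e : ∑ i, weights s i * ((probes s t a i).val
        (fun z => max (gam r q (z - y)) (g (z - y))) -
        (probes s t a i).val (fun z => gam r q (z - y))) =
        (2 / (1 + g s)) * (gn (j1 t) r q y + (gn (k2 s a) r q y + gn (k3 s a) r q y) / 2 +
          gn (j4 s t) r q y) := by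
      simp only [Fin.sum_univ_four, weights, probes, gn]
      simp
      ring
    rw [e]
    calc (1 : ℝ) = (2 / (1 + g s)) * ((1 + g s) / 2) := by field_simp
      _ ≤ _ := mul_le_mul_of_nonneg_left h (by positivity)

theorem count (P : Par s t a) (hA : LowA s t a) (hB : MidB s a) (hC : HighC s t a) :
    CountBound 2 s := by
  have hc : 0 < 1 + g s := by linear_combination (g_nonneg s)
  have hp := h0_pos
  apply countBound_of_probe (by linear_combination P.s_gt) P.s1 (c := weights s) (j := probes s t a)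
  · have := cert P hA hB hC
    push_cast
    exact this
  · simp only [Fin.sum_univ_four, weights]
    simp
    apply le_of_eq
    field_simp
    ring

end

end Pool.Agent.Strip051.FourB
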