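import Pool.Agent.Strip051.FourB.Defs

/-! # Gains when the new point is between `h0` and `h0 + s / 2` -/

namespace Pool.Agent.Strip051.FourB

open Pool.Agent.StripNear Pool.Agent.StripSquare Pool.Agent.Strip051
open Pool.Agent.Strip051.Four (gn mirP mirP_ok mirP_gn mirP_val j1 j4 j1_gn j4_gn arc_sub le_gn
  gn_nonneg gain_ge ext_facts g_le_of_abs gam_neg adm_low)

section

variable {s t a y r q : ℝ}

theorem gam_zero (r q : ℝ) : gam r q 0 = 0 := by
  unfold gam
  rw [if_pos le_rfl, vir_zero]

/-- The second probe, the new point in `[h0, h0 + a]`. -/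
theorem high2_a (P : Par s t a) (h1 : h0 ≤ y) (h2 : y ≤ h0 + a) :
    2 * g (h0 + s - a - y) + 1 - 2 * g (s - 2 * a) ≤ gn (k2 s a) r q y := by
  have := P.s_gt
  have := P.s_lt
  have := P.a_gt
  have := P.a_lt
  have h3 := le_gn (r := r) (q := q) (y := y) (z0 := y)
    (v := g (h0 + s - a - y) - g (s - 2 * a)) (k2_ok P)
    (by simp only [k2]; linear_combination h1 + (‹s < 0.8661›)) (by simp only [k2]; linear_combination h2 + this + (‹0.7361 < s›))
    (by
      intro z k1 k2'
      simp only [k2] at k1 k2' ⊢
      right
      rcases le_total z (h0 + s - a) with k3 | k3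
      · have e1 := arc_sub (a := y) (b := h0 + a) (x := z) (y := h0 + s - a) h2 k3
          (by linear_combination this + k1 + (‹0.7361 < s›)) (by linear_combination 2 * h1 + h2 + (‹s < 0.8661›))
        rw [show h0 + s - a - (h0 + a) = s - 2 * a by ring] at e1
        have e2 := bd_le3 (s := s) (a := a) (z := z)
        linear_combination e1 + e2
      · have e1 := arc_sub (a := h0) (b := y) (x := h0 + s - a) (y := z) h1 k3
          (by linear_combination h2 + 2 * this + (‹0.7361 < s›)) (by linear_combination k2' + (‹s < 0.8661›))
        rw [show h0 + s - a - h0 = s - a by ring] at e1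
        have e2 := bd_le4 (s := s) (a := a) (z := z)
        linear_combination e1 + e2)
  simp only [k2, sub_self, gam_zero] at h3
  rw [bd_eq2 P h1 h2, show y - (h0 + s - a) = -(h0 + s - a - y) by ring, g_neg] at h3
  simp only [k2]
  linear_combination h3

/-- The second probe, the new point in `[h0 + a, h0 + s - a]`. -/
theorem high2_b (P : Par s t a) (h1 : h0 + a ≤ y) (h2 : y ≤ h0 + s - a) :
    2 * g (y - h0 - a) - 1 ≤ gn (k2 s a) r q y := by
  have := P.s_gt
  have := P.s_lt
  have := P.a_gt
  have := P.a_lt
  have h3 := le_gn (r := r) (q := q) (y := y) (z0 := y)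
    (v := g (y - h0 - a) - 1) (k2_ok P)
    (by simp only [k2]; linear_combination h1 + (‹s < 0.8661›) + (‹708e-4 < a›)) (by simp only [k2]; linear_combination h2 + (‹708e-4 < a›))
    (by
      intro z k1 k2'
      simp only [k2] at k1 k2' ⊢
      right
      rcases le_total z (h0 + a) with k3 | k3
      · have e1 := arc_sub (a := y) (b := h0 + s - a) (x := z) (y := h0 + a) h2 k3
          (by linear_combination k1 + (‹708e-4 < a›)) (by linear_combination h1)
        rw [show h0 + a - y = -(y - h0 - a) by ring, g_neg,
          show h0 + a - (h0 + s - a) = -(s - 2 * a) by ring, g_neg] at e1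
        have e2 := bd_le2 (s := s) (a := a) (z := z)
        linear_combination e1 + e2
      · have e1 := arc_sub (a := h0 + a) (b := y) (x := h0 + a) (y := z) h1 k3
          (by linear_combination h2 + (‹s < 0.8661›) + 2 * (‹708e-4 < a›)) (by linear_combination k2' + (‹s < 0.8661›) + (‹708e-4 < a›))
        rw [sub_self, g_zero, show h0 + a - y = -(y - h0 - a) by ring, g_neg] at e1
        have e2 := bd_le3 (s := s) (a := a) (z := z)
        linear_combination e1 + e2)
  simp only [k2, sub_self, gam_zero] at h3
  rw [bd_eq3 P h1 h2, show y - (h0 + a) = y - h0 - a by ring] at h3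
  simp only [k2]
  linear_combination h3

/-- The second probe, the new point in `[h0 + s - a, h0 + s]`. -/
theorem high2_c (P : Par s t a) (h1 : h0 + s - a ≤ y) (h2 : y ≤ h0 + s) :
    2 * g (y - h0) + 2 * g (s - 2 * a) - 2 * g (s - a) - 1 ≤ gn (k2 s a) r q y := by
  have := P.s_gt
  have := P.s_lt
  have := P.a_gt
  have := P.a_lt
  have h3 := le_gn (r := r) (q := q) (y := y) (z0 := y)
    (v := g (y - h0) - (g (s - a) + 1 - g (s - 2 * a))) (k2_ok P)
    (by simp only [k2]; linear_combination h1 + this) (by simp only [k2]; linear_combination h2)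
    (by
      intro z k1 k2'
      simp only [k2] at k1 k2' ⊢
      right
      rcases le_total z h0 with k3 | k3
      · have e1 := arc_sub (a := y) (b := h0 + s) (x := z) (y := h0) h2 k3
          (by linear_combination k1) (by linear_combination h1 + this + (‹0.7361 < s›))
        rw [show h0 - y = -(y - h0) by ring, g_neg,
          show h0 - (h0 + s) = -s by ring, g_neg] at e1
        have e2 := bd_le1 (s := s) (a := a) (z := z)
        linear_combination e1 + e2
      · have e1 := arc_sub (a := h0 + s - a) (b := y) (x := h0) (y := z) h1 k3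
          (by linear_combination h2 + (‹s < 0.8661›)) (by linear_combination this + k2')
        rw [show h0 - (h0 + s - a) = -(s - a) by ring, g_neg,
          show h0 - y = -(y - h0) by ring, g_neg] at e1
        have e2 := bd_le2 (s := s) (a := a) (z := z)
        linear_combination e1 + e2)
  simp only [k2, sub_self, gam_zero] at h3
  rw [bd_eq4 P h1 h2] at h3
  simp only [k2]
  linear_combination h3

/-- The two middle probes, the new point in `[h0, h0 + a]`. -/
theorem high23_a (P : Par s t a) {τ : ℝ} (h1 : 0 ≤ τ) (h2 : τ ≤ a) :
    g (s - a - τ) + g (s - τ) - g (s - a) ≤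
      (gn (k2 s a) r q (h0 + τ) + gn (k3 s a) r q (h0 + τ)) / 2 := by
  have e1 := high2_a P (r := r) (q := q) (y := h0 + τ) (by linear_combination h1) (by linear_combination h2)
  have e2 := high2_c P (r := q) (q := r) (y := 2 * h0 + s - (h0 + τ)) (by linear_combination h2)
    (by linear_combination h1)
  rw [← k2_gn] at e2
  rw [show h0 + s - a - (h0 + τ) = s - a - τ by ring] at e1
  rw [show 2 * h0 + s - (h0 + τ) - h0 = s - τ by ring] at e2
  linear_combination (1 / 2) * e1 + (1 / 2) * e2

/-- The two middle probes, the new point in `[h0 + a, h0 + s / 2]`. -/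
theorem high23_b (P : Par s t a) {τ : ℝ} (h1 : a ≤ τ) (h2 : τ ≤ s / 2) :
    g (τ - a) + g (s - a - τ) - 1 ≤
      (gn (k2 s a) r q (h0 + τ) + gn (k3 s a) r q (h0 + τ)) / 2 := by
  have := P.s_gt
  have := P.a_lt
  have e1 := high2_b P (r := r) (q := q) (y := h0 + τ) (by linear_combination h1) (by linear_combination h1 + 2 * h2)
  have e2 := high2_b P (r := q) (q := r) (y := 2 * h0 + s - (h0 + τ)) (by linear_combination h1 + 2 * h2)
    (by linear_combination h1)
  rw [← k2_gn] at e2
  rw [show h0 + τ - h0 - a = τ - a by ring] at e1
  rw [show 2 * h0 + s - (h0 + τ) - h0 - a = s - a - τ by ring] at e2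
  linear_combination (1 / 2) * e1 + (1 / 2) * e2

/-- The lower wall probe and a virtual disc whose centre is not above `t`. -/
theorem high1 (P : Par s t a) (h1 : t < y) (hq0 : 1 / 2 ≤ q) (hq1 : q ≤ 1)
    (hq : y - q ≤ t) :
    1 + g q + g (ext q) - g (q - (y - t)) - g (ext q - (y - t)) ≤ gn (j1 t) r q y := by
  have hh := h0_lt
  have hg := h0_gt
  have := P.s_gt
  have := P.s_lt
  have ht0 := P.t0
  have hts := P.ts
  obtain ⟨a1, a2, a3, a4, a5, a6⟩ := ext_spec hq0 hq1
  have a7 := ext_meet hq0 hq1
  have a8 : q / 2 + h0 * g q = ext q := rfl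
  rw [a8] at a5 a6 a7
  have h3 := le_gn (r := r) (q := q) (y := y) (z0 := t) (v := g (ext q) - g (y - ext q - t))
    (j1_ok P) P.t0 le_rfl
    (by
      intro z k1 k2'
      simp only [j1] at k1 k2' ⊢
      rcases le_total (y - ext q) z with k3 | k3
      · right
        have e1 := arc_sub (a := t) (b := y) (x := y - ext q) (y := z) h1.le k3
          (by linear_combination a6) (by linear_combination k2')
        rw [show y - ext q - y = -ext q by ring, g_neg] at e1
        linear_combination e1
      · left
        have e1 := arc_sub (a := y - q) (b := t) (x := z) (y := y - ext q) hq k3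
          (by linear_combination this + hts + k1) (by linear_combination hq1 + a5)
        rw [show y - ext q - (y - q) = q - ext q by ring] at e1
        have e2 : g (z - (y - q)) - g q ≤ gam r q (z - y) := by
          unfold gam
          rw [if_neg (by exact not_le.mpr (by linear_combination h1 + k2'))]
          unfold vir
          refine le_trans ?_ (le_max_right _ _)
          rw [show -(z - y) - q = -(z - (y - q)) by ring, g_neg]
        linear_combination -a7 + e1 + e2)
  have e3 : gam r q (t - y) ≤ g (q - (y - t)) - g q := by
    unfold gam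
    rw [if_neg (by exact not_le.mpr (by linear_combination h1))]
    unfold vir
    rw [show -(t - y) - q = -(q - (y - t)) by ring, g_neg]
    apply max_le _ le_rfl
    have : g q ≤ g (q - (y - t)) := g_anti (by linear_combination hq) (by linear_combination h1)
    linear_combination this
  simp only [j1, sub_self, g_zero] at h3
  rw [show y - ext q - t = -(ext q - (y - t)) by ring, g_neg] at h3
  simp only [j1]
  linear_combination e3 + h3

end

end Pool.Agent.Strip051.FourB
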