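import Pool.Agent.Strip051.Four.LowA
import Pool.Agent.Strip051.FourB.Corner
import Pool.Agent.Strip051.FourB.BoxUTree
import Pool.Agent.Strip051.FourB.BoxDTree

/-! # The new point is between `t` and `s` -/

namespace Pool.Agent.Strip051.FourB

open Pool.Agent.StripNear Pool.Agent.StripSquare Pool.Agent.Strip051
open Pool.Agent.Strip051.Four (gn gn_nonneg le_gn gain_ge ext_facts g_le_of_abs Two Sit)
open Pool.Agent.Strip051.Four.Low (ph ph_nonneg ph_neg g_half_eq h0_hi h0_lo)

/-- The gain of a probe which ends below the exit. -/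
theorem gain_top {j : Probe} {H y r q C α z0 β : ℝ} (hj : j.Ok H) (h1 : 1 / 2 ≤ r)
    (h2 : r ≤ 1) (hC1 : y ≤ C) (hC2 : C ≤ j.lo + 1) (hhi : j.hi ≤ y + ext r)
    (ha : ∀ z, j.lo ≤ z → z ≤ j.hi → j.a z ≤ g (z - C) + α)
    (hlo : j.lo ≤ z0) (hz0 : z0 ≤ j.hi) (hz1 : y ≤ z0) (hz2 : z0 ≤ y + 2 * r)
    (hβ : β ≤ j.a z0) :
    g (j.hi - y) - (g (j.hi - C) + α) - (g (y + r - z0) - g r) + β ≤ gn j r q y := by
  obtain ⟨e1, e2, e3, e4, e5⟩ := ext_facts h1 h2
  have h3 := le_gn (r := r) (q := q) (y := y) (z0 := z0)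
    (v := g (j.hi - y) - g (j.hi - C) - α) hj hlo hz0 (by
      intro z hz1 hz2
      have h3 := ha z hz1 hz2
      right
      have := four (x := z - C) (y := z - y) (z := j.hi - C) (w := j.hi - y) (by linear_combination hC2 + hz1)
        (by linear_combination hhi + e2) (by linear_combination hC1) (by linear_combination hz2) (by ring)
      linear_combination h3 + this)
  have h5 : gam r q (z0 - y) = g (y + r - z0) - g r := by
    unfold gam
    rw [if_pos (by linear_combination hz1)]
    unfold vir
    have h6 : g r ≤ g (z0 - y - r) := g_le_of_abs (by linear_combination hz2) (by linear_combination hz1)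
    rw [max_eq_right (by linear_combination h6), ← g_neg (z0 - y - r),
      show -(z0 - y - r) = y + r - z0 by ring]
  rw [h5] at h3
  linear_combination hβ + h3

section

variable {s t a z : ℝ}

theorem bd_at1 (P : Par s t a) : bd s a h0 = g (s - a) + 1 - g (s - 2 * a) := by
  have := P.s_lt
  have := P.s_gt
  rw [bd_eq1 P (by linear_combination (‹s < 0.8661›)) le_rfl, show h0 - (h0 + s) = -s by ring, g_neg]
  ring

theorem bd_at2 (P : Par s t a) : bd s a (h0 + a) = 1 := by
  rw [bd_eq3 P le_rfl (by linear_combination P.s_gt + 2 * P.a_lt), sub_self, g_zero]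

theorem bd_at3 (P : Par s t a) : bd s a (h0 + s - a) = g (s - 2 * a) := by
  rw [bd_eq3 P (by linear_combination P.s_gt + 2 * P.a_lt) le_rfl, show h0 + s - a - (h0 + a) = s - 2 * a by ring]

theorem bd_at4 (P : Par s t a) : bd s a (h0 + s) = g s + (g (s - 2 * a) - g (s - a)) := by
  rw [bd_eq4 P (by linear_combination P.a_gt) le_rfl, add_sub_cancel_left]

theorem k3_lo (s a : ℝ) : (k3 s a).lo = h0 := by
  simp only [k3, Four.mirP, k2]
  ring

theorem k3_hi (s a : ℝ) : (k3 s a).hi = h0 + 1 := by
  simp only [k3, Four.mirP, k2]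
  ring

theorem k3_le1 : (k3 s a).a z ≤ g (z - h0) + (g (s - a) - g s + 1 - g (s - 2 * a)) := by
  have := bd_le1 (s := s) (a := a) (z := 2 * h0 + s - z)
  rw [show 2 * h0 + s - z - (h0 + s) = -(z - h0) by ring, g_neg] at this
  exact this

theorem k3_le2 : (k3 s a).a z ≤ g (z - (h0 + a)) + (1 - g (s - 2 * a)) := by
  have := bd_le2 (s := s) (a := a) (z := 2 * h0 + s - z)
  rw [show 2 * h0 + s - z - (h0 + s - a) = -(z - (h0 + a)) by ring, g_neg] at this
  exact this

theorem k3_le3 : (k3 s a).a z ≤ g (z - (h0 + s - a)) + 0 := by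
  have := bd_le3 (s := s) (a := a) (z := 2 * h0 + s - z)
  rw [show 2 * h0 + s - z - (h0 + a) = -(z - (h0 + s - a)) by ring, g_neg] at this
  rw [add_zero]
  exact this

theorem k3_le4 : (k3 s a).a z ≤ g (z - (h0 + s)) + (g (s - 2 * a) - g (s - a)) := by
  have := bd_le4 (s := s) (a := a) (z := 2 * h0 + s - z)
  rw [show 2 * h0 + s - z - h0 = -(z - (h0 + s)) by ring, g_neg] at this
  exact this

theorem k3_at1 (P : Par s t a) : (k3 s a).a h0 = g s + (g (s - 2 * a) - g (s - a)) := by
  have := bd_at4 P
  have e : (k3 s a).a h0 = bd s a (2 * h0 + s - h0) := rfl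
  rw [e, show 2 * h0 + s - h0 = h0 + s by ring]
  exact this

theorem k3_at2 (P : Par s t a) : (k3 s a).a (h0 + a) = g (s - 2 * a) := by
  have := bd_at3 P
  have e : (k3 s a).a (h0 + a) = bd s a (2 * h0 + s - (h0 + a)) := rfl
  rw [e, show 2 * h0 + s - (h0 + a) = h0 + s - a by ring]
  exact this

theorem k3_at3 (P : Par s t a) : (k3 s a).a (h0 + s - a) = 1 := by
  have := bd_at2 P
  have e : (k3 s a).a (h0 + s - a) = bd s a (2 * h0 + s - (h0 + s - a)) := rfl
  rw [e, show 2 * h0 + s - (h0 + s - a) = h0 + a by ring]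
  exact this

variable {y r x p q β E : ℝ}

/-- The numeric facts of the situation. -/
theorem sit_facts (P : Par s t a) (h : Sit s y r p q β E) (hy : s - 21 / 100 ≤ y) :
    -(21 / 100) ≤ E ∧ a ≤ s + E - β ∧ p - β + E ≥ -(21 / 100) ∧ 1 / 2 ≤ p ∧ 1 / 2 ≤ q ∧
      q ≤ 1 ∧ E ≤ β / 2 := by
  have hh := h0_lt
  have hg := h0_gt
  have s1 := P.s_gt
  have s2 := P.s_lt
  have hβ0 := h.β0
  have hβ1 := h.β1
  have f0 := ph_nonneg β
  have f1 : ph β ≤ 134 / 1000 := by
    have : 866 / 1000 ≤ g β := by
      have := g_anti hβ0 hβ1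
      rw [g_half_eq] at this
      linear_combination hg + this
    unfold Four.Low.ph
    linear_combination this
  have hκ0 : 0 ≤ h0 * ph β := mul_nonneg h0_pos.le f0
  have hκ : h0 * ph β ≤ 8661 / 10000 * (134 / 1000) :=
    mul_le_mul (by linear_combination hh) f1 f0 (by norm_num)
  have hE := h.hE
  have hp := h.hp
  have hq := h.hq
  have p1 := h.p1
  have ha := P.ha
  have hq1 : q ≤ 1 := by
    rcases h.two with ⟨e1, e2⟩ | ⟨e1, e2⟩
    · rw [← e1]
      exact h.r2
    · rw [← e2]
      exact (ext_facts h.r1 h.r2).2.1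
  have hm := Four.Low.beta_mono (s := 0) (β := β) le_rfl hβ0 hβ1
  rw [Four.Low.ph_zero] at hm
  have y2 := h.y2
  refine ⟨by linear_combination hy - hE + hm, by linear_combination hy + (7 / 10) * s1 + (1 / 2) * hβ1 + hκ - hE + ha, by linear_combination hy + (1 / 2) * hβ1 + hκ - hE + p1, p1, by linear_combination hβ0 + hp - hq + p1, hq1, by linear_combination hκ0 + hE + y2⟩

/-! ### The second probe -/

theorem sit_2a (P : Par s t a) (h : Sit s y r p q β E) (hy : s - 21 / 100 ≤ y) :
    g β - g (s - a + E - β) - g (s + E) + g (s - a) + 1 - g (s - 2 * a) ≤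
      gn (k2 s a) r x y := by
  obtain ⟨w1, w2, w3, w4, w5, w6, w7⟩ := sit_facts P h hy
  have hh := h0_lt
  have hg := h0_gt
  have s1 := P.s_gt
  have s2 := P.s_lt
  have s3 := P.s1
  have a1 := P.a_gt
  have a2 := P.a_lt
  have hβ0 := h.β0
  have hβ1 := h.β1
  have y2 := h.y2
  have e1 := h.yq
  have e2 := h.yp
  apply h.two_ge (j := k2 s a) (C1 := h0 + a) (α1 := 0) (z1 := h0)
    (b1 := g (s - a) + 1 - g (s - 2 * a)) (C2 := h0) (α2 := g (s - 2 * a) - g (s - a))
    (z2 := h0 + a) (b2 := 1) (k2_ok P) (fun z _ _ => by rw [add_zero]; exact bd_le3)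
    (fun z _ _ => bd_le4)
  all_goals try simp only [k2]
  any_goals linarith
  · exact (bd_at1 P).ge
  · exact (bd_at2 P).ge
  · rw [show y + p - (h0 + a) = s - a + E - β by linear_combination e2, show y + q - h0 = s + E by linear_combination e1]
    linear_combination
  · rw [show y + p - (h0 + a) = s - a + E - β by linear_combination e2, show y + q - h0 = s + E by linear_combination e1]
    linear_combination

theorem sit_2b (P : Par s t a) (h : Sit s y r p q β E) (hy : s - 21 / 100 ≤ y) :
    g β - g (s + E - β) - g (s + E) + 2 * g (s - a) + 1 - 2 * g (s - 2 * a) ≤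
      gn (k2 s a) r x y := by
  obtain ⟨w1, w2, w3, w4, w5, w6, w7⟩ := sit_facts P h hy
  have hh := h0_lt
  have hg := h0_gt
  have s1 := P.s_gt
  have s2 := P.s_lt
  have s3 := P.s1
  have a1 := P.a_gt
  have a2 := P.a_lt
  have hβ0 := h.β0
  have hβ1 := h.β1
  have y2 := h.y2
  have e1 := h.yq
  have e2 := h.yp
  apply h.two_ge (j := k2 s a) (C1 := h0) (α1 := g (s - 2 * a) - g (s - a)) (z1 := h0)
    (b1 := g (s - a) + 1 - g (s - 2 * a)) (C2 := h0) (α2 := g (s - 2 * a) - g (s - a))
    (z2 := h0) (b2 := g (s - a) + 1 - g (s - 2 * a)) (k2_ok P) (fun z _ _ => bd_le4)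
    (fun z _ _ => bd_le4)
  all_goals try simp only [k2]
  any_goals linarith
  · exact (bd_at1 P).ge
  · exact (bd_at1 P).ge
  · rw [show y + p - h0 = s + E - β by linear_combination e2, show y + q - h0 = s + E by linear_combination e1]
    linear_combination
  · rw [show y + p - h0 = s + E - β by linear_combination e2, show y + q - h0 = s + E by linear_combination e1]
    linear_combination

/-- The second probe when the exit is above its top, with any arc. -/
theorem sit_top (P : Par s t a) (h : Sit s y r p q β E) (hy : s - 21 / 100 ≤ y) (hE : 0 ≤ E) :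
    g p + g (h0 + s - y) - g (s - a + E - β) + g (s - a) - g s + 1 - g (s - 2 * a) ≤
        gn (k2 s a) r x y ∧
      g p + g (h0 + s - y) - g (s + E - β) + 2 * g (s - a) - g s + 1 - 2 * g (s - 2 * a) ≤
        gn (k2 s a) r x y := by
  obtain ⟨w1, w2, w3, w4, w5, w6, w7⟩ := sit_facts P h hy
  have hh := h0_lt
  have hg := h0_gt
  have s1 := P.s_gt
  have s2 := P.s_lt
  have s3 := P.s1
  have a1 := P.a_gt
  have a2 := P.a_lt
  have hβ0 := h.β0
  have hβ1 := h.β1
  have y2 := h.y2
  have e1 := h.yq
  have e2 := h.yp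
  have hylo : h0 + s - 1 ≤ y := by linear_combination hE + w6 - e1
  rcases h.two with ⟨f1, f2⟩ | ⟨f1, f2⟩
  · have hby : bd s a y = g (h0 + s - y) + (g (s - a) - g s + 1 - g (s - 2 * a)) := by
      rw [bd_eq1 P hylo (by linear_combination s3 + y2), show y - (h0 + s) = -(h0 + s - y) by ring, g_neg]
    have hef := (ext_facts h.r1 h.r2).2.2.1
    constructor
    · have := gain_ge (q := x) (C := h0 + a) (α := 0) (z0 := y) (β := bd s a y) (j := k2 s a)
        (k2_ok P) h.r1 h.r2 (by linear_combination hg + s2 + a1 + y2) (by rw [f1]; linear_combination hy + w5 + hh + s1 + a2)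
        (fun z _ _ => by rw [add_zero]; exact bd_le3) (by simp only [k2]; linear_combination hE + w6 - e1)
        (by simp only [k2]; linear_combination hg + y2) le_rfl (by rw [f1]; linear_combination 2 * w5) le_rfl
      rw [hef, f2, show y + p - (h0 + a) = s - a + E - β by linear_combination e2, add_sub_cancel_left,
        hby] at this
      linear_combination this
    · have := gain_ge (q := x) (C := h0) (α := g (s - 2 * a) - g (s - a)) (z0 := y)
        (β := bd s a y) (j := k2 s a)
        (k2_ok P) h.r1 h.r2 (by linear_combination s3 + y2) (by rw [f1]; linear_combination hy + w5 + hh + s1)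
        (fun z _ _ => bd_le4) (by simp only [k2]; linear_combination hE + w6 - e1)
        (by simp only [k2]; linear_combination hg + y2) le_rfl (by rw [f1]; linear_combination 2 * w5) le_rfl
      rw [hef, f2, show y + p - h0 = s + E - β by linear_combination e2, add_sub_cancel_left,
        hby] at this
      linear_combination this
  · constructor
    · have := gain_top (y := y) (r := r) (q := x) (C := h0) (α := g (s - 2 * a) - g (s - a))
        (z0 := h0 + a) (β := 1) (j := k2 s a) (k2_ok P) h.r1 h.r2 (by linear_combination s3 + y2)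
        (by simp only [k2]; linear_combination s1) (by simp only [k2]; rw [f2]; linear_combination hE - e1)
        (fun z _ _ => bd_le4) (by simp only [k2]; linear_combination s2 + a1) (by simp only [k2]; linear_combination hE + w2 + 2 * w7)
        (by linear_combination hg + s2 + a1 + y2) (by rw [f1]; linear_combination hy + 2 * w4 + hh + s1 + a2) (bd_at2 P).ge
      simp only [k2] at this
      rw [show h0 + s - h0 = s by ring, f1,
        show y + p - (h0 + a) = s - a + E - β by linear_combination e2] at this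
      rw [f1]
      simp only [k2]
      linear_combination this
    · have := gain_top (y := y) (r := r) (q := x) (C := h0) (α := g (s - 2 * a) - g (s - a))
        (z0 := h0) (β := g (s - a) + 1 - g (s - 2 * a)) (j := k2 s a) (k2_ok P) h.r1 h.r2 (by linear_combination s3 + y2)
        (by simp only [k2]; linear_combination s1) (by simp only [k2]; rw [f2]; linear_combination hE - e1)
        (fun z _ _ => bd_le4) (by simp only [k2]; linear_combination s2) (by simp only [k2]; linear_combination s1)
        (by linear_combination s3 + y2) (by rw [f1]; linear_combination hy + 2 * w4 + hh + s1) (bd_at1 P).ge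
      simp only [k2] at this
      rw [show h0 + s - h0 = s by ring, f1,
        show y + p - h0 = s + E - β by linear_combination e2] at this
      rw [f1]
      simp only [k2]
      linear_combination this

/-! ### The third probe -/

theorem sit_3a (P : Par s t a) (h : Sit s y r p q β E) (hy : s - 21 / 100 ≤ y) (hE : -a ≤ E) :
    g β - g (s - a + E) + g (s - 2 * a) - g (a + E - β) ≤ gn (k3 s a) r x y := by
  obtain ⟨w1, w2, w3, w4, w5, w6, w7⟩ := sit_facts P h hy
  have hh := h0_lt
  have hg := h0_gt
  have s1 := P.s_gt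
  have s2 := P.s_lt
  have s3 := P.s1
  have a1 := P.a_gt
  have a2 := P.a_lt
  have hβ0 := h.β0
  have hβ1 := h.β1
  have y2 := h.y2
  have e1 := h.yq
  have e2 := h.yp
  apply h.two_ge (j := k3 s a) (C1 := h0 + s - a) (α1 := 0) (z1 := h0 + a)
    (b1 := g (s - 2 * a)) (C2 := h0 + a) (α2 := 1 - g (s - 2 * a))
    (z2 := h0 + s - a) (b2 := 1) (k3_ok P) (fun z _ _ => k3_le3) (fun z _ _ => k3_le2)
  all_goals try rw [k3_lo]
  all_goals try rw [k3_hi]
  any_goals linarith
  · exact (k3_at2 P).ge
  · exact (k3_at3 P).ge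
  · rw [show y + p - (h0 + s - a) = a + E - β by linear_combination e2,
      show y + q - (h0 + a) = s - a + E by linear_combination e1]
    linear_combination
  · rw [show y + p - (h0 + s - a) = a + E - β by linear_combination e2,
      show y + q - (h0 + a) = s - a + E by linear_combination e1]
    linear_combination

theorem sit_3b (P : Par s t a) (h : Sit s y r p q β E) (hy : s - 21 / 100 ≤ y) :
    g β - g (s - a + E) - 1 + 2 * g (s - 2 * a) - g (s - a + E - β) ≤ gn (k3 s a) r x y := by
  obtain ⟨w1, w2, w3, w4, w5, w6, w7⟩ := sit_facts P h hy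
  have hh := h0_lt
  have hg := h0_gt
  have s1 := P.s_gt
  have s2 := P.s_lt
  have s3 := P.s1
  have a1 := P.a_gt
  have a2 := P.a_lt
  have hβ0 := h.β0
  have hβ1 := h.β1
  have y2 := h.y2
  have e1 := h.yq
  have e2 := h.yp
  apply h.two_ge (j := k3 s a) (C1 := h0 + a) (α1 := 1 - g (s - 2 * a)) (z1 := h0 + a)
    (b1 := g (s - 2 * a)) (C2 := h0 + a) (α2 := 1 - g (s - 2 * a))
    (z2 := h0 + a) (b2 := g (s - 2 * a)) (k3_ok P) (fun z _ _ => k3_le2) (fun z _ _ => k3_le2)
  all_goals try rw [k3_lo]
  all_goals try rw [k3_hi]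
  any_goals linarith
  · exact (k3_at2 P).ge
  · exact (k3_at2 P).ge
  · rw [show y + p - (h0 + a) = s - a + E - β by linear_combination e2,
      show y + q - (h0 + a) = s - a + E by linear_combination e1]
    linear_combination
  · rw [show y + p - (h0 + a) = s - a + E - β by linear_combination e2,
      show y + q - (h0 + a) = s - a + E by linear_combination e1]
    linear_combination

theorem sit_3c (P : Par s t a) (h : Sit s y r p q β E) (hy : s - 21 / 100 ≤ y) (hE : 0 ≤ E) :
    g β - g (s + E) - g (s - a) + g s + g (s - 2 * a) - g (a + E - β) ≤ gn (k3 s a) r x y := by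
  obtain ⟨w1, w2, w3, w4, w5, w6, w7⟩ := sit_facts P h hy
  have hh := h0_lt
  have hg := h0_gt
  have s1 := P.s_gt
  have s2 := P.s_lt
  have s3 := P.s1
  have a1 := P.a_gt
  have a2 := P.a_lt
  have hβ0 := h.β0
  have hβ1 := h.β1
  have y2 := h.y2
  have e1 := h.yq
  have e2 := h.yp
  apply h.two_ge (j := k3 s a) (C1 := h0 + s - a) (α1 := 0) (z1 := h0)
    (b1 := g s + (g (s - 2 * a) - g (s - a))) (C2 := h0)
    (α2 := g (s - a) - g s + 1 - g (s - 2 * a))
    (z2 := h0 + s - a) (b2 := 1) (k3_ok P) (fun z _ _ => k3_le3) (fun z _ _ => k3_le1)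
  all_goals try rw [k3_lo]
  all_goals try rw [k3_hi]
  any_goals linarith
  · exact (k3_at1 P).ge
  · exact (k3_at3 P).ge
  · rw [show y + p - (h0 + s - a) = a + E - β by linear_combination e2,
      show y + q - h0 = s + E by linear_combination e1]
    linear_combination
  · rw [show y + p - (h0 + s - a) = a + E - β by linear_combination e2,
      show y + q - h0 = s + E by linear_combination e1]
    linear_combination

theorem sit_3d (P : Par s t a) (h : Sit s y r p q β E) (hy : s - 21 / 100 ≤ y) (hE : 0 ≤ E) :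
    g β - g (s + E) - g (s - a) + g s - 1 + 2 * g (s - 2 * a) - g (s - a + E - β) ≤
      gn (k3 s a) r x y := by
  obtain ⟨w1, w2, w3, w4, w5, w6, w7⟩ := sit_facts P h hy
  have hh := h0_lt
  have hg := h0_gt
  have s1 := P.s_gt
  have s2 := P.s_lt
  have s3 := P.s1
  have a1 := P.a_gt
  have a2 := P.a_lt
  have hβ0 := h.β0
  have hβ1 := h.β1
  have y2 := h.y2
  have e1 := h.yq
  have e2 := h.yp
  apply h.two_ge (j := k3 s a) (C1 := h0 + a) (α1 := 1 - g (s - 2 * a)) (z1 := h0)
    (b1 := g s + (g (s - 2 * a) - g (s - a))) (C2 := h0)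
    (α2 := g (s - a) - g s + 1 - g (s - 2 * a))
    (z2 := h0 + a) (b2 := g (s - 2 * a)) (k3_ok P) (fun z _ _ => k3_le2) (fun z _ _ => k3_le1)
  all_goals try rw [k3_lo]
  all_goals try rw [k3_hi]
  any_goals linarith
  · exact (k3_at1 P).ge
  · exact (k3_at2 P).ge
  · rw [show y + p - (h0 + a) = s - a + E - β by linear_combination e2,
      show y + q - h0 = s + E by linear_combination e1]
    linear_combination
  · rw [show y + p - (h0 + a) = s - a + E - β by linear_combination e2,
      show y + q - h0 = s + E by linear_combination e1]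
    linear_combination

/-! ### Assembly -/

/-- The sum of the gains of the second and of the third probe. -/
theorem sit_sum (P : Par s t a) (h : Sit s y r p q β E) (hy : s - 21 / 100 ≤ y) :
    4 * ph y - 2 * ph s ≤ gn (k2 s a) r x y + gn (k3 s a) r x y := by
  obtain ⟨w1, w2, w3, w4, w5, w6, w7⟩ := sit_facts P h hy
  have hh := h0_lt
  have hg := h0_gt
  have hh0 := h0_hi
  have hl0 := h0_lo
  have s1 := P.s_gt
  have s2 := P.s_lt
  have s3 := P.s1
  have s4 := P.s0
  have hβ0 := h.β0
  have hβ1 := h.β1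
  have y2 := h.y2
  have hE := h.hE
  have n3 := gn_nonneg (r := r) (q := x) (y := y) (k3_ok P)
  have f0 := ph_nonneg β
  have f1 : ph β ≤ 134 / 1000 := by
    have : 866 / 1000 ≤ g β := by
      have := g_anti hβ0 hβ1
      rw [g_half_eq] at this
      linear_combination hg + this
    unfold Four.Low.ph
    linear_combination this
  have hm := Four.Low.beta_mono (s := β) (β := 1 / 2) hβ0 hβ1 le_rfl
  have hm2 : 1 / 2 / 2 - h0 * ph (1 / 2) = 1 - h0 := by
    unfold Four.Low.ph
    rw [g_half_eq]
    have := h0_sq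
    linear_combination this
  rw [hm2] at hm
  have R : Reg s a β (s - y) (h0 * ph β) := by
    refine ⟨P.ha, mul_le_mul_of_nonneg_right hl0 f0, mul_le_mul_of_nonneg_right hh0 f0, ?_,
      hl0, hh0, mul_le_mul_of_nonneg_right hl0 hβ0, mul_nonneg h0_pos.le f0, ?_, ?_, ?_, hβ0,
      hβ1, ?_, ?_⟩
    · linear_combination s3 + y2 + hm
    · have := mul_le_mul hh0 f1 f0 (by norm_num)
      linear_combination this
    · linear_combination s1
    · linear_combination s2
    · linear_combination y2
    · linear_combination hy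
  have pn : ∀ z, g z = 1 - ph z := fun z => by unfold Four.Low.ph; ring
  have r1 : s - (s - y) + β / 2 - h0 * ph β = s + E := by rw [hE]; ring
  have r2 : s - (s - y) - β / 2 - h0 * ph β = s + E - β := by rw [hE]; ring
  have r3 : s - a - (s - y) + β / 2 - h0 * ph β = s - a + E := by rw [hE]; ring
  have r4 : s - a - (s - y) - β / 2 - h0 * ph β = s - a + E - β := by rw [hE]; ring
  have r5 : ph (s - y + β / 2 + h0 * ph β - a) = ph (a + E - β) := by
    rw [← ph_neg]
    congr 1
    rw [hE]
    ring
  have r6 : s - (s - y) = y := by ring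
  have r7 : h0 + (s - y) = h0 + s - y := by ring
  rcases le_total 0 E with hE0 | hE0
  · -- the exit is above the top of the body
    have hgp : g p = g β / 2 + h0 * β := by
      rw [h.hp]
      exact (g_exit hβ0 hβ1).2
    obtain ⟨k2a, k2b⟩ := sit_top (x := x) P h hy hE0
    have k3a := sit_3c (x := x) P h hy hE0
    have k3b := sit_3d (x := x) P h hy hE0
    have hE1 : s - y + h0 * ph β ≤ β / 2 := by
      have := hE
      linear_combination hE + hE0
    have hU : 0 ≤ Uaa s a β (s - y) (h0 * ph β) ∨ 0 ≤ Ubb s a β (s - y) (h0 * ph β) := by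
      rcases le_total β (1 / 20) with hb | hb
      · right
        exact cornerU R hb hE1
      · exact u0 R hE1 (by linear_combination hE + hm + hE0) R.s1 R.s2 hb hβ1 R.t1 (by linear_combination hl0 + hE + hm + hE0)
    rcases hU with hU | hU
    · unfold Uaa at hU
      rw [r1, r4, r5, r6, r7] at hU
      rw [hgp, pn β, pn (h0 + s - y), pn (s - a + E - β), pn (s - a), pn s,
        pn (s - 2 * a)] at k2a
      rw [pn β, pn (s + E), pn (s - a), pn s, pn (s - 2 * a), pn (a + E - β)] at k3a
      linear_combination k2a + k3a + hU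
    · unfold Ubb at hU
      rw [r1, r2, r4, r6, r7] at hU
      rw [hgp, pn β, pn (h0 + s - y), pn (s + E - β), pn (s - a), pn s,
        pn (s - 2 * a)] at k2b
      rw [pn β, pn (s + E), pn (s - a), pn s, pn (s - 2 * a), pn (s - a + E - β)] at k3b
      linear_combination k2b + k3b + hU
  · -- the exit is below the top of the body
    have k2a := sit_2a (x := x) P h hy
    have k2b := sit_2b (x := x) P h hy
    have k3b := sit_3b (x := x) P h hy
    have hE1 : β / 2 ≤ s - y + h0 * ph β := by
      have := hE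
      linear_combination -hE + hE0
    have hD : (s - y - β / 2 + h0 * ph β ≤ a ∧ 0 ≤ Daa s a β (s - y) (h0 * ph β)) ∨
        0 ≤ Dbb s a β (s - y) (h0 * ph β) ∨ 0 ≤ Da0 s a β (s - y) (h0 * ph β) := by
      rcases le_total β (1 / 20) with hb | hb
      · right; left
        exact cornerD R hb hE1
      · exact d0 R hE1 R.s1 R.s2 hb hβ1 R.t1 R.t2
    rcases hD with ⟨hF, hD⟩ | hD | hD
    · have k3a := sit_3a (x := x) P h hy (by linear_combination -hE + hF)
      unfold Daa at hD
      rw [r1, r3, r4, r5, r6] at hD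
      rw [pn β, pn (s - a + E - β), pn (s + E), pn (s - a), pn (s - 2 * a)] at k2a
      rw [pn β, pn (s - a + E), pn (s - 2 * a), pn (a + E - β)] at k3a
      linear_combination k2a + hD + k3a
    · unfold Dbb at hD
      rw [r1, r2, r3, r4, r6] at hD
      rw [pn β, pn (s + E - β), pn (s + E), pn (s - a), pn (s - 2 * a)] at k2b
      rw [pn β, pn (s - a + E), pn (s - 2 * a), pn (s - a + E - β)] at k3b
      linear_combination k2b + k3b + hD
    · unfold Da0 at hD
      rw [r1, r4, r6] at hD
      rw [pn β, pn (s - a + E - β), pn (s + E), pn (s - a), pn (s - 2 * a)] at k2a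
      linear_combination n3 + k2a + hD

/-- The new point is between `t` and `s`. -/
theorem lowA (P : Par s t a) : LowA s t a := by
  intro y r h1 h2 hr1 hr2
  have hh := h0_lt
  have hg := h0_gt
  have hq := h0_sq
  have hp := h0_pos
  have hs0 := P.s_gt
  have hs1 := P.s_lt
  have ht0 := P.t0
  have n2 := gn_nonneg (r := r) (q := y) (y := y) (k2_ok P)
  have n3 := gn_nonneg (r := r) (q := y) (y := y) (k3_ok P)
  by_cases hN : 1 + g s - 2 * g y ≤ 0
  · linear_combination (1 / 2) * n2 + (1 / 2) * n3 + hN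
  push Not at hN
  have hy0 : 0 ≤ y := by linear_combination h1 + ht0
  have hs2 : s ^ 2 ≤ 1 := by linear_combination (8011 / 5000) * hs1 + (mul_pos (sub_pos.mpr hs0) (sub_pos.mpr hs1))
  have gs := g_sq hs2
  have gy := g_sq (r := y) (by linear_combination (7361 / 10000) * h2 + hs2 + (mul_nonneg (sub_nonneg.mpr h1) (sub_nonneg.mpr h2)) +
    (mul_nonneg (sub_nonneg.mpr h2) (sub_nonneg.mpr (le_of_lt hs0))) + (mul_nonneg (sub_nonneg.mpr h2) (sub_nonneg.mpr ht0)))
  have gs0 := g_nonneg s
  have gs1 := g_le_one s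
  have gy0 := g_nonneg y
  have hy2 : s ^ 2 ≤ 2 * y ^ 2 := by linear_combination gs - 2 * gy + 5000 * (mul_pos (sub_pos.mpr hh) (sub_pos.mpr hN)) +
    5000 * (mul_pos (sub_pos.mpr hg) (sub_pos.mpr hN)) + (1 / 2) * (mul_nonneg (sub_nonneg.mpr (le_of_lt hN)) (sub_nonneg.mpr gs0)) +
    (mul_nonneg (sub_nonneg.mpr (le_of_lt hN)) (sub_nonneg.mpr gy0)) + (1 / 2) * (mul_nonneg (sub_nonneg.mpr gs1) (sub_nonneg.mpr gs1))
  have hy3 : 7071 / 10000 * s ≤ y := by exact not_lt.mp (fun hg__ => absurd hy2 (not_le.mpr (by linear_combination (52049631 / 50000000) * hg__ + (959 / 50000000) * (sq_nonneg (s)) + 2 * (mul_nonneg (sub_nonneg.mpr (le_of_lt hg__)) (sub_nonneg.mpr h1)) + (7071 / 5000) * (mul_pos (sub_pos.mpr hg__) (sub_pos.mpr hs0)) + 2 * (mul_nonneg (sub_nonneg.mpr (le_of_lt hg__)) (sub_nonneg.mpr ht0)))))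
  have hy4 : s - 21 / 100 ≤ y := by
    by_contra hcon
    push Not at hcon
    have k1 := lo (t := 11 / 25) (x := s) (by norm_num) (by linear_combination hs0) (by linear_combination hs1)
    have k2 := lo (t := 14 / 25) (x := s) (by norm_num) (by linear_combination hs0) (by linear_combination hs1)
    unfold Four.Low.ph at k1 k2
    exact absurd k2 (not_le.mpr (by linear_combination (206625953 / 10456583150) * (sq_nonneg (g s)) + (2891152102 / 5228291575) * gs - (857796654 / 402176275) * gy + (857796654 / 402176275) * (mul_nonneg (sub_nonneg.mpr h1) (sub_nonneg.mpr (le_of_lt hcon))) + (85779665400 / 16087051) * (mul_pos (sub_pos.mpr hh) (sub_pos.mpr hN)) + (4512868196694 / 402176275) * (mul_pos (sub_pos.mpr hh) (sub_pos.mpr hcon)) + (85779665400 / 16087051) * (mul_pos (sub_pos.mpr hg) (sub_pos.mpr hN)) + (4512868196694 / 402176275) * (mul_pos (sub_pos.mpr hg) (sub_pos.mpr hcon)) + (857796654 / 402176275) * (mul_pos (sub_pos.mpr hs0) (sub_pos.mpr hcon)) + (890702400 / 209131663) * (mul_nonneg (sub_nonneg.mpr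 (le_of_lt hs0)) (sub_nonneg.mpr k2)) + (58319800 / 16087051) * (mul_nonneg (sub_nonneg.mpr (le_of_lt hs1)) (sub_nonneg.mpr k1)) + (857796654 / 402176275) * (mul_nonneg (sub_nonneg.mpr ht0) (sub_nonneg.mpr (le_of_lt hcon))) + (428898327 / 804352550) * (mul_nonneg (sub_nonneg.mpr (le_of_lt hN)) (sub_nonneg.mpr gs0)) + (428898327 / 402176275) * (mul_nonneg (sub_nonneg.mpr (le_of_lt hN)) (sub_nonneg.mpr gy0))))
  obtain ⟨a2, a3, a4, a5, a6, a7⟩ := ext_spec hr1 hr2
  have he : ext r = r / 2 + h0 * g r := rfl
  rw [← he] at a3 a4 a5 a6 a7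
  have hgr0 := g_nonneg r
  have hgr : g r ≤ h0 := by
    have := g_anti (a := 1 / 2) (b := r) (by norm_num) hr1
    rwa [g_half_eq] at this
  obtain ⟨b1, b2, b3, b4, b5⟩ := ext_facts hr1 hr2
  have hsum : r + ext r = 2 * h0 * g (ext r - r) := by
    rw [b3, a4, he]
    nlinarith
  have hd1 : ext r - r ≤ 1 / 2 := by
    rw [he]
    linear_combination hr1 + a7 - he
  have hd2 : r - ext r ≤ 1 / 2 := by
    rw [he]
    linear_combination hr2 + a6 + he
  rcases le_total (ext r) r with hle | hle
  · have hβ : g (ext r - r) = g (r - ext r) := by rw [← g_neg, neg_sub]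
    have S : Sit s y r (ext r) r (r - ext r)
        (y - s + (r - ext r) / 2 - h0 * ph (r - ext r)) := by
      refine ⟨Or.inl ⟨rfl, rfl⟩, hr1, hr2, by linear_combination hle, hd2, ?_, ?_, rfl, b1, hy3, h2⟩
      · rw [← hβ]
        linear_combination (1 / 2) * hsum
      · rw [← hβ]
        linear_combination (1 / 2) * hsum
    have := sit_sum (x := y) P S hy4
    unfold Four.Low.ph at this
    linear_combination (1 / 2) * this
  · have S : Sit s y r r (ext r) (ext r - r)
        (y - s + (ext r - r) / 2 - h0 * ph (ext r - r)) := by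
      refine ⟨Or.inr ⟨rfl, rfl⟩, hr1, hr2, by linear_combination hle, hd1, ?_, ?_, rfl, hr1, hy3, h2⟩
      · linear_combination (1 / 2) * hsum
      · linear_combination (1 / 2) * hsum
    have := sit_sum (x := y) P S hy4
    unfold Four.Low.ph at this
    linear_combination (1 / 2) * this

end

end Pool.Agent.Strip051.FourB
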