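import Pool.Agent.Strip051.FourB.Defs

set_option maxHeartbeats 4000000

/-! # Polynomial inequalities for the zone `y + p ≤ h0 + s - a` -/

namespace Pool.Agent.Strip051.FourB

/-- The polynomial inequality, `y ≤ 0.82`. -/
theorem b4_polyA {s b f F y H c gy gu ga gm gA : ℝ}
    (c0 : 0 ≤ H - 43301 / 50000)
    (c1 : 0 ≤ -H + 86603 / 100000)
    (c2 : 0 ≤ 7 / 10 * s + 1 / 2 * b + F - y + 3 / 20)
    (c3 : 0 ≤ 67 / 250 * b - f)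
    (c4 : 0 ≤ -43301 / 50000 * f + F)
    (c5 : 0 ≤ s - 7361 / 10000)
    (c6 : 0 ≤ -y + 41 / 50)
    (c7 : 0 ≤ -s + y)
    (c8 : 0 ≤ -231 / 400 * b + f + 3097 / 20000)
    (c9 : 0 ≤ -b + 1 / 2)
    (c10 : 0 ≤ 86603 / 100000 * f - F)
    (c11 : 0 ≤ c - gy)
    (c12 : 0 ≤ gy - 5723 / 10000)
    (c13 : 0 ≤ -c + gy + gA - 1 / 2)
    (c14 : 0 ≤ -c + 677 / 1000)
    (c15 : 0 ≤ -gA + 6233 / 10000)
    (c16 : 0 ≤ gA - 1 / 2)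
    (c17 : 0 ≤ -gy + 677 / 1000)
    (c18 : H ^ 2 = 3 / 4)
    (c19 : F = H * f)
    (c20 : b ^ 2 = 2 * f - f ^ 2)
    (c21 : c ^ 2 = 1 - s ^ 2)
    (c22 : gy ^ 2 = 1 - y ^ 2)
    (c23 : gu ^ 2 = 1 - (y + b / 2 - F) ^ 2)
    (c24 : ga ^ 2 = 1 - (y - b / 2 - F - 3 / 10 * (s - 1 / 2)) ^ 2)
    (c25 : gm ^ 2 = 1 - (s - 3 / 10 * (s - 1 / 2) - (y - b / 2 - F)) ^ 2)
    (c26 : gA ^ 2 = 1 - (s + H - y) ^ 2) :
    0 ≤ b * H - 3 / 2 * f - 2 * c + 4 * gy - gu - ga - gm + gA + 1 / 2 := by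
  linarith [mul_nonneg c0 c1, mul_nonneg c0 c2, mul_nonneg c0 c3, mul_nonneg c1 c4, mul_nonneg c1
    c5, mul_nonneg c1 c6, mul_nonneg c7 c5, mul_nonneg c7 c6, mul_nonneg c2 c2, mul_nonneg c2
    c4, mul_nonneg c2 c8, mul_nonneg c2 c5, mul_nonneg c2 c6, mul_nonneg c2 c9, mul_nonneg c4
    c10, mul_nonneg c10 c8, mul_nonneg c10 c5, mul_nonneg c10 c6, mul_nonneg c8 c3, mul_nonneg
    c11 c12, mul_nonneg c13 c14, mul_nonneg c13 c15, mul_nonneg c5 c6, mul_nonneg c5 c3,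
    mul_nonneg c14 c14, mul_nonneg c6 c3, mul_nonneg c12 c16, mul_nonneg c12 c17, sq_nonneg (c -
    33 / 50), sq_nonneg (gu - 19 / 40), sq_nonneg (gu - 1 / 2), sq_nonneg (ga - 4 / 5),
    sq_nonneg (gm - 1)]

/-- The polynomial inequality, `0.82 ≤ y`, `b ≤ 1 / 4`. -/
theorem b4_polyB {s b f F y H c gy gu ga gm gA : ℝ}
    (c0 : 0 ≤ 7 / 10 * s + 1 / 2 * b + F - y + 3 / 20)
    (c1 : 0 ≤ -H + 86603 / 100000)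
    (c2 : 0 ≤ -y + H)
    (c3 : 0 ≤ 86603 / 100000 * f - F)
    (c4 : 0 ≤ -b + 1 / 4)
    (c5 : 0 ≤ -1291 / 5000 * b + f + 657 / 20000)
    (c6 : 0 ≤ -s + y)
    (c7 : 0 ≤ -43301 / 50000 * f + F)
    (c8 : 0 ≤ -231 / 400 * b + f + 3097 / 20000)
    (c9 : 0 ≤ s - 7361 / 10000)
    (c10 : 0 ≤ y - 41 / 50)
    (c11 : 0 ≤ c - gy)
    (c12 : 0 ≤ c - gA)
    (c13 : 0 ≤ -c + gy + gA - 1 / 2)
    (c14 : 0 ≤ -gy + 1431 / 2500)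
    (c15 : 0 ≤ -gA + 677 / 1000)
    (c16 : 0 ≤ -c + 677 / 1000)
    (c17 : 0 ≤ 1271 / 10000 * b - f)
    (c18 : H ^ 2 = 3 / 4)
    (c19 : F = H * f)
    (c20 : b ^ 2 = 2 * f - f ^ 2)
    (c21 : c ^ 2 = 1 - s ^ 2)
    (c22 : gy ^ 2 = 1 - y ^ 2)
    (c23 : gu ^ 2 = 1 - (y + b / 2 - F) ^ 2)
    (c24 : ga ^ 2 = 1 - (y - b / 2 - F - 3 / 10 * (s - 1 / 2)) ^ 2)
    (c25 : gm ^ 2 = 1 - (s - 3 / 10 * (s - 1 / 2) - (y - b / 2 - F)) ^ 2)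
    (c26 : gA ^ 2 = 1 - (s + H - y) ^ 2) :
    0 ≤ b * H - 3 / 2 * f - 2 * c + 4 * gy - gu - ga - gm + gA + 1 / 2 := by
  linarith [mul_nonneg c1 c1, mul_nonneg c1 c2, mul_nonneg c1 c0, mul_nonneg c1 c3, mul_nonneg c1
    c4, mul_nonneg c1 c5, mul_nonneg c2 c2, mul_nonneg c6 c4, mul_nonneg c6 c5, mul_nonneg c0
    c7, mul_nonneg c0 c8, mul_nonneg c0 c9, mul_nonneg c0 c10, mul_nonneg c0 c4, mul_nonneg c3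
    c3, mul_nonneg c3 c9, mul_nonneg c3 c10, mul_nonneg c3 c4, mul_nonneg c11 c12, mul_nonneg
    c12 c13, mul_nonneg c12 c14, mul_nonneg c13 c14, mul_nonneg c13 c15, mul_nonneg c16 c14,
    mul_nonneg c10 c4, mul_nonneg c10 c17, mul_nonneg c17 c5, sq_nonneg (c - 16 / 25), sq_nonneg
    (gu - 13 / 40), sq_nonneg (gu - 7 / 20), sq_nonneg (ga - 4 / 5), sq_nonneg (gm - 1)]

/-- The polynomial inequality, `0.82 ≤ y`, `1 / 4 ≤ b`. -/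
theorem b4_polyC {s b f F y H c gy gu ga gm gA : ℝ}
    (c0 : 0 ≤ 7 / 10 * s + 1 / 2 * b + F - y + 3 / 20)
    (c1 : 0 ≤ H - 43301 / 50000)
    (c2 : 0 ≤ -H + 86603 / 100000)
    (c3 : 0 ≤ -y + H)
    (c4 : 0 ≤ s - 7361 / 10000)
    (c5 : 0 ≤ 86603 / 100000 * f - F)
    (c6 : 0 ≤ -2581 / 10000 * b + f + 1313 / 40000)
    (c7 : 0 ≤ y - 41 / 50)
    (c8 : 0 ≤ b - 1 / 4)
    (c9 : 0 ≤ -43301 / 50000 * f + F)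
    (c10 : 0 ≤ -231 / 400 * b + f + 3097 / 20000)
    (c11 : 0 ≤ -b + 1 / 2)
    (c12 : 0 ≤ c - gA)
    (c13 : 0 ≤ -gy + 1431 / 2500)
    (c14 : 0 ≤ -c + gy + gA - 1 / 2)
    (c15 : 0 ≤ -c + 677 / 1000)
    (c16 : 0 ≤ -gA + 677 / 1000)
    (c17 : 0 ≤ 409 / 1000 * b - f - 1409 / 20000)
    (c18 : 0 ≤ gy - 1 / 2)
    (c19 : H ^ 2 = 3 / 4)
    (c20 : F = H * f)
    (c21 : b ^ 2 = 2 * f - f ^ 2)
    (c22 : c ^ 2 = 1 - s ^ 2)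
    (c23 : gy ^ 2 = 1 - y ^ 2)
    (c24 : gu ^ 2 = 1 - (y + b / 2 - F) ^ 2)
    (c25 : ga ^ 2 = 1 - (y - b / 2 - F - 3 / 10 * (s - 1 / 2)) ^ 2)
    (c26 : gm ^ 2 = 1 - (s - 3 / 10 * (s - 1 / 2) - (y - b / 2 - F)) ^ 2)
    (c27 : gA ^ 2 = 1 - (s + H - y) ^ 2) :
    0 ≤ b * H - 3 / 2 * f - 2 * c + 4 * gy - gu - ga - gm + gA + 1 / 2 := by
  linarith [mul_nonneg c1 c2, mul_nonneg c1 c3, mul_nonneg c1 c4, mul_nonneg c2 c0, mul_nonneg c2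
    c5, mul_nonneg c2 c6, mul_nonneg c3 c0, mul_nonneg c3 c5, mul_nonneg c3 c7, mul_nonneg c3
    c8, mul_nonneg c3 c6, mul_nonneg c0 c9, mul_nonneg c0 c10, mul_nonneg c0 c4, mul_nonneg c0
    c11, mul_nonneg c9 c5, mul_nonneg c5 c4, mul_nonneg c5 c6, mul_nonneg c12 c13, mul_nonneg
    c14 c15, mul_nonneg c14 c16, mul_nonneg c4 c7, mul_nonneg c4 c8, mul_nonneg c4 c17,
    mul_nonneg c15 c15, mul_nonneg c15 c13, mul_nonneg c17 c6, mul_nonneg c18 c13, sq_nonneg (gu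
    - 11 / 40), sq_nonneg (gu - 3 / 10), sq_nonneg (ga - 4 / 5), sq_nonneg (gm - 1)]

end Pool.Agent.Strip051.FourB
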