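import Pool.Agent.Strip051.Four.MidReal1

/-! # The real inequality when both corners are above `h0 + s` -/

namespace Pool.Agent.Strip051.FourB

open Pool.Agent.StripNear Pool.Agent.StripSquare Pool.Agent.Strip051 Pool.Agent.Strip051.N2

/-- A sharper form of `slope_aux`. -/
theorem slope_aux2 {w y u e1 e2 : ℝ} (hw : 0 < w) (hwy : w ≤ y) (hyu : y ≤ u) (hu : u ^ 2 < 1)
    (he1 : y - w = e1) (he2 : u - y = e2)
    (h : e2 * ((g w + g y) ^ 2 + e1 ^ 2) * g w ≤ 3 * e1 * (g y + g u) * g u * (g w + g y)) :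
    3 * (w / g w) + u / g u ≤ 4 * (y / g y) := by
  have hy : 0 < y := hw.trans_le hwy
  have hu0 : 0 < u := hy.trans_le hyu
  have hy2 : y ^ 2 < 1 := by linear_combination hu + 2 * (mul_nonneg (sub_nonneg.mpr (le_of_lt hw)) (sub_nonneg.mpr hyu)) +
    2 * (mul_nonneg (sub_nonneg.mpr hwy) (sub_nonneg.mpr hyu)) + (mul_nonneg (sub_nonneg.mpr hyu) (sub_nonneg.mpr hyu))
  have hw2 : w ^ 2 < 1 := by linear_combination hy2 + 2 * (mul_nonneg (sub_nonneg.mpr (le_of_lt hw)) (sub_nonneg.mpr hwy)) +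
    (mul_nonneg (sub_nonneg.mpr hwy) (sub_nonneg.mpr hwy))
  have W := g_pos hw2
  have Y := g_pos hy2
  have U := g_pos hu
  have sW := g_sq hw2.le
  have sY := g_sq hy2.le
  have sU := g_sq hu.le
  have hYW : g y ≤ g w := g_anti hw.le hwy
  have hUY : g u ≤ g y := g_anti hy.le hyu
  obtain ⟨W', hW'⟩ : ∃ W', W' = g w := ⟨_, rfl⟩
  obtain ⟨Y', hY'⟩ : ∃ Y', Y' = g y := ⟨_, rfl⟩
  obtain ⟨U', hU'⟩ : ∃ U', U' = g u := ⟨_, rfl⟩
  rw [← hW'] at W sW hYW h ⊢
  rw [← hY'] at Y sY hYW hUY h ⊢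
  rw [← hU'] at U sU hUY h ⊢
  clear hW' hY' hU'
  -- `(u Y - y U) (Y + U) ≤ 2 (u - y)`
  have k1 : (u * Y' - y * U') * (Y' + U') ≤ 2 * e2 := by
    have a1 : (u * Y' - y * U') * (u * Y' + y * U') = (u - y) * (u + y) := by
      linear_combination u ^ 2 * sY - y ^ 2 * sU
    have a2 : (u + y) * (Y' + U') ≤ 2 * (u * Y' + y * U') := by
      linear_combination (mul_nonneg (sub_nonneg.2 hyu) (sub_nonneg.2 hUY))
    have a3 : 0 ≤ u * Y' - y * U' := by
      have := mul_le_mul hyu hUY U.le hu0.le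
      linear_combination this
    have a4 : (u * Y' - y * U') * (Y' + U') * (u + y) ≤ 2 * e2 * (u + y) := by
      calc (u * Y' - y * U') * (Y' + U') * (u + y) =
            (u * Y' - y * U') * ((u + y) * (Y' + U')) := by ring
        _ ≤ (u * Y' - y * U') * (2 * (u * Y' + y * U')) := mul_le_mul_of_nonneg_left a2 a3
        _ = 2 * e2 * (u + y) := by rw [← he2]; linear_combination 2 * a1
    exact le_of_mul_le_mul_right a4 (by linear_combination 2 * hw + 2 * hwy + hyu)
  -- `(y W - w Y) ((W + Y) ^ 2 + (y - w) ^ 2) = 2 (y - w) (W + Y)`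
  have k2 : (y * W' - w * Y') * ((W' + Y') ^ 2 + e1 ^ 2) = 2 * e1 * (W' + Y') := by
    have a1 : (W' - Y') * (W' + Y') = (y - w) * (y + w) := by linear_combination sW - sY
    have a2 : (y * W' - w * Y') * (y * W' + w * Y') = (y - w) * (y + w) := by
      linear_combination y ^ 2 * sW - w ^ 2 * sY
    have a3 : (W' + Y') * (2 * (y * W' + w * Y')) = (y + w) * ((W' + Y') ^ 2 + e1 ^ 2) := by
      rw [← he1]
      linear_combination (y - w) * a1
    have a4 : (y * W' - w * Y') * ((W' + Y') ^ 2 + e1 ^ 2) * (y + w) =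
        2 * e1 * (W' + Y') * (y + w) := by
      calc _ = (y * W' - w * Y') * ((y + w) * ((W' + Y') ^ 2 + e1 ^ 2)) := by ring
        _ = (y * W' - w * Y') * ((W' + Y') * (2 * (y * W' + w * Y'))) := by rw [a3]
        _ = 2 * (W' + Y') * ((y * W' - w * Y') * (y * W' + w * Y')) := by ring
        _ = _ := by rw [a2, ← he1]; ring
    exact mul_right_cancel₀ (by linarith) a4
  have e10 : 0 ≤ e1 := by linear_combination hwy + he1
  have e20 : 0 ≤ e2 := by linear_combination hyu + he2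
  -- compare
  have k3 : (u * Y' - y * U') * W' ≤ 3 * ((y * W' - w * Y') * U') := by
    have p1 : 0 < (W' + Y') ^ 2 + e1 ^ 2 := by positivity
    have p2 : 0 < Y' + U' := by linear_combination Y + U
    have a5 : (u * Y' - y * U') * W' * ((Y' + U') * ((W' + Y') ^ 2 + e1 ^ 2)) ≤
        3 * ((y * W' - w * Y') * U') * ((Y' + U') * ((W' + Y') ^ 2 + e1 ^ 2)) := by
      calc (u * Y' - y * U') * W' * ((Y' + U') * ((W' + Y') ^ 2 + e1 ^ 2)) =
            ((u * Y' - y * U') * (Y' + U')) * (W' * ((W' + Y') ^ 2 + e1 ^ 2)) := by ring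
        _ ≤ (2 * e2) * (W' * ((W' + Y') ^ 2 + e1 ^ 2)) :=
            mul_le_mul_of_nonneg_right k1 (by positivity)
        _ = 2 * (e2 * ((W' + Y') ^ 2 + e1 ^ 2) * W') := by ring
        _ ≤ 2 * (3 * e1 * (Y' + U') * U' * (W' + Y')) := by linear_combination 2 * h
        _ = 3 * U' * (Y' + U') * (2 * e1 * (W' + Y')) := by ring
        _ = 3 * ((y * W' - w * Y') * U') * ((Y' + U') * ((W' + Y') ^ 2 + e1 ^ 2)) := by
            rw [← k2]; ring
    exact le_of_mul_le_mul_right a5 (by positivity)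
  have k4 : u / U' - y / Y' ≤ 3 * (y / Y' - w / W') := by
    rw [div_sub_div _ _ U.ne' Y.ne', div_sub_div _ _ Y.ne' W.ne', mul_div_assoc',
      div_le_div_iff₀ (by positivity) (by positivity)]
    have := mul_le_mul_of_nonneg_right k3 Y.le
    linear_combination this
  linear_combination k4

/-- The final polynomial inequality. -/
theorem c1_poly {h S C K : ℝ} (h1 : 0.866 < h) (h2 : h < 0.8661) (hS0 : 0 ≤ S) (hS : S ≤ 0.22)
    (hK : K = 1 - C) (hK1 : S ^ 2 / 2 ≤ K) (hK2 : K ≤ 0.025) :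
    1.7733 * (S / 2 - h * K) * (C / 2 + h * S) ^ 2 ≤
      3 * (S / 2 + h * K) * (C / 2 - h * S) * (0.7385 * (C / 2 + h * S) + (C / 2 - h * S)) := by
  have hK0 : 0 ≤ K := (by positivity : 0 ≤ S ^ 2 / 2).trans hK1
  have hC1 : C ≤ 1 := by linear_combination hK + hK0
  have hC2 : 0.975 ≤ C := by linear_combination -hK + hK2
  have g1 : 0 ≤ h * K := by positivity
  have g2 : 0 ≤ (h - 0.866) * S := mul_nonneg (by linear_combination h1) hS0
  have g3 : 0 ≤ (0.8661 - h) * S := mul_nonneg (by linear_combination h2) hS0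
  have g4 : (0.866 : ℝ) * (S ^ 2 / 2) ≤ h * K := mul_le_mul h1.le hK1 (by positivity) (by linear_combination h1)
  -- lower and upper bounds of the factors
  have f1 : (C / 2 + h * S) ^ 2 ≤ (0.5 + 0.8661 * S) ^ 2 := by
    apply pow_le_pow_left₀ (by linear_combination (433 / 500) * hS0 - (1 / 2) * hK + (1 / 2) * hK2 + g2)
    linear_combination (1 / 2) * hK + (1 / 2) * hK0 + g3
  have f2 : 0.4875 - 0.8661 * S ≤ C / 2 - h * S := by linear_combination -(1 / 2) * hK + (1 / 2) * hK2 + g3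
  have f3 : 0.4875 * 1.7385 - 0.2266 * S ≤ 0.7385 * (C / 2 + h * S) + (C / 2 - h * S) := by
    linear_combination (2297 / 20000000) * hS0 - (3477 / 4000) * hK + (3477 / 4000) * hK2 +
      (523 / 2000) * g3
  have f4 : 0 ≤ S / 2 - h * K ∨ S / 2 - h * K < 0 := le_or_gt _ _
  have f5 : 0 ≤ 0.4875 - 0.8661 * S := by linear_combination (8661 / 10000) * hS
  have f6 : (0.4875 - 0.8661 * S) * (0.4875 * 1.7385 - 0.2266 * S) ≤
      (C / 2 - h * S) * (0.7385 * (C / 2 + h * S) + (C / 2 - h * S)) :=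
    mul_le_mul f2 f3 (by linear_combination (1133 / 5000) * hS) (by linear_combination (8661 / 10000) * hS - (1 / 2) * hK + (1 / 2) * hK2 + g3)
  have f7 : S / 2 - h * K ≤ S * (0.5 - 0.433 * S) := by linear_combination g4
  have f8 : S * (0.5 + 0.433 * S) ≤ S / 2 + h * K := by linear_combination g4
  have f9 : 1.7733 * (S / 2 - h * K) * (C / 2 + h * S) ^ 2 ≤
      1.7733 * (S * (0.5 - 0.433 * S)) * (0.5 + 0.8661 * S) ^ 2 := by
    apply mul_le_mul (by linear_combination (17733 / 10000) * g4) f1 (sq_nonneg _)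
    have : 0 ≤ S * (0.5 - 0.433 * S) := mul_nonneg hS0 (by linear_combination (433 / 1000) * hS)
    linear_combination (17733 / 10000) * this
  have f10 : 3 * (S * (0.5 + 0.433 * S)) * ((0.4875 - 0.8661 * S) * (0.4875 * 1.7385 - 0.2266 * S)) ≤
      3 * (S / 2 + h * K) * ((C / 2 - h * S) * (0.7385 * (C / 2 + h * S) + (C / 2 - h * S))) := by
    apply mul_le_mul (by linear_combination 3 * g4) f6
    · exact mul_nonneg f5 (by linear_combination (1133 / 5000) * hS)
    · have : 0 ≤ S / 2 + h * K := by linear_combination (1 / 2) * hS0 + g1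
      linear_combination (3 / 2) * hS0 + 3 * g1
  have f11 : 0 ≤ S * (3 * (0.5 + 0.433 * S) * ((0.4875 - 0.8661 * S) *
      (0.4875 * 1.7385 - 0.2266 * S)) - 1.7733 * (0.5 - 0.433 * S) * (0.5 + 0.8661 * S) ^ 2) := by
    apply mul_nonneg hS0
    linear_combination (4781968236430080627 / 4762168000000000000) * (mul_nonneg hS0 (sub_nonneg.2 hS)) +
      (363576276432709480647 / 238108400000000000000) * hS + (95937867129 / 119054200000) * (mul_nonneg (sub_nonneg.mpr (sq_nonneg (0.5 + 0.8661 * S))) (sub_nonneg.mpr (mul_self_nonneg (S)))) +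
      (7196579647856173809 / 11905420000000000000) * (mul_nonneg (sub_nonneg.mpr (mul_self_nonneg (S))) (sub_nonneg.mpr (mul_nonneg hS0 (sub_nonneg.2 hS))))
  linear_combination f9 + f10 + f11

end Pool.Agent.Strip051.FourB
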