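import Pool.Agent.Strip051.FourB.Defs
import Pool.Agent.Strip051.Four.MidGainLow

/-! # Gains when the new point is between `s` and `h0` -/

namespace Pool.Agent.Strip051.FourB

open Pool.Agent.StripNear Pool.Agent.StripSquare Pool.Agent.Strip051
open Pool.Agent.Strip051.Four (gn mirP mirP_ok mirP_gn mirP_val j1 j4 j1_gn j4_gn arc_sub le_gn
  gn_nonneg gain_ge ext_facts g_le_of_abs gam_neg adm_low corner h0_le_of_ext)

section

variable {s t a y r q : ℝ}

/-! ### The body of the third probe -/

theorem c_le1 (z : ℝ) : (k3 s a).a z ≤ g (z - h0) + (g (s - a) - g s + 1 - g (s - 2 * a)) := by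
  have := bd_le1 (s := s) (a := a) (z := 2 * h0 + s - z)
  rw [show 2 * h0 + s - z - (h0 + s) = -(z - h0) by ring, g_neg] at this
  exact this

theorem c_le2 (z : ℝ) : (k3 s a).a z ≤ g (z - (h0 + a)) + (1 - g (s - 2 * a)) := by
  have := bd_le2 (s := s) (a := a) (z := 2 * h0 + s - z)
  rw [show 2 * h0 + s - z - (h0 + s - a) = -(z - (h0 + a)) by ring, g_neg] at this
  exact this

theorem c_le3 (z : ℝ) : (k3 s a).a z ≤ g (z - (h0 + s - a)) := by
  have := bd_le3 (s := s) (a := a) (z := 2 * h0 + s - z)
  rw [show 2 * h0 + s - z - (h0 + a) = -(z - (h0 + s - a)) by ring, g_neg] at this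
  exact this

/-- The third body at `h0`. -/
theorem c_h0 (P : Par s t a) : (k3 s a).a h0 = g s + (g (s - 2 * a) - g (s - a)) := by
  have := P.a_gt
  simp only [k3, mirP, k2]
  rw [show 2 * h0 + s - h0 = h0 + s by ring, bd_eq4 P (by linear_combination this) le_rfl,
    add_sub_cancel_left]

/-- The third body at `h0 + a`. -/
theorem c_ha (P : Par s t a) : (k3 s a).a (h0 + a) = g (s - 2 * a) := by
  have := P.a_gt
  have := P.a_lt
  have := P.s_gt
  simp only [k3, mirP, k2]
  rw [show 2 * h0 + s - (h0 + a) = h0 + s - a by ring, bd_eq3 P (by linear_combination this + 2 * (‹a < 0.1099›)) le_rfl,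
    show h0 + s - a - (h0 + a) = s - 2 * a by ring]

/-- The third body at `h0 + s - a`. -/
theorem c_hs (P : Par s t a) : (k3 s a).a (h0 + s - a) = 1 := by
  have := P.a_gt
  have := P.a_lt
  have := P.s_gt
  simp only [k3, mirP, k2]
  rw [show 2 * h0 + s - (h0 + s - a) = h0 + a by ring, bd_eq3 P le_rfl (by linear_combination this + 2 * (‹a < 0.1099›)),
    sub_self, g_zero]

/-! ### The second probe -/

/-- The arc with centre between `s` and `h0` which touches the second body at `h0 + s`. -/
theorem touch (P : Par s t a) (h1 : s ≤ y) (h2 : y ≤ h0) {z : ℝ} (k1 : h0 + s - 1 ≤ z)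
    (k2 : z ≤ h0 + s) :
    bd s a z ≤ g (z - y) + (g s + (g (s - 2 * a) - g (s - a)) - g (h0 + s - y)) := by
  have hh := h0_lt
  have hg := h0_gt
  have := P.s_lt
  have := P.s_gt
  have e1 := bd_le4 (s := s) (a := a) (z := z)
  have e2 := arc_sub (a := y) (b := h0) (x := z) (y := h0 + s) h2 k2 (by linear_combination k1 + this) (by linear_combination h1 + hh)
  rw [add_sub_cancel_left] at e2
  linear_combination e1 + e2

theorem bd_y (P : Par s t a) (h1 : s ≤ y) (h2 : y ≤ h0) :
    bd s a y = g (h0 + s - y) + (g (s - a) - g s + 1 - g (s - 2 * a)) := by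
  have hh := h0_lt
  rw [bd_eq1 P (by linear_combination h1 + hh) h2, show y - (h0 + s) = -(h0 + s - y) by ring, g_neg]

/-- The second probe: the arc of the new point alone, contact of the old front at `y`. -/
theorem k2_C (P : Par s t a) (h1 : s ≤ y) (h2 : y ≤ h0) :
    1 + 2 * g (h0 + s - y) - 2 * g s + 2 * g (s - a) - 2 * g (s - 2 * a) ≤
      gn (k2 s a) r q y := by
  have hh := h0_lt
  have hg := h0_gt
  have := P.s_gt
  have h3 := le_gn (r := r) (q := q) (y := y) (z0 := y)
    (v := g (h0 + s - y) - (g s + (g (s - 2 * a) - g (s - a)))) (k2_ok P)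
    (by simp only [k2]; linear_combination h1 + hh) (by simp only [k2]; linear_combination h2 + this)
    (by
      intro z k1 k2
      simp only [FourB.k2] at k1 k2 ⊢
      right
      have := touch P h1 h2 k1 k2
      linear_combination this)
  have e : gam r q (y - y) = 0 := by
    unfold gam
    rw [sub_self, if_pos le_rfl, vir_zero]
  rw [e] at h3
  simp only [FourB.k2] at h3
  rw [bd_y P h1 h2] at h3
  simp only [FourB.k2]
  linear_combination h3

/-- The second probe, old contact at `z0`, the virtual disc the lower one. -/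
theorem k2_low (P : Par s t a) (h1 : s ≤ y) (h2 : y ≤ h0) (r1 : 1 / 2 ≤ r) (r2 : r ≤ 1)
    {z0 : ℝ} (h3 : h0 ≤ z0) (h4 : z0 ≤ h0 + s) (h5 : z0 ≤ y + 2 * r) :
    g (h0 + s - y) - (g s + (g (s - 2 * a) - g (s - a))) - g (y + r - z0) + g r + bd s a z0 ≤
      gn (k2 s a) r q y := by
  have hh := h0_lt
  have hg := h0_gt
  have := P.s_gt
  have h6 := le_gn (r := r) (q := q) (y := y) (z0 := z0)
    (v := g (h0 + s - y) - (g s + (g (s - 2 * a) - g (s - a)))) (k2_ok P)
    (by simp only [k2]; linear_combination h1 + h2 + h3 + hh) (by simp only [k2]; linear_combination h4)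
    (by
      intro z k1 k2
      simp only [FourB.k2] at k1 k2 ⊢
      right
      have := touch P h1 h2 k1 k2
      linear_combination this)
  have e : gam r q (z0 - y) = g (y + r - z0) - g r := by
    unfold gam
    rw [if_pos (by linear_combination h2 + h3)]
    unfold vir
    have h6 : g r ≤ g (z0 - y - r) := g_le_of_abs (by linear_combination h5) (by linear_combination h2 + h3)
    rw [max_eq_right (by linear_combination h6), ← g_neg (z0 - y - r),
      show -(z0 - y - r) = y + r - z0 by ring]
  rw [e] at h6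
  simp only [FourB.k2] at h6 ⊢
  linear_combination h6

/-- The second probe, the virtual disc the upper one: arc `C`, `α` at the exit, contact at `y`. -/
theorem k2_up (P : Par s t a) (h1 : s ≤ y) (h2 : y ≤ h0) (r1 : 1 / 2 ≤ r) (r2 : r ≤ 1)
    {C α : ℝ} (hC1 : y ≤ C) (hC2 : C ≤ y + r) (ha : ∀ z, bd s a z ≤ g (z - C) + α) :
    g (ext r) - g (y + ext r - C) - α + bd s a y ≤ gn (k2 s a) r q y := by
  have hh := h0_lt
  have hg := h0_gt
  have := P.s_gt
  obtain ⟨e1, e2, e3, e4, e5⟩ := ext_facts r1 r2
  have h6 := gain_ge (y := y) (r := r) (q := q) (C := C) (α := α) (z0 := y) (β := bd s a y)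
    (k2_ok P) r1 r2 hC1 hC2 (fun z _ _ => ha z)
    (by simp only [k2]; linear_combination h1 + hh) (by simp only [k2]; linear_combination h2 + this) le_rfl (by linear_combination 2 * r1) le_rfl
  rw [e3, add_sub_cancel_left] at h6
  linear_combination h6

/-! ### The two probes together -/

/-- Both corners above `h0 + s`. -/
theorem gain_C1 (P : Par s t a) (h1 : s ≤ y) (h2 : y ≤ h0) (r1 : 1 / 2 ≤ r) (r2 : r ≤ 1) :
    2 * g (h0 + s - y) + g (ext r - r) - g (y + ext r - h0) - g (y + r - h0) ≤
      gn (k2 s a) r q y + gn (k3 s a) r q y := by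
  have hh := h0_lt
  have hg := h0_gt
  have := P.s_gt
  have k1 := k2_C (r := r) (q := q) P h1 h2
  have k2 := gain_ge (y := y) (r := r) (q := q) (C := h0)
    (α := g (s - a) - g s + 1 - g (s - 2 * a)) (z0 := h0)
    (β := g s + (g (s - 2 * a) - g (s - a)))
    (k3_ok P) r1 r2 h2 (by linear_combination h1 + r1 + hh + this) (fun z _ _ => c_le1 z)
    (by simp only [k3, mirP, FourB.k2]; linear_combination) (by simp only [k3, mirP, FourB.k2]; linear_combination)
    h2 (by linear_combination h1 + 2 * r1 + hh + this) (c_h0 P).ge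
  linear_combination k1 + k2

/-- The near corner between `h0 + s - a` and `h0 + s`. -/
theorem gain_B5 (P : Par s t a) (h1 : s ≤ y) (h2 : y ≤ h0) (r1 : 1 / 2 ≤ r) (r2 : r ≤ 1) :
    g (ext r - r) + g (min r (ext r)) - g (y + max r (ext r) - h0) -
      g (y + min r (ext r) - h0) - g (y + min r (ext r) - h0 - a) + g (h0 + s - y) + g (s - a) ≤
      gn (k2 s a) r q y + gn (k3 s a) r q y := by
  have hh := h0_lt
  have hg := h0_gt
  have := P.s_gt
  have := P.a_gt
  have := P.a_lt
  obtain ⟨e1, e2, e3, e4, e5⟩ := ext_facts r1 r2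
  rcases le_total r (ext r) with h | h
  · rw [min_eq_left h, max_eq_right h]
    have k1 := k2_low (q := q) P h1 h2 r1 r2 (z0 := h0) le_rfl (by linear_combination (‹0.7361 < s›)) (by linear_combination h1 + 2 * r1 + hh + (‹0.7361 < s›))
    rw [bd_eq1 P (by linear_combination h1 + h2 + hh) le_rfl, show h0 - (h0 + s) = -s by ring, g_neg] at k1
    have k2 := gain_ge (y := y) (r := r) (q := q) (C := h0)
      (α := g (s - a) - g s + 1 - g (s - 2 * a)) (z0 := h0 + a) (β := g (s - 2 * a))
      (k3_ok P) r1 r2 h2 (by linear_combination h1 + r1 + hh + (‹0.7361 < s›)) (fun z _ _ => c_le1 z)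
      (by simp only [k3, mirP, FourB.k2]; linear_combination (‹708e-4 < a›)) (by simp only [k3, mirP, FourB.k2]; linear_combination this)
      (by linear_combination h2 + (‹708e-4 < a›)) (by linear_combination h1 + 2 * r1 + hh + this + (‹0.7361 < s›)) (c_ha P).ge
    rw [show y + r - (h0 + a) = y + r - h0 - a by ring] at k2
    linear_combination k1 + k2
  · rw [min_eq_right h, max_eq_left h]
    have hr := h0_le_of_ext r1 r2 h
    have k1 := k2_up (q := q) P h1 h2 r1 r2 (C := h0) (α := g (s - 2 * a) - g (s - a)) h2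
      (by linear_combination h1 + r1 + hh + (‹0.7361 < s›)) (fun z => bd_le4)
    rw [bd_y P h1 h2] at k1
    have k2 := gain_ge (y := y) (r := r) (q := q) (C := h0 + a)
      (α := 1 - g (s - 2 * a)) (z0 := h0) (β := g s + (g (s - 2 * a) - g (s - a)))
      (k3_ok P) r1 r2 (by linear_combination h2 + (‹708e-4 < a›)) (by linear_combination h1 + r1 + hh + this + (‹0.7361 < s›)) (fun z _ _ => c_le2 z)
      (by simp only [k3, mirP, FourB.k2]; linear_combination) (by simp only [k3, mirP, FourB.k2]; linear_combination)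
      (by linear_combination h2) (by linear_combination h1 + 2 * r1 + hh + (‹0.7361 < s›)) (c_h0 P).ge
    rw [show y + ext r - (h0 + a) = y + ext r - h0 - a by ring] at k2
    linear_combination k1 + k2

/-- The near corner between `h0 + a` and `h0 + s - a`. -/
theorem gain_B4 (P : Par s t a) (h1 : s ≤ y) (h2 : y ≤ h0) (r1 : 1 / 2 ≤ r) (r2 : r ≤ 1) :
    g (ext r - r) + g (min r (ext r)) - g (y + max r (ext r) - h0) + g (h0 + s - y) + 1 -
      g (y + min r (ext r) - h0 - a) - g (h0 + s - a - (y + min r (ext r))) ≤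
      gn (k2 s a) r q y + gn (k3 s a) r q y := by
  have hh := h0_lt
  have hg := h0_gt
  have := P.s_gt
  have := P.s_lt
  have := P.a_gt
  have := P.a_lt
  obtain ⟨e1, e2, e3, e4, e5⟩ := ext_facts r1 r2
  rcases le_total r (ext r) with h | h
  · rw [min_eq_left h, max_eq_right h]
    have k1 := k2_low (q := q) P h1 h2 r1 r2 (z0 := h0 + a) (by linear_combination (‹708e-4 < a›)) (by linear_combination this + (‹0.7361 < s›))
      (by linear_combination h1 + 2 * r1 + hh + this + (‹0.7361 < s›))
    rw [bd_eq3 P le_rfl (by linear_combination 2 * this + (‹0.7361 < s›)), sub_self, g_zero,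
      show y + r - (h0 + a) = y + r - h0 - a by ring] at k1
    have k2 := gain_ge (y := y) (r := r) (q := q) (C := h0)
      (α := g (s - a) - g s + 1 - g (s - 2 * a)) (z0 := h0 + s - a) (β := 1)
      (k3_ok P) r1 r2 h2 (by linear_combination h1 + r1 + hh + (‹0.7361 < s›)) (fun z _ _ => c_le1 z)
      (by simp only [k3, mirP, FourB.k2]; linear_combination this + (‹0.7361 < s›)) (by simp only [k3, mirP, FourB.k2]; linear_combination h1 + h2 + hh + (‹708e-4 < a›))
      (by linear_combination h2 + this + (‹0.7361 < s›)) (by linear_combination h1 + 2 * r1 + hh + (‹708e-4 < a›)) (c_hs P).ge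
    rw [show y + r - (h0 + s - a) = -(h0 + s - a - (y + r)) by ring, g_neg] at k2
    linear_combination k1 + k2
  · rw [min_eq_right h, max_eq_left h]
    have hr := h0_le_of_ext r1 r2 h
    have k1 := k2_up (q := q) P h1 h2 r1 r2 (C := h0 + a) (α := 0) (by linear_combination h2 + (‹708e-4 < a›))
      (by linear_combination h1 + r1 + hh + this + (‹0.7361 < s›)) (fun z => by
        have := bd_le3 (s := s) (a := a) (z := z)
        linear_combination this)
    rw [bd_y P h1 h2, show y + ext r - (h0 + a) = y + ext r - h0 - a by ring] at k1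
    have k2 := gain_ge (y := y) (r := r) (q := q) (C := h0 + s - a)
      (α := 0) (z0 := h0) (β := g s + (g (s - 2 * a) - g (s - a)))
      (k3_ok P) r1 r2 (by linear_combination h2 + this + (‹0.7361 < s›)) (by linear_combination h1 + hr + (‹708e-4 < a›)) (fun z _ _ => by
        have := c_le3 (s := s) (a := a) z
        linear_combination this)
      (by simp only [k3, mirP, FourB.k2]; linear_combination) (by simp only [k3, mirP, FourB.k2]; linear_combination)
      (by linear_combination h2) (by linear_combination h1 + 2 * r1 + hh + (‹0.7361 < s›)) (c_h0 P).ge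
    rw [show y + ext r - (h0 + s - a) = -(h0 + s - a - (y + ext r)) by ring, g_neg] at k2
    linear_combination k1 + k2

end

end Pool.Agent.Strip051.FourB
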